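import Pool.Agent.H960R2.VB.Defs

/-!
# Task C1: the kernel of a constant corank two matrix is spanned by polynomial vectors (minors)
-/

open MvPolynomial

namespace H960VB

theorem HomZ.zero {σ : Type*} (d : ℤ) : HomZ (0 : MvPolynomial σ ℂ) d := Or.inl rfl

theorem HomZ.one' {σ : Type*} : HomZ (1 : MvPolynomial σ ℂ) 0 :=
  Or.inr ⟨0, rfl, MvPolynomial.isHomogeneous_one _ _⟩

theorem HomZ.mul' {σ : Type*} {p q : MvPolynomial σ ℂ} {d e : ℤ} (hp : HomZ p d) (hq : HomZ q e) :
    HomZ (p * q) (d + e) := by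
  rcases hp with rfl | ⟨k, rfl, hk⟩
  · rw [zero_mul]; exact HomZ.zero _
  rcases hq with rfl | ⟨l, rfl, hl⟩
  · rw [mul_zero]; exact HomZ.zero _
  exact Or.inr ⟨k + l, by push_cast; rfl, hk.mul hl⟩

theorem HomZ.add' {σ : Type*} {p q : MvPolynomial σ ℂ} {d : ℤ} (hp : HomZ p d) (hq : HomZ q d) :
    HomZ (p + q) d := by
  rcases hp with rfl | ⟨k, hk1, hk⟩
  · rw [zero_add]; exact hq
  rcases hq with rfl | ⟨l, hl1, hl⟩
  · rw [add_zero]; exact Or.inr ⟨k, hk1, hk⟩
  have : l = k := by exact_mod_cast hl1.trans hk1.symm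
  subst this
  exact Or.inr ⟨l, hk1, hk.add hl⟩

theorem HomZ.sum' {σ ι : Type*} (s : Finset ι) {f : ι → MvPolynomial σ ℂ} {d : ℤ}
    (h : ∀ i ∈ s, HomZ (f i) d) : HomZ (∑ i ∈ s, f i) d := by
  classical
  induction s using Finset.induction_on with
  | empty => rw [Finset.sum_empty]; exact HomZ.zero _
  | insert a s ha ih =>
    rw [Finset.sum_insert ha]
    exact (h a (Finset.mem_insert_self a s)).add'
      (ih fun i hi => h i (Finset.mem_insert_of_mem hi))

theorem HomZ.prod' {σ ι : Type*} (s : Finset ι) {f : ι → MvPolynomial σ ℂ} {d : ι → ℤ}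
    (h : ∀ i ∈ s, HomZ (f i) (d i)) : HomZ (∏ i ∈ s, f i) (∑ i ∈ s, d i) := by
  classical
  induction s using Finset.induction_on with
  | empty => rw [Finset.prod_empty, Finset.sum_empty]; exact HomZ.one'
  | insert a s ha ih =>
    rw [Finset.prod_insert ha, Finset.sum_insert ha]
    exact (h a (Finset.mem_insert_self a s)).mul'
      (ih fun i hi => h i (Finset.mem_insert_of_mem hi))

theorem HomZ.neg' {σ : Type*} {p : MvPolynomial σ ℂ} {d : ℤ} (hp : HomZ p d) : HomZ (-p) d := by
  rcases hp with rfl | ⟨k, hk1, hk⟩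
  · rw [neg_zero]; exact HomZ.zero _
  · exact Or.inr ⟨k, hk1, hk.neg⟩

theorem HomZ.signed {σ : Type*} {p : MvPolynomial σ ℂ} {d : ℤ} (hp : HomZ p d) (k : ℕ) :
    HomZ ((-1) ^ k * p) d := by
  rcases Nat.even_or_odd k with h | h
  · rw [h.neg_one_pow, one_mul]; exact hp
  · rw [h.neg_one_pow, neg_one_mul]; exact hp.neg'

/-- homogeneity of determinants -/
theorem HomZ.det {σ : Type*} {n : ℕ} (M : Matrix (Fin n) (Fin n) (MvPolynomial σ ℂ))
    (r c : Fin n → ℤ) (h : ∀ i j, HomZ (M i j) (r i - c j)) :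
    HomZ M.det (∑ i, r i - ∑ j, c j) := by
  rw [Matrix.det_apply]
  refine HomZ.sum' _ fun τ _ => ?_
  have h1 : HomZ (∏ i, M (τ i) i) (∑ i, (r (τ i) - c i)) :=
    HomZ.prod' _ fun i _ => h (τ i) i
  rw [Finset.sum_sub_distrib, Equiv.sum_comp τ r] at h1
  rcases Int.units_eq_one_or (Equiv.Perm.sign τ) with h2 | h2
  · rw [h2, one_smul]; exact h1
  · rw [h2, Units.neg_smul, one_smul]; exact h1.neg'

/-- a matrix with corank two has a nonvanishing minor of size `a - 2` -/
theorem C1_exists_minor {a c : ℕ} (A : Matrix (Fin c) (Fin a) ℂ)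
    (h2 : Module.finrank ℂ (LinearMap.ker (Matrix.mulVecLin A)) = 2) :
    ∃ (R : Fin (a - 2) → Fin c) (C : Fin (a - 2) → Fin a), (A.submatrix R C).det ≠ 0 := by
  have hrank : A.rank = a - 2 := by
    have h := LinearMap.finrank_range_add_finrank_ker (Matrix.mulVecLin A)
    rw [h2, Module.finrank_fintype_fun_eq_card, Fintype.card_fin] at h
    rw [Matrix.rank]
    omega
  obtain ⟨κ, e, he, hsp, hli⟩ := exists_linearIndependent' ℂ A.col
  have : Finite κ := Finite.of_injective e he
  have : Fintype κ := Fintype.ofFinite κ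
  have hcard : Fintype.card κ = a - 2 := by
    rw [← hrank, Matrix.rank_eq_finrank_span_cols, ← hsp]
    exact (finrank_span_eq_card hli).symm
  let f : Fin (a - 2) ≃ κ := (Fintype.equivFinOfCardEq hcard).symm
  let C : Fin (a - 2) → Fin a := e ∘ f
  let A1 : Matrix (Fin c) (Fin (a - 2)) ℂ := A.submatrix id C
  have hli1 : LinearIndependent ℂ A1.col := by
    have h := hli.comp f f.injective
    exact h
  have hr1 : A1.rank = a - 2 := by
    rw [Matrix.rank_eq_finrank_span_cols, finrank_span_eq_card hli1, Fintype.card_fin]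
  obtain ⟨κ', e', he', hsp', hli'⟩ := exists_linearIndependent' ℂ A1.row
  have : Finite κ' := Finite.of_injective e' he'
  have : Fintype κ' := Fintype.ofFinite κ'
  have hcard' : Fintype.card κ' = a - 2 := by
    rw [← hr1, Matrix.rank_eq_finrank_span_row, ← hsp']
    exact (finrank_span_eq_card hli').symm
  let f' : Fin (a - 2) ≃ κ' := (Fintype.equivFinOfCardEq hcard').symm
  refine ⟨e' ∘ f', C, ?_⟩
  have h := hli'.comp f' f'.injective
  have h3 : LinearIndependent ℂ (A.submatrix (e' ∘ f') C).row := h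
  rw [Matrix.linearIndependent_rows_iff_isUnit] at h3
  exact ((Matrix.isUnit_iff_isUnit_det _).1 h3).ne_zero

/-- minors of size larger than the rank vanish -/
theorem minor_eq_zero {a c : ℕ} (A : Matrix (Fin c) (Fin a) ℂ)
    (h2 : Module.finrank ℂ (LinearMap.ker (Matrix.mulVecLin A)) = 2)
    (R : Fin (a - 2 + 1) → Fin c) (C : Fin (a - 2 + 1) → Fin a) :
    (A.submatrix R C).det = 0 := by
  have h := LinearMap.finrank_range_add_finrank_ker (Matrix.mulVecLin A)
  rw [h2, Module.finrank_fintype_fun_eq_card, Fintype.card_fin] at h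
  by_contra hne
  have hli : LinearIndependent ℂ (A.submatrix R C).col := by
    rw [Matrix.linearIndependent_cols_iff_isUnit, Matrix.isUnit_iff_isUnit_det]
    exact isUnit_iff_ne_zero.2 hne
  have hli2 : LinearIndependent ℂ (fun l => A.col (C l)) := by
    have hp : (A.submatrix R C).col = (LinearMap.funLeft ℂ ℂ R) ∘ (fun l => A.col (C l)) := rfl
    rw [hp] at hli
    exact LinearIndependent.of_comp _ hli
  have h3 := finrank_span_eq_card hli2
  rw [Fintype.card_fin] at h3
  have h4 : Submodule.span ℂ (Set.range fun l => A.col (C l)) ≤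
      LinearMap.range (Matrix.mulVecLin A) := by
    rw [Submodule.span_le]
    rintro _ ⟨l, rfl⟩
    rw [Matrix.range_mulVecLin]
    exact Submodule.subset_span ⟨C l, rfl⟩
  have h5 := Submodule.finrank_mono h4
  omega

section family
variable {N a c : ℕ} (B : Matrix (Fin c) (Fin a) (MvPolynomial (Fin N) ℂ))

/-- the kernel vector given by `ρ` rows and `ρ + 1` columns -/
noncomputable def KK {ρ : ℕ} (R : Fin ρ → Fin c) (C : Fin (ρ + 1) → Fin a) :
    Fin a → MvPolynomial (Fin N) ℂ := fun i =>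
  ∑ l : Fin (ρ + 1), if C l = i then (-1) ^ (l : ℕ) * (B.submatrix R (C ∘ l.succAbove)).det else 0

theorem mul_KK {ρ : ℕ} (R : Fin ρ → Fin c) (C : Fin (ρ + 1) → Fin a) (k : Fin c) :
    ∑ i, B k i * KK B R C i = (B.submatrix (Fin.cons k R : Fin (ρ + 1) → Fin c) C).det := by
  rw [Matrix.det_succ_row_zero]
  unfold KK
  simp_rw [Finset.mul_sum]
  rw [Finset.sum_comm]
  refine Finset.sum_congr rfl fun l _ => ?_
  rw [Finset.sum_eq_single (C l)]
  · rw [if_pos rfl]
    simp only [Matrix.submatrix_apply, Fin.cons_zero, Matrix.submatrix_submatrix]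
    have : (Fin.cons k R : Fin (ρ + 1) → Fin c) ∘ Fin.succ = R := by
      funext j; simp
    rw [this]
    ring
  · intro i _ hi
    rw [if_neg (Ne.symm hi), mul_zero]
  · intro h
    exact absurd (Finset.mem_univ _) h

theorem KK_hom {ρ : ℕ} (β : Fin a → ℤ) (γ : Fin c → ℤ)
    (hom : ∀ k i, HomZ (B k i) (γ k - β i)) (R : Fin ρ → Fin c) (C : Fin (ρ + 1) → Fin a)
    (i : Fin a) : HomZ (KK B R C i) (β i - (∑ l, β (C l) - ∑ k, γ (R k))) := by
  unfold KK
  refine HomZ.sum' _ fun l _ => ?_
  split_ifs with h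
  · refine HomZ.signed ?_ _
    have h1 := HomZ.det (B.submatrix R (C ∘ l.succAbove)) (fun k => γ (R k))
      (fun j => β (C (l.succAbove j))) (fun k j => hom _ _)
    have h2 : ∑ l', β (C l') = β (C l) + ∑ j, β (C (l.succAbove j)) :=
      Fin.sum_univ_succAbove (fun l' => β (C l')) l
    rw [h2, h]
    convert h1 using 1
    ring
  · exact HomZ.zero _

theorem eval_minor {ρ : ℕ} (R : Fin ρ → Fin c) (C : Fin ρ → Fin a) (x : Fin N → ℂ) :
    eval x (B.submatrix R C).det = ((evm B x).submatrix R C).det := by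
  rw [RingHom.map_det]
  rfl

theorem evm_mul_KK {ρ : ℕ} (R : Fin ρ → Fin c) (C : Fin (ρ + 1) → Fin a) (x : Fin N → ℂ) :
    (evm B x).mulVec (evv (KK B R C) x) = fun k =>
      ((evm B x).submatrix (Fin.cons k R : Fin (ρ + 1) → Fin c) C).det := by
  funext k
  rw [← eval_minor, ← mul_KK, map_sum]
  simp only [Matrix.mulVec, dotProduct, evm, evv, Matrix.map_apply, map_mul]

theorem evv_KK {ρ : ℕ} (R : Fin ρ → Fin c) (C : Fin (ρ + 1) → Fin a) (x : Fin N → ℂ)
    (i : Fin a) : evv (KK B R C) x i = ∑ l : Fin (ρ + 1), if C l = i then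
      (-1) ^ (l : ℕ) * ((evm B x).submatrix R (C ∘ l.succAbove)).det else 0 := by
  unfold evv KK
  rw [map_sum]
  refine Finset.sum_congr rfl fun l _ => ?_
  split_ifs
  · rw [map_mul, eval_minor, map_pow, map_neg, map_one]
  · exact map_zero _

end family

theorem kernel_family {N : ℕ} {a c : ℕ} (β : Fin a → ℤ) (γ : Fin c → ℤ)
    (B : Matrix (Fin c) (Fin a) (MvPolynomial (Fin N) ℂ))
    (hom : ∀ k i, HomZ (B k i) (γ k - β i))
    (h2 : ∀ x : Fin N → ℂ, x ≠ 0 →
      Module.finrank ℂ (LinearMap.ker (Matrix.mulVecLin (evm B x))) = 2) :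
    ∃ (m : ℕ) (α : Fin m → ℤ) (K : Fin m → Fin a → MvPolynomial (Fin N) ℂ),
      (∀ s i, HomZ (K s i) (β i - α s)) ∧
      (∀ x : Fin N → ℂ, x ≠ 0 → ∀ s, (evm B x).mulVec (evv (K s) x) = 0) ∧
      (∀ x : Fin N → ℂ, x ≠ 0 →
        Submodule.span ℂ (Set.range fun s => evv (K s) x) =
          LinearMap.ker (Matrix.mulVecLin (evm B x))) := by
  classical
  let T := (Fin (a - 2) → Fin c) × (Fin (a - 2 + 1) → Fin a)
  let e : T ≃ Fin (Fintype.card T) := Fintype.equivFin T
  have hker : ∀ x : Fin N → ℂ, x ≠ 0 → ∀ (R : Fin (a - 2) → Fin c)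
      (C : Fin (a - 2 + 1) → Fin a), (evm B x).mulVec (evv (KK B R C) x) = 0 := by
    intro x hx R C
    rw [evm_mul_KK]
    funext k
    exact minor_eq_zero _ (h2 x hx) _ _
  refine ⟨Fintype.card T, fun s => ∑ l, β ((e.symm s).2 l) - ∑ k, γ ((e.symm s).1 k),
    fun s => KK B (e.symm s).1 (e.symm s).2, fun s i => KK_hom B β γ hom _ _ i,
    fun x hx s => hker x hx _ _, fun x hx => ?_⟩
  apply le_antisymm
  · rw [Submodule.span_le]
    rintro _ ⟨s, rfl⟩
    exact hker x hx _ _
  · intro g hg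
    have hg' : (evm B x).mulVec g = 0 := hg
    obtain ⟨R, C0, hD⟩ := C1_exists_minor (evm B x) (h2 x hx)
    set D := ((evm B x).submatrix R C0).det with hDdef
    have hinj : Function.Injective C0 := by
      intro i j hij
      by_contra hne
      apply hD
      exact Matrix.det_zero_of_column_eq hne fun k => by
        simp only [Matrix.submatrix_apply, hij]
    -- values of the basic kernel vectors
    have hval : ∀ c₀ : Fin a, c₀ ∉ Set.range C0 → ∀ i : Fin a, i ∉ Set.range C0 →
        evv (KK B R (Fin.cons c₀ C0 : Fin (a - 2 + 1) → Fin a)) x i =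
          if c₀ = i then D else 0 := by
      intro c₀ _ i hi
      rw [evv_KK, Fin.sum_univ_succ]
      have e1 : ∀ l : Fin (a - 2), (if (Fin.cons c₀ C0 : Fin (a - 2 + 1) → Fin a) l.succ = i then
          (-1 : ℂ) ^ (l.succ : ℕ) * ((evm B x).submatrix R
            ((Fin.cons c₀ C0 : Fin (a - 2 + 1) → Fin a) ∘ l.succ.succAbove)).det else 0) = 0 := by
        intro l
        rw [if_neg]
        rw [Fin.cons_succ]
        intro h
        exact hi ⟨l, h⟩
      simp_rw [e1]
      rw [Finset.sum_const_zero, add_zero, Fin.cons_zero]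
      have e2 : (Fin.cons c₀ C0 : Fin (a - 2 + 1) → Fin a) ∘ (0 : Fin (a - 2 + 1)).succAbove =
          C0 := by
        funext j
        simp [Fin.succAbove_zero]
      rw [e2]
      simp [hDdef]
    set K0 : Fin a → (Fin a → ℂ) := fun c₀ =>
      evv (KK B R (Fin.cons c₀ C0 : Fin (a - 2 + 1) → Fin a)) x with hK0
    set S : Finset (Fin a) := Finset.univ.filter (fun c₀ => c₀ ∉ Set.range C0) with hS
    have hmem : ∀ c₀, K0 c₀ ∈ Submodule.span ℂ (Set.range fun s =>
        evv (KK B (e.symm s).1 (e.symm s).2) x) := by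
      intro c₀
      refine Submodule.subset_span ⟨e (R, Fin.cons c₀ C0), ?_⟩
      simp [hK0]
    have hmem2 : ∑ c₀ ∈ S, g c₀ • K0 c₀ ∈ Submodule.span ℂ (Set.range fun s =>
        evv (KK B (e.symm s).1 (e.symm s).2) x) :=
      Submodule.sum_mem _ fun c₀ _ => Submodule.smul_mem _ _ (hmem c₀)
    have hkeyeq : D • g = ∑ c₀ ∈ S, g c₀ • K0 c₀ := by
      set g' : Fin a → ℂ := D • g - ∑ c₀ ∈ S, g c₀ • K0 c₀ with hg'def
      have hout : ∀ i, i ∉ Set.range C0 → g' i = 0 := by
        intro i hi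
        rw [hg'def, Pi.sub_apply, Finset.sum_apply, Finset.sum_eq_single i]
        · rw [Pi.smul_apply, Pi.smul_apply, hK0]
          simp only [hval i hi i hi, if_true, smul_eq_mul]
          ring
        · intro j hj hji
          rw [Pi.smul_apply, hK0]
          simp only
          rw [hval j (Finset.mem_filter.1 hj).2 i hi, if_neg hji, smul_zero]
        · intro h
          have hiS : i ∈ S := by
            rw [hS, Finset.mem_filter]
            exact ⟨Finset.mem_univ _, hi⟩
          exact absurd hiS h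
      have hkg : (evm B x).mulVec g' = 0 := by
        rw [hg'def, Matrix.mulVec_sub, Matrix.mulVec_smul, hg', smul_zero, Matrix.mulVec_sum,
          zero_sub, neg_eq_zero]
        refine Finset.sum_eq_zero fun c₀ _ => ?_
        rw [Matrix.mulVec_smul, hK0]
        simp only
        rw [hker x hx, smul_zero]
      have hsub : ((evm B x).submatrix R C0).mulVec (g' ∘ C0) = 0 := by
        funext k
        have h1 := congrFun hkg (R k)
        simp only [Matrix.mulVec, dotProduct, Matrix.submatrix_apply, Pi.zero_apply,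
          Function.comp_apply] at h1 ⊢
        rw [← h1, ← Finset.sum_image (f := fun i => evm B x (R k) i * g' i)
          (s := Finset.univ) (g := C0) (fun i _ j _ h => hinj h)]
        apply Finset.sum_subset (Finset.subset_univ _)
        intro i _ hi
        rw [hout i, mul_zero]
        rintro ⟨l, rfl⟩
        exact hi (Finset.mem_image_of_mem _ (Finset.mem_univ _))
      have hz : g' ∘ C0 = 0 := Matrix.eq_zero_of_mulVec_eq_zero hD hsub
      have hall : g' = 0 := by
        funext i
        by_cases hi : i ∈ Set.range C0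
        · obtain ⟨l, rfl⟩ := hi
          exact congrFun hz l
        · exact hout i hi
      exact sub_eq_zero.1 hall
    have : g = D⁻¹ • ∑ c₀ ∈ S, g c₀ • K0 c₀ := by
      rw [← hkeyeq, smul_smul, inv_mul_cancel₀ hD, one_smul]
    rw [this]
    exact Submodule.smul_mem _ _ hmem2

end H960VB
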