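import Pool.Agent.H960R2.VB.Defs
import Pool.Agent.H960R2.VB.TaskC1

/-! Task C2: the Plücker vector of the kernel. -/

open MvPolynomial

namespace H960VB

namespace TaskC2

/-! homogeneity of factors -/

section Hom

variable {N : ℕ}

noncomputable def Phi : MvPolynomial (Fin N) ℂ →ₐ[ℂ] Polynomial (MvPolynomial (Fin N) ℂ) :=
  MvPolynomial.aeval (fun i => Polynomial.C (X i) * Polynomial.X)

theorem Phi_monomial (d : Fin N →₀ ℕ) (c : ℂ) :
    Phi (monomial d c) = Polynomial.C (monomial d c) * Polynomial.X ^ d.degree := by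
  rw [Phi, aeval_monomial, Finsupp.prod_fintype _ _ (by intro i; simp), Finsupp.degree_eq_sum]
  simp only [mul_pow]
  rw [Finset.prod_mul_distrib, Finset.prod_pow_eq_pow_sum, ← mul_assoc]
  congr 1
  rw [monomial_eq, Finsupp.prod_fintype _ _ (by intro i; simp), map_mul, map_prod]
  simp only [map_pow]
  rfl

theorem Phi_coeff (f : MvPolynomial (Fin N) ℂ) (k : ℕ) :
    (Phi f).coeff k = homogeneousComponent k f := by
  induction f using MvPolynomial.induction_on' with
  | monomial u a =>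
    rw [Phi_monomial, Polynomial.coeff_C_mul_X_pow]
    split_ifs with h
    · rw [homogeneousComponent_of_mem (n := k) (m := k) (isHomogeneous_monomial a h.symm)]
      simp
    · rw [homogeneousComponent_of_mem (n := u.degree) (m := k) (isHomogeneous_monomial a rfl)]
      simp [h]
  | add p q hp hq => rw [map_add, Polynomial.coeff_add, hp, hq, map_add]

theorem hom_of_mul {f g : MvPolynomial (Fin N) ℂ} {n : ℕ} (hfg : (f * g).IsHomogeneous n)
    (hne : f * g ≠ 0) :
    ∃ a b, a + b = n ∧ f.IsHomogeneous a ∧ g.IsHomogeneous b := by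
  have key : ∀ f : MvPolynomial (Fin N) ℂ, (Phi f).natDegree = (Phi f).natTrailingDegree →
      f.IsHomogeneous (Phi f).natDegree := by
    intro f hf
    have h1 : homogeneousComponent (Phi f).natDegree f = f := by
      conv_rhs => rw [← sum_homogeneousComponent (φ := f)]
      symm
      by_cases h0 : f = 0
      · subst h0; simp
      rw [Finset.sum_eq_single (Phi f).natDegree]
      · intro k _ hk
        rw [← Phi_coeff]
        rcases lt_or_gt_of_ne hk with h | h
        · exact Polynomial.coeff_eq_zero_of_lt_natTrailingDegree (by omega)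
        · exact Polynomial.coeff_eq_zero_of_natDegree_lt h
      · intro hk
        apply homogeneousComponent_eq_zero
        simpa using hk
    have h2 := homogeneousComponent_isHomogeneous (Phi f).natDegree f
    rwa [h1] at h2
  have hPhi : Phi f * Phi g = Polynomial.C (f * g) * Polynomial.X ^ n := by
    rw [← map_mul]
    refine Polynomial.ext (fun k => ?_)
    rw [Phi_coeff, Polynomial.coeff_C_mul_X_pow]
    exact homogeneousComponent_of_mem hfg
  have hne' : Phi f * Phi g ≠ 0 := by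
    rw [hPhi]
    exact mul_ne_zero (by simpa using hne) (pow_ne_zero _ Polynomial.X_ne_zero)
  have hf0 : Phi f ≠ 0 := left_ne_zero_of_mul hne'
  have hg0 : Phi g ≠ 0 := right_ne_zero_of_mul hne'
  have e1 : (Phi f).natDegree + (Phi g).natDegree = n := by
    rw [← Polynomial.natDegree_mul hf0 hg0, hPhi, Polynomial.natDegree_C_mul_X_pow n _ hne]
  have e2 : (Phi f).natTrailingDegree + (Phi g).natTrailingDegree = n := by
    rw [← Polynomial.natTrailingDegree_mul hf0 hg0, hPhi,
      Polynomial.natTrailingDegree_mul_X_pow (by simpa using hne), Polynomial.natTrailingDegree_C,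
      zero_add]
  have l1 := Polynomial.natTrailingDegree_le_natDegree (Phi f)
  have l2 := Polynomial.natTrailingDegree_le_natDegree (Phi g)
  exact ⟨_, _, e1, key f (by omega), key g (by omega)⟩

end Hom

/-! polynomials that agree off the origin -/

theorem ext_off_zero {N : ℕ} (hN : 1 ≤ N) {f g : MvPolynomial (Fin N) ℂ}
    (h : ∀ x : Fin N → ℂ, x ≠ 0 → eval x f = eval x g) : f = g := by
  have h1 : X (⟨0, hN⟩ : Fin N) * (f - g) = 0 := by
    refine MvPolynomial.funext fun x => ?_
    rw [map_mul, map_sub, eval_X, map_zero]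
    by_cases hx : x = 0
    · rw [hx]; simp
    · rw [h x hx]; ring
  rcases mul_eq_zero.1 h1 with h2 | h2
  · exact absurd h2 (X_ne_zero _)
  · exact sub_eq_zero.1 h2

/-! linear algebra -/

theorem wedge_rel {a : ℕ} (V : Submodule ℂ (Fin a → ℂ)) (hV : Module.finrank ℂ V = 2)
    {u w u' w' : Fin a → ℂ} (hu : u ∈ V) (hw : w ∈ V) (hu' : u' ∈ V) (hw' : w' ∈ V)
    (i j k l : Fin a) :
    (u i * w j - u j * w i) * (u' k * w' l - u' l * w' k) =
      (u k * w l - u l * w k) * (u' i * w' j - u' j * w' i) := by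
  have b := Module.finBasisOfFinrankEq ℂ V hV
  have key : ∀ v ∈ V, ∃ p q : ℂ, ∀ t, v t = p * (b 0 : Fin a → ℂ) t + q * (b 1 : Fin a → ℂ) t := by
    intro v hv
    have h1 := b.sum_repr ⟨v, hv⟩
    rw [Fin.sum_univ_two] at h1
    refine ⟨b.repr ⟨v, hv⟩ 0, b.repr ⟨v, hv⟩ 1, fun t => ?_⟩
    have h2 := congrArg (fun y : V => (y : Fin a → ℂ) t) h1
    simp only [Submodule.coe_add, Submodule.coe_smul, Pi.add_apply, Pi.smul_apply,
      smul_eq_mul] at h2
    exact h2.symm
  obtain ⟨p1, q1, e1⟩ := key u hu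
  obtain ⟨p2, q2, e2⟩ := key w hw
  obtain ⟨p3, q3, e3⟩ := key u' hu'
  obtain ⟨p4, q4, e4⟩ := key w' hw'
  simp only [e1, e2, e3, e4]
  ring

theorem parallel {a : ℕ} {v w : Fin a → ℂ} (hv : v ≠ 0)
    (h : ∀ i j, v i * w j - v j * w i = 0) : ∃ c : ℂ, w = c • v := by
  obtain ⟨i, hi⟩ := Function.ne_iff.1 hv
  rw [Pi.zero_apply] at hi
  refine ⟨w i / v i, ?_⟩
  ext j
  rw [Pi.smul_apply, smul_eq_mul, div_mul_eq_mul_div, eq_div_iff hi]
  have := h i j
  linear_combination this

theorem exists_wedge_ne {a m : ℕ} (v : Fin m → Fin a → ℂ) (V : Submodule ℂ (Fin a → ℂ))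
    (hV : Module.finrank ℂ V = 2) (hs : Submodule.span ℂ (Set.range v) = V) :
    ∃ s t i j, v s i * v t j - v s j * v t i ≠ 0 := by
  by_contra hcon
  push Not at hcon
  have hle : ∃ w : Fin a → ℂ, V ≤ Submodule.span ℂ {w} := by
    by_cases h0 : ∀ s, v s = 0
    · refine ⟨0, ?_⟩
      rw [← hs, Submodule.span_le]
      rintro _ ⟨s, rfl⟩
      rw [h0 s]
      exact Submodule.zero_mem _
    · push Not at h0
      obtain ⟨s, hs0⟩ := h0
      refine ⟨v s, ?_⟩
      rw [← hs, Submodule.span_le]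
      rintro _ ⟨t, rfl⟩
      obtain ⟨c, hc⟩ := parallel hs0 (fun i j => hcon s t i j)
      rw [hc]
      exact Submodule.smul_mem _ _ (Submodule.mem_span_singleton_self _)
  obtain ⟨w, hw⟩ := hle
  have h1 := Submodule.finrank_mono hw
  have h2 : Module.finrank ℂ (Submodule.span ℂ {w}) ≤ 1 := by
    have := finrank_span_le_card (R := ℂ) ({w} : Set (Fin a → ℂ))
    simpa using this
  omega

end TaskC2

open TaskC2 in
/-- The Plücker vector of the kernel. -/
theorem plucker {N : ℕ} (hN : 2 ≤ N) {a c : ℕ} (β : Fin a → ℤ) (γ : Fin c → ℤ)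
    (B : Matrix (Fin c) (Fin a) (MvPolynomial (Fin N) ℂ))
    (hom : ∀ k i, HomZ (B k i) (γ k - β i))
    (h2 : ∀ x : Fin N → ℂ, x ≠ 0 →
      Module.finrank ℂ (LinearMap.ker (Matrix.mulVecLin (evm B x))) = 2) :
    ∃ (c₁ : ℤ) (P : Fin a → Fin a → MvPolynomial (Fin N) ℂ),
      (∀ i j, HomZ (P i j) (β i + β j - c₁)) ∧
      (∀ x : Fin N → ℂ, x ≠ 0 → ∃ i j, eval x (P i j) ≠ 0) ∧
      (∀ x : Fin N → ℂ, x ≠ 0 → ∀ u w : Fin a → ℂ,
        (evm B x).mulVec u = 0 → (evm B x).mulVec w = 0 →
        ∃ κ : ℂ, ∀ i j, u i * w j - u j * w i = κ * eval x (P i j)) := by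
  classical
  obtain ⟨m, α, K, hKh, hK0, hKs⟩ := kernel_family β γ B hom h2
  set M : Fin m → Fin m → Fin a → Fin a → MvPolynomial (Fin N) ℂ :=
    fun s t i j => K s i * K t j - K s j * K t i with hM
  have hMe : ∀ x s t i j, eval x (M s t i j) =
      evv (K s) x i * evv (K t) x j - evv (K s) x j * evv (K t) x i := by
    intro x s t i j
    simp only [hM, evv, map_sub, map_mul]
  have hmem : ∀ x : Fin N → ℂ, x ≠ 0 → ∀ s, evv (K s) x ∈
      LinearMap.ker (Matrix.mulVecLin (evm B x)) := by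
    intro x hx s
    rw [LinearMap.mem_ker, Matrix.mulVecLin_apply]
    exact hK0 x hx s
  have hF2 : ∀ x : Fin N → ℂ, x ≠ 0 → ∃ s t i j, eval x (M s t i j) ≠ 0 := by
    intro x hx
    obtain ⟨s, t, i, j, h⟩ := exists_wedge_ne (fun s => evv (K s) x) _ (h2 x hx) (hKs x hx)
    exact ⟨s, t, i, j, by rw [hMe]; exact h⟩
  have hF4 : ∀ s t s' t' i j k l, M s t i j * M s' t' k l = M s t k l * M s' t' i j := by
    intro s t s' t' i j k l
    refine ext_off_zero (by omega) fun x hx => ?_
    rw [map_mul, map_mul, hMe, hMe, hMe, hMe]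
    exact wedge_rel _ (h2 x hx) (hmem x hx s) (hmem x hx t) (hmem x hx s') (hmem x hx t') i j k l
  -- a nonzero point
  have hx1 : ∃ x : Fin N → ℂ, x ≠ 0 := by
    refine ⟨fun _ => 1, fun h => ?_⟩
    have := congrFun h ⟨0, by omega⟩
    simp at this
  obtain ⟨x1, hx1⟩ := hx1
  obtain ⟨s0, t0, i0, j0, h00⟩ := hF2 x1 hx1
  have hne0 : M s0 t0 i0 j0 ≠ 0 := by
    intro h
    rw [h, map_zero] at h00
    exact h00 rfl
  -- the gcd
  let _ : StrongNormalizationMonoid (MvPolynomial (Fin N) ℂ) :=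
    UniqueFactorizationMonoid.strongNormalizationMonoid
  let _ : StrongNormalizedGCDMonoid (MvPolynomial (Fin N) ℂ) :=
    UniqueFactorizationMonoid.toStrongNormalizedGCDMonoid _
  obtain ⟨P', hP'1, hP'2⟩ := Finset.extract_gcd (s := (Finset.univ : Finset (Fin a × Fin a)))
    (fun p => M s0 t0 p.1 p.2) ⟨(i0, j0), Finset.mem_univ _⟩
  set d := Finset.univ.gcd (fun p : Fin a × Fin a => M s0 t0 p.1 p.2) with hd
  have hdP : ∀ i j, M s0 t0 i j = d * P' (i, j) := fun i j => hP'1 (i, j) (Finset.mem_univ _)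
  have hd0 : d ≠ 0 := by
    intro h
    apply hne0
    rw [hdP, h, zero_mul]
  have hP0 : P' (i0, j0) ≠ 0 := by
    intro h
    apply hne0
    rw [hdP, h, mul_zero]
  have hF5 : ∀ s t i j k l, M s t i j * P' (k, l) = M s t k l * P' (i, j) := by
    intro s t i j k l
    apply mul_left_cancel₀ hd0
    have h := hF4 s t s0 t0 i j k l
    rw [hdP, hdP] at h
    linear_combination h
  have hF6 : ∀ s t, ∃ φ, ∀ i j, M s t i j = φ * P' (i, j) := by
    intro s t
    have hdvd : P' (i0, j0) ∣ M s t i0 j0 := by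
      have h1 : P' (i0, j0) ∣ Finset.univ.gcd (fun p : Fin a × Fin a => M s t i0 j0 * P' p) := by
        apply Finset.dvd_gcd
        rintro ⟨k, l⟩ _
        rw [hF5]
        exact dvd_mul_left _ _
      rw [Finset.gcd_mul_left, hP'2, mul_one] at h1
      exact (dvd_normalize_iff).1 h1
    obtain ⟨φ, hφ⟩ := hdvd
    refine ⟨φ, fun i j => ?_⟩
    apply mul_right_cancel₀ hP0
    have h := hF5 s t i j i0 j0
    rw [h, hφ]
    ring
  -- homogeneity
  have hMh : ∀ i j, HomZ (M s0 t0 i j) (β i + β j - (α s0 + α t0)) := by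
    intro i j
    have hmul : ∀ (p q : MvPolynomial (Fin N) ℂ) (e f : ℤ), HomZ p e → HomZ q f →
        HomZ (p * q) (e + f) := by
      rintro p q e f (rfl | ⟨k, hk, hp⟩) (rfl | ⟨l, hl, hq⟩)
      · left; simp
      · left; simp
      · left; simp
      · right
        exact ⟨k + l, by push_cast; rw [hk, hl], hp.mul hq⟩
    have hsub : ∀ (p q : MvPolynomial (Fin N) ℂ) (e : ℤ), HomZ p e → HomZ q e →
        HomZ (p - q) e := by
      rintro p q e (rfl | ⟨k, hk, hp⟩) (rfl | ⟨l, hl, hq⟩)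
      · left; simp
      · right; exact ⟨l, hl, by rw [zero_sub]; exact hq.neg⟩
      · right; exact ⟨k, hk, by rw [sub_zero]; exact hp⟩
      · right
        have : k = l := by
          have : (k : ℤ) = l := by rw [hk, hl]
          exact_mod_cast this
        subst this
        exact ⟨k, hk, hp.sub hq⟩
    have e1 : β i + β j - (α s0 + α t0) = (β i - α s0) + (β j - α t0) := by ring
    have e2 : β i + β j - (α s0 + α t0) = (β j - α s0) + (β i - α t0) := by ring
    apply hsub
    · rw [e1]; exact hmul _ _ _ _ (hKh s0 i) (hKh t0 j)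
    · rw [e2]; exact hmul _ _ _ _ (hKh s0 j) (hKh t0 i)
  obtain ⟨D, hD⟩ : ∃ D : ℕ, d.IsHomogeneous D := by
    rcases hMh i0 j0 with h | ⟨k, hk, hp⟩
    · exact absurd h hne0
    · rw [hdP] at hp
      obtain ⟨e, f, hef, h3, h4⟩ := hom_of_mul hp (by rw [← hdP]; exact hne0)
      exact ⟨e, h3⟩
  refine ⟨α s0 + α t0 + D, fun i j => P' (i, j), ?_, ?_, ?_⟩
  · intro i j
    by_cases h0 : P' (i, j) = 0
    · left; exact h0
    · right
      have hne : d * P' (i, j) ≠ 0 := mul_ne_zero hd0 h0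
      rcases hMh i j with h | ⟨k, hk, hp⟩
      · rw [hdP] at h
        exact absurd h hne
      · rw [hdP] at hp
        obtain ⟨e, f, hef, h3, h4⟩ := hom_of_mul hp hne
        have heD : e = D := h3.inj_right hD hd0
        refine ⟨f, ?_, h4⟩
        have : (e : ℤ) + f = k := by exact_mod_cast hef
        rw [hk, heD] at this
        linarith
  · intro x hx
    obtain ⟨s, t, i, j, h⟩ := hF2 x hx
    obtain ⟨φ, hφ⟩ := hF6 s t
    refine ⟨i, j, fun h0 => h ?_⟩
    rw [hφ, map_mul, h0, mul_zero]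
  · intro x hx u w hu hw
    obtain ⟨s, t, i1, j1, h⟩ := hF2 x hx
    obtain ⟨φ, hφ⟩ := hF6 s t
    have hu' : u ∈ LinearMap.ker (Matrix.mulVecLin (evm B x)) := by
      rw [LinearMap.mem_ker, Matrix.mulVecLin_apply]; exact hu
    have hw' : w ∈ LinearMap.ker (Matrix.mulVecLin (evm B x)) := by
      rw [LinearMap.mem_ker, Matrix.mulVecLin_apply]; exact hw
    refine ⟨(u i1 * w j1 - u j1 * w i1) / eval x (M s t i1 j1) * eval x φ, fun i j => ?_⟩
    have h3 := wedge_rel _ (h2 x hx) hu' hw' (hmem x hx s) (hmem x hx t) i j i1 j1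
    rw [← hMe, ← hMe] at h3
    have h4 : eval x (M s t i j) = eval x φ * eval x (P' (i, j)) := by rw [hφ, map_mul]
    rw [h4] at h3
    field_simp
    linear_combination h3

end H960VB
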