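import Pool.Agent.H960R2.VB.TaskD

/-! The main intersection argument with an arbitrary set of local equations. -/

open MvPolynomial

namespace H960VB

section main

variable {n w k : ℕ} {Y I : Type}

/-- degrees of the rows -/
def cg_dZ (w : ℕ) (dK : Fin k → ℤ) : Fin w ⊕ Fin k → ℤ := Sum.elim (fun b => ((b : ℕ) : ℤ)) dK

/-- augmented matrix -/
noncomputable def cg_Aug (M : Matrix Y I (MvPolynomial (Fin n) ℂ)) (μ : Fin w → I → ℂ)
    (Th : Fin k → I → MvPolynomial (Fin n) ℂ) :
    Matrix (Y ⊕ (Fin w ⊕ Fin k)) (I ⊕ Unit) (MvPolynomial (Fin n) ℂ) :=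
  Matrix.fromBlocks M 0 (Matrix.of (Sum.elim (fun b i => C (μ b i)) Th))
    (Matrix.of fun z _ => Sum.elim (fun b : Fin w => if (b : ℕ) + 1 = w then 1 else 0)
      (fun _ => 0) z)

theorem cg_Aug_hom (dY : Y → ℤ) (dI : I → ℤ)
    (M : Matrix Y I (MvPolynomial (Fin n) ℂ)) (hM : ∀ y i, HomZ (M y i) (dY y - dI i))
    (μ : Fin w → I → ℂ) (hμ : ∀ b i, μ b i ≠ 0 → dI i = (b : ℕ))
    (dK : Fin k → ℤ) (Th : Fin k → I → MvPolynomial (Fin n) ℂ)
    (hTh : ∀ b i, HomZ (Th b i) (dK b - dI i)) (r : Y ⊕ (Fin w ⊕ Fin k)) (c : I ⊕ Unit) :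
    HomZ (cg_Aug M μ Th r c) (Sum.elim dY (cg_dZ w dK) r - Sum.elim dI (fun _ => (w : ℤ) - 1) c) := by
  rcases r with y | b | b <;> rcases c with i | u
  · exact hM y i
  · exact Or.inl rfl
  · change HomZ (C (μ b i)) (((b : ℕ) : ℤ) - dI i)
    by_cases h : μ b i = 0
    · rw [h]; exact Or.inl (map_zero _)
    · rw [hμ b i h, sub_self]; exact HomZ.tdConst _
  · change HomZ (if (b : ℕ) + 1 = w then 1 else 0) (((b : ℕ) : ℤ) - ((w : ℤ) - 1))
    split_ifs with h
    · rw [show ((b : ℕ) : ℤ) - ((w : ℤ) - 1) = 0 by omega]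
      have := HomZ.tdConst (σ := Fin n) 1
      rwa [map_one] at this
    · exact Or.inl rfl
  · exact hTh b i
  · exact Or.inl rfl

variable [Fintype I]

theorem cg_evm_Aug_mulVec (M : Matrix Y I (MvPolynomial (Fin n) ℂ)) (μ : Fin w → I → ℂ)
    (Th : Fin k → I → MvPolynomial (Fin n) ℂ) (v : Fin n → ℂ) (u : I ⊕ Unit → ℂ) :
    (evm (cg_Aug M μ Th) v).mulVec u =
      Sum.elim ((evm M v).mulVec (u ∘ Sum.inl))
        (Sum.elim (fun b => ∑ i, μ b i * u (Sum.inl i) +
            (if (b : ℕ) + 1 = w then 1 else 0) * u (Sum.inr ()))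
          (fun b => ∑ i, eval v (Th b i) * u (Sum.inl i))) := by
  funext r
  rcases r with y | z | z
  · simp [evm, cg_Aug, Matrix.mulVec, dotProduct]
  · simp [evm, cg_Aug, Matrix.mulVec, dotProduct, apply_ite (eval v)]
  · simp [evm, cg_Aug, Matrix.mulVec, dotProduct]

end main

theorem core_gen {n w k : ℕ} (hn : k + 2 ≤ n)
    {Y I : Type} [Fintype Y] [Fintype I] (dY : Y → ℤ) (dI : I → ℤ)
    (M : Matrix Y I (MvPolynomial (Fin n) ℂ)) (hM : ∀ y i, HomZ (M y i) (dY y - dI i))
    (hker : ∀ v : Fin n → ℂ, v ≠ 0 →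
      Module.finrank ℂ (LinearMap.ker (Matrix.mulVecLin (evm M v))) = w)
    (μ lam : Fin w → I → ℂ) (hμ : ∀ b i, μ b i ≠ 0 → dI i = (b : ℕ))
    (hlam : ∀ b i, lam b i ≠ 0 → dI i = (b : ℕ))
    (hJ : ∀ v : Fin n → ℂ, v ≠ 0 → ∀ g : I → ℂ, (evm M v).mulVec g = 0 →
      (∀ b, ∑ i, μ b i * g i = 0) → (∀ b, ∑ i, lam b i * g i = 0) → g = 0)
    (v₀ : Fin n → ℂ) (hv₀ : v₀ ≠ 0) (g₀ : I → ℂ) (hg₀ : (evm M v₀).mulVec g₀ = 0)
    (hg₀μ : ∀ b : Fin w, ∑ i, μ b i * g₀ i = if (b : ℕ) + 1 = w then 1 else 0)
    (hg₀lam : ∀ b : Fin w, ∑ i, lam b i * g₀ i = 0)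
    (dK : Fin k → ℤ) (Th : Fin k → I → MvPolynomial (Fin n) ℂ)
    (hTh : ∀ b i, HomZ (Th b i) (dK b - dI i))
    (hg₀Th : ∀ b, ∑ i, eval v₀ (Th b i) * g₀ i = 0)
    (hThlam : ∀ v : Fin n → ℂ, v ≠ 0 → ∀ g : I → ℂ, (evm M v).mulVec g = 0 →
      (∀ b : Fin w, ∑ i, μ b i * g i = if (b : ℕ) + 1 = w then 1 else 0) →
      (∀ b, ∑ i, eval v (Th b i) * g i = 0) → ∀ b : Fin w, ∑ i, lam b i * g i = 0)
    (hdisj : ∀ v : Fin n → ℂ, v ≠ 0 → ∀ g : I → ℂ, (evm M v).mulVec g = 0 →
      (∀ b : Fin w, ∑ i, μ b i * g i = if (b : ℕ) + 1 = w then 1 else 0) →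
      (∀ b : Fin w, ∑ i, lam b i * g i = 0) →
      ∀ g' : I → ℂ, (evm M v).mulVec g' = 0 → (∀ b, ∑ i, μ b i * g' i = 0) → g' = 0) :
    ∃ G : I → MvPolynomial (Fin n) ℂ, (∀ i, HomZ (G i) (dI i - (w - 1 : ℤ))) ∧
      M.mulVec G = 0 ∧
      ∀ b : Fin w, ∑ i, C (μ b i) * G i = if (b : ℕ) + 1 = w then 1 else 0 := by
  classical
  -- the main claim
  have hPhi : ∀ v : Fin n → ℂ, v ≠ 0 → ∀ g : I → ℂ, (evm M v).mulVec g = 0 →
      (∀ b, ∑ i, μ b i * g i = 0) → g = 0 := by
    by_contra hcon
    push Not at hcon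
    obtain ⟨v₁, hv₁, g₁, hMg₁, hμg₁, hg₁⟩ := hcon
    have hQinj : ∀ v : Fin n → ℂ, v ≠ 0 → ∀ g, (evm M v).mulVec g = 0 →
        (td_QQ μ lam).mulVec g = 0 → g = 0 := by
      intro v hv g h1 h2
      exact hJ v hv g h1 (fun b => congrFun h2 (Sum.inl b)) (fun b => congrFun h2 (Sum.inr b))
    -- data at v₀
    obtain ⟨R, W, e, hR, hW, hdet⟩ := td_local_rows (evm M v₀) (Matrix.of μ) w (hker v₀ hv₀)
      (fun g h1 h2 => hdisj v₀ hv₀ g₀ hg₀ hg₀μ hg₀lam g h1 (fun b => congrFun h2 b))
    have hWu : ∀ b, b ∈ W := by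
      intro b
      have : W = Finset.univ := by
        rw [← Finset.card_eq_iff_eq_univ, hW, Fintype.card_fin]
      rw [this]
      exact Finset.mem_univ b
    obtain ⟨R', W', e', hR', hW', hdet'⟩ := td_local_rows (evm M v₁) (td_QQ μ lam) w (hker v₁ hv₁)
      (hQinj v₁ hv₁)
    obtain ⟨i₀, hi₀⟩ : ∃ i, v₀ i ≠ 0 := Function.ne_iff.mp hv₀
    obtain ⟨i₁, hi₁⟩ : ∃ i, v₁ i ≠ 0 := Function.ne_iff.mp hv₁
    -- polynomial square matrices
    let TT : ∀ (R : Finset Y) (W : Finset (Fin w ⊕ Fin w)) (e : I ≃ R ⊕ W),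
        Matrix I I (MvPolynomial (Fin n) ℂ) := fun R W e =>
      Matrix.of fun i => Sum.elim (fun r : R => M r) (fun z : W => fun j => C (td_QQ μ lam z j)) (e i)
    have hTT : ∀ (R : Finset Y) (W : Finset (Fin w ⊕ Fin w)) (e : I ≃ R ⊕ W) (v : Fin n → ℂ),
        eval v (TT R W e).det = (Matrix.of fun i => Sum.elim (fun r : R => evm M v r)
          (fun z : W => td_QQ μ lam z) (e i)).det := by
      intro R W e v
      rw [RingHom.map_det]
      congr 1
      ext i j
      simp only [TT, RingHom.mapMatrix_apply, Matrix.map_apply, Matrix.of_apply]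
      rcases e i with r | z
      · rfl
      · simp
    let TU : ∀ (R : Finset Y) (W : Finset (Fin w)) (e : I ≃ R ⊕ W),
        Matrix I I (MvPolynomial (Fin n) ℂ) := fun R W e =>
      Matrix.of fun i => Sum.elim (fun r : R => M r) (fun z : W => fun j => C (μ z j)) (e i)
    have hTU : ∀ (R : Finset Y) (W : Finset (Fin w)) (e : I ≃ R ⊕ W) (v : Fin n → ℂ),
        eval v (TU R W e).det = (Matrix.of fun i => Sum.elim (fun r : R => evm M v r)
          (fun z : W => (Matrix.of μ) z) (e i)).det := by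
      intro R W e v
      rw [RingHom.map_det]
      congr 1
      ext i j
      simp only [TU, RingHom.mapMatrix_apply, Matrix.map_apply, Matrix.of_apply]
      rcases e i with r | z
      · rfl
      · simp
    set δ₁ : MvPolynomial (Fin n) ℂ := (TU R W e).det * X i₀ with hδ₁
    set δ₂ : MvPolynomial (Fin n) ℂ := (TT R' W' e').det * X i₁ with hδ₂
    have hδ₁0 : eval v₀ δ₁ ≠ 0 := by
      rw [hδ₁, map_mul, eval_X, hTU]
      exact mul_ne_zero hdet hi₀
    have hδ₂0 : eval v₁ δ₂ ≠ 0 := by
      rw [hδ₂, map_mul, eval_X, hTT]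
      exact mul_ne_zero hdet' hi₁
    -- the equations of the first cone
    let f₁ : Fin k → (I ⊕ Unit → Y ⊕ (Fin w ⊕ Fin k)) := fun j =>
      Sum.elim (fun i => Sum.map (fun r : R => r.1) (fun z : W => Sum.inl z.1) (e i))
        (fun _ => Sum.inr (Sum.inr j))
    let h₁ : Fin k → MvPolynomial (Fin n) ℂ := fun j => ((cg_Aug M μ Th).submatrix (f₁ j) id).det
    -- the equation of the second cone
    have hcardW' : Fintype.card W' = w := by rw [Fintype.card_coe, hW']
    let σ : W' ≃ Fin w := Fintype.equivFinOfCardEq hcardW'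
    let f₂ : I → Y ⊕ Fin w := fun i => Sum.map (fun r : R' => r.1) σ (e' i)
    let h₂ : Fin 1 → MvPolynomial (Fin n) ℂ := fun _ => ((td_Stack M μ).submatrix f₂ id).det
    have hAne : ∀ g : I → ℂ, (Sum.elim g (fun _ => (-1 : ℂ)) : I ⊕ Unit → ℂ) ≠ 0 := by
      intro g h
      have := congrFun h (Sum.inr ())
      simp at this
    have hAz : ∀ (v : Fin n → ℂ) (g : I → ℂ), (evm M v).mulVec g = 0 →
        (∀ z, ∑ i, td_QQ μ lam z i * g i = td_tau w z) →
        (evm (td_Aug M μ lam) v).mulVec (Sum.elim g (fun _ => (-1 : ℂ))) = 0 := by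
      intro v g h1 h2
      rw [td_evm_Aug_mulVec]
      funext r
      rcases r with y | z
      · exact congrFun h1 y
      · simp only [Sum.elim_inr, Sum.elim_inl, h2 z, Pi.zero_apply]
        ring
    obtain ⟨v, hv, hS1, hS2⟩ := inter_cones
      {p | ∃ f : I ⊕ Unit → Y ⊕ (Fin w ⊕ Fin w), p = ((td_Aug M μ lam).submatrix f id).det}
      {p | ∃ f : I → Y ⊕ Fin w, p = ((td_Stack M μ).submatrix f id).det}
      k 1 (by omega) v₀ v₁ δ₁ δ₂ hδ₁0 hδ₂0 h₁ h₂
      (by
        intro j
        exact (HomZ.tdDet ((cg_Aug M μ Th).submatrix (f₁ j) id)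
          (fun c => Sum.elim dY (cg_dZ w dK) (f₁ j c)) (Sum.elim dI (fun _ => (w : ℤ) - 1))
          (fun a c => cg_Aug_hom dY dI M hM μ hμ dK Th hTh _ _)).tdIsHom)
      (by
        intro j
        exact (HomZ.tdDet ((td_Stack M μ).submatrix f₂ id)
          (fun c => Sum.elim dY (fun b : Fin w => ((b : ℕ) : ℤ)) (f₂ c)) dI
          (fun a c => td_Stack_hom dY dI M hM μ hμ _ _)).tdIsHom)
      (by
        intro j
        change eval v₀ ((cg_Aug M μ Th).submatrix (f₁ j) id).det = 0
        rw [td_eval_minor]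
        refine td_minor_zero _ _ (hAne g₀) ?_ _
        rw [cg_evm_Aug_mulVec]
        funext r
        rcases r with y | b | b
        · exact congrFun hg₀ y
        · simp only [Sum.elim_inr, Sum.elim_inl, hg₀μ b, Pi.zero_apply]
          ring
        · simp only [Sum.elim_inr, Sum.elim_inl, hg₀Th b, Pi.zero_apply])
      (by
        intro j
        change eval v₁ ((td_Stack M μ).submatrix f₂ id).det = 0
        rw [td_eval_minor]
        refine td_minor_zero _ g₁ hg₁ ?_ _
        rw [td_evm_Stack_mulVec]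
        funext r
        rcases r with y | b
        · exact congrFun hMg₁ y
        · exact hμg₁ b)
      (by
        rintro v hδ hh p ⟨f, rfl⟩
        rw [hδ₁, map_mul, eval_X, hTU] at hδ
        have hdv := left_ne_zero_of_mul hδ
        have hvi := right_ne_zero_of_mul hδ
        have hv : v ≠ 0 := fun h => hvi (by rw [h]; rfl)
        set T := (Matrix.of fun i => Sum.elim (fun r : R => evm M v r)
          (fun z : W => (Matrix.of μ) z) (e i)) with hT
        let t : I → ℂ := fun i => Sum.elim (fun _ => 0)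
          (fun z : W => if ((z.1 : Fin w) : ℕ) + 1 = w then 1 else 0) (e i)
        let g : I → ℂ := T⁻¹.mulVec t
        have hTg : T.mulVec g = t := by
          rw [Matrix.mulVec_mulVec, Matrix.mul_nonsing_inv _ (isUnit_iff_ne_zero.mpr hdv),
            Matrix.one_mulVec]
        have hTinj : ∀ x : I → ℂ, T.mulVec x = 0 → x = 0 := by
          intro x hx
          have : T⁻¹.mulVec (T.mulVec x) = x := by
            rw [Matrix.mulVec_mulVec, Matrix.nonsing_inv_mul _ (isUnit_iff_ne_zero.mpr hdv),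
              Matrix.one_mulVec]
          rw [← this, hx, Matrix.mulVec_zero]
        have hMg : (evm M v).mulVec g = 0 := by
          refine td_ker_rows (evm M v) (Matrix.of μ) w (hker v hv) R W e hR hdv g ?_
          intro r hr
          have := congrFun hTg (e.symm (Sum.inl ⟨r, hr⟩))
          simp only [t, Equiv.apply_symm_apply, Sum.elim_inl] at this
          rw [← this]
          simp only [hT, Matrix.mulVec, Matrix.of_apply, Equiv.apply_symm_apply, Sum.elim_inl]
        have hμg : ∀ b : Fin w, ∑ i, μ b i * g i = if (b : ℕ) + 1 = w then 1 else 0 := by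
          intro b
          have := congrFun hTg (e.symm (Sum.inr ⟨b, hWu b⟩))
          simp only [t, Equiv.apply_symm_apply, Sum.elim_inr] at this
          rw [← this]
          simp only [hT, Matrix.mulVec, Matrix.of_apply, Equiv.apply_symm_apply, Sum.elim_inr,
            dotProduct]
        have hThg : ∀ b, ∑ i, eval v (Th b i) * g i = 0 := by
          intro b
          have hj := hh b
          change eval v ((cg_Aug M μ Th).submatrix (f₁ b) id).det = 0 at hj
          rw [td_eval_minor, ← Matrix.exists_mulVec_eq_zero_iff] at hj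
          obtain ⟨u, hu0, hu⟩ := hj
          have hu' : ∀ c, (evm (cg_Aug M μ Th) v).mulVec u (f₁ b c) = 0 :=
            fun c => congrFun hu c
          rw [cg_evm_Aug_mulVec] at hu'
          -- the first block
          have h4 : T.mulVec (u ∘ Sum.inl + u (Sum.inr ()) • g) = 0 := by
            rw [Matrix.mulVec_add, Matrix.mulVec_smul, hTg]
            funext i
            have h5 := hu' (Sum.inl i)
            simp only [f₁, Sum.elim_inl] at h5
            simp only [Pi.add_apply, Pi.smul_apply, smul_eq_mul, t, Pi.zero_apply]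
            have h6 : T.mulVec (u ∘ Sum.inl) i = ∑ j, T i j * u (Sum.inl j) := rfl
            rw [h6]
            simp only [hT, Matrix.of_apply]
            rcases hei : e i with r | z'
            · rw [hei] at h5
              simp only [Sum.map_inl, Sum.elim_inl] at h5
              simp only [Sum.elim_inl, mul_zero, add_zero]
              exact h5
            · rw [hei] at h5
              simp only [Sum.map_inr, Sum.elim_inr, Sum.elim_inl] at h5
              simp only [Sum.elim_inr]
              rw [mul_comm (u (Sum.inr ()))]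
              exact h5
          have h7 := hTinj _ h4
          have h8 : ∀ i, u (Sum.inl i) = - (u (Sum.inr ()) * g i) := by
            intro i
            have := congrFun h7 i
            simp only [Pi.add_apply, Pi.smul_apply, smul_eq_mul, Pi.zero_apply,
              Function.comp_apply] at this
            linear_combination this
          have ht : u (Sum.inr ()) ≠ 0 := by
            intro h9
            apply hu0
            funext c
            rcases c with i | x
            · rw [h8 i, h9]; simp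
            · exact h9
          have h10 := hu' (Sum.inr ())
          simp only [f₁, Sum.elim_inr] at h10
          have h11 : u (Sum.inr ()) * (∑ i, eval v (Th b i) * g i) = 0 := by
            rw [Finset.mul_sum, ← neg_eq_zero, ← Finset.sum_neg_distrib, ← h10]
            refine Finset.sum_congr rfl fun i _ => ?_
            rw [h8 i]; ring
          exact (mul_eq_zero.mp h11).resolve_left ht
        have hlamg := hThlam v hv g hMg hμg hThg
        rw [td_eval_minor]
        refine td_minor_zero _ _ (hAne g) (hAz v g hMg ?_) _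
        rintro (b | b)
        · exact hμg b
        · exact hlamg b)
      (by
        rintro v hδ hh p ⟨f, rfl⟩
        rw [hδ₂, map_mul, eval_X, hTT] at hδ
        have hdv := left_ne_zero_of_mul hδ
        have hvi := right_ne_zero_of_mul hδ
        have hv : v ≠ 0 := fun h => hvi (by rw [h]; rfl)
        have h0 := hh 0
        change eval v ((td_Stack M μ).submatrix f₂ id).det = 0 at h0
        rw [td_eval_minor, ← Matrix.exists_mulVec_eq_zero_iff] at h0
        obtain ⟨g, hg0, hg⟩ := h0
        have hg' : ∀ i, (evm (td_Stack M μ) v).mulVec g (f₂ i) = 0 := fun i => congrFun hg i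
        rw [td_evm_Stack_mulVec] at hg'
        have hMg : (evm M v).mulVec g = 0 := by
          refine td_ker_rows (evm M v) (td_QQ μ lam) w (hker v hv) R' W' e' hR' hdv g ?_
          intro r hr
          have := hg' (e'.symm (Sum.inl ⟨r, hr⟩))
          simp only [f₂, Equiv.apply_symm_apply, Sum.map_inl, Sum.elim_inl] at this
          exact this
        have hμg : ∀ b, ∑ i, μ b i * g i = 0 := by
          intro b
          have := hg' (e'.symm (Sum.inr (σ.symm b)))
          simp only [f₂, Equiv.apply_symm_apply, Sum.map_inr, Sum.elim_inr] at this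
          exact this
        rw [td_eval_minor]
        refine td_minor_zero _ g hg0 ?_ _
        rw [td_evm_Stack_mulVec]
        funext r
        rcases r with y | b
        · exact congrFun hMg y
        · exact hμg b)
    -- contradiction
    obtain ⟨u, hu0, hu⟩ := td_maxmin (evm (td_Aug M μ lam) v) (fun f => by
      rw [← td_eval_minor]; exact hS1 _ ⟨f, rfl⟩)
    obtain ⟨g', hg'0, hg'⟩ := td_maxmin (evm (td_Stack M μ) v) (fun f => by
      rw [← td_eval_minor]; exact hS2 _ ⟨f, rfl⟩)
    rw [td_evm_Aug_mulVec] at hu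
    rw [td_evm_Stack_mulVec] at hg'
    have ht : u (Sum.inr ()) ≠ 0 := by
      intro h9
      apply hu0
      have h10 : u ∘ Sum.inl = 0 := by
        apply hQinj v hv
        · funext y
          exact congrFun hu (Sum.inl y)
        · funext z
          have := congrFun hu (Sum.inr z)
          simp only [Sum.elim_inr, h9, mul_zero, add_zero] at this
          exact this
      funext c
      rcases c with i | x
      · exact congrFun h10 i
      · exact h9
    apply hg'0
    refine hdisj v hv (fun i => - (u (Sum.inr ()))⁻¹ * u (Sum.inl i)) ?_ ?_ ?_ g' ?_ ?_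
    · have : (fun i => - (u (Sum.inr ()))⁻¹ * u (Sum.inl i)) =
          (- (u (Sum.inr ()))⁻¹) • (u ∘ Sum.inl) := rfl
      rw [this, Matrix.mulVec_smul]
      have h2 : (evm M v).mulVec (u ∘ Sum.inl) = 0 := by
        funext y
        exact congrFun hu (Sum.inl y)
      rw [h2, smul_zero]
    · intro b
      have := congrFun hu (Sum.inr (Sum.inl b))
      simp only [Sum.elim_inr, Pi.zero_apply] at this
      have h2 : ∑ i, μ b i * u (Sum.inl i) +
          (if (b : ℕ) + 1 = w then 1 else 0) * u (Sum.inr ()) = 0 := this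
      have h3 : ∑ i, μ b i * (- (u (Sum.inr ()))⁻¹ * u (Sum.inl i)) =
          - (u (Sum.inr ()))⁻¹ * ∑ i, μ b i * u (Sum.inl i) := by
        rw [Finset.mul_sum]
        refine Finset.sum_congr rfl fun i _ => ?_
        ring
      rw [h3, eq_neg_of_add_eq_zero_left h2]
      field_simp
    · intro b
      have := congrFun hu (Sum.inr (Sum.inr b))
      simp only [Sum.elim_inr, Pi.zero_apply] at this
      have h2 : ∑ i, lam b i * u (Sum.inl i) + 0 * u (Sum.inr ()) = 0 := this
      have h3 : ∑ i, lam b i * (- (u (Sum.inr ()))⁻¹ * u (Sum.inl i)) =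
          - (u (Sum.inr ()))⁻¹ * ∑ i, lam b i * u (Sum.inl i) := by
        rw [Finset.mul_sum]
        refine Finset.sum_congr rfl fun i _ => ?_
        ring
      rw [zero_mul, add_zero] at h2
      rw [h3, h2, mul_zero]
    · funext y
      exact congrFun hg' (Sum.inl y)
    · intro b
      exact congrFun hg' (Sum.inr b)
  -- the final step
  have hinj : ∀ v : Fin n → ℂ, v ≠ 0 → ∀ g : I → ℂ, (evm (td_Stack M μ) v).mulVec g = 0 → g = 0 := by
    intro v hv g hg
    rw [td_evm_Stack_mulVec] at hg
    exact hPhi v hv g (funext fun y => congrFun hg (Sum.inl y)) (fun b => congrFun hg (Sum.inr b))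
  let r : Y ⊕ Fin w → MvPolynomial (Fin n) ℂ :=
    Sum.elim 0 (fun b => if (b : ℕ) + 1 = w then 1 else 0)
  have hsol : ∀ v : Fin n → ℂ, v ≠ 0 → ∃ g : I → ℂ, (evm (td_Stack M μ) v).mulVec g = evv r v := by
    intro v hv
    let Φ : LinearMap.ker (Matrix.mulVecLin (evm M v)) →ₗ[ℂ] (Fin w → ℂ) :=
      (Matrix.mulVecLin (Matrix.of μ)).comp (Submodule.subtype _)
    have hΦi : Function.Injective Φ := by
      rw [← LinearMap.ker_eq_bot, LinearMap.ker_eq_bot']
      rintro ⟨g, hg⟩ hg2
      have : g = 0 := hPhi v hv g hg (fun b => congrFun hg2 b)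
      exact Subtype.ext this
    have hΦs : Function.Surjective Φ := by
      rw [← LinearMap.injective_iff_surjective_of_finrank_eq_finrank]
      · exact hΦi
      · rw [hker v hv]; simp
    obtain ⟨⟨g, hg⟩, hg2⟩ := hΦs (fun b => if (b : ℕ) + 1 = w then 1 else 0)
    refine ⟨g, ?_⟩
    rw [td_evm_Stack_mulVec]
    funext c
    rcases c with y | b
    · have : (evm M v).mulVec g = 0 := hg
      simp [evv, r, this]
    · have := congrFun hg2 b
      simp only [evv, r, Sum.elim_inr]
      rw [apply_ite (eval v), map_one, map_zero]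
      exact this
  obtain ⟨G, hG⟩ := hartogs (by omega) (td_Stack M μ) r hinj hsol
  have hGh := hartogs_hom (by omega) (td_Stack M μ) r (Sum.elim dY (fun b : Fin w => ((b : ℕ) : ℤ))) dI
    ((w : ℤ) - 1) (td_Stack_hom dY dI M hM μ hμ) (by
      intro c
      rcases c with y | b
      · exact Or.inl rfl
      · change HomZ (if (b : ℕ) + 1 = w then 1 else 0) (((b : ℕ) : ℤ) - ((w : ℤ) - 1))
        split_ifs with h
        · rw [show ((b : ℕ) : ℤ) - ((w : ℤ) - 1) = 0 by omega]
          simpa using HomZ.tdConst (σ := Fin n) 1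
        · exact Or.inl rfl) hinj G hG
  refine ⟨G, hGh, ?_, ?_⟩
  · funext y
    have := congrFun hG (Sum.inl y)
    exact this
  · intro b
    have := congrFun hG (Sum.inr b)
    exact this

end H960VB
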