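import Mathlib

/-!
# Rank two vector bundles on projective space, in concrete terms

A vector bundle on `P^n` is presented as the kernel of a homogeneous matrix of constant rank
`B : ⊕ O(β i) → ⊕ O(γ k)`.  (Every vector bundle `E` is of this form: `E^∨` and then the dual of
the quotient are generated by sections after a twist, by Serre's theorem.)
-/

open MvPolynomial

namespace H960VB

/-- `p` is homogeneous of the integer degree `d`; for `d < 0` this means `p = 0`. -/
def HomZ {σ : Type*} (p : MvPolynomial σ ℂ) (d : ℤ) : Prop :=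
  p = 0 ∨ ∃ k : ℕ, (k : ℤ) = d ∧ p.IsHomogeneous k

/-- the value at the point `x` of a vector of polynomials. -/
noncomputable def evv {σ ι : Type*} (G : ι → MvPolynomial σ ℂ) (x : σ → ℂ) : ι → ℂ := fun i => eval x (G i)

/-- the value at the point `x` of a matrix of polynomials. -/
noncomputable def evm {σ κ ι : Type*} (B : Matrix κ ι (MvPolynomial σ ℂ)) (x : σ → ℂ) : Matrix κ ι ℂ :=
  B.map (eval x)

/-- A vector bundle of rank two on `P^n`, given as the kernel of the constant rank homogeneous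
matrix `B : ⊕ O(β i) → ⊕ O(γ k)`: the fibre at the point `[x]` is `ker B(x)`. -/
structure Bundle2 (n : ℕ) where
  a : ℕ
  c : ℕ
  β : Fin a → ℤ
  γ : Fin c → ℤ
  B : Matrix (Fin c) (Fin a) (MvPolynomial (Fin (n + 1)) ℂ)
  hom : ∀ k i, HomZ (B k i) (γ k - β i)
  rank_two : ∀ x : Fin (n + 1) → ℂ, x ≠ 0 →
    Module.finrank ℂ (LinearMap.ker (Matrix.mulVecLin (evm B x))) = 2

namespace Bundle2

variable {n : ℕ}

/-- the fibre of the bundle over the point `[x]`. -/
noncomputable def fib (E : Bundle2 n) (x : Fin (n + 1) → ℂ) : Submodule ℂ (Fin E.a → ℂ) :=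
  LinearMap.ker (Matrix.mulVecLin (evm E.B x))

/-- `G` is a global section of the twist `E(d)`. -/
def IsSection (E : Bundle2 n) (d : ℤ) (G : Fin E.a → MvPolynomial (Fin (n + 1)) ℂ) : Prop :=
  (∀ i, HomZ (G i) (E.β i + d)) ∧ ∀ x : Fin (n + 1) → ℂ, x ≠ 0 → evv G x ∈ E.fib x

/-- `E` splits: there are sections of `E(-p)` and of `E(-q)` which form a basis of the fibre at
every point, that is, an isomorphism `O(p) ⊕ O(q) ≅ E`. -/
def Splits (E : Bundle2 n) : Prop :=
  ∃ (p q : ℤ) (G₁ G₂ : Fin E.a → MvPolynomial (Fin (n + 1)) ℂ),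
    E.IsSection (-p) G₁ ∧ E.IsSection (-q) G₂ ∧
    ∀ x : Fin (n + 1) → ℂ, x ≠ 0 → LinearIndependent ℂ ![evv G₁ x, evv G₂ x]

/-- The restriction of `E` to the line through `[P]` and `[Q]`, parametrised by
`z ↦ z 0 • P + z 1 • Q`, is isomorphic to `O(p) ⊕ O(q)`. -/
def SplitsOn (E : Bundle2 n) (P Q : Fin (n + 1) → ℂ) (p q : ℤ) : Prop :=
  ∃ g₁ g₂ : Fin E.a → MvPolynomial (Fin 2) ℂ,
    (∀ i, HomZ (g₁ i) (E.β i - p)) ∧ (∀ i, HomZ (g₂ i) (E.β i - q)) ∧
    ∀ z : Fin 2 → ℂ, z ≠ 0 →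
      evv g₁ z ∈ E.fib (z 0 • P + z 1 • Q) ∧ evv g₂ z ∈ E.fib (z 0 • P + z 1 • Q) ∧
      LinearIndependent ℂ ![evv g₁ z, evv g₂ z]

/-- coefficient index set of the vectors of binary forms of degrees `β i + j`. -/
abbrev Idx {a : ℕ} (β : Fin a → ℤ) (j : ℤ) : Type := Σ i : Fin a, Fin (β i + j + 1).toNat

/-- put the first variable equal to one. -/
noncomputable def dehom (p : MvPolynomial (Fin (n + 1)) ℂ) : MvPolynomial (Fin n) ℂ :=
  aeval (Fin.cons (1 : MvPolynomial (Fin n) ℂ) (fun i => (X i : MvPolynomial (Fin n) ℂ))) p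

/-- The matrix (polynomial in the direction `v`) of the linear system of the sections of `E(j)`
on the line through `[1:0:...:0]` with direction `v`. -/
noncomputable def fam (E : Bundle2 n) (j : ℤ) :
    Matrix (Idx E.γ j) (Idx E.β j) (MvPolynomial (Fin n) ℂ) := fun y i =>
  if (i.2 : ℕ) ≤ (y.2 : ℕ) then
    homogeneousComponent ((y.2 : ℕ) - (i.2 : ℕ)) (dehom (E.B y.1 i.1)) else 0

/-- the vector of binary forms with coefficient array `g`, evaluated at `z`. -/
def lev (E : Bundle2 n) {j : ℤ} (g : Idx E.β j → ℂ) (z : Fin 2 → ℂ) : Fin E.a → ℂ := fun i =>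
  ∑ b : Fin (E.β i + j + 1).toNat,
    g ⟨i, b⟩ * z 0 ^ ((E.β i + j).toNat - (b : ℕ)) * z 1 ^ (b : ℕ)

/-- the point `(z 0, z 1 • v)`. -/
def lpt (v : Fin n → ℂ) (z : Fin 2 → ℂ) : Fin (n + 1) → ℂ := Fin.cons (z 0) (z 1 • v)

/-- The sections of `E(j)` on the line in direction `v`. -/
noncomputable def Hsec (E : Bundle2 n) (j : ℤ) (v : Fin n → ℂ) : Submodule ℂ (Idx E.β j → ℂ) :=
  LinearMap.ker (Matrix.mulVecLin (evm (E.fam j) v))

end Bundle2

end H960VB
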