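import Pool.Agent.H960R2.VB.Main1

/-! The criterion at an arbitrary point of an arbitrary linear subspace. -/

open MvPolynomial

namespace H960VB

variable {m n : ℕ}

/-- a linear automorphism which moves `[1:0:...:0]` to a given point. -/
theorem exists_move (P : Fin (n + 1) → ℂ) (hP : P ≠ 0) :
    ∃ T : (Fin (n + 1) → ℂ) ≃ₗ[ℂ] (Fin (n + 1) → ℂ), T (Fin.cons 1 0) = P := by
  classical
  obtain ⟨i₀, hi₀⟩ : ∃ i, P i ≠ 0 := by
    by_contra h
    push Not at h
    exact hP (funext h)
  let L : (Fin (n + 1) → ℂ) →ₗ[ℂ] (Fin (n + 1) → ℂ) :=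
    { toFun := fun x => x ∘ (Equiv.swap 0 i₀) + x 0 • (P - Pi.single i₀ 1)
      map_add' := by
        intro x y
        ext i
        simp
        ring
      map_smul' := by
        intro c x
        ext i
        simp
        ring }
  have hL : Function.Injective L := by
    rw [← LinearMap.ker_eq_bot, LinearMap.ker_eq_bot']
    intro x hx
    have h1 := congrFun hx i₀
    have h2 : x 0 + x 0 * (P i₀ - 1) = 0 := by
      simpa [L] using h1
    have h3 : x 0 = 0 := by
      have : x 0 * P i₀ = 0 := by linear_combination h2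
      rcases mul_eq_zero.mp this with h | h
      · exact h
      · exact absurd h hi₀
    ext i
    have h4 := congrFun hx (Equiv.swap 0 i₀ i)
    simpa [L, h3] using h4
  refine ⟨LinearEquiv.ofInjectiveEndo L hL, ?_⟩
  have : L (Fin.cons 1 0) = P := by
    ext i
    have h5 : (Fin.cons 1 0 : Fin (n + 1) → ℂ) = Pi.single 0 1 := by
      ext j
      refine Fin.cases ?_ (fun j => ?_) j <;> simp
    simp only [L, LinearMap.coe_mk, AddHom.coe_mk, h5, Pi.add_apply, Function.comp_apply,
      Pi.sub_apply, Pi.single_eq_same, one_smul]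
    by_cases hi : i = i₀
    · subst hi
      simp
    · rcases eq_or_ne i 0 with h0 | h0
      · subst h0
        have : i₀ ≠ 0 := fun h => hi h.symm
        simp [this, this.symm]
      · rw [Equiv.swap_apply_of_ne_of_ne h0 hi]
        simp [hi, h0]
  simpa using this

namespace Bundle2

/-- The pointwise criterion at an arbitrary point. -/
theorem main_point (hn : 2 ≤ n) (E : Bundle2 n) (P : Fin (n + 1) → ℂ) (hP : P ≠ 0)
    (h : ∀ Q : Fin (n + 1) → ℂ, LinearIndependent ℂ ![P, Q] →
      ∃ p q : ℤ, |p - q| ≤ (n : ℤ) - 2 ∧ E.SplitsOn P Q p q) : E.Splits := by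
  obtain ⟨T, hT⟩ := exists_move P hP
  apply splits_of_pull_equiv E T
  apply main_e0 hn
  intro v hv
  have hli : LinearIndependent ℂ ![P, T (Fin.cons 0 v)] := by
    have h1 : LinearIndependent ℂ ![(Fin.cons 1 0 : Fin (n + 1) → ℂ), Fin.cons 0 v] := by
      rw [LinearIndependent.pair_iff]
      intro s t hst
      have h2 := congrFun hst 0
      have h3 : s = 0 := by simpa using h2
      refine ⟨h3, ?_⟩
      by_contra ht
      apply hv
      ext i
      have h4 := congrFun hst i.succ
      have h5 : t * v i = 0 := by simpa [h3] using h4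
      rcases mul_eq_zero.mp h5 with h | h
      · exact absurd h ht
      · exact h
    have h2 := h1.map' T.toLinearMap (LinearMap.ker_eq_bot.mpr T.injective)
    have h3 : (T.toLinearMap ∘ ![(Fin.cons 1 0 : Fin (n + 1) → ℂ), Fin.cons 0 v]) =
        ![P, T (Fin.cons 0 v)] := by
      ext i
      fin_cases i
      · simp [← hT]
      · simp
    rw [h3] at h2
    exact h2
  obtain ⟨p, q, hpq, hs⟩ := h _ hli
  refine ⟨p, q, hpq, ?_⟩
  apply splitsOn_pull
  have hT' : T.toLinearMap (Fin.cons 1 0) = P := hT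
  rw [hT']
  exact hs

/-- The inclusion `x ↦ T (tail x) + x 0 • w`. -/
noncomputable def ext1 (T : (Fin (m + 1) → ℂ) →ₗ[ℂ] (Fin (n + 1) → ℂ)) (w : Fin (n + 1) → ℂ) :
    (Fin (m + 1 + 1) → ℂ) →ₗ[ℂ] (Fin (n + 1) → ℂ) where
  toFun x := T (Fin.tail x) + x 0 • w
  map_add' x y := by
    have : Fin.tail (x + y) = Fin.tail x + Fin.tail y := rfl
    rw [this, map_add, Pi.add_apply, add_smul]
    abel
  map_smul' c x := by
    have : Fin.tail (c • x) = c • Fin.tail x := rfl
    rw [this, map_smul, Pi.smul_apply, smul_eq_mul, mul_smul]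
    simp

theorem ext1_injective (T : (Fin (m + 1) → ℂ) →ₗ[ℂ] (Fin (n + 1) → ℂ))
    (hT : Function.Injective T) (w : Fin (n + 1) → ℂ) (hw : w ∉ LinearMap.range T) :
    Function.Injective (ext1 T w) := by
  rw [← LinearMap.ker_eq_bot, LinearMap.ker_eq_bot']
  intro x hx
  have h1 : T (Fin.tail x) + x 0 • w = 0 := hx
  have h2 : x 0 = 0 := by
    by_contra h0
    apply hw
    refine ⟨-(x 0)⁻¹ • Fin.tail x, ?_⟩
    have h3 : T (Fin.tail x) = -(x 0 • w) := by
      rw [eq_neg_iff_add_eq_zero]; exact h1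
    rw [map_smul, h3, smul_neg, neg_smul, neg_neg, smul_smul, inv_mul_cancel₀ h0, one_smul]
  rw [h2, zero_smul, add_zero] at h1
  have h4 : Fin.tail x = 0 := hT (by simpa using h1)
  ext i
  refine Fin.cases ?_ (fun i => ?_) i
  · exact h2
  · exact congrFun h4 i

theorem ext1_hyp (T : (Fin (m + 1) → ℂ) →ₗ[ℂ] (Fin (n + 1) → ℂ)) (w : Fin (n + 1) → ℂ)
    (x : Fin (m + 1) → ℂ) : ext1 T w (hyp m x) = T x := by
  have h : (hyp m x) = Fin.cons 0 x := rfl
  change T (Fin.tail (hyp m x)) + (hyp m x) 0 • w = T x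
  rw [h]
  simp

/-- if the restriction of `E` to a linear subspace of dimension at least two splits, then `E`
splits. -/
theorem splits_of_pull : ∀ (k m n : ℕ) (_ : 2 ≤ m) (_ : m + k = n) (E : Bundle2 n)
    (T : (Fin (m + 1) → ℂ) →ₗ[ℂ] (Fin (n + 1) → ℂ)) (hT : Function.Injective T),
    (E.pull T hT).Splits → E.Splits := by
  intro k
  induction k with
  | zero =>
    intro m n _ hmn E T hT h
    obtain rfl : m = n := by omega
    let T' := LinearEquiv.ofInjectiveEndo T hT
    have h1 : (T' : (Fin (m + 1) → ℂ) →ₗ[ℂ] (Fin (m + 1) → ℂ)) = T := by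
      ext x
      simp [T']
    apply splits_of_pull_equiv E T'
    obtain ⟨p, q, G₁, G₂, h₁, h₂, h₃⟩ := h
    have key : ∀ (d : ℤ) (G : Fin E.a → MvPolynomial (Fin (m + 1)) ℂ),
        (E.pull T hT).IsSection d G → (E.pull T'.toLinearMap T'.injective).IsSection d G := by
      intro d G hG
      refine ⟨hG.1, fun x hx => ?_⟩
      have h4 := hG.2 x hx
      rw [fib_pull] at h4
      have h5 : (E.pull T'.toLinearMap T'.injective).fib x = E.fib (T x) := by
        rw [fib_pull]
        exact congrArg (fun f : (Fin (m + 1) → ℂ) →ₗ[ℂ] (Fin (m + 1) → ℂ) => E.fib (f x)) h1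
      rw [h5]
      exact h4
    exact ⟨p, q, G₁, G₂, key _ _ h₁, key _ _ h₂, h₃⟩
  | succ k ih =>
    intro m n hm hmn E T hT h
    obtain ⟨w, hw⟩ : ∃ w, w ∉ LinearMap.range T := by
      by_contra hcon
      push Not at hcon
      have h1 : LinearMap.range T = ⊤ := by
        rw [eq_top_iff]
        intro x _
        exact hcon x
      have h2 := LinearMap.finrank_range_of_inj hT
      rw [h1, finrank_top] at h2
      simp at h2
      omega
    refine ih (m + 1) n (by omega) (by omega) E (ext1 T w) (ext1_injective T hT w hw) ?_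
    apply horrocks hm
    obtain ⟨p, q, G₁, G₂, h₁, h₂, h₃⟩ := h
    have key : ∀ (d : ℤ) (G : Fin E.a → MvPolynomial (Fin (m + 1)) ℂ),
        (E.pull T hT).IsSection d G →
        ((E.pull (ext1 T w) (ext1_injective T hT w hw)).pull (hyp m)
          (hyp_injective m)).IsSection d G := by
      intro d G hG
      refine ⟨hG.1, fun x hx => ?_⟩
      have h4 := hG.2 x hx
      rw [fib_pull] at h4
      have h5 : ((E.pull (ext1 T w) (ext1_injective T hT w hw)).pull (hyp m)
          (hyp_injective m)).fib x = E.fib (T x) := by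
        rw [fib_pull]
        have h6 := fib_pull E (ext1 T w) (ext1_injective T hT w hw) (hyp m x)
        rw [ext1_hyp] at h6
        exact h6
      rw [h5]
      exact h4
    exact ⟨p, q, G₁, G₂, key _ _ h₁, key _ _ h₂, h₃⟩

/-- The criterion at a point of a linear subspace. -/
theorem main_subspace (E : Bundle2 n) (Λ : Submodule ℂ (Fin (n + 1) → ℂ))
    (hΛ : 3 ≤ Module.finrank ℂ Λ) (P : Fin (n + 1) → ℂ) (hPΛ : P ∈ Λ) (hP : P ≠ 0)
    (h : ∀ Q ∈ Λ, LinearIndependent ℂ ![P, Q] →
      ∃ p q : ℤ, |p - q| + 3 ≤ (Module.finrank ℂ Λ : ℤ) ∧ E.SplitsOn P Q p q) : E.Splits := by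
  obtain ⟨m, hm⟩ : ∃ m, Module.finrank ℂ Λ = m + 1 := ⟨Module.finrank ℂ Λ - 1, by omega⟩
  have hmn : m + 1 ≤ n + 1 := by
    have := Submodule.finrank_le Λ
    rw [hm] at this
    simpa using this
  let e : (Fin (m + 1) → ℂ) ≃ₗ[ℂ] Λ :=
    LinearEquiv.ofFinrankEq (Fin (m + 1) → ℂ) Λ (by rw [hm]; simp)
  let T : (Fin (m + 1) → ℂ) →ₗ[ℂ] (Fin (n + 1) → ℂ) := Λ.subtype ∘ₗ e.toLinearMap
  have hT : Function.Injective T := by
    intro x y hxy
    have h1 : (e x : Fin (n + 1) → ℂ) = e y := hxy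
    exact e.injective (Subtype.ext h1)
  have hTm : ∀ x, T x ∈ Λ := fun x => (e x).2
  have hTe : T (e.symm ⟨P, hPΛ⟩) = P := by simp [T]
  refine splits_of_pull (n - m) m n (by omega) (by omega) E T hT ?_
  refine main_point (by omega) _ (e.symm ⟨P, hPΛ⟩) ?_ ?_
  · intro h0
    rw [h0, map_zero] at hTe
    exact hP hTe.symm
  · intro Q hQ
    have h2 := hQ.map' T (LinearMap.ker_eq_bot.mpr hT)
    have h3 : (T ∘ ![e.symm ⟨P, hPΛ⟩, Q]) = ![P, T Q] := by
      ext i
      fin_cases i
      · simp [hTe]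
      · simp
    rw [h3] at h2
    obtain ⟨p, q, hpq, hs⟩ := h (T Q) (hTm Q) h2
    refine ⟨p, q, ?_, ?_⟩
    · rw [hm] at hpq
      push_cast at hpq
      omega
    · apply splitsOn_pull
      rw [hTe]
      exact hs

end Bundle2

end H960VB
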