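import Pool.Agent.H960R2.VB.CoreGen
import Pool.Agent.H960R2.VB.Main2

open MvPolynomial

namespace H960VB
namespace Bundle2

variable {n : ℕ}

/-- Claim A for a positive gap, with an arbitrary set of local equations. -/
theorem family_gen (E : Bundle2 n) (c₁ : ℤ)
    (P : Fin E.a → Fin E.a → MvPolynomial (Fin (n + 1)) ℂ)
    (hP : ∀ i j, HomZ (P i j) (E.β i + E.β j - c₁))
    (hP0 : ∀ x : Fin (n + 1) → ℂ, x ≠ 0 → ∃ i j, eval x (P i j) ≠ 0)
    (hPw : ∀ x : Fin (n + 1) → ℂ, x ≠ 0 → ∀ u w : Fin E.a → ℂ,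
        (evm E.B x).mulVec u = 0 → (evm E.B x).mulVec w = 0 →
        ∃ κ : ℂ, ∀ i j, u i * w j - u j * w i = κ * eval x (P i j))
    (q p : ℤ) (w : ℕ) (hw : (w : ℤ) = q - p) (hpq : p + q = c₁) (hw1 : 1 ≤ w) (hn : 2 ≤ n)
    (h1 : ∀ v : Fin n → ℂ, v ≠ 0 → E.Hsec (-q - 1) v = ⊥)
    (h2 : ∀ v : Fin n → ℂ, v ≠ 0 → Module.finrank ℂ (E.Hsec (-p - 1) v) = w)
    (v₀ : Fin n → ℂ) (hv₀ : v₀ ≠ 0) (f₀ : Idx E.β (-q) → ℂ) (hf₀ : f₀ ∈ E.Hsec (-q) v₀)
    (hf₀0 : f₀ ≠ 0) {k : ℕ} (hk : k + 2 ≤ n)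
    (dK : Fin k → ℤ) (Th : Fin k → Idx E.β (-p - 1) → MvPolynomial (Fin n) ℂ)
    (hTh : ∀ b x, HomZ (Th b x) (dK b - ((x.2 : ℕ) : ℤ)))
    (hg₀Th : ∀ b, ∑ x, eval v₀ (Th b x) * (E.mt f₀ (w - 1) (-p - 1)) x = 0)
    (hThe : ∀ v : Fin n → ℂ, v ≠ 0 → ∀ g ∈ E.Hsec (-p - 1) v,
      (∀ b, ∑ x, eval v (Th b x) * g x = 0) →
      ∀ b, (∀ b' < b, E.cf g b' = 0) → ∃ ρ : ℂ, E.cf g b = ρ • E.cf f₀ 0) :
    ∃ (F : Idx E.β (-q) → MvPolynomial (Fin n) ℂ) (e₁ : Fin E.a → ℂ),
      (∀ x, HomZ (F x) ((x.2 : ℕ) : ℤ)) ∧ (∀ v : Fin n → ℂ, v ≠ 0 → evv F v ∈ E.Hsec (-q) v) ∧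
      e₁ ≠ 0 ∧ ∀ v : Fin n → ℂ, v ≠ 0 → E.cf (evv F v) 0 = e₁ := by
  classical
  have hv1 : (fun _ : Fin n => (1 : ℂ)) ≠ 0 := by
    intro h
    have := congrFun h ⟨0, by omega⟩
    simp at this
  -- the value at the base point
  have he0 : E.cf f₀ 0 ≠ 0 := by
    intro h
    apply hf₀0
    have h0 : ∀ b' < 1, E.cf f₀ b' = 0 := by
      intro b' hb'
      have : b' = 0 := by omega
      rw [this, h]
    apply eq_zero_of_sh E f₀ 1 (j' := -q - 1) (by push_cast; ring) h0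
    have := sh_mem E v₀ f₀ hf₀ 1 (j' := -q - 1) (by push_cast; ring) h0
    rw [h1 v₀ hv₀] at this
    simpa using this
  obtain ⟨e', μ, lam, _, hμ1, _, hl1, _, hdual⟩ :=
    exists_dual E (E.cf f₀ 0) (cf_zero_mem E v₀ f₀ hf₀) he0
  have hmem : ∀ {j : ℤ} v (g : Idx E.β j → ℂ), (evm (E.fam j) v).mulVec g = 0 ↔ g ∈ E.Hsec j v := by
    intro j v g
    simp [Hsec]
  have hind : ∀ v : Fin n → ℂ, ∀ g ∈ E.Hsec (-p - 1) v, ∀ W : ℕ,
      (∀ b < W, μ ⬝ᵥ E.cf g b = 0) → (∀ b < W, lam ⬝ᵥ E.cf g b = 0) →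
      ∀ b < W, E.cf g b = 0 := by
    intro v g hg W hμg hlg b
    induction b using Nat.strong_induction_on with
    | _ b ih =>
      intro hb
      exact hdual _ (cf_mem E v g hg b (fun b' hb' => ih b' hb' (lt_trans hb' hb)))
        (hμg b hb) (hlg b hb)
  obtain ⟨G, hG, hGM, hGμ⟩ := core_gen hk (fun y : Idx E.γ (-p - 1) => ((y.2 : ℕ) : ℤ))
    (fun x : Idx E.β (-p - 1) => ((x.2 : ℕ) : ℤ)) (E.fam (-p - 1)) (fun y x => E.fam_hom _ y x)
    (by
      intro v hv
      exact h2 v hv)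
    (fun b => E.row (-p - 1) b μ) (fun b => E.row (-p - 1) b lam)
    (by
      intro b x hx
      by_contra h
      apply hx
      unfold row
      rw [if_neg]
      exact_mod_cast h)
    (by
      intro b x hx
      by_contra h
      apply hx
      unfold row
      rw [if_neg]
      exact_mod_cast h)
    (by
      intro v hv g hg hμg hlg
      rw [hmem] at hg
      have h3 : ∀ b < w, E.cf g b = 0 := by
        apply hind v g hg w
        · intro b hb
          rw [← row_sum]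
          exact hμg ⟨b, hb⟩
        · intro b hb
          rw [← row_sum]
          exact hlg ⟨b, hb⟩
      apply eq_zero_of_sh E g w (j' := -q - 1) (by omega) h3
      have := sh_mem E v g hg w (j' := -q - 1) (by omega) h3
      rw [h1 v hv] at this
      simpa using this)
    v₀ hv₀ (E.mt f₀ (w - 1) (-p - 1))
    (by
      rw [hmem]
      exact mt_mem E v₀ f₀ hf₀ (w - 1) (by omega))
    (by
      intro b
      rw [row_sum, cf_mt E f₀ (w - 1) (by omega)]
      by_cases hb : (b : ℕ) + 1 = w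
      · rw [if_pos (by omega), if_pos hb, show (b : ℕ) - (w - 1) = 0 by omega, hμ1]
      · rw [if_neg (by omega), if_neg hb]
        simp)
    (by
      intro b
      rw [row_sum, cf_mt E f₀ (w - 1) (by omega)]
      by_cases hb : (b : ℕ) + 1 = w
      · rw [if_pos (by omega), show (b : ℕ) - (w - 1) = 0 by omega, hl1]
      · rw [if_neg (by omega)]
        simp)
    dK Th hTh hg₀Th
    (by
      intro v hv g hg hμg hThg
      rw [hmem] at hg
      have hvan : ∀ b, b < w - 1 → E.cf g b = 0 := by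
        intro b
        induction b using Nat.strong_induction_on with
        | _ b ih =>
          intro hb
          obtain ⟨ρ, hρ⟩ := hThe v hv g hg hThg b (fun b' hb' => ih b' hb' (lt_trans hb' hb))
          have h5 := hμg ⟨b, by omega⟩
          rw [row_sum] at h5
          simp only at h5
          rw [if_neg (by omega), hρ, dotProduct_smul, hμ1, smul_eq_mul, mul_one] at h5
          rw [hρ, h5, zero_smul]
      rintro ⟨b, hb⟩
      rw [row_sum]
      simp only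
      rcases Nat.lt_or_ge b (w - 1) with hb' | hb'
      · rw [hvan b hb', dotProduct_zero]
      · have hbw : b = w - 1 := by omega
        obtain ⟨ρ, hρ⟩ := hThe v hv g hg hThg b (fun b' hb'' => hvan b' (by omega))
        rw [hρ, dotProduct_smul, hl1, smul_zero])
    (by
      intro v hv g hg hμg hlg g' hg' hμg'
      rw [hmem] at hg hg'
      have h3 : ∀ b < w - 1, E.cf g b = 0 := by
        apply hind v g hg (w - 1)
        · intro b hb
          rw [← row_sum]
          have := hμg ⟨b, by omega⟩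
          rw [this, if_neg]
          simp only
          omega
        · intro b hb
          rw [← row_sum]
          exact hlg ⟨b, by omega⟩
      have hf : E.sh g (w - 1) (-q) ∈ E.Hsec (-q) v :=
        sh_mem E v g hg (w - 1) (by omega) h3
      have hf1 : μ ⬝ᵥ E.cf (E.sh g (w - 1) (-q)) 0 = 1 := by
        rw [cf_zero_sh E g (w - 1) (by omega), ← row_sum]
        have := hμg ⟨w - 1, by omega⟩
        rw [this, if_pos]
        simp only
        omega
      obtain ⟨h, hh, hw'⟩ := wedge E c₁ P hP hP0 hPw v hv (-q) (-p - 1) _ hf g' hg'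
      have hh0 : h = 0 := HomZ.eq_zero_of_neg hh (by omega)
      refine inj_lemma E v (j' := -q - 1) _ g' hg' μ hf1 ?_ w (by omega) (h1 v hv) ?_
      · intro z i k
        rw [hw' z i k, hh0]
        simp
      · intro b hb
        rw [← row_sum]
        exact hμg' ⟨b, hb⟩)
  -- the shifted family
  have hGm : ∀ v : Fin n → ℂ, evv G v ∈ E.Hsec (-p - 1) v := by
    intro v
    rw [← hmem]
    ext y
    have := congrArg (eval v) (congrFun hGM y)
    simp only [Matrix.mulVec, dotProduct, map_sum, map_mul, Pi.zero_apply, map_zero] at this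
    simpa [Matrix.mulVec, dotProduct, evm, evv] using this
  have hcf0 : ∀ (v : Fin n → ℂ), ∀ b < w - 1, E.cf (evv G v) b = 0 := by
    intro v b hb
    ext i
    by_cases hbi : b < (E.β i + (-p - 1) + 1).toNat
    · have h5 : E.cf (evv G v) b i = evv G v ⟨i, ⟨b, hbi⟩⟩ := dif_pos hbi
      rw [h5]
      have h6 : G ⟨i, ⟨b, hbi⟩⟩ = 0 := HomZ.eq_zero_of_neg (hG ⟨i, ⟨b, hbi⟩⟩) (by simp only; omega)
      simp [evv, h6]
    · exact dif_neg hbi
  have hconst : ∀ (v v' : Fin n → ℂ), E.cf (evv G v) (w - 1) = E.cf (evv G v') (w - 1) := by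
    intro v v'
    ext i
    by_cases hbi : w - 1 < (E.β i + (-p - 1) + 1).toNat
    · have h5 : ∀ v, E.cf (evv G v) (w - 1) i = evv G v ⟨i, ⟨w - 1, hbi⟩⟩ := fun v => dif_pos hbi
      rw [h5, h5]
      have h6 := hG ⟨i, ⟨w - 1, hbi⟩⟩
      have h7 : ((((⟨i, ⟨w - 1, hbi⟩⟩ : Idx E.β (-p - 1)).2 : ℕ) : ℤ) - (w - 1 : ℤ)) = 0 := by
        simp only
        omega
      rw [h7] at h6
      exact HomZ.eval_const h6 v v'
    · have h5 : ∀ v, E.cf (evv G v) (w - 1) i = 0 := fun v => dif_neg hbi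
      rw [h5, h5]
  let F : Idx E.β (-q) → MvPolynomial (Fin n) ℂ := fun x =>
    if h : (x.2 : ℕ) + (w - 1) < (E.β x.1 + (-p - 1) + 1).toNat then
      G ⟨x.1, ⟨(x.2 : ℕ) + (w - 1), h⟩⟩ else 0
  have hFev : ∀ v, evv F v = E.sh (evv G v) (w - 1) (-q) := by
    intro v
    ext x
    simp only [evv, F, sh, cf]
    split_ifs <;> simp
  refine ⟨F, E.cf (evv G fun _ => 1) (w - 1), ?_, ?_, ?_, ?_⟩
  · intro x
    simp only [F]
    split_ifs with h
    · have h6 := hG ⟨x.1, ⟨(x.2 : ℕ) + (w - 1), h⟩⟩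
      have h7 : ((((⟨x.1, ⟨(x.2 : ℕ) + (w - 1), h⟩⟩ : Idx E.β (-p - 1)).2 : ℕ) : ℤ) - (w - 1 : ℤ))
          = ((x.2 : ℕ) : ℤ) := by
        simp only
        omega
      rwa [h7] at h6
    · left; rfl
  · intro v _
    rw [hFev]
    exact sh_mem E v _ (hGm v) (w - 1) (by omega) (hcf0 v)
  · intro h0
    have h3 := congrArg (eval (fun _ => (1 : ℂ))) (hGμ ⟨w - 1, by omega⟩)
    have h4 : ∑ x, E.row (-p - 1) (w - 1) μ x * (evv G fun _ => 1) x = 1 := by
      have h5 : eval (fun _ => (1 : ℂ)) (if ((⟨w - 1, by omega⟩ : Fin w) : ℕ) + 1 = w then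
          (1 : MvPolynomial (Fin n) ℂ) else 0) = 1 := by
        rw [if_pos]
        · simp
        · simp only
          omega
      rw [h5] at h3
      simpa [map_sum, evv] using h3
    rw [row_sum, h0] at h4
    simp at h4
  · intro v _
    rw [hFev, cf_zero_sh E _ (w - 1) (by omega)]
    exact hconst v _

end Bundle2
end H960VB
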