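import Pool.Agent.H960R2.VB.Defs

/-! Restriction of a rank two bundle along an injective linear map (linear subspace, or a linear
change of coordinates). -/

open MvPolynomial

namespace H960VB

variable {m n : ℕ}

/-- substitution of the linear forms given by `T`. -/
noncomputable def lsub (T : (Fin (m + 1) → ℂ) →ₗ[ℂ] (Fin (n + 1) → ℂ)) :
    MvPolynomial (Fin (n + 1)) ℂ →ₐ[ℂ] MvPolynomial (Fin (m + 1)) ℂ :=
  aeval (fun s => ∑ t, C (T (Pi.single t 1) s) * X t)

theorem eval_lsub (T : (Fin (m + 1) → ℂ) →ₗ[ℂ] (Fin (n + 1) → ℂ)) (x : Fin (m + 1) → ℂ)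
    (p : MvPolynomial (Fin (n + 1)) ℂ) : eval x (lsub T p) = eval (T x) p := by
  have hx : ∀ s, eval x (∑ t, C (T (Pi.single t 1) s) * X t : MvPolynomial (Fin (m+1)) ℂ)
      = T x s := by
    intro s
    have h1 : x = ∑ t, x t • (Pi.single t 1 : Fin (m + 1) → ℂ) := by
      ext k
      simp [Finset.sum_apply, Pi.single_apply]
    conv_rhs => rw [h1, map_sum, Finset.sum_apply]
    simp [mul_comm]
  have h2 : ((aeval x : MvPolynomial (Fin (m+1)) ℂ →ₐ[ℂ] ℂ).comp (lsub T)) =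
      (aeval (T x) : MvPolynomial (Fin (n+1)) ℂ →ₐ[ℂ] ℂ) := by
    apply MvPolynomial.algHom_ext
    intro s
    simp only [AlgHom.comp_apply, lsub, aeval_X]
    rw [← hx s]
    simp [MvPolynomial.aeval_eq_eval]
  have h3 := congrArg (fun f => f p) h2
  simpa [MvPolynomial.aeval_eq_eval] using h3

theorem homZ_lsub (T : (Fin (m + 1) → ℂ) →ₗ[ℂ] (Fin (n + 1) → ℂ))
    {p : MvPolynomial (Fin (n + 1)) ℂ} {d : ℤ} (hp : HomZ p d) : HomZ (lsub T p) d := by
  rcases hp with rfl | ⟨k, hk, hp⟩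
  · left; simp
  · right
    refine ⟨k, hk, ?_⟩
    have h := hp.aeval (n := 1) (fun s => ∑ t, C (T (Pi.single t 1) s) * X t) (fun s => by
      apply IsHomogeneous.sum
      intro t _
      simpa using (isHomogeneous_C (Fin (m+1)) (T (Pi.single t 1) s)).mul (isHomogeneous_X ℂ t))
    simpa [lsub] using h

namespace Bundle2

/-- the restriction of `E` along the injective linear map `T`. -/
noncomputable def pull (E : Bundle2 n) (T : (Fin (m + 1) → ℂ) →ₗ[ℂ] (Fin (n + 1) → ℂ))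
    (hT : Function.Injective T) : Bundle2 m where
  a := E.a
  c := E.c
  β := E.β
  γ := E.γ
  B := E.B.map (lsub T)
  hom := fun k i => homZ_lsub T (E.hom k i)
  rank_two := by
    intro x hx
    have h : evm (E.B.map (lsub T)) x = evm E.B (T x) := by
      ext k i
      simp [evm, eval_lsub]
    rw [h]
    exact E.rank_two (T x) (fun h0 => hx (hT (by simpa using h0)))

theorem evm_pull (E : Bundle2 n) (T : (Fin (m + 1) → ℂ) →ₗ[ℂ] (Fin (n + 1) → ℂ))
    (hT : Function.Injective T) (x : Fin (m + 1) → ℂ) :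
    evm (E.pull T hT).B x = evm E.B (T x) := by
  ext k i
  exact eval_lsub T x (E.B k i)

theorem fib_pull (E : Bundle2 n) (T : (Fin (m + 1) → ℂ) →ₗ[ℂ] (Fin (n + 1) → ℂ))
    (hT : Function.Injective T) (x : Fin (m + 1) → ℂ) :
    (E.pull T hT).fib x = E.fib (T x) := by
  unfold fib
  rw [evm_pull]
  rfl

theorem splitsOn_pull (E : Bundle2 n) (T : (Fin (m + 1) → ℂ) →ₗ[ℂ] (Fin (n + 1) → ℂ))
    (hT : Function.Injective T) (P Q : Fin (m + 1) → ℂ) (p q : ℤ)
    (h : E.SplitsOn (T P) (T Q) p q) : (E.pull T hT).SplitsOn P Q p q := by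
  obtain ⟨g₁, g₂, h₁, h₂, h₃⟩ := h
  refine ⟨g₁, g₂, h₁, h₂, fun z hz => ?_⟩
  obtain ⟨h4, h5, h6⟩ := h₃ z hz
  have hx : T (z 0 • P + z 1 • Q) = z 0 • T P + z 1 • T Q := by simp
  refine ⟨?_, ?_, h6⟩
  · rw [fib_pull, hx]; exact h4
  · rw [fib_pull, hx]; exact h5

theorem splits_of_pull_equiv (E : Bundle2 n)
    (T : (Fin (n + 1) → ℂ) ≃ₗ[ℂ] (Fin (n + 1) → ℂ))
    (h : (E.pull T.toLinearMap T.injective).Splits) : E.Splits := by
  obtain ⟨p, q, G₁, G₂, h₁, h₂, h₃⟩ := h
  have key : ∀ (d : ℤ) (G : Fin E.a → MvPolynomial (Fin (n + 1)) ℂ),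
      (E.pull T.toLinearMap T.injective).IsSection d G →
      E.IsSection d (fun i => lsub T.symm.toLinearMap (G i)) := by
    intro d G hG
    refine ⟨fun i => homZ_lsub _ (hG.1 i), fun x hx => ?_⟩
    have hx' : T.symm x ≠ 0 := by simpa using hx
    have h4 := hG.2 (T.symm x) hx'
    rw [fib_pull] at h4
    have h5 : T.toLinearMap (T.symm x) = x := by simp
    rw [h5] at h4
    have h6 : evv (fun i => lsub T.symm.toLinearMap (G i)) x = evv G (T.symm x) := by
      ext i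
      simp [evv, eval_lsub]
    rw [h6]
    exact h4
  refine ⟨p, q, _, _, key _ _ h₁, key _ _ h₂, fun x hx => ?_⟩
  have hx' : T.symm x ≠ 0 := by simpa using hx
  have h6 : ∀ G : Fin E.a → MvPolynomial (Fin (n + 1)) ℂ,
      evv (fun i => lsub T.symm.toLinearMap (G i)) x = evv G (T.symm x) := by
    intro G
    ext i
    simp [evv, eval_lsub]
  have h7 := h₃ _ hx'
  have h8 : evv (fun i => lsub T.symm.toLinearMap (G₁ i)) x = evv G₁ (T.symm x) := h6 G₁
  have h9 : evv (fun i => lsub T.symm.toLinearMap (G₂ i)) x = evv G₂ (T.symm x) := h6 G₂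
  exact (congrArg₂ (fun a b => LinearIndependent ℂ ![a, b]) h8 h9).mpr h7

/-- the inclusion of the hyperplane `x 0 = 0`. -/
noncomputable def hyp (n : ℕ) : (Fin (n + 1) → ℂ) →ₗ[ℂ] (Fin (n + 1 + 1) → ℂ) where
  toFun x := Fin.cons 0 x
  map_add' x y := by
    ext i
    refine Fin.cases ?_ (fun i => ?_) i <;> simp
  map_smul' c x := by
    ext i
    refine Fin.cases ?_ (fun i => ?_) i <;> simp

theorem hyp_injective (n : ℕ) : Function.Injective (hyp n) := by
  intro x y h
  have h' : (Fin.cons 0 x : Fin (n + 2) → ℂ) = Fin.cons 0 y := h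
  exact (Fin.cons_injective2 h').2

end Bundle2

end H960VB
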