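import Pool.Agent.H960R2.VB.LineOps
import Pool.Agent.H960R2.VB.Pull

/-! The pointwise splitting criterion: final assembly. -/

open MvPolynomial

namespace H960VB
namespace Bundle2

variable {n : ℕ}

/-- the row functional picking `μ` of the coefficient of order `b`. -/
def row (E : Bundle2 n) (j : ℤ) (b : ℕ) (μ : Fin E.a → ℂ) : Idx E.β j → ℂ :=
  fun x => if (x.2 : ℕ) = b then μ x.1 else 0

theorem row_sum (E : Bundle2 n) {j : ℤ} (b : ℕ) (μ : Fin E.a → ℂ) (g : Idx E.β j → ℂ) :
    ∑ x, E.row j b μ x * g x = μ ⬝ᵥ E.cf g b := by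
  rw [Fintype.sum_sigma]
  unfold dotProduct
  apply Finset.sum_congr rfl
  intro i _
  unfold row cf
  by_cases h : b < (E.β i + j + 1).toNat
  · rw [dif_pos h]
    rw [Finset.sum_eq_single ⟨b, h⟩]
    · simp
    · intro b' _ hb'
      have : (b' : ℕ) ≠ b := fun h1 => hb' (Fin.ext h1)
      simp [this]
    · intro h1
      exact absurd (Finset.mem_univ _) h1
  · rw [dif_neg h, mul_zero]
    apply Finset.sum_eq_zero
    intro b' _
    have : (b' : ℕ) ≠ b := fun h1 => h (h1 ▸ b'.2)
    simp [this]

/-- polynomial families of sections. -/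
theorem sec_family (hn : 2 ≤ n) (E : Bundle2 n) (j : ℤ) {N : ℕ} (bs : Fin N → ℕ)
    (φ : Fin N → Fin E.a → ℂ) (t : Fin N → ℂ) (e : ℕ) (ht : ∀ s, t s ≠ 0 → bs s = e)
    (hinj : ∀ v : Fin n → ℂ, v ≠ 0 → ∀ g ∈ E.Hsec j v,
      (∀ s, φ s ⬝ᵥ E.cf g (bs s) = 0) → g = 0)
    (hdim : ∀ v : Fin n → ℂ, v ≠ 0 → Module.finrank ℂ (E.Hsec j v) = N) :
    ∃ F : Idx E.β j → MvPolynomial (Fin n) ℂ,
      (∀ x, HomZ (F x) (((x.2 : ℕ) : ℤ) - e)) ∧
      ∀ v : Fin n → ℂ, v ≠ 0 → evv F v ∈ E.Hsec j v ∧
        ∀ s, φ s ⬝ᵥ E.cf (evv F v) (bs s) = t s := by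
  classical
  let S : Matrix (Idx E.γ j ⊕ Fin N) (Idx E.β j) (MvPolynomial (Fin n) ℂ) := fun y x =>
    Sum.elim (fun y => E.fam j y x) (fun s => C (E.row j (bs s) (φ s) x)) y
  let r : Idx E.γ j ⊕ Fin N → MvPolynomial (Fin n) ℂ := Sum.elim (fun _ => 0) (fun s => C (t s))
  have hSl : ∀ v (g : Idx E.β j → ℂ) y, (evm S v).mulVec g (Sum.inl y) =
      (evm (E.fam j) v).mulVec g y := by
    intro v g y
    rfl
  have hSr : ∀ v (g : Idx E.β j → ℂ) s, (evm S v).mulVec g (Sum.inr s) =
      φ s ⬝ᵥ E.cf g (bs s) := by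
    intro v g s
    rw [← row_sum]
    unfold Matrix.mulVec
    unfold dotProduct
    apply Finset.sum_congr rfl
    intro x _
    have h5 : evm S v (Sum.inr s) x = E.row j (bs s) (φ s) x := by
      change eval v (C (E.row j (bs s) (φ s) x)) = _
      simp
    exact congrArg (· * g x) h5
  have hmem : ∀ v (g : Idx E.β j → ℂ), g ∈ E.Hsec j v ↔ (evm (E.fam j) v).mulVec g = 0 := by
    intro v g
    simp [Hsec]
  have hSinj : ∀ v : Fin n → ℂ, v ≠ 0 → ∀ g : Idx E.β j → ℂ, (evm S v).mulVec g = 0 → g = 0 := by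
    intro v hv g hg
    apply hinj v hv g
    · rw [hmem]
      ext y
      rw [← hSl, hg]
      rfl
    · intro s
      rw [← hSr v, hg]
      rfl
  have hSsol : ∀ v : Fin n → ℂ, v ≠ 0 → ∃ g : Idx E.β j → ℂ, (evm S v).mulVec g = evv r v := by
    intro v hv
    let L : E.Hsec j v →ₗ[ℂ] (Fin N → ℂ) :=
      { toFun := fun g s => φ s ⬝ᵥ E.cf (g : Idx E.β j → ℂ) (bs s)
        map_add' := by
          intro g g'
          ext s
          simp only [← row_sum, Submodule.coe_add, Pi.add_apply, mul_add, Finset.sum_add_distrib]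
        map_smul' := by
          intro c g
          ext s
          simp only [← row_sum, Submodule.coe_smul, Pi.smul_apply, smul_eq_mul, RingHom.id_apply,
            Finset.mul_sum]
          apply Finset.sum_congr rfl
          intro x _
          ring }
    have hLinj : Function.Injective L := by
      rw [injective_iff_map_eq_zero]
      intro g hg
      have := hinj v hv g g.2 (fun s => congrFun hg s)
      exact Subtype.ext this
    have hLsurj : Function.Surjective L := by
      rw [← LinearMap.injective_iff_surjective_of_finrank_eq_finrank]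
      · exact hLinj
      · rw [hdim v hv]; simp
    obtain ⟨g, hg⟩ := hLsurj t
    refine ⟨g, ?_⟩
    ext y
    rcases y with y | s
    · rw [hSl, (hmem v _).mp g.2]
      simp [evv, r]
    · rw [hSr]
      have := congrFun hg s
      simp [evv, r]
      exact this
  obtain ⟨F, hF⟩ := hartogs hn S r hSinj hSsol
  have hhom := hartogs_hom (by omega) S r
    (Sum.elim (fun y => ((y.2 : ℕ) : ℤ)) (fun s => (bs s : ℤ))) (fun x => ((x.2 : ℕ) : ℤ)) e
    (by
      intro y x
      rcases y with y | s
      · exact E.fam_hom j y x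
      · simp only [S, Sum.elim_inr, row]
        split_ifs with h
        · right
          refine ⟨0, by simp [h], isHomogeneous_C _ _⟩
        · left; simp)
    (by
      intro y
      rcases y with y | s
      · left; rfl
      · by_cases h : t s = 0
        · left; simp [r, h]
        · right
          refine ⟨0, by simp [ht s h], ?_⟩
          exact isHomogeneous_C _ _)
    hSinj F hF
  refine ⟨F, hhom, fun v hv => ?_⟩
  have hev : (evm S v).mulVec (evv F v) = evv r v := by
    ext y
    have := congrArg (eval v) (congrFun hF y)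
    simp only [Matrix.mulVec, dotProduct, map_sum, map_mul] at this
    simpa [Matrix.mulVec, dotProduct, evm, evv] using this
  refine ⟨?_, ?_⟩
  · rw [hmem]
    ext y
    rw [← hSl, hev]
    simp [evv, r]
  · intro s
    rw [← hSr v, hev]
    simp [evv, r]

/-- the key injectivity lemma. -/
theorem inj_lemma (E : Bundle2 n) (v : Fin n → ℂ) {j₁ j j' : ℤ} (f : Idx E.β j₁ → ℂ)
    (g : Idx E.β j → ℂ) (hg : g ∈ E.Hsec j v) (μ : Fin E.a → ℂ) (hμ : μ ⬝ᵥ E.cf f 0 = 1)
    (hw : ∀ (z : Fin 2 → ℂ) (i k : Fin E.a),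
      E.lev f z i * E.lev g z k - E.lev f z k * E.lev g z i = 0)
    (W : ℕ) (hW : j' + W = j) (hbot : E.Hsec j' v = ⊥) (hμg : ∀ b < W, μ ⬝ᵥ E.cf g b = 0) :
    g = 0 := by
  have key : ∀ b, b < W → E.cf g b = 0 := by
    intro b
    induction b using Nat.strong_induction_on with
    | _ b ih =>
      intro hb
      have h0 : ∀ b' < b, E.cf g b' = 0 := fun b' hb' => ih b' hb' (lt_trans hb' hb)
      have hj : (j - b) + (b : ℤ) = j := by ring
      have h1 : ∀ i k, (fun z => E.lev f z i * E.lev (E.sh g b (j - b)) z k -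
          E.lev f z k * E.lev (E.sh g b (j - b)) z i) = fun _ => (0 : ℂ) := by
        intro i k
        have hci : ∀ {j : ℤ} (g : Idx E.β j → ℂ) (i : Fin E.a), Continuous fun z => E.lev g z i :=
          fun g i => (continuous_apply i).comp (continuous_lev E g)
        apply eq_of_eq_off
        · exact ((hci f i).mul (hci _ k)).sub ((hci f k).mul (hci _ i))
        · fun_prop
        · intro z hz
          have h2 := hw z i k
          rw [lev_shift E g b hj h0, lev_shift E g b hj h0] at h2
          have h3 : z 1 ^ b * (E.lev f z i * E.lev (E.sh g b (j - b)) z k -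
            E.lev f z k * E.lev (E.sh g b (j - b)) z i) = 0 := by
            rw [← h2]; ring
          rcases mul_eq_zero.mp h3 with h4 | h4
          · exact absurd h4 (pow_ne_zero _ hz)
          · exact h4
      have hlev : ∀ {j : ℤ} (g : Idx E.β j → ℂ) i, E.lev g ![1, 0] i = E.cf g 0 i := by
        intro j g i
        rw [lev_at_zero E g _ (by simp)]
        simp
      have h5 : ∀ i k, E.cf f 0 i * E.cf g b k - E.cf f 0 k * E.cf g b i = 0 := by
        intro i k
        have := congrFun (h1 i k) ![1, 0]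
        simp only [hlev, cf_zero_sh E g b hj] at this
        exact this
      ext k
      have h6 : ∑ i, μ i * (E.cf f 0 i * E.cf g b k - E.cf f 0 k * E.cf g b i) = 0 := by
        apply Finset.sum_eq_zero
        intro i _
        rw [h5, mul_zero]
      have h7 : ∑ i, μ i * (E.cf f 0 i * E.cf g b k - E.cf f 0 k * E.cf g b i) =
          (μ ⬝ᵥ E.cf f 0) * E.cf g b k - E.cf f 0 k * (μ ⬝ᵥ E.cf g b) := by
        simp only [dotProduct, Finset.sum_mul, Finset.mul_sum, ← Finset.sum_sub_distrib]
        apply Finset.sum_congr rfl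
        intro i _
        ring
      rw [h7, hμ, hμg b hb] at h6
      simpa using h6
  apply eq_zero_of_sh E g W hW key
  have := sh_mem E v g hg W hW key
  rw [hbot] at this
  simpa using this

/-- dual functionals at the base point. -/
theorem exists_dual (E : Bundle2 n) (e : Fin E.a → ℂ) (he : e ∈ E.fib (Fin.cons 1 0))
    (he0 : e ≠ 0) : ∃ (e' : Fin E.a → ℂ) (μ lam : Fin E.a → ℂ), e' ∈ E.fib (Fin.cons 1 0) ∧
      μ ⬝ᵥ e = 1 ∧ μ ⬝ᵥ e' = 0 ∧ lam ⬝ᵥ e = 0 ∧ lam ⬝ᵥ e' = 1 ∧
      ∀ u ∈ E.fib (Fin.cons 1 0), μ ⬝ᵥ u = 0 → lam ⬝ᵥ u = 0 → u = 0 := by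
  classical
  have hx : (Fin.cons 1 0 : Fin (n + 1) → ℂ) ≠ 0 := by
    intro h
    have := congrFun h 0
    simp at this
  have hr : Module.finrank ℂ (E.fib (Fin.cons 1 0)) = 2 := E.rank_two _ hx
  -- a second vector
  obtain ⟨e', he', hind⟩ : ∃ e' ∈ E.fib (Fin.cons 1 0), LinearIndependent ℂ ![e, e'] := by
    by_contra hcon
    push Not at hcon
    have h1 : E.fib (Fin.cons 1 0) ≤ Submodule.span ℂ {e} := by
      intro u hu
      have h2 := hcon u hu
      rw [LinearIndependent.pair_iff' he0] at h2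
      push Not at h2
      obtain ⟨a, ha⟩ := h2
      exact Submodule.mem_span_singleton.mpr ⟨a, ha⟩
    have h3 := Submodule.finrank_mono h1
    have h4 : Module.finrank ℂ (Submodule.span ℂ {e}) ≤ 1 := finrank_span_singleton (K := ℂ) he0 |>.le
    omega
  -- the parametrisation
  let T : (Fin 2 → ℂ) →ₗ[ℂ] (Fin E.a → ℂ) := Fintype.linearCombination ℂ ![e, e']
  have hT : LinearMap.ker T = ⊥ := by
    rw [LinearMap.ker_eq_bot]
    exact linearIndependent_iff_injective_fintypeLinearCombination.mp hind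
  obtain ⟨S, hS⟩ := T.exists_leftInverse_of_injective hT
  have hTe : T ![1, 0] = e := by
    simp [T, Fintype.linearCombination_apply, Fin.sum_univ_two]
  have hTe' : T ![0, 1] = e' := by
    simp [T, Fintype.linearCombination_apply, Fin.sum_univ_two]
  have hSe : S e = ![1, 0] := by
    rw [← hTe, ← LinearMap.comp_apply, hS]; rfl
  have hSe' : S e' = ![0, 1] := by
    rw [← hTe', ← LinearMap.comp_apply, hS]; rfl
  have hdot : ∀ (s : Fin 2) (u : Fin E.a → ℂ), (fun i => S (Pi.single i 1) s) ⬝ᵥ u = S u s := by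
    intro s u
    have h1 : u = ∑ i, u i • (Pi.single i 1 : Fin E.a → ℂ) := by
      ext k
      simp [Finset.sum_apply, Pi.single_apply]
    conv_rhs => rw [h1, map_sum, Finset.sum_apply]
    simp only [dotProduct, map_smul, Pi.smul_apply, smul_eq_mul]
    apply Finset.sum_congr rfl
    intro i _
    ring
  refine ⟨e', fun i => S (Pi.single i 1) 0, fun i => S (Pi.single i 1) 1, he', ?_, ?_, ?_, ?_, ?_⟩
  · rw [hdot, hSe]; simp
  · rw [hdot, hSe']; simp
  · rw [hdot, hSe]; simp
  · rw [hdot, hSe']; simp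
  · intro u hu h1 h2
    rw [hdot] at h1 h2
    have hsp : Submodule.span ℂ {e, e'} = E.fib (Fin.cons 1 0) := by
      apply Submodule.eq_of_le_of_finrank_eq
      · rw [Submodule.span_le]
        rintro x (rfl | rfl)
        · exact he
        · exact he'
      · rw [hr]
        have h3 := finrank_span_eq_card hind
        have h4 : Set.range ![e, e'] = {e, e'} := by
          simp [Set.pair_comm]
        rw [h4] at h3
        simpa using h3
    rw [← hsp] at hu
    obtain ⟨a, b, rfl⟩ := Submodule.mem_span_pair.mp hu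
    simp only [map_add, map_smul, hSe, hSe'] at h1 h2
    simp at h1 h2
    rw [h1, h2]
    simp

end Bundle2
end H960VB
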