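import Pool.Agent.H960R2.VB.LineOps

/-! Globalisation of polynomial families of sections on the lines through the base point. -/

open MvPolynomial

namespace H960VB
namespace Bundle2

variable {n : ℕ}

theorem cf_mt (E : Bundle2 n) {j j' : ℤ} (g : Idx E.β j → ℂ) (b : ℕ) (hj : j + b = j') (m : ℕ) :
    E.cf (E.mt g b j') m = if b ≤ m then E.cf g (m - b) else 0 := by
  ext i
  by_cases h : m < (E.β i + j' + 1).toNat
  · have h5 : E.cf (E.mt g b j') m i = E.mt g b j' ⟨i, ⟨m, h⟩⟩ := dif_pos h
    rw [h5]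
    unfold mt
    simp only
    split_ifs <;> rfl
  · have h5 : E.cf (E.mt g b j') m i = 0 := dif_neg h
    rw [h5]
    split_ifs with h1
    · symm
      exact dif_neg (by omega)
    · rfl

theorem HomZ.eq_zero_of_neg {σ : Type*} {p : MvPolynomial σ ℂ} {d : ℤ} (h : HomZ p d)
    (hd : d < 0) : p = 0 := by
  rcases h with h | ⟨k, hk, _⟩
  · exact h
  · omega

theorem HomZ.eval_zero {σ : Type*} {p : MvPolynomial σ ℂ} {d : ℤ} (h : HomZ p d)
    (hd : 0 < d) : eval 0 p = 0 := by
  rcases h with h | ⟨k, hk, hp⟩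
  · rw [h]; simp
  · have h2 : constantCoeff p = 0 := by
      rw [constantCoeff_eq]
      exact hp.coeff_eq_zero (by simp; omega)
    rw [← h2]
    rw [MvPolynomial.eval_zero]

theorem HomZ.eval_const {σ : Type*} {p : MvPolynomial σ ℂ} (h : HomZ p 0) (x y : σ → ℂ) :
    eval x p = eval y p := by
  rcases h with h | ⟨k, hk, hp⟩
  · rw [h]; simp
  · have hk0 : k = 0 := by omega
    subst hk0
    have h1 : p = C (coeff 0 p) := by
      rw [← totalDegree_eq_zero_iff_eq_C]
      exact Nat.le_zero.mp (hp.totalDegree_le)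
    rw [h1]; simp

/-- the polynomial vector on `ℂ^{n+1}` with restriction `F(v)` to the line in direction `v`. -/
noncomputable def glob (E : Bundle2 n) {j : ℤ} (F : Idx E.β j → MvPolynomial (Fin n) ℂ) :
    Fin E.a → MvPolynomial (Fin (n + 1)) ℂ := fun i =>
  ∑ b : Fin (E.β i + j + 1).toNat,
    X 0 ^ ((E.β i + j).toNat - (b : ℕ)) * rename Fin.succ (F ⟨i, b⟩)

theorem eval_glob (E : Bundle2 n) {j : ℤ} (F : Idx E.β j → MvPolynomial (Fin n) ℂ)
    (x0 : ℂ) (y : Fin n → ℂ) :
    evv (E.glob F) (Fin.cons x0 y) = E.lev (evv F y) ![x0, 1] := by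
  ext i
  unfold glob lev evv
  simp only [map_sum, map_mul, map_pow, eval_X, Fin.cons_zero, eval_rename]
  apply Finset.sum_congr rfl
  intro b _
  have : ((Fin.cons x0 y : Fin (n + 1) → ℂ) ∘ Fin.succ) = y := by
    ext k; simp
  rw [this]
  simp
  ring

theorem glob_hom (E : Bundle2 n) {j : ℤ} (F : Idx E.β j → MvPolynomial (Fin n) ℂ)
    (hF : ∀ x, HomZ (F x) ((x.2 : ℕ) : ℤ)) (i : Fin E.a) : HomZ (E.glob F i) (E.β i + j) := by
  by_cases hneg : E.β i + j < 0
  · left
    unfold glob
    apply Finset.sum_eq_zero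
    intro b _
    have := b.2
    omega
  · right
    refine ⟨(E.β i + j).toNat, by omega, ?_⟩
    unfold glob
    apply IsHomogeneous.sum
    intro b _
    have hb := b.2
    have h1 : (F ⟨i, b⟩).IsHomogeneous (b : ℕ) := by
      rcases hF ⟨i, b⟩ with h | ⟨k, hk, h⟩
      · rw [h]; exact isHomogeneous_zero _ _ _
      · have : k = (b : ℕ) := by exact_mod_cast hk
        rw [← this]; exact h
    have h2 := (isHomogeneous_X_pow (R := ℂ) (0 : Fin (n+1)) ((E.β i + j).toNat - (b : ℕ))).mul
      (h1.rename_isHomogeneous (f := Fin.succ))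
    have h3 : (E.β i + j).toNat - (b : ℕ) + (b : ℕ) = (E.β i + j).toNat := by omega
    rwa [h3] at h2

/-- every point is on a line through the base point, and the globalisation restricts correctly. -/
theorem glob_point (hn : 1 ≤ n) (E : Bundle2 n) (x : Fin (n + 1) → ℂ) (hx : x ≠ 0) :
    ∃ (v : Fin n → ℂ) (z : Fin 2 → ℂ), v ≠ 0 ∧ z ≠ 0 ∧ lpt v z = x ∧
      ∀ {j : ℤ} (F : Idx E.β j → MvPolynomial (Fin n) ℂ), (∀ x, HomZ (F x) ((x.2 : ℕ) : ℤ)) →
        evv (E.glob F) x = E.lev (evv F v) z := by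
  have hxc : x = Fin.cons (x 0) (fun i => x i.succ) := by
    ext i
    refine Fin.cases ?_ (fun i => ?_) i <;> simp
  by_cases hy : (fun i : Fin n => x i.succ) = 0
  · refine ⟨fun _ => 1, ![x 0, 0], ?_, ?_, ?_, ?_⟩
    · intro h
      have := congrFun h ⟨0, by omega⟩
      simp at this
    · intro h
      apply hx
      have h0 : x 0 = 0 := by simpa using congrFun h 0
      rw [hxc, hy, h0]
      ext i
      refine Fin.cases ?_ (fun i => ?_) i <;> simp
    · rw [hxc, hy]
      unfold lpt
      simp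
    · intro j F hF
      rw [hxc, hy, eval_glob]
      ext i
      rw [lev_at_zero E (evv F fun _ => 1) _ (by simp)]
      rw [lev_eq]
      have h1 : ∀ b, E.cf (evv F 0) b i = if b = 0 then E.cf (evv F fun _ => 1) 0 i else 0 := by
        intro b
        by_cases hb : b < (E.β i + j + 1).toNat
        · have h5 : E.cf (evv F 0) b i = evv F 0 ⟨i, ⟨b, hb⟩⟩ := dif_pos hb
          rw [h5]
          by_cases hb0 : b = 0
          · subst hb0
            rw [if_pos rfl]
            have h6 : E.cf (evv F fun _ => 1) 0 i = (evv F fun _ => 1) ⟨i, ⟨0, hb⟩⟩ := dif_pos hb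
            rw [h6]
            exact HomZ.eval_const (by simpa using hF ⟨i, ⟨0, hb⟩⟩) _ _
          · rw [if_neg hb0]
            exact HomZ.eval_zero (hF ⟨i, ⟨b, hb⟩⟩) (by simp; omega)
        · have h5 : E.cf (evv F 0) b i = 0 := dif_neg hb
          rw [h5]
          split_ifs with hb0
          · subst hb0
            symm
            exact dif_neg hb
          · rfl
      by_cases h : (E.β i + j + 1).toNat = 0
      · rw [h]
        have : E.cf (evv F fun _ => 1) 0 i = 0 := dif_neg (by omega)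
        simp [this]
      · obtain ⟨m, hm⟩ := Nat.exists_eq_succ_of_ne_zero h
        rw [hm, Finset.sum_range_succ']
        simp [h1]
  · refine ⟨fun i => x i.succ, ![x 0, 1], hy, ?_, ?_, ?_⟩
    · intro h
      have := congrFun h 1
      simp at this
    · conv_rhs => rw [hxc]
      unfold lpt
      simp
    · intro j F _
      conv_lhs => rw [hxc]
      rw [eval_glob]

theorem glob_isSection (hn : 1 ≤ n) (E : Bundle2 n) {j : ℤ}
    (F : Idx E.β j → MvPolynomial (Fin n) ℂ) (hF : ∀ x, HomZ (F x) ((x.2 : ℕ) : ℤ))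
    (hmem : ∀ v : Fin n → ℂ, v ≠ 0 → evv F v ∈ E.Hsec j v) : E.IsSection j (E.glob F) := by
  refine ⟨E.glob_hom F hF, fun x hx => ?_⟩
  obtain ⟨v, z, hv, hz, hl, hg⟩ := glob_point hn E x hx
  rw [hg F hF, ← hl]
  exact (mem_Hsec E j v _).mp (hmem v hv) z

theorem linInd_of_wedge {a : ℕ} (u w : Fin a → ℂ) (i k : Fin a)
    (h : u i * w k - u k * w i ≠ 0) : LinearIndependent ℂ ![u, w] := by
  rw [LinearIndependent.pair_iff]
  intro s t hst
  have h1 := congrFun hst i
  have h2 := congrFun hst k
  simp only [Pi.add_apply, Pi.smul_apply, smul_eq_mul, Pi.zero_apply] at h1 h2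
  constructor
  · have : s * (u i * w k - u k * w i) = 0 := by linear_combination w k * h1 - w i * h2
    rcases mul_eq_zero.mp this with h3 | h3
    · exact h3
    · exact absurd h3 h
  · have : t * (u i * w k - u k * w i) = 0 := by linear_combination u i * h2 - u k * h1
    rcases mul_eq_zero.mp this with h3 | h3
    · exact h3
    · exact absurd h3 h

end Bundle2
end H960VB
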