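import Pool.Agent.H960R2.VB.Defs

/-!
# Hartogs for linear systems with polynomial coefficients (task B)
-/

open MvPolynomial

namespace H960VB

theorem comp_mul {n : ℕ} {p : MvPolynomial (Fin n) ℂ} {a : ℕ} (hp : p.IsHomogeneous a)
    (q : MvPolynomial (Fin n) ℂ) (k : ℕ) :
    homogeneousComponent k (p * q)
      = if a ≤ k then p * homogeneousComponent (k - a) q else 0 := by
  have h1 : ∀ d, homogeneousComponent k (p * homogeneousComponent d q)
      = if k = a + d then p * homogeneousComponent d q else 0 :=
    fun d => homogeneousComponent_of_mem (hp.mul (homogeneousComponent_isHomogeneous d q))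
  have h2 : homogeneousComponent k (p * q) = ∑ d ∈ Finset.range (q.totalDegree + 1),
      homogeneousComponent k (p * homogeneousComponent d q) := by
    rw [← map_sum, ← Finset.mul_sum, sum_homogeneousComponent]
  rw [h2]
  simp_rw [h1]
  split_ifs with hk
  · rw [Finset.sum_eq_single (k - a)]
    · rw [if_pos (by omega)]
    · intro d _ hd
      rw [if_neg (by omega)]
    · intro hnot
      rw [Finset.mem_range, not_lt] at hnot
      rw [homogeneousComponent_eq_zero (k - a) q (by omega)]
      simp
  · apply Finset.sum_eq_zero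
    intro d _
    rw [if_neg (by omega)]

/-- two polynomials which agree away from the origin are equal -/
theorem eq_of_eval_ne {n : ℕ} (hn : 1 ≤ n) {p q : MvPolynomial (Fin n) ℂ}
    (h : ∀ v : Fin n → ℂ, v ≠ 0 → eval v p = eval v q) : p = q := by
  have hX : (X ⟨0, hn⟩ : MvPolynomial (Fin n) ℂ) ≠ 0 := X_ne_zero _
  apply mul_left_cancel₀ hX
  apply MvPolynomial.funext
  intro v
  by_cases hv : v = 0
  · subst hv
    simp
  · rw [map_mul, map_mul, h v hv]

/-- an injective matrix has an invertible maximal minor -/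
theorem exists_minor {Y I : Type} [Fintype Y] [Fintype I] [DecidableEq I] (A : Matrix Y I ℂ)
    (h : ∀ g : I → ℂ, A.mulVec g = 0 → g = 0) : ∃ W : I → Y, (A.submatrix W id).det ≠ 0 := by
  have hker : LinearMap.ker A.mulVecLin = ⊥ := by
    rw [LinearMap.ker_eq_bot']
    intro g hg
    exact h g hg
  have hrank : A.rank = Fintype.card I := by
    have h1 := LinearMap.finrank_range_add_finrank_ker A.mulVecLin
    rw [hker, finrank_bot, add_zero, Module.finrank_fintype_fun_eq_card] at h1
    exact h1
  rw [Matrix.rank_eq_finrank_span_row] at hrank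
  obtain ⟨f, hf1, -, hf3⟩ := Submodule.exists_fun_fin_finrank_span_eq ℂ (Set.range A.row)
  choose W hW using hf1
  have e : I ≃ Fin (Module.finrank ℂ (Submodule.span ℂ (Set.range A.row))) := by
    rw [hrank]
    exact Fintype.equivFin I
  refine ⟨fun i => W (e i), ?_⟩
  have h2 : LinearIndependent ℂ (A.submatrix (fun i => W (e i)) id).row := by
    have h3 : (A.submatrix (fun i => W (e i)) id).row = f ∘ e := by
      funext i
      exact hW (e i)
    rw [h3]
    exact hf3.comp e e.injective
  rw [Matrix.linearIndependent_rows_iff_isUnit, Matrix.isUnit_iff_isUnit_det] at h2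
  exact h2.ne_zero

/-- divisibility in a unique factorization domain -/
theorem dvd_of_primes {R : Type*} [CommRing R] [IsDomain R] [UniqueFactorizationMonoid R]
    {a b : R} (ha : a ≠ 0)
    (h : ∀ π : R, Prime π → π ∣ a → ∃ a' b' : R, a * b' = a' * b ∧ ¬ π ∣ a') : a ∣ b := by
  obtain ⟨a₁, b₁, c, hrel, rfl, rfl⟩ := UniqueFactorizationMonoid.exists_reduced_factors a ha b
  have hc : c ≠ 0 := fun hc => ha (by rw [hc, zero_mul])
  have ha₁ : a₁ ≠ 0 := fun hc => ha (by rw [hc, mul_zero])
  by_cases hu : IsUnit a₁
  · exact mul_dvd_mul_left c (hu.dvd)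
  · exfalso
    obtain ⟨π, hπ, hπa⟩ := WfDvdMonoid.exists_irreducible_factor hu ha₁
    have hπp : Prime π := UniqueFactorizationMonoid.irreducible_iff_prime.1 hπ
    obtain ⟨a', b', h1, h2⟩ := h π hπp (dvd_mul_of_dvd_right hπa c)
    have h3 : a₁ * b' = a' * b₁ := by
      apply mul_left_cancel₀ hc
      linear_combination h1
    have h4 : π ∣ a' * b₁ := by
      rw [← h3]
      exact dvd_mul_of_dvd_left hπa b'
    rcases hπp.dvd_or_dvd h4 with h5 | h5
    · exact h2 h5
    · exact hπp.not_isUnit (hrel hπa h5)

/-- a prime which does not vanish away from the origin does not exist in at least two variables -/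
theorem no_isolated_prime {n : ℕ} (hn : 2 ≤ n) (π : MvPolynomial (Fin n) ℂ) (hπ : Prime π) :
    ∃ v : Fin n → ℂ, v ≠ 0 ∧ eval v π = 0 := by
  by_contra hcon
  push Not at hcon
  have hprime : (Ideal.span {π}).IsPrime := (Ideal.span_singleton_prime hπ.ne_zero).2 hπ
  have key : ∀ i : Fin n, π ∣ X i := by
    intro i
    rw [← Ideal.mem_span_singleton, ← IsPrime.vanishingIdeal_zeroLocus (K := ℂ) (Ideal.span {π}),
      mem_vanishingIdeal_iff]
    intro v hv
    have h1 : eval v π = 0 := hv π (Ideal.mem_span_singleton_self π)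
    have h2 : v = 0 := by
      by_contra hne
      exact hcon v hne h1
    subst h2
    simp
  have h0 := key ⟨0, by omega⟩
  have h1 := key ⟨1, by omega⟩
  have hX : Prime (X (⟨0, by omega⟩ : Fin n) : MvPolynomial (Fin n) ℂ) := X_prime
  have hass : Associated π (X (⟨0, by omega⟩ : Fin n)) := hπ.associated_of_dvd hX h0
  have h2 : (X (⟨0, by omega⟩ : Fin n) : MvPolynomial (Fin n) ℂ) ∣ X ⟨1, by omega⟩ :=
    hass.symm.dvd.trans h1
  obtain ⟨c, hc⟩ := h2
  have h3 := congrArg (eval (fun j : Fin n => if j = ⟨0, by omega⟩ then (0 : ℂ) else 1)) hc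
  rw [map_mul, eval_X, eval_X, if_pos rfl, zero_mul, if_neg (by simp)] at h3
  exact one_ne_zero h3

/-- Hartogs: a linear system with polynomial coefficients which is injective and solvable at
every nonzero point has a polynomial solution. -/
theorem hartogs {n : ℕ} (hn : 2 ≤ n) {Y I : Type} [Fintype Y] [Fintype I]
    (S : Matrix Y I (MvPolynomial (Fin n) ℂ)) (r : Y → MvPolynomial (Fin n) ℂ)
    (hinj : ∀ v : Fin n → ℂ, v ≠ 0 → ∀ g : I → ℂ, (evm S v).mulVec g = 0 → g = 0)
    (hsol : ∀ v : Fin n → ℂ, v ≠ 0 → ∃ g : I → ℂ, (evm S v).mulVec g = evv r v) :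
    ∃ g : I → MvPolynomial (Fin n) ℂ, S.mulVec g = r := by
  classical
  set δ : (I → Y) → MvPolynomial (Fin n) ℂ := fun W => (S.submatrix W id).det with hδ
  set N : (I → Y) → I → MvPolynomial (Fin n) ℂ :=
    fun W => (S.submatrix W id).adjugate.mulVec (fun k => r (W k)) with hN
  have hδev : ∀ W v, eval v (δ W) = ((evm S v).submatrix W id).det := by
    intro W v
    rw [hδ]
    change eval v (S.submatrix W id).det = _
    rw [RingHom.map_det]
    rfl
  have hNev : ∀ W v (g : I → ℂ), (evm S v).mulVec g = evv r v →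
      ∀ i, eval v (N W i) = eval v (δ W) * g i := by
    intro W v g hg i
    have h1 : ((evm S v).submatrix W id).mulVec g = fun k => eval v (r (W k)) := by
      funext k
      exact congrFun hg (W k)
    have h2 : ((evm S v).submatrix W id).adjugate.mulVec
        (((evm S v).submatrix W id).mulVec g) = ((evm S v).submatrix W id).det • g := by
      rw [Matrix.mulVec_mulVec, Matrix.adjugate_mul, Matrix.smul_mulVec, Matrix.one_mulVec]
    have h3 : eval v (N W i) = (((evm S v).submatrix W id).adjugate.mulVec
        (fun k => eval v (r (W k)))) i := by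
      change eval v (((S.submatrix W id).adjugate.mulVec (fun k => r (W k))) i) = _
      rw [RingHom.map_mulVec]
      have h4 : (S.submatrix W id).adjugate.map (eval v)
          = ((evm S v).submatrix W id).adjugate := by
        have h5 := RingHom.map_adjugate (eval v) (S.submatrix W id)
        exact h5
      rw [h4]
      rfl
    rw [h3, ← h1, h2, hδev]
    rfl
  have hex : ∀ v : Fin n → ℂ, v ≠ 0 → ∃ W, eval v (δ W) ≠ 0 := by
    intro v hv
    obtain ⟨W, hW⟩ := exists_minor (evm S v) (hinj v hv)
    exact ⟨W, by rw [hδev]; exact hW⟩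
  have hcross : ∀ W W' i, δ W * N W' i = δ W' * N W i := by
    intro W W' i
    apply eq_of_eval_ne (by omega)
    intro v hv
    obtain ⟨g, hg⟩ := hsol v hv
    rw [map_mul, map_mul, hNev W v g hg, hNev W' v g hg]
    ring
  obtain ⟨W₀, hW₀⟩ : ∃ W, δ W ≠ 0 := by
    have hv : (fun _ => 1 : Fin n → ℂ) ≠ 0 := by
      intro h
      have := congrFun h ⟨0, by omega⟩
      simp at this
    obtain ⟨W, hW⟩ := hex _ hv
    exact ⟨W, fun h => hW (by rw [h, map_zero])⟩
  have hdvd : ∀ i, δ W₀ ∣ N W₀ i := by
    intro i
    apply dvd_of_primes hW₀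
    intro π hπ _
    by_cases hall : ∀ W, π ∣ δ W
    · exfalso
      obtain ⟨v, hv, hv0⟩ := no_isolated_prime hn π hπ
      obtain ⟨W, hW⟩ := hex v hv
      obtain ⟨c, hc⟩ := hall W
      apply hW
      rw [hc, map_mul, hv0, zero_mul]
    · push Not at hall
      obtain ⟨W, hW⟩ := hall
      exact ⟨δ W, N W i, hcross W₀ W i, hW⟩
  choose g hg using hdvd
  refine ⟨g, ?_⟩
  have hg2 : ∀ W i, N W i = δ W * g i := by
    intro W i
    apply mul_left_cancel₀ hW₀
    rw [hcross W₀ W i, hg i]
    ring
  funext y
  apply eq_of_eval_ne (by omega)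
  intro v hv
  obtain ⟨u, hu⟩ := hsol v hv
  obtain ⟨W, hW⟩ := hex v hv
  have h1 : ∀ i, eval v (g i) = u i := by
    intro i
    have h2 := hNev W v u hu i
    rw [hg2, map_mul] at h2
    exact mul_left_cancel₀ hW h2
  have h2 : evv g v = u := funext h1
  rw [RingHom.map_mulVec]
  change (evm S v).mulVec (evv g v) y = eval v (r y)
  rw [h2, hu]
  rfl

/-- homogeneity of the solution. -/
theorem hartogs_hom {n : ℕ} (hn : 1 ≤ n) {Y I : Type} [Fintype Y] [Fintype I]
    (S : Matrix Y I (MvPolynomial (Fin n) ℂ)) (r : Y → MvPolynomial (Fin n) ℂ)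
    (dY : Y → ℤ) (dI : I → ℤ) (e : ℤ)
    (hS : ∀ y i, HomZ (S y i) (dY y - dI i)) (hr : ∀ y, HomZ (r y) (dY y - e))
    (hinj : ∀ v : Fin n → ℂ, v ≠ 0 → ∀ g : I → ℂ, (evm S v).mulVec g = 0 → g = 0)
    (g : I → MvPolynomial (Fin n) ℂ) (hg : S.mulVec g = r) :
    ∀ i, HomZ (g i) (dI i - e) := by
  classical
  -- the component of degree `dI i - e + m`
  set G : ℤ → I → MvPolynomial (Fin n) ℂ := fun m i =>
    if 0 ≤ dI i - e + m then homogeneousComponent (dI i - e + m).toNat (g i) else 0 with hG
  have hrow : ∀ m : ℤ, m ≠ 0 → S.mulVec (G m) = 0 := by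
    intro m hm
    funext y
    have h1 : ∀ i, S y i * G m i = if 0 ≤ dY y - e + m then
        homogeneousComponent (dY y - e + m).toNat (S y i * g i) else 0 := by
      intro i
      rcases hS y i with h0 | ⟨a, ha, hhom⟩
      · rw [h0, zero_mul, zero_mul, map_zero]
        simp
      · rw [comp_mul hhom]
        by_cases h2 : 0 ≤ dI i - e + m
        · have h3 : G m i = homogeneousComponent (dI i - e + m).toNat (g i) := if_pos h2
          have h6 : (dI i - e + m).toNat = (dY y - e + m).toNat - a := by omega
          rw [if_pos (by omega), if_pos (by omega), h3, h6]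
        · have h3 : G m i = 0 := if_neg h2
          rw [h3, mul_zero]
          split_ifs with h4 h5
          · exfalso
            omega
          · rfl
          · rfl
    have h2 : (S.mulVec (G m)) y = ∑ i, S y i * G m i := rfl
    rw [h2]
    simp_rw [h1]
    by_cases h3 : 0 ≤ dY y - e + m
    · simp_rw [if_pos h3]
      rw [← map_sum]
      have h4 : ∑ i, S y i * g i = r y := congrFun hg y
      rw [h4]
      rcases hr y with h5 | ⟨a, ha, hhom⟩
      · rw [h5, map_zero]
        rfl
      · rw [homogeneousComponent_of_mem hhom, if_neg (by omega)]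
        rfl
    · simp_rw [if_neg h3]
      simp
  have hzero : ∀ m : ℤ, m ≠ 0 → ∀ i, G m i = 0 := by
    intro m hm i
    apply eq_of_eval_ne hn
    intro v hv
    have h1 : (evm S v).mulVec (evv (G m) v) = 0 := by
      funext y
      have h2 := congrArg (eval v) (congrFun (hrow m hm) y)
      rw [RingHom.map_mulVec] at h2
      rw [Pi.zero_apply, map_zero] at h2
      exact h2
    have h3 := hinj v hv _ h1
    rw [map_zero]
    exact congrFun h3 i
  intro i
  have hcomp : ∀ d : ℕ, (d : ℤ) ≠ dI i - e → homogeneousComponent d (g i) = 0 := by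
    intro d hd
    have h1 := hzero ((d : ℤ) - (dI i - e)) (sub_ne_zero.2 hd) i
    have h2 : G ((d : ℤ) - (dI i - e)) i = homogeneousComponent d (g i) := by
      rw [hG]
      simp only
      rw [if_pos (by omega)]
      congr 1
      congr 1
      omega
    rw [← h2, h1]
  by_cases hpos : 0 ≤ dI i - e
  · right
    refine ⟨(dI i - e).toNat, by omega, ?_⟩
    have h1 : g i = homogeneousComponent (dI i - e).toNat (g i) := by
      conv_lhs => rw [← sum_homogeneousComponent (g i)]
      by_cases h2 : (dI i - e).toNat ∈ Finset.range ((g i).totalDegree + 1)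
      · rw [Finset.sum_eq_single_of_mem _ h2]
        intro d _ hd
        exact hcomp d (by omega)
      · rw [Finset.mem_range, not_lt] at h2
        rw [homogeneousComponent_eq_zero (dI i - e).toNat (g i) (by omega)]
        apply Finset.sum_eq_zero
        intro d hd
        rw [Finset.mem_range] at hd
        exact hcomp d (by omega)
    rw [h1]
    exact homogeneousComponent_isHomogeneous _ _
  · left
    rw [← sum_homogeneousComponent (g i)]
    apply Finset.sum_eq_zero
    intro d _
    exact hcomp d (by omega)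

end H960VB
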