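import Pool.Agent.H960R2.VB.Pull

/-!
Task H2, part a: calculus of `HomZ`, closedness of the image of a constant rank matrix, restriction
to the hyperplane `x 0 = 0`.
-/

open MvPolynomial

namespace H960VB


/-! ### forms of integer degree -/

theorem h2_add {σ : Type*} {p q : MvPolynomial σ ℂ} {d : ℤ} (hp : HomZ p d) (hq : HomZ q d) :
    HomZ (p + q) d := by
  rcases hp with rfl | ⟨k, hk, hp⟩
  · simpa using hq
  · rcases hq with rfl | ⟨l, hl, hq⟩
    · right; exact ⟨k, hk, by simpa using hp⟩
    · have : k = l := by omega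
      subst this
      right; exact ⟨k, hk, hp.add hq⟩

theorem h2_neg {σ : Type*} {p : MvPolynomial σ ℂ} {d : ℤ} (hp : HomZ p d) : HomZ (-p) d := by
  rcases hp with rfl | ⟨k, hk, hp⟩
  · left; simp
  · right; exact ⟨k, hk, hp.neg⟩

theorem h2_sub {σ : Type*} {p q : MvPolynomial σ ℂ} {d : ℤ} (hp : HomZ p d) (hq : HomZ q d) :
    HomZ (p - q) d := by
  rw [sub_eq_add_neg]; exact h2_add hp (h2_neg hq)

theorem h2_mul {σ : Type*} {p q : MvPolynomial σ ℂ} {d e : ℤ} (hp : HomZ p d) (hq : HomZ q e) :
    HomZ (p * q) (d + e) := by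
  rcases hp with rfl | ⟨k, hk, hp⟩
  · left; simp
  · rcases hq with rfl | ⟨l, hl, hq⟩
    · left; simp
    · right; exact ⟨k + l, by push_cast; omega, hp.mul hq⟩

theorem h2_sum {σ ι : Type*} (s : Finset ι) {f : ι → MvPolynomial σ ℂ} {d : ℤ}
    (h : ∀ i ∈ s, HomZ (f i) d) : HomZ (∑ i ∈ s, f i) d := by
  classical
  induction s using Finset.induction_on with
  | empty => left; simp
  | insert a s ha ih =>
    rw [Finset.sum_insert ha]
    exact h2_add (h _ (Finset.mem_insert_self _ _))
      (ih fun i hi => h i (Finset.mem_insert_of_mem hi))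

theorem h2_X {σ : Type*} (i : σ) : HomZ (X i : MvPolynomial σ ℂ) 1 :=
  Or.inr ⟨1, by simp, isHomogeneous_X ℂ i⟩

theorem h2_rename {σ τ : Type*} (f : σ → τ) {p : MvPolynomial σ ℂ} {d : ℤ} (hp : HomZ p d) :
    HomZ (rename f p) d := by
  rcases hp with rfl | ⟨k, hk, hp⟩
  · left; simp
  · right; exact ⟨k, hk, hp.rename_isHomogeneous⟩

theorem h2_neg_degree {σ : Type*} {p : MvPolynomial σ ℂ} {d : ℤ} (hp : HomZ p d) (hd : d < 0) :
    p = 0 := by
  rcases hp with rfl | ⟨k, hk, _⟩
  · rfl
  · omega

theorem h2_weight {σ : Type*} (m : σ →₀ ℕ) :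
    Finsupp.weight (1 : σ → ℕ) m = Finsupp.degree m := by
  rw [Finsupp.degree_eq_weight_one]; rfl

/-- division by a variable. -/
theorem h2_of_X_mul {σ : Type*} {i : σ} {p : MvPolynomial σ ℂ} {d : ℤ} (h : HomZ (X i * p) d) :
    HomZ p (d - 1) := by
  classical
  by_cases hp0 : p = 0
  · exact Or.inl hp0
  rcases h with h | ⟨k, hk, h⟩
  · exact Or.inl ((mul_eq_zero.1 h).resolve_left (X_ne_zero i))
  · right
    -- k is positive
    obtain ⟨m, hm⟩ := ne_zero_iff.1 hp0
    have h1 : ∀ m, coeff m p ≠ 0 → (Finsupp.degree m) + 1 = k := by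
      intro m hm
      have h2 : coeff (m + Finsupp.single i 1) (X i * p) ≠ 0 := by
        rw [mul_comm, coeff_mul_X]; exact hm
      have h3 := h h2
      rw [h2_weight] at h3
      simpa using h3
    have h2 := h1 m hm
    refine ⟨k - 1, by omega, ?_⟩
    intro m' hm'
    have h3 := h1 m' hm'
    rw [h2_weight]
    omega

/-! ### closedness of the image -/

/-- a matrix has a section and a retraction onto its image. -/
theorem h2_matrix {a c : ℕ} (M : Matrix (Fin c) (Fin a) ℂ) :
    ∃ (ρ : ℕ) (s : Matrix (Fin a) (Fin ρ) ℂ) (l : Matrix (Fin ρ) (Fin c) ℂ),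
      ρ = Module.finrank ℂ (LinearMap.range M.mulVecLin) ∧ l * M * s = 1 := by
  classical
  set V := LinearMap.range M.mulVecLin with hV
  let b : Module.Basis (Fin (Module.finrank ℂ V)) ℂ V := Module.finBasis ℂ V
  have hb : ∀ i, ∃ u, M.mulVec u = (b i : Fin c → ℂ) := by
    intro i
    obtain ⟨u, hu⟩ := (b i).2
    exact ⟨u, by simpa using hu⟩
  choose u hu using hb
  obtain ⟨g, hg⟩ := V.subtype.exists_leftInverse_of_injective (Submodule.ker_subtype V)
  refine ⟨_, Matrix.of fun i k => u k i, LinearMap.toMatrix' (b.equivFun.toLinearMap ∘ₗ g), rfl,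
    ?_⟩
  ext k k'
  have h1 : (LinearMap.toMatrix' (b.equivFun.toLinearMap ∘ₗ g) * M *
      (Matrix.of fun i k => u k i : Matrix (Fin a) (Fin (Module.finrank ℂ V)) ℂ)) k k' =
      ((LinearMap.toMatrix' (b.equivFun.toLinearMap ∘ₗ g)).mulVec (M.mulVec (u k'))) k := by
    rw [Matrix.mulVec_mulVec]
    simp [Matrix.mul_apply, Matrix.mulVec, dotProduct]
  rw [h1, hu, LinearMap.toMatrix'_mulVec]
  have h2 : g (b k' : Fin c → ℂ) = b k' := by
    have := congrArg (fun f => f (b k')) hg
    simpa using this
  simp only [LinearMap.comp_apply, h2]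
  simp [Matrix.one_apply, eq_comm]

theorem h2_rank {a c : ℕ} (M : Matrix (Fin c) (Fin a) ℂ)
    (h : Module.finrank ℂ (LinearMap.ker M.mulVecLin) = 2) :
    Module.finrank ℂ (LinearMap.range M.mulVecLin) + 2 = a := by
  have := LinearMap.finrank_range_add_finrank_ker M.mulVecLin
  rw [h] at this
  simpa using this

/-- the condition `r(x) ∈ im B(x)` is closed on the punctured space if `B` has constant rank. -/
theorem h2_closed {N a c : ℕ} (B : Matrix (Fin c) (Fin a) (MvPolynomial (Fin N) ℂ))
    (h2 : ∀ x : Fin N → ℂ, x ≠ 0 →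
      Module.finrank ℂ (LinearMap.ker (Matrix.mulVecLin (evm B x))) = 2)
    (r : Fin c → MvPolynomial (Fin N) ℂ) (δ : MvPolynomial (Fin N) ℂ) (hδ : δ ≠ 0)
    (h : ∀ x : Fin N → ℂ, x ≠ 0 → eval x δ ≠ 0 → ∃ u : Fin a → ℂ, (evm B x).mulVec u = evv r x)
    (y : Fin N → ℂ) (hy : y ≠ 0) : ∃ u : Fin a → ℂ, (evm B y).mulVec u = evv r y := by
  classical
  obtain ⟨ρ, s, l, hρ, hls⟩ := h2_matrix (evm B y)
  -- polynomial versions
  set sP : Matrix (Fin a) (Fin ρ) (MvPolynomial (Fin N) ℂ) := s.map C with hsP
  set lP : Matrix (Fin ρ) (Fin c) (MvPolynomial (Fin N) ℂ) := l.map C with hlP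
  set D : Matrix (Fin ρ) (Fin ρ) (MvPolynomial (Fin N) ℂ) := lP * B * sP with hD
  have evC1 : ∀ x : Fin N → ℂ, evm sP x = s := by
    intro x; ext i k; simp [evm, hsP]
  have evC2 : ∀ x : Fin N → ℂ, evm lP x = l := by
    intro x; ext i k; simp [evm, hlP]
  have evmul : ∀ {p q t : ℕ} (A : Matrix (Fin p) (Fin q) (MvPolynomial (Fin N) ℂ))
      (A' : Matrix (Fin q) (Fin t) (MvPolynomial (Fin N) ℂ)) (x : Fin N → ℂ),
      evm (A * A') x = evm A x * evm A' x := by
    intro p q t A A' x
    unfold evm
    exact Matrix.map_mul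
  have evmulVec : ∀ {p q : ℕ} (A : Matrix (Fin p) (Fin q) (MvPolynomial (Fin N) ℂ))
      (w : Fin q → MvPolynomial (Fin N) ℂ) (x : Fin N → ℂ),
      evv (A.mulVec w) x = (evm A x).mulVec (evv w x) := by
    intro p q A w x
    ext i
    simp [evv, evm, Matrix.mulVec, dotProduct]
  have evD : ∀ x : Fin N → ℂ, evm D x = l * evm B x * s := by
    intro x
    rw [hD, evmul, evmul, evC1, evC2]
  have evdet : ∀ x : Fin N → ℂ, eval x D.det = (evm D x).det := by
    intro x
    unfold evm
    exact RingHom.map_det (eval x) D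
  have evadj : ∀ x : Fin N → ℂ, evm D.adjugate x = (evm D x).adjugate := by
    intro x
    unfold evm
    exact (RingHom.map_adjugate (eval x) D)
  -- the determinant at y
  have hdy : eval y D.det = 1 := by
    rw [evdet, evD, hls, Matrix.det_one]
  have hD0 : D.det ≠ 0 := by
    intro e; rw [e] at hdy; simp at hdy
  -- the polynomial identity
  set F : Fin c → MvPolynomial (Fin N) ℂ := fun k =>
    D.det * r k - ((B * sP * D.adjugate * lP).mulVec r) k with hF
  have hFz : ∀ k, F k = 0 := by
    intro k
    have h1 : δ * D.det * X (Classical.choice (by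
        by_contra hcon
        rw [not_nonempty_iff] at hcon
        exact hy (funext fun i => (hcon.false i).elim)) : Fin N) * F k = 0 := by
      apply MvPolynomial.funext
      intro x
      by_cases hx : x = 0
      · subst hx; simp
      by_cases h3 : eval x δ = 0
      · simp [h3]
      by_cases h4 : eval x D.det = 0
      · simp [h4]
      have h5 : eval x (F k) = 0 := by
        obtain ⟨u, hu⟩ := h x hx h3
        -- range of B s is the range of B
        have hinj : Function.Injective ((evm B x * s).mulVecLin) := by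
          rw [← LinearMap.ker_eq_bot, LinearMap.ker_eq_bot']
          intro w hw
          have h6 : (evm D x).mulVec w = 0 := by
            rw [evD, Matrix.mul_assoc, ← Matrix.mulVec_mulVec]
            have : (evm B x * s).mulVec w = 0 := by simpa using hw
            rw [this, Matrix.mulVec_zero]
          have h7 : (evm D x).adjugate.mulVec ((evm D x).mulVec w) = 0 := by
            rw [h6, Matrix.mulVec_zero]
          rw [Matrix.mulVec_mulVec, Matrix.adjugate_mul, Matrix.smul_mulVec,
            Matrix.one_mulVec] at h7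
          rw [evdet] at h4
          exact (smul_eq_zero.1 h7).resolve_left h4
        have hle : LinearMap.range ((evm B x * s).mulVecLin) ≤
            LinearMap.range (evm B x).mulVecLin := by
          rintro _ ⟨w, rfl⟩
          refine ⟨s.mulVec w, ?_⟩
          simp [Matrix.mulVec_mulVec]
        have heq : LinearMap.range ((evm B x * s).mulVecLin) =
            LinearMap.range (evm B x).mulVecLin := by
          refine Submodule.eq_of_le_of_finrank_eq hle ?_
          rw [LinearMap.finrank_range_of_inj hinj]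
          have h8 := h2_rank _ (h2 x hx)
          have h9 := h2_rank _ (h2 y hy)
          simp only [Module.finrank_fintype_fun_eq_card, Fintype.card_fin]
          omega
        have hmem : evv r x ∈ LinearMap.range ((evm B x * s).mulVecLin) := by
          rw [heq]; exact ⟨u, by simpa using hu⟩
        obtain ⟨w, hw⟩ := hmem
        have hw' : (evm B x * s).mulVec w = evv r x := by simpa using hw
        have h10 : (evm B x * s * (evm D x).adjugate * l).mulVec (evv r x) =
            (evm D x).det • evv r x := by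
          rw [← hw', Matrix.mulVec_mulVec]
          have : evm B x * s * (evm D x).adjugate * l * (evm B x * s) =
              (evm D x).det • (evm B x * s) := by
            have e1 : evm B x * s * (evm D x).adjugate * l * (evm B x * s) =
                evm B x * s * ((evm D x).adjugate * (l * evm B x * s)) := by
              simp only [Matrix.mul_assoc]
            rw [e1, ← evD, Matrix.adjugate_mul, Matrix.mul_smul, Matrix.mul_one]
          rw [this, Matrix.smul_mulVec]
        have h11 : eval x (((B * sP * D.adjugate * lP).mulVec r) k) =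
            ((evm B x * s * (evm D x).adjugate * l).mulVec (evv r x)) k := by
          have := congrFun (evmulVec (B * sP * D.adjugate * lP) r x) k
          rw [evmul, evmul, evmul, evC1, evC2, evadj] at this
          exact this
        rw [hF]
        simp only [map_sub, map_mul]
        rw [h11, h10, evdet]
        simp [evv]
      simp [h5]
    have h2 : (δ * D.det * X (Classical.choice (by
        by_contra hcon
        rw [not_nonempty_iff] at hcon
        exact hy (funext fun i => (hcon.false i).elim)) : Fin N)) ≠ 0 :=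
      mul_ne_zero (mul_ne_zero hδ hD0) (X_ne_zero _)
    exact (mul_eq_zero.1 h1).resolve_left h2
  -- conclusion
  refine ⟨s.mulVec (((evm D y).adjugate * l).mulVec (evv r y)), ?_⟩
  ext k
  have h1 := congrArg (eval y) (hFz k)
  rw [hF] at h1
  simp only [map_sub, map_mul, map_zero, hdy, one_mul] at h1
  have h11 : eval y (((B * sP * D.adjugate * lP).mulVec r) k) =
      ((evm B y * s * (evm D y).adjugate * l).mulVec (evv r y)) k := by
    have := congrFun (evmulVec (B * sP * D.adjugate * lP) r y) k
    rw [evmul, evmul, evmul, evC1, evC2, evadj] at this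
    exact this
  rw [h11] at h1
  have h12 : (evm B y).mulVec (s.mulVec (((evm D y).adjugate * l).mulVec (evv r y))) =
      (evm B y * s * (evm D y).adjugate * l).mulVec (evv r y) := by
    simp only [Matrix.mulVec_mulVec, Matrix.mul_assoc]
  rw [h12]
  simp only [evv] at h1 ⊢
  linear_combination -h1

/-! ### the hyperplane -/

theorem h2_X_dvd {m : ℕ} (p : MvPolynomial (Fin (m + 1 + 1)) ℂ) (h : lsub (Bundle2.hyp m) p = 0) :
    X 0 ∣ p := by
  have h0 : (finSuccEquiv ℂ (m + 1) p).coeff 0 = 0 := by
    apply MvPolynomial.funext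
    intro x
    have h1 := MvPolynomial.eval_eq_eval_mv_eval' x (0 : ℂ) p
    have h2 : eval (Fin.cons 0 x : Fin (m + 1 + 1) → ℂ) p = 0 := by
      have := eval_lsub (Bundle2.hyp m) x p
      rw [h] at this
      simpa [Bundle2.hyp] using this.symm
    rw [h2] at h1
    rw [map_zero, ← Polynomial.coeff_map, Polynomial.coeff_zero_eq_eval_zero, ← h1]
  have h1 : Polynomial.X ∣ finSuccEquiv ℂ (m + 1) p := Polynomial.X_dvd_iff.2 h0
  obtain ⟨q, hq⟩ := h1
  refine ⟨(finSuccEquiv ℂ (m + 1)).symm q, ?_⟩
  apply (finSuccEquiv ℂ (m + 1)).injective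
  rw [hq, map_mul, AlgEquiv.apply_symm_apply, finSuccEquiv_X_zero]

theorem h2_lsub_rename {m : ℕ} (p : MvPolynomial (Fin (m + 1)) ℂ) :
    lsub (Bundle2.hyp m) (rename Fin.succ p) = p := by
  apply MvPolynomial.funext
  intro x
  rw [eval_lsub, eval_rename]
  congr 1

end H960VB
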