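import Pool.Agent.H960R2.VB.TaskH1
import Pool.Agent.H960R2.VB.TaskH2a

/-!
Task H2: if the restriction to the hyperplane `x 0 = 0` splits, then `H^1_* = 0`.
-/

open MvPolynomial

namespace H960VB

namespace Bundle2

/-- if the restriction to the hyperplane `x 0 = 0` splits, then `H^1_*(E) = 0`. -/
theorem h1_of_hyp {n : ℕ} (hn : 2 ≤ n) (E : Bundle2 (n + 1))
    (hs : (E.pull (hyp n) (hyp_injective n)).Splits)
    (j : ℤ) (r : Fin E.c → MvPolynomial (Fin (n + 1 + 1)) ℂ) (hr : ∀ k, HomZ (r k) (E.γ k + j))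
    (him : ∀ x : Fin (n + 1 + 1) → ℂ, x ≠ 0 →
      ∃ u : Fin E.a → ℂ, (evm E.B x).mulVec u = evv r x) :
    ∃ u : Fin E.a → MvPolynomial (Fin (n + 1 + 1)) ℂ, (∀ i, HomZ (u i) (E.β i + j)) ∧
      E.B.mulVec u = r := by
  obtain ⟨p, q, G₁, G₂, hG₁, hG₂, hind⟩ := hs
  have evmulVec : ∀ {N p q : ℕ} (A : Matrix (Fin p) (Fin q) (MvPolynomial (Fin N) ℂ))
      (w : Fin q → MvPolynomial (Fin N) ℂ) (x : Fin N → ℂ),
      evv (A.mulVec w) x = (evm A x).mulVec (evv w x) := by
    intro N p q A w x
    ext i
    simp [evv, evm, Matrix.mulVec, dotProduct]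
  have key : ∀ (M : ℕ) (j : ℤ) (r : Fin E.c → MvPolynomial (Fin (n + 1 + 1)) ℂ),
      (∀ k, E.γ k + j < M) → (∀ k, HomZ (r k) (E.γ k + j)) →
      (∀ x : Fin (n + 1 + 1) → ℂ, x ≠ 0 →
        ∃ u : Fin E.a → ℂ, (evm E.B x).mulVec u = evv r x) →
      ∃ u : Fin E.a → MvPolynomial (Fin (n + 1 + 1)) ℂ, (∀ i, HomZ (u i) (E.β i + j)) ∧
        E.B.mulVec u = r := by
    intro M
    induction M with
    | zero =>
      intro j r hM hr _
      refine ⟨0, fun i => Or.inl rfl, ?_⟩
      rw [Matrix.mulVec_zero]
      ext1 k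
      exact (h2_neg_degree (hr k) (by simpa using hM k)).symm
    | succ M ih =>
      intro j r hM hr him
      -- restrict to the hyperplane
      obtain ⟨ub, hub, hubB⟩ := h1_split hn E.β E.γ (E.pull (hyp n) (hyp_injective n)).B
        (E.pull (hyp n) (hyp_injective n)).hom (E.pull (hyp n) (hyp_injective n)).rank_two
        G₁ G₂ (fun x hx => by
          have := hG₁.2 x hx
          exact LinearMap.mem_ker.1 this) (fun x hx => by
          have := hG₂.2 x hx
          exact LinearMap.mem_ker.1 this) hind j (fun k => lsub (hyp n) (r k))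
        (fun k => homZ_lsub _ (hr k)) (by
          intro x hx
          obtain ⟨u, hu⟩ := him (hyp n x) (fun h => hx (hyp_injective n (by rw [h, map_zero])))
          refine ⟨u, ?_⟩
          have e1 : evv (fun k => lsub (hyp n) (r k)) x = evv r (hyp n x) := by
            ext k; simp [evv, eval_lsub]
          rw [e1, ← hu]
          have e2 := evm_pull E (hyp n) (hyp_injective n) x
          exact congrArg (fun A : Matrix (Fin E.c) (Fin E.a) ℂ => A.mulVec u) e2)
      set u0 : Fin E.a → MvPolynomial (Fin (n + 1 + 1)) ℂ := fun i => rename Fin.succ (ub i)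
        with hu0
      have hu0hom : ∀ i, HomZ (u0 i) (E.β i + j) := fun i => h2_rename _ (hub i)
      set s : Fin E.c → MvPolynomial (Fin (n + 1 + 1)) ℂ := fun k => r k - (E.B.mulVec u0) k
        with hs
      have hshom : ∀ k, HomZ (s k) (E.γ k + j) := by
        intro k
        refine h2_sub (hr k) ?_
        simp only [Matrix.mulVec, dotProduct]
        refine h2_sum _ fun i _ => ?_
        have := h2_mul (E.hom k i) (hu0hom i)
        rwa [show E.γ k - E.β i + (E.β i + j) = E.γ k + j by ring] at this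
      have hsd : ∀ k, ∃ t, s k = X 0 * t := by
        intro k
        refine h2_X_dvd (s k) ?_
        have e1 := congrFun hubB k
        simp only [Matrix.mulVec, dotProduct] at e1
        simp only [hs, Matrix.mulVec, dotProduct, map_sub, map_sum, map_mul, hu0,
          h2_lsub_rename]
        rw [sub_eq_zero, ← e1]
        rfl
      choose r' hr' using hsd
      have hr'hom : ∀ k, HomZ (r' k) (E.γ k + (j - 1)) := by
        intro k
        have h1 := hshom k
        rw [hr' k] at h1
        have := h2_of_X_mul h1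
        rwa [show E.γ k + j - 1 = E.γ k + (j - 1) by ring] at this
      have him' : ∀ x : Fin (n + 1 + 1) → ℂ, x ≠ 0 →
          ∃ u : Fin E.a → ℂ, (evm E.B x).mulVec u = evv r' x := by
        refine h2_closed E.B E.rank_two r' (X 0) (X_ne_zero 0) fun x hx hx0 => ?_
        rw [eval_X] at hx0
        obtain ⟨u, hu⟩ := him x hx
        refine ⟨(x 0)⁻¹ • (u - evv u0 x), ?_⟩
        rw [Matrix.mulVec_smul, Matrix.mulVec_sub, hu, ← evmulVec]
        ext k
        have h1 := congrArg (eval x) (hr' k)
        simp only [hs, map_sub, map_mul, eval_X] at h1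
        simp only [Pi.smul_apply, Pi.sub_apply, evv, smul_eq_mul] at h1 ⊢
        rw [h1]
        field_simp
      obtain ⟨u', hu', hu'B⟩ := ih (j - 1) r' (fun k => by
        have := hM k
        push_cast at this
        omega) hr'hom him'
      refine ⟨fun i => u0 i + X 0 * u' i, fun i => ?_, ?_⟩
      · refine h2_add (hu0hom i) ?_
        have := h2_mul (h2_X (0 : Fin (n + 1 + 1))) (hu' i)
        rwa [show (1 : ℤ) + (E.β i + (j - 1)) = E.β i + j by ring] at this
      · ext1 k
        have h1 := hr' k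
        have h2 := congrFun hu'B k
        simp only [hs, Matrix.mulVec, dotProduct] at h1 h2 ⊢
        have h3 : ∑ i, E.B k i * (u0 i + X 0 * u' i) =
            ∑ i, E.B k i * u0 i + X 0 * ∑ i, E.B k i * u' i := by
          rw [Finset.mul_sum, ← Finset.sum_add_distrib]
          exact Finset.sum_congr rfl fun i _ => by ring
        rw [h3, h2, ← h1]
        ring
  -- a bound for the degrees
  obtain ⟨M, hM⟩ : ∃ M : ℕ, ∀ k, E.γ k + j < M := by
    refine ⟨∑ k, (E.γ k + j).toNat + 1, fun k => ?_⟩
    have h1 : (E.γ k + j).toNat ≤ ∑ k, (E.γ k + j).toNat :=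
      Finset.single_le_sum (f := fun k => (E.γ k + j).toNat) (fun _ _ => Nat.zero_le _)
        (Finset.mem_univ k)
    have h2 := Int.self_le_toNat (E.γ k + j)
    push_cast at h1 ⊢
    have h3 : ((E.γ k + j).toNat : ℤ) ≤ ∑ k, ((E.γ k + j).toNat : ℤ) := by exact_mod_cast h1
    omega
  exact key M j r hM hr him

end Bundle2

end H960VB
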