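import Pool.Agent.H960R2.VB.Defs

/-!
# Sections on lines through a point as the kernel of a polynomial matrix

(helper506, task L1 of helper960)
-/

open MvPolynomial

namespace H960VB

namespace Bundle2

variable {n : ℕ}

theorem fam_hom (E : Bundle2 n) (j : ℤ) (y : Idx E.γ j) (i : Idx E.β j) :
    HomZ (E.fam j y i) (((y.2 : ℕ) : ℤ) - ((i.2 : ℕ) : ℤ)) := by
  unfold fam
  split_ifs with h
  · exact Or.inr ⟨(y.2 : ℕ) - (i.2 : ℕ), by push_cast [Nat.cast_sub h]; ring,
      homogeneousComponent_isHomogeneous _ _⟩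
  · exact Or.inl rfl

theorem dehom_monomial (s : Fin (n + 1) →₀ ℕ) (c : ℂ) :
    dehom (monomial s c) = C c * ∏ i : Fin n, (X i : MvPolynomial (Fin n) ℂ) ^ s i.succ := by
  unfold dehom
  rw [aeval_monomial, Finsupp.prod_fintype _ _ (fun i => by simp), Fin.prod_univ_succ]
  simp [algebraMap_eq]

theorem eval_lpt_aux (v : Fin n → ℂ) (z : Fin 2 → ℂ) (s : Fin (n + 1) →₀ ℕ) (c : ℂ) {d : ℕ}
    (hd : ∑ i, s i = d) :
    eval (lpt v z) (monomial s c) = ∑ m ∈ Finset.range (d + 1),
      z 0 ^ (d - m) * z 1 ^ m * eval v (homogeneousComponent m (dehom (monomial s c))) := by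
  have hh : (dehom (monomial s c)).IsHomogeneous (∑ i : Fin n, s i.succ) := by
    rw [dehom_monomial]
    have h1 := (isHomogeneous_C (Fin n) c).mul (IsHomogeneous.prod Finset.univ
      (fun i : Fin n => (X i : MvPolynomial (Fin n) ℂ) ^ s i.succ) (fun i => s i.succ)
      (fun i _ => isHomogeneous_X_pow i _))
    rwa [zero_add] at h1
  have hsum : s 0 + ∑ i : Fin n, s i.succ = d := by rw [← hd, Fin.sum_univ_succ]
  have h2 : ∀ m, homogeneousComponent m (dehom (monomial s c)) =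
      if m = ∑ i : Fin n, s i.succ then dehom (monomial s c) else 0 := fun m =>
    homogeneousComponent_of_mem hh
  simp only [h2]
  rw [Finset.sum_eq_single (∑ i : Fin n, s i.succ)]
  · rw [if_pos rfl, dehom_monomial, eval_monomial, Finsupp.prod_fintype _ _ (fun i => by simp),
      Fin.prod_univ_succ]
    have h3 : d - ∑ i : Fin n, s i.succ = s 0 := by omega
    rw [h3]
    simp only [lpt, Fin.cons_zero, Fin.cons_succ, Pi.smul_apply, smul_eq_mul, mul_pow,
      Finset.prod_mul_distrib, Finset.prod_pow_eq_pow_sum, map_mul, eval_C, map_prod, map_pow,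
      eval_X]
    ring
  · intro m _ hm
    rw [if_neg hm]
    simp
  · intro hm
    exact absurd (Finset.mem_range.2 (by omega)) hm

theorem dehom_sum {ι : Type*} (s : Finset ι) (f : ι → MvPolynomial (Fin (n + 1)) ℂ) :
    dehom (∑ i ∈ s, f i) = ∑ i ∈ s, dehom (f i) := by
  unfold dehom
  rw [map_sum]

/-- expansion of a form on the line. -/
theorem eval_lpt (v : Fin n → ℂ) (z : Fin 2 → ℂ) {p : MvPolynomial (Fin (n + 1)) ℂ} {d : ℕ}
    (hp : p.IsHomogeneous d) :
    eval (lpt v z) p = ∑ m ∈ Finset.range (d + 1),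
      z 0 ^ (d - m) * z 1 ^ m * eval v (homogeneousComponent m (dehom p)) := by
  conv_lhs => rw [← support_sum_monomial_coeff p]
  have h1 : dehom p = ∑ s ∈ p.support, dehom (monomial s (coeff s p)) := by
    rw [← dehom_sum, support_sum_monomial_coeff p]
  rw [map_sum, h1]
  simp only [map_sum, Finset.mul_sum]
  rw [Finset.sum_comm]
  refine Finset.sum_congr rfl fun s hs => ?_
  refine eval_lpt_aux v z s _ ?_
  have h2 := hp (mem_support_iff.1 hs)
  rw [← h2, Finsupp.weight_apply, Finsupp.sum_fintype _ _ (fun i => by simp)]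
  simp

theorem totalDegree_dehom_hc {p : MvPolynomial (Fin (n + 1)) ℂ} {d : ℕ}
    (hp : p.IsHomogeneous d) {m : ℕ} (hm : d < m) : homogeneousComponent m (dehom p) = 0 := by
  have h1 : dehom p = ∑ s ∈ p.support, dehom (monomial s (coeff s p)) := by
    rw [← dehom_sum, support_sum_monomial_coeff p]
  rw [h1, map_sum]
  refine Finset.sum_eq_zero fun s hs => ?_
  have h2 := hp (mem_support_iff.1 hs)
  rw [Finsupp.weight_apply, Finsupp.sum_fintype _ _ (fun i => by simp), Fin.sum_univ_succ] at h2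
  have hh : (dehom (monomial s (coeff s p))).IsHomogeneous (∑ i : Fin n, s i.succ) := by
    rw [dehom_monomial]
    have h1 := (isHomogeneous_C (Fin n) (coeff s p)).mul (IsHomogeneous.prod Finset.univ
      (fun i : Fin n => (X i : MvPolynomial (Fin n) ℂ) ^ s i.succ) (fun i => s i.succ)
      (fun i _ => isHomogeneous_X_pow i _))
    rwa [zero_add] at h1
  rw [homogeneousComponent_of_mem hh, if_neg]
  simp at h2
  omega

theorem mulVec_lev_aux (E : Bundle2 n) (j : ℤ) (v : Fin n → ℂ) (z : Fin 2 → ℂ) (k : Fin E.c)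
    (i : Fin E.a) (b : Fin (E.β i + j + 1).toNat) :
    eval (lpt v z) (E.B k i) * (z 0 ^ ((E.β i + j).toNat - (b : ℕ)) * z 1 ^ (b : ℕ)) =
      ∑ b' : Fin (E.γ k + j + 1).toNat, eval v (E.fam j ⟨k, b'⟩ ⟨i, b⟩) *
        z 0 ^ ((E.γ k + j).toNat - (b' : ℕ)) * z 1 ^ (b' : ℕ) := by
  unfold fam
  simp only
  rcases E.hom k i with h0 | ⟨d, hd, hh⟩
  · have h1 : dehom (E.B k i) = 0 := by rw [h0]; unfold dehom; simp
    rw [h1, h0]
    simp
  · have hb : (b : ℕ) < (E.β i + j + 1).toNat := b.2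
    have hbz : ((b : ℕ) : ℤ) < E.β i + j + 1 := by omega
    obtain ⟨b2, hb2⟩ : ∃ b2 : ℕ, (b2 : ℤ) = E.β i + j := ⟨(E.β i + j).toNat, by omega⟩
    have e1 : (E.β i + j).toNat = b2 := by omega
    have e2 : (E.γ k + j).toNat = d + b2 := by omega
    have hb3 : (b : ℕ) ≤ b2 := by omega
    have e3 : (E.γ k + j + 1).toNat = (b : ℕ) + (d + 1) + (b2 - (b : ℕ)) := by omega
    rw [e1, e2, eval_lpt v z hh]
    rw [Fin.sum_univ_eq_sum_range (fun b' : ℕ => eval v (if (b : ℕ) ≤ b' then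
      homogeneousComponent (b' - (b : ℕ)) (dehom (E.B k i)) else 0) *
        z 0 ^ (d + b2 - b') * z 1 ^ b') (E.γ k + j + 1).toNat, e3,
      Finset.sum_range_add _ ((b : ℕ) + (d + 1)) (b2 - (b : ℕ)),
      Finset.sum_range_add _ (b : ℕ) (d + 1)]
    have h1 : ∀ x ∈ Finset.range (b : ℕ), eval v (if (b : ℕ) ≤ x then
      homogeneousComponent (x - (b : ℕ)) (dehom (E.B k i)) else 0) *
        z 0 ^ (d + b2 - x) * z 1 ^ x = 0 := by
      intro x hx
      rw [if_neg (not_le.2 (Finset.mem_range.1 hx))]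
      simp
    have h2 : ∀ x ∈ Finset.range (b2 - (b : ℕ)), eval v (if (b : ℕ) ≤ (b : ℕ) + (d + 1) + x then
      homogeneousComponent ((b : ℕ) + (d + 1) + x - (b : ℕ)) (dehom (E.B k i)) else 0) *
        z 0 ^ (d + b2 - ((b : ℕ) + (d + 1) + x)) * z 1 ^ ((b : ℕ) + (d + 1) + x) = 0 := by
      intro x _
      rw [totalDegree_dehom_hc hh (by omega)]
      simp
    rw [Finset.sum_eq_zero h1, Finset.sum_eq_zero h2, zero_add, add_zero, Finset.sum_mul]
    refine Finset.sum_congr rfl fun m hm => ?_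
    have hm' := Finset.mem_range.1 hm
    rw [if_pos (Nat.le_add_right _ _), Nat.add_sub_cancel_left]
    have e4 : d + b2 - ((b : ℕ) + m) = (d - m) + (b2 - (b : ℕ)) := by omega
    rw [e4, pow_add, pow_add]
    ring

theorem mulVec_lev (E : Bundle2 n) (j : ℤ) (v : Fin n → ℂ) (g : Idx E.β j → ℂ)
    (z : Fin 2 → ℂ) (k : Fin E.c) :
    (evm E.B (lpt v z)).mulVec (E.lev g z) k =
      ∑ b' : Fin (E.γ k + j + 1).toNat, (evm (E.fam j) v).mulVec g ⟨k, b'⟩ *
        z 0 ^ ((E.γ k + j).toNat - (b' : ℕ)) * z 1 ^ (b' : ℕ) := by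
  have hL : (evm E.B (lpt v z)).mulVec (E.lev g z) k = ∑ i : Fin E.a,
      ∑ b : Fin (E.β i + j + 1).toNat, g ⟨i, b⟩ * (eval (lpt v z) (E.B k i) *
        (z 0 ^ ((E.β i + j).toNat - (b : ℕ)) * z 1 ^ (b : ℕ))) := by
    simp only [Matrix.mulVec, dotProduct, evm, Matrix.map_apply, lev, Finset.mul_sum]
    refine Finset.sum_congr rfl fun i _ => Finset.sum_congr rfl fun b _ => ?_
    ring
  have hR : ∀ b' : Fin (E.γ k + j + 1).toNat, (evm (E.fam j) v).mulVec g ⟨k, b'⟩ =
      ∑ i : Fin E.a, ∑ b : Fin (E.β i + j + 1).toNat,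
        eval v (E.fam j ⟨k, b'⟩ ⟨i, b⟩) * g ⟨i, b⟩ := by
    intro b'
    simp only [Matrix.mulVec, dotProduct, evm, Matrix.map_apply]
    rw [Fintype.sum_sigma]
  rw [hL]
  simp only [hR, mulVec_lev_aux, Finset.mul_sum, Finset.sum_mul]
  symm
  rw [Finset.sum_comm]
  refine Finset.sum_congr rfl fun i _ => ?_
  rw [Finset.sum_comm]
  refine Finset.sum_congr rfl fun b _ => Finset.sum_congr rfl fun b' _ => ?_
  ring

theorem mem_Hsec (E : Bundle2 n) (j : ℤ) (v : Fin n → ℂ) (g : Idx E.β j → ℂ) :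
    g ∈ E.Hsec j v ↔ ∀ z : Fin 2 → ℂ, (evm E.B (lpt v z)).mulVec (E.lev g z) = 0 := by
  unfold Hsec
  rw [LinearMap.mem_ker, Matrix.mulVecLin_apply]
  constructor
  · intro h z
    funext k
    rw [mulVec_lev, h]
    simp
  · intro h
    funext y
    obtain ⟨k, b'⟩ := y
    have h1 : (∑ b : Fin (E.γ k + j + 1).toNat, Polynomial.C
        ((evm (E.fam j) v).mulVec g ⟨k, b⟩) * Polynomial.X ^ (b : ℕ) : Polynomial ℂ) = 0 := by
      refine Polynomial.funext fun t => ?_
      have h2 := congrFun (h ![1, t]) k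
      rw [mulVec_lev] at h2
      simpa [Polynomial.eval_finsetSum] using h2
    have h3 := congrArg (fun p => Polynomial.coeff p (b' : ℕ)) h1
    simp only [Polynomial.finsetSum_coeff, Polynomial.coeff_C_mul, Polynomial.coeff_X_pow,
      Polynomial.coeff_zero] at h3
    rw [Finset.sum_eq_single b'] at h3
    · simpa using h3
    · intro b _ hb
      rw [if_neg, mul_zero]
      exact fun h => hb (Fin.ext h.symm)
    · intro hb
      exact absurd (Finset.mem_univ _) hb

end Bundle2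

end H960VB
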