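import Pool.Agent.H960R2.VB.Pull
import Pool.Agent.H960R2.VB.TaskB
import Pool.Agent.H960R2.VB.TaskL1

open MvPolynomial

namespace H960VB

/-! ### auxiliary lemmas -/

namespace L2

theorem HomZ_mul {σ : Type*} {p q : MvPolynomial σ ℂ} {d e : ℤ} (hp : HomZ p d) (hq : HomZ q e) :
    HomZ (p * q) (d + e) := by
  rcases hp with rfl | ⟨k, rfl, hp⟩
  · left; simp
  · rcases hq with rfl | ⟨l, rfl, hq⟩
    · left; simp
    · exact Or.inr ⟨k + l, by push_cast; ring, hp.mul hq⟩

theorem HomZ_zero {σ : Type*} (d : ℤ) : HomZ (0 : MvPolynomial σ ℂ) d := Or.inl rfl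

theorem HomZ_neg {σ : Type*} {p : MvPolynomial σ ℂ} {d : ℤ} (hp : HomZ p d) : HomZ (-p) d := by
  rcases hp with rfl | ⟨k, rfl, hp⟩
  · left; simp
  · exact Or.inr ⟨k, rfl, hp.neg⟩

theorem HomZ_add {σ : Type*} {p q : MvPolynomial σ ℂ} {d : ℤ} (hp : HomZ p d) (hq : HomZ q d) :
    HomZ (p + q) d := by
  rcases hp with rfl | ⟨k, rfl, hp⟩
  · simpa using hq
  · rcases hq with rfl | ⟨l, hl, hq⟩
    · rw [add_zero]
      exact Or.inr ⟨k, rfl, hp⟩
    · have : l = k := by exact_mod_cast hl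
      subst this
      exact Or.inr ⟨l, rfl, hp.add hq⟩

theorem HomZ_sub {σ : Type*} {p q : MvPolynomial σ ℂ} {d : ℤ} (hp : HomZ p d) (hq : HomZ q d) :
    HomZ (p - q) d := by
  rw [sub_eq_add_neg]
  exact HomZ_add hp (HomZ_neg hq)

theorem HomZ_cast {σ : Type*} {p : MvPolynomial σ ℂ} {d e : ℤ} (hp : HomZ p d) (h : d = e) :
    HomZ p e := h ▸ hp

/-- two polynomials which agree away from the origin are equal. -/
theorem funext_ne_zero {m : ℕ} {p q : MvPolynomial (Fin (m + 1)) ℂ}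
    (h : ∀ x : Fin (m + 1) → ℂ, x ≠ 0 → eval x p = eval x q) : p = q := by
  have h1 : (X 0 : MvPolynomial (Fin (m + 1)) ℂ) * p = X 0 * q := by
    apply MvPolynomial.funext
    intro x
    simp only [map_mul, eval_X]
    by_cases hx : x = 0
    · simp [hx]
    · rw [h x hx]
  exact mul_left_cancel₀ (X_ne_zero 0) h1

/-- exponent vector in two variables. -/
noncomputable def mexp (a b : ℕ) : Fin 2 →₀ ℕ := Finsupp.equivFunOnFinite.symm ![a, b]

@[simp] theorem mexp_zero (a b : ℕ) : mexp a b 0 = a := by simp [mexp]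
@[simp] theorem mexp_one (a b : ℕ) : mexp a b 1 = b := by simp [mexp]

theorem mexp_degree (a b : ℕ) : (mexp a b).degree = a + b := by
  rw [Finsupp.degree_eq_sum, Fin.sum_univ_two, mexp_zero, mexp_one]

theorem eq_mexp (m : Fin 2 →₀ ℕ) : m = mexp (m 0) (m 1) := by
  ext i
  fin_cases i <;> simp

theorem mexp_inj {a b a' b' : ℕ} (h : mexp a b = mexp a' b') : a = a' ∧ b = b' := by
  have h0 := DFunLike.congr_fun h 0
  have h1 := DFunLike.congr_fun h 1
  simp at h0 h1
  exact ⟨h0, h1⟩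

theorem eval_mexp (a b : ℕ) (c : ℂ) (z : Fin 2 → ℂ) :
    eval z (monomial (mexp a b) c) = c * z 0 ^ a * z 1 ^ b := by
  rw [eval_monomial, Finsupp.prod_fintype _ _ (by simp), Fin.prod_univ_two, mexp_zero, mexp_one,
    mul_assoc]

/-- coefficient array to binary form. -/
noncomputable def toPoly (d : ℤ) : (Fin (d + 1).toNat → ℂ) →ₗ[ℂ] MvPolynomial (Fin 2) ℂ where
  toFun g := ∑ b : Fin (d + 1).toNat, monomial (mexp (d.toNat - (b : ℕ)) b) (g b)
  map_add' x y := by
    rw [← Finset.sum_add_distrib]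
    exact Finset.sum_congr rfl fun b _ => by simp
  map_smul' c x := by
    rw [RingHom.id_apply, Finset.smul_sum]
    exact Finset.sum_congr rfl fun b _ => by simp [smul_monomial]

theorem toPoly_apply (d : ℤ) (g : Fin (d + 1).toNat → ℂ) :
    toPoly d g = ∑ b : Fin (d + 1).toNat, monomial (mexp (d.toNat - (b : ℕ)) b) (g b) := rfl

theorem eval_toPoly (d : ℤ) (g : Fin (d + 1).toNat → ℂ) (z : Fin 2 → ℂ) :
    eval z (toPoly d g) = ∑ b : Fin (d + 1).toNat, g b * z 0 ^ (d.toNat - (b : ℕ)) * z 1 ^ (b : ℕ) := by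
  rw [toPoly_apply, map_sum]
  exact Finset.sum_congr rfl fun b _ => eval_mexp _ _ _ _

theorem homZ_toPoly (d : ℤ) (g : Fin (d + 1).toNat → ℂ) : HomZ (toPoly d g) d := by
  by_cases hd : 0 ≤ d
  · refine Or.inr ⟨d.toNat, by omega, ?_⟩
    rw [toPoly_apply]
    apply IsHomogeneous.sum
    intro b _
    apply isHomogeneous_monomial
    rw [mexp_degree]
    have := b.2
    omega
  · left
    rw [toPoly_apply]
    apply Finset.sum_eq_zero
    intro b _
    exfalso
    have := b.2
    omega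

/-- binary form to coefficient array. -/
noncomputable def fromPoly (d : ℤ) : MvPolynomial (Fin 2) ℂ →ₗ[ℂ] (Fin (d + 1).toNat → ℂ) where
  toFun p := fun b => coeff (mexp (d.toNat - (b : ℕ)) b) p
  map_add' x y := by ext b; simp
  map_smul' c x := by ext b; simp

theorem fromPoly_apply (d : ℤ) (p : MvPolynomial (Fin 2) ℂ) (b : Fin (d + 1).toNat) :
    fromPoly d p b = coeff (mexp (d.toNat - (b : ℕ)) b) p := rfl

theorem fromPoly_toPoly (d : ℤ) (g : Fin (d + 1).toNat → ℂ) : fromPoly d (toPoly d g) = g := by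
  ext b
  rw [fromPoly_apply, toPoly_apply, coeff_sum, Finset.sum_eq_single b]
  · simp
  · intro b' _ hb'
    rw [coeff_monomial, if_neg]
    intro h
    exact hb' (Fin.ext (mexp_inj h).2)
  · simp

theorem toPoly_injective (d : ℤ) : Function.Injective (toPoly d) := fun g g' h => by
  rw [← fromPoly_toPoly d g, h, fromPoly_toPoly]

theorem toPoly_fromPoly (d : ℤ) (p : MvPolynomial (Fin 2) ℂ) (hp : HomZ p d) :
    toPoly d (fromPoly d p) = p := by
  rcases hp with rfl | ⟨k, hk, hp⟩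
  · simp
  · subst hk
    ext m
    rw [toPoly_apply, coeff_sum]
    have hkn : ((k : ℤ)).toNat = k := by simp
    by_cases hm : m 0 + m 1 = k
    · have hlt : m 1 < ((k : ℤ) + 1).toNat := by omega
      rw [Finset.sum_eq_single (⟨m 1, hlt⟩ : Fin ((k : ℤ) + 1).toNat)]
      · have h1 : mexp ((k : ℤ).toNat - m 1) (m 1) = m := by
          conv_rhs => rw [eq_mexp m]
          congr 1
          omega
        rw [coeff_monomial, if_pos h1, fromPoly_apply]
        simp only
        rw [h1]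
      · intro b _ hb
        rw [coeff_monomial, if_neg]
        intro h
        apply hb
        apply Fin.ext
        have h1 := DFunLike.congr_fun h 1
        rw [mexp_one] at h1
        exact h1
      · simp
    · have h0 : coeff m p = 0 := by
        apply hp.coeff_eq_zero
        rw [eq_mexp m, mexp_degree]
        exact hm
      rw [h0]
      apply Finset.sum_eq_zero
      intro b _
      rw [coeff_monomial, if_neg]
      intro h
      apply hm
      rw [← h]
      simp only [mexp_zero, mexp_one]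
      have := b.2
      omega

/-! ### the line -/

variable {n : ℕ}

/-- the parametrisation of the line as a linear map. -/
noncomputable def lmap (v : Fin n → ℂ) : (Fin (1 + 1) → ℂ) →ₗ[ℂ] (Fin (n + 1) → ℂ) where
  toFun z := Bundle2.lpt v z
  map_add' x y := by
    ext i
    refine Fin.cases ?_ (fun i => ?_) i <;> simp [Bundle2.lpt, add_mul]
  map_smul' c x := by
    ext i
    refine Fin.cases ?_ (fun i => ?_) i <;> simp [Bundle2.lpt, mul_assoc]

theorem lmap_apply (v : Fin n → ℂ) (z : Fin 2 → ℂ) : lmap v z = Bundle2.lpt v z := rfl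

theorem lpt_ne_zero {v : Fin n → ℂ} (hv : v ≠ 0) {z : Fin 2 → ℂ} (hz : z ≠ 0) :
    Bundle2.lpt v z ≠ 0 := by
  intro h
  apply hz
  have h0 : z 0 = 0 := by
    have := congrFun h 0
    simpa [Bundle2.lpt] using this
  have h1 : z 1 = 0 := by
    obtain ⟨i, hi⟩ := Function.ne_iff.1 hv
    have := congrFun h i.succ
    simp [Bundle2.lpt] at this
    rcases this with h | h
    · exact h
    · exact absurd h hi
  ext i
  fin_cases i
  · exact h0
  · exact h1

theorem line_pt (v : Fin n → ℂ) (z : Fin 2 → ℂ) :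
    z 0 • (Fin.cons 1 0 : Fin (n + 1) → ℂ) + z 1 • (Fin.cons 0 v : Fin (n + 1) → ℂ)
      = Bundle2.lpt v z := by
  ext i
  refine Fin.cases ?_ (fun i => ?_) i <;> simp [Bundle2.lpt]

/-- the vector of binary forms with the coefficient array `g`. -/
noncomputable def gp (E : Bundle2 n) {j : ℤ} (g : Bundle2.Idx E.β j → ℂ) :
    Fin E.a → MvPolynomial (Fin 2) ℂ := fun i => toPoly (E.β i + j) (fun b => g ⟨i, b⟩)

theorem evv_gp (E : Bundle2 n) {j : ℤ} (g : Bundle2.Idx E.β j → ℂ) (z : Fin 2 → ℂ) :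
    evv (gp E g) z = E.lev g z := by
  ext i
  exact eval_toPoly _ _ _

theorem homZ_gp (E : Bundle2 n) {j : ℤ} (g : Bundle2.Idx E.β j → ℂ) (i : Fin E.a) :
    HomZ (gp E g i) (E.β i + j) := homZ_toPoly _ _

/-- Wedge products of pairs of binary form vectors. -/
theorem wedge_poly (E : Bundle2 n) (c₁ : ℤ)
    (P : Fin E.a → Fin E.a → MvPolynomial (Fin (n + 1)) ℂ)
    (hP : ∀ i j, HomZ (P i j) (E.β i + E.β j - c₁))
    (hP0 : ∀ x : Fin (n + 1) → ℂ, x ≠ 0 → ∃ i j, eval x (P i j) ≠ 0)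
    (hPw : ∀ x : Fin (n + 1) → ℂ, x ≠ 0 → ∀ u w : Fin E.a → ℂ,
        (evm E.B x).mulVec u = 0 → (evm E.B x).mulVec w = 0 →
        ∃ κ : ℂ, ∀ i j, u i * w j - u j * w i = κ * eval x (P i j))
    (v : Fin n → ℂ) (hv : v ≠ 0) (s t : ℤ) (G G' : Fin E.a → MvPolynomial (Fin 2) ℂ)
    (hG : ∀ i, HomZ (G i) (E.β i + s)) (hG' : ∀ i, HomZ (G' i) (E.β i + t))
    (hGs : ∀ z : Fin 2 → ℂ, z ≠ 0 → (evm E.B (Bundle2.lpt v z)).mulVec (evv G z) = 0)
    (hGs' : ∀ z : Fin 2 → ℂ, z ≠ 0 → (evm E.B (Bundle2.lpt v z)).mulVec (evv G' z) = 0) :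
    ∃ h : MvPolynomial (Fin 2) ℂ, HomZ h (s + t + c₁) ∧
      ∀ (z : Fin 2 → ℂ) (i k : Fin E.a),
        evv G z i * evv G' z k - evv G z k * evv G' z i =
          eval z h * eval (Bundle2.lpt v z) (P i k) := by
  classical
  let S : Matrix (Fin E.a × Fin E.a) Unit (MvPolynomial (Fin 2) ℂ) :=
    fun y _ => lsub (lmap v) (P y.1 y.2)
  let r : Fin E.a × Fin E.a → MvPolynomial (Fin 2) ℂ := fun y => G y.1 * G' y.2 - G y.2 * G' y.1
  have hSe : ∀ (z : Fin 2 → ℂ) (g : Unit → ℂ) (y : Fin E.a × Fin E.a),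
      (evm S z).mulVec g y = eval (Bundle2.lpt v z) (P y.1 y.2) * g () := by
    intro z g y
    have h1 : eval z (lsub (lmap v) (P y.1 y.2)) = eval (lmap v z) (P y.1 y.2) :=
      eval_lsub (lmap v) z (P y.1 y.2)
    rw [lmap_apply] at h1
    have h0 : (evm S z).mulVec g y = eval z (S y ()) * g () := by
      simp [Matrix.mulVec, dotProduct, evm]
    rw [h0]
    exact congrArg (· * g ()) h1
  have hinj : ∀ z : Fin 2 → ℂ, z ≠ 0 → ∀ g : Unit → ℂ, (evm S z).mulVec g = 0 → g = 0 := by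
    intro z hz g hg
    obtain ⟨i, k, hik⟩ := hP0 _ (lpt_ne_zero hv hz)
    have h1 := congrFun hg (i, k)
    rw [hSe, Pi.zero_apply] at h1
    ext x
    exact (mul_eq_zero.1 h1).resolve_left hik
  have hr : ∀ (z : Fin 2 → ℂ) (y : Fin E.a × Fin E.a), evv r z y =
      evv G z y.1 * evv G' z y.2 - evv G z y.2 * evv G' z y.1 := by
    intro z y
    simp [evv, r]
  obtain ⟨h, hh⟩ := hartogs (le_refl 2) S r hinj (by
    intro z hz
    obtain ⟨κ, hκ⟩ := hPw _ (lpt_ne_zero hv hz) _ _ (hGs z hz) (hGs' z hz)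
    refine ⟨fun _ => κ, ?_⟩
    ext y
    rw [hSe, hr, hκ, mul_comm])
  have hdeg := hartogs_hom (by norm_num : 1 ≤ 2) S r
    (fun y => E.β y.1 + E.β y.2 - c₁) (fun _ => 0) (-(s + t + c₁))
    (fun y _ => HomZ_cast (homZ_lsub (lmap v) (hP y.1 y.2)) (by ring))
    (fun y => HomZ_sub (HomZ_cast (HomZ_mul (hG y.1) (hG' y.2)) (by ring))
      (HomZ_cast (HomZ_mul (hG y.2) (hG' y.1)) (by ring))) hinj h hh
  refine ⟨h (), HomZ_cast (hdeg ()) (by ring), fun z i k => ?_⟩
  have h1 : evv (S.mulVec h) z (i, k) = evv r z (i, k) := by rw [hh]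
  rw [hr] at h1
  have h2 : evv (S.mulVec h) z (i, k) =
      eval (Bundle2.lpt v z) (P i k) * eval z (h ()) := by
    have h3 : eval z (lsub (lmap v) (P i k)) = eval (lmap v z) (P i k) :=
      eval_lsub (lmap v) z (P i k)
    rw [lmap_apply] at h3
    have h0 : S.mulVec h (i, k) = S (i, k) () * h () := by
      simp [Matrix.mulVec, dotProduct]
    show eval z (S.mulVec h (i, k)) = _
    rw [h0, map_mul]
    exact congrArg (· * eval z (h ())) h3
  rw [← h1, h2, mul_comm]

theorem eval_smul_hom {k : ℕ} {h : MvPolynomial (Fin 2) ℂ} (hh : h.IsHomogeneous k)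
    (r : ℂ) (z : Fin 2 → ℂ) : eval (r • z) h = r ^ k * eval z h := by
  rw [eval_eq', eval_eq', Finset.mul_sum]
  apply Finset.sum_congr rfl
  intro d hd
  have hdeg : d.degree = k := by
    by_contra hne
    exact (mem_support_iff.1 hd) (hh.coeff_eq_zero hne)
  rw [Finsupp.degree_eq_sum, Fin.sum_univ_two] at hdeg
  rw [Fin.prod_univ_two, Fin.prod_univ_two, ← hdeg]
  simp only [Pi.smul_apply, smul_eq_mul, mul_pow, pow_add]
  ring

theorem const_of_nonvanishing (f : Polynomial ℂ) (h : ∀ t, f.eval t ≠ 0) :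
    ∃ c : ℂ, ∀ t, f.eval t = c := by
  have hd : f.degree = 0 := by
    by_contra hne
    obtain ⟨t, ht⟩ := IsAlgClosed.exists_root f hne
    exact h t ht
  obtain ⟨c, hc⟩ : ∃ c, f = Polynomial.C c := ⟨_, Polynomial.eq_C_of_degree_eq_zero hd⟩
  exact ⟨c, fun t => by rw [hc, Polynomial.eval_C]⟩

theorem eval_aeval_poly (w : Fin 2 → Polynomial ℂ) (h : MvPolynomial (Fin 2) ℂ) (t : ℂ) :
    (aeval w h : Polynomial ℂ).eval t = eval (fun i => (w i).eval t) h := by
  have h2 : ((Polynomial.aeval t : Polynomial ℂ →ₐ[ℂ] ℂ).comp (aeval w)) =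
      (aeval (fun i => (w i).eval t) : MvPolynomial (Fin 2) ℂ →ₐ[ℂ] ℂ) := by
    apply MvPolynomial.algHom_ext
    intro s
    simp
  have h3 := congrArg (fun f => f h) h2
  simpa [MvPolynomial.aeval_eq_eval, Polynomial.aeval_def, Polynomial.eval₂_eq_eval_map] using h3

/-- A binary form without nontrivial zeros is constant. -/
theorem nonvanishing_form {k : ℕ} {h : MvPolynomial (Fin 2) ℂ} (hh : h.IsHomogeneous k)
    (h0 : ∀ z : Fin 2 → ℂ, z ≠ 0 → eval z h ≠ 0) : k = 0 := by
  obtain ⟨c, hc⟩ := const_of_nonvanishing (aeval ![1, Polynomial.X] h) (by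
    intro t
    rw [eval_aeval_poly]
    apply h0
    intro hz
    have := congrFun hz 0
    simp at this)
  obtain ⟨c', hc'⟩ := const_of_nonvanishing (aeval ![Polynomial.X, 1] h) (by
    intro t
    rw [eval_aeval_poly]
    apply h0
    intro hz
    have := congrFun hz 1
    simp at this)
  have e1 : ∀ t : ℂ, eval ![1, t] h = c := by
    intro t
    rw [← hc t, eval_aeval_poly]
    congr 2
    ext i
    fin_cases i <;> simp
  have e2 : ∀ t : ℂ, eval ![t, 1] h = c' := by
    intro t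
    rw [← hc' t, eval_aeval_poly]
    congr 2
    ext i
    fin_cases i <;> simp
  have hcc : c = c' := by rw [← e1 1, ← e2 1]
  have h2 : eval ((2 : ℂ) • ![1, (1 / 2 : ℂ)]) h = 2 ^ k * eval ![1, (1 / 2 : ℂ)] h :=
    eval_smul_hom hh 2 _
  have h3 : ((2 : ℂ) • ![1, (1 / 2 : ℂ)]) = ![2, 1] := by
    ext i
    fin_cases i <;> simp
  rw [h3, e2, e1, ← hcc] at h2
  have hc0 : c ≠ 0 := by
    rw [← e1 1]
    apply h0
    intro hz
    have := congrFun hz 0
    simp at this
  have h4 : (2 : ℂ) ^ k = 1 := by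
    have : (2 : ℂ) ^ k * c = 1 * c := by rw [← h2, one_mul]
    exact mul_right_cancel₀ hc0 this
  have h5 : (2 : ℕ) ^ k = 1 := by exact_mod_cast h4
  by_contra hk
  have := Nat.one_lt_two_pow hk
  omega

theorem exists_wedge_ne {a : ℕ} {u w : Fin a → ℂ} (h : LinearIndependent ℂ ![u, w]) :
    ∃ i k, u i * w k - u k * w i ≠ 0 := by
  by_contra hcon
  push Not at hcon
  have hu : u ≠ 0 := by
    have := h.ne_zero 0
    simpa using this
  obtain ⟨i, hi⟩ := Function.ne_iff.1 hu
  have hi' : u i ≠ 0 := hi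
  rw [LinearIndependent.pair_iff] at h
  have h1 := h (-(w i)) (u i) (by
    ext k
    have := hcon i k
    simp only [Pi.add_apply, Pi.smul_apply, smul_eq_mul, Pi.zero_apply]
    linear_combination this)
  exact hi' h1.2

end L2

namespace Bundle2

variable {n : ℕ}

/-- The wedge product of two sections on a line is a binary form times the Plücker vector. -/
theorem wedge (E : Bundle2 n) (c₁ : ℤ)
    (P : Fin E.a → Fin E.a → MvPolynomial (Fin (n + 1)) ℂ)
    (hP : ∀ i j, HomZ (P i j) (E.β i + E.β j - c₁))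
    (hP0 : ∀ x : Fin (n + 1) → ℂ, x ≠ 0 → ∃ i j, eval x (P i j) ≠ 0)
    (hPw : ∀ x : Fin (n + 1) → ℂ, x ≠ 0 → ∀ u w : Fin E.a → ℂ,
        (evm E.B x).mulVec u = 0 → (evm E.B x).mulVec w = 0 →
        ∃ κ : ℂ, ∀ i j, u i * w j - u j * w i = κ * eval x (P i j))
    (v : Fin n → ℂ) (hv : v ≠ 0) (j j' : ℤ) (g : Idx E.β j → ℂ) (hg : g ∈ E.Hsec j v)
    (g' : Idx E.β j' → ℂ) (hg' : g' ∈ E.Hsec j' v) :
    ∃ h : MvPolynomial (Fin 2) ℂ, HomZ h (j + j' + c₁) ∧
      ∀ (z : Fin 2 → ℂ) (i k : Fin E.a),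
        E.lev g z i * E.lev g' z k - E.lev g z k * E.lev g' z i =
          eval z h * eval (lpt v z) (P i k) := by
  obtain ⟨h, hh, h1⟩ := L2.wedge_poly E c₁ P hP hP0 hPw v hv j j' (L2.gp E g) (L2.gp E g')
    (L2.homZ_gp E g) (L2.homZ_gp E g')
    (fun z _ => by rw [L2.evv_gp]; exact (mem_Hsec E j v g).1 hg z)
    (fun z _ => by rw [L2.evv_gp]; exact (mem_Hsec E j' v g').1 hg' z)
  refine ⟨h, hh, fun z i k => ?_⟩
  have := h1 z i k
  rwa [L2.evv_gp, L2.evv_gp] at this

/-- degree of a splitting on a line. -/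
theorem splitsOn_sum (E : Bundle2 n) (c₁ : ℤ)
    (P : Fin E.a → Fin E.a → MvPolynomial (Fin (n + 1)) ℂ)
    (hP : ∀ i j, HomZ (P i j) (E.β i + E.β j - c₁))
    (hP0 : ∀ x : Fin (n + 1) → ℂ, x ≠ 0 → ∃ i j, eval x (P i j) ≠ 0)
    (hPw : ∀ x : Fin (n + 1) → ℂ, x ≠ 0 → ∀ u w : Fin E.a → ℂ,
        (evm E.B x).mulVec u = 0 → (evm E.B x).mulVec w = 0 →
        ∃ κ : ℂ, ∀ i j, u i * w j - u j * w i = κ * eval x (P i j))
    (v : Fin n → ℂ) (hv : v ≠ 0) (p q : ℤ)
    (hs : E.SplitsOn (Fin.cons 1 0) (Fin.cons 0 v) p q) : p + q = c₁ := by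
  obtain ⟨g₁, g₂, hg₁, hg₂, hz⟩ := hs
  obtain ⟨h, hh, h1⟩ := L2.wedge_poly E c₁ P hP hP0 hPw v hv (-p) (-q) g₁ g₂
    (fun i => L2.HomZ_cast (hg₁ i) (by ring)) (fun i => L2.HomZ_cast (hg₂ i) (by ring))
    (fun z hz' => by
      have := (hz z hz').1
      rw [L2.line_pt] at this
      simpa [fib] using this)
    (fun z hz' => by
      have := (hz z hz').2.1
      rw [L2.line_pt] at this
      simpa [fib] using this)
  have hne : ∀ z : Fin 2 → ℂ, z ≠ 0 → eval z h ≠ 0 := by
    intro z hz' h0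
    obtain ⟨i, k, hik⟩ := L2.exists_wedge_ne (hz z hz').2.2
    apply hik
    rw [h1 z i k, h0, zero_mul]
  rcases hh with rfl | ⟨k, hk, hh⟩
  · exact absurd (by simp) (hne ![1, 0] (by
      intro h0
      have := congrFun h0 0
      simp at this))
  · have := L2.nonvanishing_form hh hne
    omega

/-- dimension of the space of sections on a line. -/
theorem finrank_Hsec (E : Bundle2 n) (v : Fin n → ℂ) (hv : v ≠ 0) (p q : ℤ)
    (hs : E.SplitsOn (Fin.cons 1 0) (Fin.cons 0 v) p q) (j : ℤ) :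
    Module.finrank ℂ (E.Hsec j v) = (p + j + 1).toNat + (q + j + 1).toNat := by
  classical
  obtain ⟨g₁, g₂, hg₁, hg₂, hz⟩ := hs
  -- the linear map from pairs of forms
  let pol : (Fin (p + j + 1).toNat → ℂ) × (Fin (q + j + 1).toNat → ℂ) →ₗ[ℂ]
      (Fin E.a → MvPolynomial (Fin 2) ℂ) :=
    { toFun := fun x i => L2.toPoly (p + j) x.1 * g₁ i + L2.toPoly (q + j) x.2 * g₂ i
      map_add' := fun x y => by
        ext1 i
        simp only [Prod.fst_add, Prod.snd_add, map_add, Pi.add_apply]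
        ring
      map_smul' := fun c x => by
        ext1 i
        simp only [Prod.smul_fst, Prod.smul_snd, map_smul, Pi.smul_apply, RingHom.id_apply,
          smul_add, smul_mul_assoc] }
  have hpol : ∀ x i, pol x i = L2.toPoly (p + j) x.1 * g₁ i + L2.toPoly (q + j) x.2 * g₂ i :=
    fun x i => rfl
  have hpold : ∀ x i, HomZ (pol x i) (E.β i + j) := fun x i =>
    L2.HomZ_add (L2.HomZ_cast (L2.HomZ_mul (L2.homZ_toPoly _ _) (hg₁ i)) (by ring))
      (L2.HomZ_cast (L2.HomZ_mul (L2.homZ_toPoly _ _) (hg₂ i)) (by ring))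
  let Φ : (Fin (p + j + 1).toNat → ℂ) × (Fin (q + j + 1).toNat → ℂ) →ₗ[ℂ] (Idx E.β j → ℂ) :=
    { toFun := fun x y => L2.fromPoly (E.β y.1 + j) (pol x y.1) y.2
      map_add' := fun x y => by
        ext1 i
        simp only [map_add, Pi.add_apply]
      map_smul' := fun c x => by
        ext1 i
        simp only [map_smul, Pi.smul_apply, RingHom.id_apply] }
  have hΦgp : ∀ x, L2.gp E (Φ x) = pol x := by
    intro x
    ext1 i
    exact L2.toPoly_fromPoly _ _ (hpold x i)
  have hlev : ∀ x z, E.lev (Φ x) z = eval z (L2.toPoly (p + j) x.1) • evv g₁ z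
      + eval z (L2.toPoly (q + j) x.2) • evv g₂ z := by
    intro x z
    rw [← L2.evv_gp, hΦgp]
    ext1 i
    simp [evv, hpol]
  have hzero : ∀ (f : MvPolynomial (Fin 2) ℂ), (∀ z : Fin 2 → ℂ, z ≠ 0 → eval z f = 0) → f = 0 :=
    fun f hf => L2.funext_ne_zero (m := 1) (fun x hx => by rw [hf x hx]; simp)
  have hker : ∀ x, Φ x = 0 → x = 0 := by
    intro x hx
    have h1 : ∀ z : Fin 2 → ℂ, z ≠ 0 → eval z (L2.toPoly (p + j) x.1) = 0 ∧
        eval z (L2.toPoly (q + j) x.2) = 0 := by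
      intro z hz'
      have h2 := hlev x z
      have h3 : E.lev (Φ x) z = 0 := by
        rw [hx]
        ext1 i
        simp [lev]
      rw [h3] at h2
      exact LinearIndependent.pair_iff.1 (hz z hz').2.2 _ _ h2.symm
    have h4 : L2.toPoly (p + j) x.1 = 0 := hzero _ fun z hz' => (h1 z hz').1
    have h5 : L2.toPoly (q + j) x.2 = 0 := hzero _ fun z hz' => (h1 z hz').2
    have h6 : x.1 = 0 := L2.toPoly_injective _ (by rw [h4, map_zero])
    have h7 : x.2 = 0 := L2.toPoly_injective _ (by rw [h5, map_zero])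
    exact Prod.ext h6 h7
  have hinjΦ : Function.Injective Φ := (injective_iff_map_eq_zero Φ).2 hker
  have hfib1 : ∀ z : Fin 2 → ℂ, z ≠ 0 → (evm E.B (lpt v z)).mulVec (evv g₁ z) = 0 := by
    intro z hz'
    have := (hz z hz').1
    rw [L2.line_pt] at this
    simpa [fib] using this
  have hfib2 : ∀ z : Fin 2 → ℂ, z ≠ 0 → (evm E.B (lpt v z)).mulVec (evv g₂ z) = 0 := by
    intro z hz'
    have := (hz z hz').2.1
    rw [L2.line_pt] at this
    simpa [fib] using this
  have hrange : LinearMap.range Φ = E.Hsec j v := by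
    apply le_antisymm
    · rintro _ ⟨x, rfl⟩
      rw [mem_Hsec]
      have hpz : ∀ k, (∑ i, lsub (L2.lmap v) (E.B k i) * pol x i) = 0 := by
        intro k
        apply hzero
        intro z hz'
        have h1 : (evm E.B (lpt v z)).mulVec (E.lev (Φ x) z) = 0 := by
          rw [hlev, Matrix.mulVec_add, Matrix.mulVec_smul, Matrix.mulVec_smul, hfib1 z hz',
            hfib2 z hz', smul_zero, smul_zero, add_zero]
        have h2 := congrFun h1 k
        rw [← L2.evv_gp, hΦgp] at h2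
        simp only [Matrix.mulVec, dotProduct, evm, Matrix.map_apply, evv, Pi.zero_apply] at h2
        rw [map_sum, ← h2]
        apply Finset.sum_congr rfl
        intro i _
        rw [map_mul]
        exact congrArg (· * eval z (pol x i)) (eval_lsub (L2.lmap v) z (E.B k i))
      intro z
      ext1 k
      have h3 := congrArg (eval z) (hpz k)
      rw [map_sum, map_zero] at h3
      rw [← L2.evv_gp, hΦgp, Pi.zero_apply, ← h3]
      simp only [Matrix.mulVec, dotProduct, evm, Matrix.map_apply, evv]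
      apply Finset.sum_congr rfl
      intro i _
      rw [map_mul]
      exact congrArg (· * eval z (pol x i)) (eval_lsub (L2.lmap v) z (E.B k i)).symm
    · intro g hg
      rw [mem_Hsec] at hg
      let S : Matrix (Fin E.a) (Fin 2) (MvPolynomial (Fin 2) ℂ) := fun i b => ![g₁ i, g₂ i] b
      have hSe : ∀ (z : Fin 2 → ℂ) (c : Fin 2 → ℂ), (evm S z).mulVec c =
          c 0 • evv g₁ z + c 1 • evv g₂ z := by
        intro z c
        ext1 i
        simp only [Matrix.mulVec, dotProduct, Fin.sum_univ_two]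
        show eval z (g₁ i) * c 0 + eval z (g₂ i) * c 1 = c 0 * eval z (g₁ i) + c 1 * eval z (g₂ i)
        ring
      have hinj : ∀ z : Fin 2 → ℂ, z ≠ 0 → ∀ c : Fin 2 → ℂ, (evm S z).mulVec c = 0 → c = 0 := by
        intro z hz' c hc
        rw [hSe] at hc
        obtain ⟨h0, h1⟩ := LinearIndependent.pair_iff.1 (hz z hz').2.2 _ _ hc
        ext b
        fin_cases b
        · exact h0
        · exact h1
      have hsol : ∀ z : Fin 2 → ℂ, z ≠ 0 → ∃ c : Fin 2 → ℂ,
          (evm S z).mulVec c = evv (L2.gp E g) z := by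
        intro z hz'
        rw [L2.evv_gp]
        have hx : lpt v z ≠ 0 := L2.lpt_ne_zero hv hz'
        have hrk := E.rank_two _ hx
        have hspan : Submodule.span ℂ (Set.range ![evv g₁ z, evv g₂ z]) =
            LinearMap.ker (Matrix.mulVecLin (evm E.B (lpt v z))) := by
          apply Submodule.eq_of_le_of_finrank_eq
          · rw [Submodule.span_le]
            rintro _ ⟨b, rfl⟩
            fin_cases b
            · simpa using hfib1 z hz'
            · simpa using hfib2 z hz'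
          · rw [hrk, finrank_span_eq_card (hz z hz').2.2]
            simp
        have hmem : E.lev g z ∈ Submodule.span ℂ (Set.range ![evv g₁ z, evv g₂ z]) := by
          rw [hspan]
          simpa using hg z
        rw [Submodule.mem_span_range_iff_exists_fun] at hmem
        obtain ⟨c, hc⟩ := hmem
        refine ⟨c, ?_⟩
        rw [hSe, ← hc, Fin.sum_univ_two]
        simp
      obtain ⟨H, hH⟩ := hartogs (le_refl 2) S (L2.gp E g) hinj hsol
      have hdeg := hartogs_hom (by norm_num : 1 ≤ 2) S (L2.gp E g) E.β ![p, q] (-j)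
        (fun i b => by
          fin_cases b
          · exact hg₁ i
          · exact hg₂ i)
        (fun i => L2.HomZ_cast (L2.homZ_gp E g i) (by ring)) hinj H hH
      have hd0 : HomZ (H 0) (p + j) := L2.HomZ_cast (hdeg 0) (by simp)
      have hd1 : HomZ (H 1) (q + j) := L2.HomZ_cast (hdeg 1) (by simp)
      refine ⟨(L2.fromPoly (p + j) (H 0), L2.fromPoly (q + j) (H 1)), ?_⟩
      have hgp : L2.gp E (Φ (L2.fromPoly (p + j) (H 0), L2.fromPoly (q + j) (H 1))) =
          L2.gp E g := by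
        rw [hΦgp]
        ext1 i
        rw [hpol, L2.toPoly_fromPoly _ _ hd0, L2.toPoly_fromPoly _ _ hd1, ← hH]
        simp only [Matrix.mulVec, dotProduct, Fin.sum_univ_two, S, Matrix.cons_val_zero,
          Matrix.cons_val_one]
        ring
      ext1 y
      obtain ⟨i, b⟩ := y
      have h8 := L2.toPoly_injective _ (congrFun hgp i)
      exact congrFun h8 b
  rw [← hrange, LinearMap.finrank_range_of_inj hinjΦ, Module.finrank_prod,
    Module.finrank_fin_fun, Module.finrank_fin_fun]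

end Bundle2

end H960VB
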