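import Pool.Agent.H960R2.VB.Pull
import Pool.Agent.H960R2.VB.TaskB
import Pool.Agent.H960R2.VB.TaskC2
import Pool.Agent.H960R2.VB.TaskH2
import Pool.Agent.H960R2.VB.TaskL2

/-!
Task H3: Horrocks' theorem for rank two bundles, in elementary terms: if the restriction of a rank
two bundle on `P^{n+1}`, `n ≥ 2`, to a hyperplane splits, then the bundle splits.
-/

open MvPolynomial

namespace H960VB

namespace TaskH3

theorem lsub_hyp_X_zero (n : ℕ) : lsub (Bundle2.hyp n) (X 0) = 0 := by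
  refine MvPolynomial.funext fun x => ?_
  rw [eval_lsub, eval_X, map_zero]
  rfl

theorem evv_mulVec {N : ℕ} {κ ι : Type*} [Fintype ι] (B : Matrix κ ι (MvPolynomial (Fin N) ℂ))
    (g : ι → MvPolynomial (Fin N) ℂ) (x : Fin N → ℂ) :
    evv (B.mulVec g) x = (evm B x).mulVec (evv g x) := by
  funext k
  simp only [evv, evm, Matrix.mulVec, dotProduct, map_sum, map_mul, Matrix.map_apply]

/-- a section of the restriction to the hyperplane lifts. -/
theorem lift {n : ℕ} (hn : 2 ≤ n) (E : Bundle2 (n + 1))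
    (hs : (E.pull (Bundle2.hyp n) (Bundle2.hyp_injective n)).Splits) (d : ℤ)
    (g : Fin E.a → MvPolynomial (Fin (n + 1)) ℂ)
    (hg : (E.pull (Bundle2.hyp n) (Bundle2.hyp_injective n)).IsSection d g) :
    ∃ G : Fin E.a → MvPolynomial (Fin (n + 1 + 1)) ℂ, E.IsSection d G ∧
      ∀ i, lsub (Bundle2.hyp n) (G i) = g i := by
  set g' : Fin E.a → MvPolynomial (Fin (n + 1 + 1)) ℂ := fun i => rename Fin.succ (g i) with hg'
  have hg'hom : ∀ i, HomZ (g' i) (E.β i + d) := fun i => h2_rename _ (hg.1 i)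
  set s : Fin E.c → MvPolynomial (Fin (n + 1 + 1)) ℂ := E.B.mulVec g' with hsdef
  have hshom : ∀ k, HomZ (s k) (E.γ k + d) := by
    intro k
    simp only [hsdef, Matrix.mulVec, dotProduct]
    refine h2_sum _ fun i _ => ?_
    have := h2_mul (E.hom k i) (hg'hom i)
    rwa [show E.γ k - E.β i + (E.β i + d) = E.γ k + d by ring] at this
  have hsd : ∀ k, ∃ t, s k = X 0 * t := by
    intro k
    refine h2_X_dvd (s k) ?_
    refine eq_of_eval_ne (by omega) fun x hx => ?_
    have h1 := LinearMap.mem_ker.1 (hg.2 x hx)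
    rw [Matrix.mulVecLin_apply] at h1
    have h2 := congrFun h1 k
    rw [map_zero]
    have h3 : lsub (Bundle2.hyp n) (s k) =
        ((E.pull (Bundle2.hyp n) (Bundle2.hyp_injective n)).B.mulVec g) k := by
      simp only [hsdef, Matrix.mulVec, dotProduct, map_sum, map_mul, hg', h2_lsub_rename]
      rfl
    rw [h3]
    have h4 := congrFun (evv_mulVec (E.pull (Bundle2.hyp n) (Bundle2.hyp_injective n)).B g x) k
    exact h4.trans h2
  choose r' hr' using hsd
  have hr'hom : ∀ k, HomZ (r' k) (E.γ k + (d - 1)) := by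
    intro k
    have h1 := hshom k
    rw [hr' k] at h1
    have := h2_of_X_mul h1
    rwa [show E.γ k + d - 1 = E.γ k + (d - 1) by ring] at this
  have him : ∀ x : Fin (n + 1 + 1) → ℂ, x ≠ 0 →
      ∃ u : Fin E.a → ℂ, (evm E.B x).mulVec u = evv r' x := by
    refine h2_closed E.B E.rank_two r' (X 0) (X_ne_zero 0) fun x hx hx0 => ?_
    rw [eval_X] at hx0
    refine ⟨(x 0)⁻¹ • evv g' x, ?_⟩
    rw [Matrix.mulVec_smul, ← evv_mulVec]
    funext k
    have h1 := congrArg (eval x) (hr' k)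
    rw [map_mul, eval_X] at h1
    have h2 : evv (E.B.mulVec g') x k = eval x (s k) := rfl
    rw [Pi.smul_apply, smul_eq_mul, h2, h1]
    simp only [evv]
    field_simp
  obtain ⟨u', hu', hu'B⟩ := E.h1_of_hyp hn hs (d - 1) r' hr'hom him
  refine ⟨fun i => g' i - X 0 * u' i, ⟨fun i => ?_, fun x _ => ?_⟩, fun i => ?_⟩
  · refine h2_sub (hg'hom i) ?_
    have := h2_mul (h2_X (0 : Fin (n + 1 + 1))) (hu' i)
    rwa [show (1 : ℤ) + (E.β i + (d - 1)) = E.β i + d by ring] at this
  · refine LinearMap.mem_ker.2 ?_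
    rw [Matrix.mulVecLin_apply, ← evv_mulVec]
    funext k
    have h3 : (E.B.mulVec fun i => g' i - X 0 * u' i) k = 0 := by
      have h1 := hr' k
      have h2 := congrFun hu'B k
      simp only [hsdef, Matrix.mulVec, dotProduct] at h1 h2 ⊢
      have h3 : ∑ i, E.B k i * (g' i - X 0 * u' i) =
          ∑ i, E.B k i * g' i - X 0 * ∑ i, E.B k i * u' i := by
        rw [Finset.mul_sum, ← Finset.sum_sub_distrib]
        exact Finset.sum_congr rfl fun i _ => by ring
      rw [h3, h2, ← h1, sub_self]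
    simp only [evv]
    rw [h3, map_zero]
    rfl
  · rw [map_sub, map_mul, lsub_hyp_X_zero, zero_mul, sub_zero]
    exact h2_lsub_rename (g i)

theorem indep_of_wedge {a : ℕ} {u w : Fin a → ℂ} {i j : Fin a} (h : u i * w j - u j * w i ≠ 0) :
    LinearIndependent ℂ ![u, w] := by
  rw [LinearIndependent.pair_iff]
  intro s t hst
  have hi := congrFun hst i
  have hj := congrFun hst j
  simp only [Pi.add_apply, Pi.smul_apply, smul_eq_mul, Pi.zero_apply] at hi hj
  constructor
  · have h1 : s * (u i * w j - u j * w i) = 0 := by linear_combination w j * hi - w i * hj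
    exact (mul_eq_zero.1 h1).resolve_right h
  · have h1 : t * (u i * w j - u j * w i) = 0 := by linear_combination u i * hj - u j * hi
    exact (mul_eq_zero.1 h1).resolve_right h

end TaskH3

namespace Bundle2

open TaskH3 in
/-- **Horrocks' criterion** in rank two: a rank two bundle on `P^{n+1}`, `n ≥ 2`, whose restriction
to a hyperplane splits, splits. -/
theorem horrocks {n : ℕ} (hn : 2 ≤ n) (E : Bundle2 (n + 1))
    (hs : (E.pull (hyp n) (hyp_injective n)).Splits) : E.Splits := by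
  have hs' := hs
  obtain ⟨p, q, g₁, g₂, hg₁, hg₂, hind⟩ := hs'
  obtain ⟨G₁, hG₁, hG₁e⟩ := lift hn E hs (-p) g₁ hg₁
  obtain ⟨G₂, hG₂, hG₂e⟩ := lift hn E hs (-q) g₂ hg₂
  obtain ⟨c₁, P, hP, hP0, hPw⟩ := plucker (N := n + 1 + 1) (by omega) E.β E.γ E.B E.hom E.rank_two
  have hker : ∀ (d : ℤ) (G : Fin E.a → MvPolynomial (Fin (n + 1 + 1)) ℂ), E.IsSection d G →
      ∀ x : Fin (n + 1 + 1) → ℂ, x ≠ 0 → (evm E.B x).mulVec (evv G x) = 0 := by
    intro d G hG x hx
    have := LinearMap.mem_ker.1 (hG.2 x hx)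
    rwa [Matrix.mulVecLin_apply] at this
  -- the factor
  set S : Matrix (Fin E.a × Fin E.a) Unit (MvPolynomial (Fin (n + 1 + 1)) ℂ) :=
    fun y _ => P y.1 y.2 with hS
  set r : Fin E.a × Fin E.a → MvPolynomial (Fin (n + 1 + 1)) ℂ :=
    fun y => G₁ y.1 * G₂ y.2 - G₁ y.2 * G₂ y.1 with hr
  have hSm : ∀ (v : Fin (n + 1 + 1) → ℂ) (g : Unit → ℂ) (y : Fin E.a × Fin E.a),
      (evm S v).mulVec g y = eval v (P y.1 y.2) * g () := by
    intro v g y
    have h1 : (evm S v).mulVec g y = ∑ t : Unit, eval v (P y.1 y.2) * g t := rfl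
    rw [h1]
    exact Fintype.sum_unique _
  have hinj : ∀ v : Fin (n + 1 + 1) → ℂ, v ≠ 0 → ∀ g : Unit → ℂ,
      (evm S v).mulVec g = 0 → g = 0 := by
    intro v hv g hg
    obtain ⟨i, j, hij⟩ := hP0 v hv
    have h1 := congrFun hg (i, j)
    rw [hSm] at h1
    funext t
    exact (mul_eq_zero.1 h1).resolve_left hij
  have hsol : ∀ v : Fin (n + 1 + 1) → ℂ, v ≠ 0 → ∃ g : Unit → ℂ,
      (evm S v).mulVec g = evv r v := by
    intro v hv
    obtain ⟨κ, hκ⟩ := hPw v hv (evv G₁ v) (evv G₂ v) (hker _ _ hG₁ v hv) (hker _ _ hG₂ v hv)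
    refine ⟨fun _ => κ, ?_⟩
    funext y
    rw [hSm, mul_comm, ← hκ]
    simp only [evv, hr, map_sub, map_mul]
  obtain ⟨gκ, hgκ⟩ := hartogs (by omega) S r hinj hsol
  have hhom := hartogs_hom (by omega) S r (fun y => E.β y.1 + E.β y.2 - c₁) (fun _ => 0)
    (p + q - c₁) (fun y _ => by
      have := hP y.1 y.2
      rwa [show E.β y.1 + E.β y.2 - c₁ = E.β y.1 + E.β y.2 - c₁ - 0 by ring] at this)
    (fun y => by
      refine h2_sub ?_ ?_
      · have := h2_mul (hG₁.1 y.1) (hG₂.1 y.2)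
        rwa [show E.β y.1 + -p + (E.β y.2 + -q) = E.β y.1 + E.β y.2 - c₁ - (p + q - c₁) by
          ring] at this
      · have := h2_mul (hG₁.1 y.2) (hG₂.1 y.1)
        rwa [show E.β y.2 + -p + (E.β y.1 + -q) = E.β y.1 + E.β y.2 - c₁ - (p + q - c₁) by
          ring] at this) hinj gκ hgκ ()
  set κ := gκ () with hκdef
  have hrel : ∀ (x : Fin (n + 1 + 1) → ℂ) (i j : Fin E.a),
      evv G₁ x i * evv G₂ x j - evv G₁ x j * evv G₂ x i = eval x κ * eval x (P i j) := by
    intro x i j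
    have h1 := congrArg (eval x) (congrFun hgκ (i, j))
    simp only [Matrix.mulVec, dotProduct, Finset.univ_unique, Finset.sum_singleton, map_mul, hr,
      map_sub, hS] at h1
    simp only [evv]
    rw [← h1, mul_comm]
  -- `κ` does not vanish on the hyperplane
  have hne : ∀ x : Fin (n + 1) → ℂ, x ≠ 0 → eval (hyp n x) κ ≠ 0 := by
    intro x hx h0
    obtain ⟨i, k, hik⟩ := L2.exists_wedge_ne (hind x hx)
    apply hik
    have e1 : ∀ t : Fin E.a, evv g₁ x t = evv G₁ (hyp n x) t := by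
      intro t
      simp only [evv]
      rw [← hG₁e t, eval_lsub]
    have e2 : ∀ t : Fin E.a, evv g₂ x t = evv G₂ (hyp n x) t := by
      intro t
      simp only [evv]
      rw [← hG₂e t, eval_lsub]
    have e3 : ∀ i k : Fin E.a, evv g₁ x i * evv g₂ x k - evv g₁ x k * evv g₂ x i = 0 := by
      intro i k
      rw [e1, e1, e2, e2, hrel, h0, zero_mul]
    exact e3 i k
  -- a line in the hyperplane
  have hv : (fun _ => 1 : Fin n → ℂ) ≠ 0 := by
    intro h
    have := congrFun h ⟨0, by omega⟩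
    exact one_ne_zero this
  set h : MvPolynomial (Fin (1 + 1)) ℂ :=
    lsub (L2.lmap (fun _ => 1 : Fin n → ℂ)) (lsub (hyp n) κ) with hh
  have hhhom : HomZ h (0 - (p + q - c₁)) := homZ_lsub _ (homZ_lsub _ hhom)
  have hhne : ∀ z : Fin (1 + 1) → ℂ, z ≠ 0 → eval z h ≠ 0 := by
    intro z hz
    rw [hh, eval_lsub, eval_lsub]
    refine hne _ ?_
    rw [L2.lmap_apply]
    exact L2.lpt_ne_zero hv hz
  have h10 : ((fun _ => 1 : Fin (1 + 1) → ℂ)) ≠ 0 := fun h0 => one_ne_zero (congrFun h0 0)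
  have hdeg : (0 : ℤ) - (p + q - c₁) = 0 := by
    rcases hhhom with h0 | ⟨k, hk, hk'⟩
    · exact absurd (by rw [h0, map_zero]) (hhne _ h10)
    · have := L2.nonvanishing_form hk' hhne
      rw [← hk, this]
      rfl
  obtain ⟨cst, hcst⟩ : ∃ cst : ℂ, κ = C cst := by
    rcases hhom with h0 | ⟨k, hk, hk'⟩
    · exact ⟨0, by rw [h0, map_zero]⟩
    · have hk0 : k = 0 := by
        have : (k : ℤ) = 0 := by rw [hk]; exact hdeg
        exact_mod_cast this
      subst hk0
      exact ⟨_, totalDegree_eq_zero_iff_eq_C.1 (Nat.le_zero.1 hk'.totalDegree_le)⟩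
  have hc0 : cst ≠ 0 := by
    intro h0
    have h1 : (fun _ => 1 : Fin (n + 1) → ℂ) ≠ 0 := fun h0 => one_ne_zero (congrFun h0 0)
    apply hne _ h1
    rw [hcst, eval_C, h0]
  refine ⟨p, q, G₁, G₂, hG₁, hG₂, fun x hx => ?_⟩
  obtain ⟨i, j, hij⟩ := hP0 x hx
  refine indep_of_wedge (i := i) (j := j) ?_
  rw [hrel, hcst, eval_C]
  exact mul_ne_zero hc0 hij

end Bundle2

end H960VB
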