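import Pool.Agent.H960R2.VB.TaskD
import Pool.Agent.H960R2.VB.TaskH3
import Pool.Agent.H960R2.VB.TaskB
import Pool.Agent.H960R2.VB.TaskC1
import Pool.Agent.H960R2.VB.TaskC2
import Pool.Agent.H960R2.VB.TaskL1
import Pool.Agent.H960R2.VB.TaskL2

/-! Operations on sections over a line: coefficients, shift, multiplication by a power of the
parameter. -/

open MvPolynomial

namespace H960VB
namespace Bundle2

variable {n : ℕ}

/-- the coefficient vector of order `b`. -/
def cf (E : Bundle2 n) {j : ℤ} (g : Idx E.β j → ℂ) (b : ℕ) : Fin E.a → ℂ := fun i =>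
  if h : b < (E.β i + j + 1).toNat then g ⟨i, ⟨b, h⟩⟩ else 0

theorem eq_zero_of_cf (E : Bundle2 n) {j : ℤ} (g : Idx E.β j → ℂ) (h : ∀ b, E.cf g b = 0) :
    g = 0 := by
  ext ⟨i, b⟩
  have := congrFun (h b) i
  simpa [cf, b.2] using this

/-- division by the `b`-th power of the parameter. -/
def sh (E : Bundle2 n) {j : ℤ} (g : Idx E.β j → ℂ) (b : ℕ) (j' : ℤ) : Idx E.β j' → ℂ :=
  fun x => E.cf g ((x.2 : ℕ) + b) x.1

/-- multiplication by the `b`-th power of the parameter. -/
def mt (E : Bundle2 n) {j : ℤ} (g : Idx E.β j → ℂ) (b : ℕ) (j' : ℤ) : Idx E.β j' → ℂ :=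
  fun x => if b ≤ (x.2 : ℕ) then E.cf g ((x.2 : ℕ) - b) x.1 else 0

theorem lev_eq (E : Bundle2 n) {j : ℤ} (g : Idx E.β j → ℂ) (z : Fin 2 → ℂ) (i : Fin E.a) :
    E.lev g z i = ∑ b ∈ Finset.range (E.β i + j + 1).toNat,
      E.cf g b i * z 0 ^ ((E.β i + j).toNat - b) * z 1 ^ b := by
  unfold lev
  rw [Finset.sum_range]
  apply Finset.sum_congr rfl
  intro b _
  simp [cf, b.2]

theorem lev_at_zero (E : Bundle2 n) {j : ℤ} (g : Idx E.β j → ℂ) (z : Fin 2 → ℂ)
    (hz : z 1 = 0) (i : Fin E.a) :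
    E.lev g z i = E.cf g 0 i * z 0 ^ (E.β i + j).toNat := by
  rw [lev_eq, hz]
  by_cases h : (E.β i + j + 1).toNat = 0
  · rw [h]
    have : E.cf g 0 i = 0 := by
      unfold cf
      rw [dif_neg (by omega)]
    simp [this]
  · obtain ⟨m, hm⟩ := Nat.exists_eq_succ_of_ne_zero h
    rw [hm, Finset.sum_range_succ']
    simp

theorem lev_shift (E : Bundle2 n) {j j' : ℤ} (g : Idx E.β j → ℂ) (b : ℕ) (hj : j' + b = j)
    (h0 : ∀ b' < b, E.cf g b' = 0) (z : Fin 2 → ℂ) (i : Fin E.a) :
    E.lev g z i = z 1 ^ b * E.lev (E.sh g b j') z i := by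
  rw [lev_eq, lev_eq, Finset.mul_sum]
  have hc : ∀ m, E.cf (E.sh g b j') m i = if m < (E.β i + j' + 1).toNat then E.cf g (m + b) i else 0 := by
    intro m
    by_cases h : m < (E.β i + j' + 1).toNat
    · rw [if_pos h]
      have h5 : E.cf (E.sh g b j') m i = E.sh g b j' ⟨i, ⟨m, h⟩⟩ := dif_pos h
      rw [h5]
      rfl
    · rw [if_neg h]
      exact dif_neg h
  by_cases hb : b ≤ (E.β i + j + 1).toNat
  · obtain ⟨m, hm⟩ := Nat.exists_eq_add_of_le hb
    have hm' : m = (E.β i + j' + 1).toNat := by omega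
    rw [hm, Finset.sum_range_add]
    have h1 : ∑ x ∈ Finset.range b, E.cf g x i * z 0 ^ ((E.β i + j).toNat - x) * z 1 ^ x = 0 := by
      apply Finset.sum_eq_zero
      intro x hx
      have := congrFun (h0 x (Finset.mem_range.mp hx)) i
      rw [this]
      simp
    rw [h1, zero_add, hm']
    apply Finset.sum_congr rfl
    intro x hx
    have hx' := Finset.mem_range.mp hx
    rw [hc, if_pos hx']
    have e1 : (E.β i + j).toNat - (b + x) = (E.β i + j').toNat - x := by omega
    rw [e1, add_comm b x]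
    ring
  · have h2 : (E.β i + j' + 1).toNat = 0 := by omega
    rw [h2]
    simp only [Finset.range_zero, Finset.sum_empty]
    apply Finset.sum_eq_zero
    intro x hx
    have hx' := Finset.mem_range.mp hx
    have := congrFun (h0 x (by omega)) i
    rw [this]
    simp

theorem lev_mt (E : Bundle2 n) {j j' : ℤ} (g : Idx E.β j → ℂ) (b : ℕ) (hj : j + b = j')
    (z : Fin 2 → ℂ) (i : Fin E.a) :
    E.lev (E.mt g b j') z i = z 1 ^ b * E.lev g z i := by
  have hc : ∀ m, E.cf (E.mt g b j') m i =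
      if m < (E.β i + j' + 1).toNat then (if b ≤ m then E.cf g (m - b) i else 0) else 0 := by
    intro m
    by_cases h : m < (E.β i + j' + 1).toNat
    · rw [if_pos h]
      have h5 : E.cf (E.mt g b j') m i = E.mt g b j' ⟨i, ⟨m, h⟩⟩ := dif_pos h
      rw [h5]
      rfl
    · rw [if_neg h]
      exact dif_neg h
  have h0 : ∀ b' < b, E.cf (E.mt g b j') b' i = 0 := by
    intro b' hb'
    rw [hc]
    split_ifs with h1 h2
    · omega
    · rfl
    · rfl
  rw [lev_eq, lev_eq, Finset.mul_sum]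
  by_cases hb : b ≤ (E.β i + j' + 1).toNat
  · obtain ⟨m, hm⟩ := Nat.exists_eq_add_of_le hb
    have hm' : m = (E.β i + j + 1).toNat := by omega
    rw [hm, Finset.sum_range_add]
    have h1 : ∑ x ∈ Finset.range b, E.cf (E.mt g b j') x i * z 0 ^ ((E.β i + j').toNat - x) * z 1 ^ x = 0 := by
      apply Finset.sum_eq_zero
      intro x hx
      rw [h0 x (Finset.mem_range.mp hx)]
      simp
    rw [h1, zero_add, hm']
    apply Finset.sum_congr rfl
    intro x hx
    have hx' := Finset.mem_range.mp hx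
    rw [hc, if_pos (by omega), if_pos (by omega)]
    have e1 : (E.β i + j').toNat - (b + x) = (E.β i + j).toNat - x := by omega
    have e2 : b + x - b = x := by omega
    rw [e1, e2]
    ring
  · have h2 : (E.β i + j + 1).toNat = 0 := by omega
    rw [h2]
    simp only [Finset.range_zero, Finset.sum_empty]
    apply Finset.sum_eq_zero
    intro x hx
    have hx' := Finset.mem_range.mp hx
    rw [h0 x (by omega)]
    simp

theorem continuous_lev (E : Bundle2 n) {j : ℤ} (g : Idx E.β j → ℂ) :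
    Continuous (fun z : Fin 2 → ℂ => E.lev g z) := by
  unfold lev
  fun_prop

theorem continuous_lpt (v : Fin n → ℂ) : Continuous (fun z : Fin 2 → ℂ => lpt v z) := by
  unfold lpt
  apply continuous_pi
  intro i
  refine Fin.cases ?_ (fun i => ?_) i
  · simp only [Fin.cons_zero]; fun_prop
  · simp only [Fin.cons_succ, Pi.smul_apply, smul_eq_mul]; fun_prop

theorem continuous_evm (E : Bundle2 n) : Continuous (fun x : Fin (n+1) → ℂ => evm E.B x) := by
  apply continuous_matrix
  intro i j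
  simp only [evm, Matrix.map_apply]
  exact MvPolynomial.continuous_eval _

/-- two functions on the parameter plane agree if they agree off the line `z 1 = 0`. -/
theorem eq_of_eq_off {X : Type*} [TopologicalSpace X] [T2Space X] {f g : (Fin 2 → ℂ) → X}
    (hf : Continuous f) (hg : Continuous g) (h : ∀ z : Fin 2 → ℂ, z 1 ≠ 0 → f z = g z) :
    f = g := by
  have hd : Dense {z : Fin 2 → ℂ | z 1 ≠ 0} := by
    have h1 : Dense ({0}ᶜ : Set ℂ) := dense_compl_singleton 0
    have h2 : {z : Fin 2 → ℂ | z 1 ≠ 0} = (fun z : Fin 2 → ℂ => z 1) ⁻¹' ({0}ᶜ : Set ℂ) := by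
      ext z; simp
    rw [h2]
    exact h1.preimage (isOpenMap_eval 1)
  exact Continuous.ext_on hd hf hg (fun z hz => h z hz)

theorem mt_mem (E : Bundle2 n) {j j' : ℤ} (v : Fin n → ℂ) (g : Idx E.β j → ℂ)
    (hg : g ∈ E.Hsec j v) (b : ℕ) (hj : j + b = j') : E.mt g b j' ∈ E.Hsec j' v := by
  rw [mem_Hsec] at hg ⊢
  intro z
  have h1 : E.lev (E.mt g b j') z = z 1 ^ b • E.lev g z := by
    ext i
    simp [lev_mt E g b hj]
  rw [h1, Matrix.mulVec_smul, hg z, smul_zero]

theorem sh_mem (E : Bundle2 n) {j j' : ℤ} (v : Fin n → ℂ) (g : Idx E.β j → ℂ)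
    (hg : g ∈ E.Hsec j v) (b : ℕ) (hj : j' + b = j) (h0 : ∀ b' < b, E.cf g b' = 0) :
    E.sh g b j' ∈ E.Hsec j' v := by
  rw [mem_Hsec] at hg ⊢
  have h1 : ∀ z, E.lev g z = z 1 ^ b • E.lev (E.sh g b j') z := by
    intro z
    ext i
    simp [lev_shift E g b hj h0]
  have h2 : (fun z : Fin 2 → ℂ => (evm E.B (lpt v z)).mulVec (E.lev (E.sh g b j') z)) =
      fun _ => 0 := by
    apply eq_of_eq_off
    · apply Continuous.matrix_mulVec
      · exact (continuous_evm E).comp (continuous_lpt v)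
      · exact continuous_lev E _
    · fun_prop
    · intro z hz
      have h3 := hg z
      rw [h1, Matrix.mulVec_smul] at h3
      rcases smul_eq_zero.mp h3 with h4 | h4
      · exact absurd h4 (pow_ne_zero _ hz)
      · exact h4
  intro z
  exact congrFun h2 z

theorem cf_zero_sh (E : Bundle2 n) {j j' : ℤ} (g : Idx E.β j → ℂ) (b : ℕ) (hj : j' + b = j) :
    E.cf (E.sh g b j') 0 = E.cf g b := by
  ext i
  by_cases h : 0 < (E.β i + j' + 1).toNat
  · have : E.cf (E.sh g b j') 0 i = E.sh g b j' ⟨i, ⟨0, h⟩⟩ := by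
      conv_lhs => unfold cf
      rw [dif_pos h]
    rw [this]
    simp [sh]
  · have h1 : E.cf (E.sh g b j') 0 i = 0 := by
      conv_lhs => unfold cf
      rw [dif_neg h]
    have h2 : E.cf g b i = 0 := by
      unfold cf
      rw [dif_neg (by omega)]
    rw [h1, h2]

theorem lpt_ne_zero {v : Fin n → ℂ} (hv : v ≠ 0) {z : Fin 2 → ℂ} (hz : z ≠ 0) :
    lpt v z ≠ 0 := by
  intro h
  apply hz
  have h0 : z 0 = 0 := by
    have := congrFun h 0
    simpa [lpt] using this
  have h1 : z 1 = 0 := by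
    by_contra h1
    apply hv
    ext i
    have := congrFun h i.succ
    simpa [lpt, h1] using this
  ext i
  fin_cases i
  · exact h0
  · exact h1

/-- the value at the base point. -/
theorem cf_zero_mem (E : Bundle2 n) {j : ℤ} (v : Fin n → ℂ) (g : Idx E.β j → ℂ)
    (hg : g ∈ E.Hsec j v) : E.cf g 0 ∈ E.fib (Fin.cons 1 0) := by
  have h1 := (mem_Hsec E j v g).mp hg ![1, 0]
  have h2 : E.lev g ![1, 0] = E.cf g 0 := by
    ext i
    rw [lev_at_zero E g _ (by simp)]
    simp
  have h3 : lpt v ![1, 0] = Fin.cons 1 0 := by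
    unfold lpt
    simp
  rw [h2, h3] at h1
  exact h1

theorem cf_mem (E : Bundle2 n) {j : ℤ} (v : Fin n → ℂ) (g : Idx E.β j → ℂ)
    (hg : g ∈ E.Hsec j v) (b : ℕ) (h0 : ∀ b' < b, E.cf g b' = 0) :
    E.cf g b ∈ E.fib (Fin.cons 1 0) := by
  have h1 := sh_mem E (j' := j - b) v g hg b (by ring) h0
  have h2 := cf_zero_mem E v _ h1
  rwa [cf_zero_sh E g b (by ring)] at h2

theorem eq_zero_of_sh (E : Bundle2 n) {j j' : ℤ} (g : Idx E.β j → ℂ) (b : ℕ) (hj : j' + b = j)
    (h0 : ∀ b' < b, E.cf g b' = 0) (h : E.sh g b j' = 0) : g = 0 := by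
  apply eq_zero_of_cf
  intro m
  by_cases hm : m < b
  · exact h0 m hm
  · ext i
    by_cases h1 : m < (E.β i + j + 1).toNat
    · have h2 := congrFun h ⟨i, ⟨m - b, by omega⟩⟩
      simp only [sh, Pi.zero_apply] at h2
      have h3 : m - b + b = m := by omega
      rw [h3] at h2
      exact h2
    · unfold cf
      rw [dif_neg h1]
      rfl

end Bundle2
end H960VB
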