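import Pool.Agent.H960R2.VB.Final
import Pool.Agent.H960R2.VB.Glob

open MvPolynomial

namespace H960VB
namespace Bundle2

variable {n : ℕ}

theorem dotProduct_smul_cf (E : Bundle2 n) {j : ℤ} (μ : Fin E.a → ℂ) (g : Idx E.β j → ℂ)
    (b : ℕ) (h : E.cf g b = 0) : μ ⬝ᵥ E.cf g b = 0 := by
  rw [h]; simp

/-- Claim B: from one family of nowhere vanishing sections of `E(-q)` to the splitting. -/
theorem splits_of_family (hn : 2 ≤ n) (E : Bundle2 n) (c₁ : ℤ)
    (P : Fin E.a → Fin E.a → MvPolynomial (Fin (n + 1)) ℂ)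
    (hP : ∀ i j, HomZ (P i j) (E.β i + E.β j - c₁))
    (hP0 : ∀ x : Fin (n + 1) → ℂ, x ≠ 0 → ∃ i j, eval x (P i j) ≠ 0)
    (hPw : ∀ x : Fin (n + 1) → ℂ, x ≠ 0 → ∀ u w : Fin E.a → ℂ,
        (evm E.B x).mulVec u = 0 → (evm E.B x).mulVec w = 0 →
        ∃ κ : ℂ, ∀ i j, u i * w j - u j * w i = κ * eval x (P i j))
    (q p : ℤ) (w : ℕ) (hw : (w : ℤ) = q - p) (hpq : p + q = c₁)
    (h1 : ∀ v : Fin n → ℂ, v ≠ 0 → E.Hsec (-q - 1) v = ⊥)
    (h2 : ∀ v : Fin n → ℂ, v ≠ 0 → Module.finrank ℂ (E.Hsec (-p) v) = w + 2)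
    (F : Idx E.β (-q) → MvPolynomial (Fin n) ℂ) (hF : ∀ x, HomZ (F x) ((x.2 : ℕ) : ℤ))
    (hFm : ∀ v : Fin n → ℂ, v ≠ 0 → evv F v ∈ E.Hsec (-q) v)
    (e₁ : Fin E.a → ℂ) (he₁ : e₁ ≠ 0) (hFe : ∀ v : Fin n → ℂ, v ≠ 0 → E.cf (evv F v) 0 = e₁) :
    E.Splits := by
  classical
  have hv1 : (fun _ : Fin n => (1 : ℂ)) ≠ 0 := by
    intro h
    have := congrFun h ⟨0, by omega⟩
    simp at this
  have he₁m : e₁ ∈ E.fib (Fin.cons 1 0) := by
    rw [← hFe _ hv1]
    exact cf_zero_mem E _ _ (hFm _ hv1)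
  obtain ⟨e₂, μ, lam, he₂m, hμ1, hμ2, hl1, hl2, hdual⟩ := exists_dual E e₁ he₁m he₁
  have hz10 : (![1, 0] : Fin 2 → ℂ) ≠ 0 := by
    intro h
    have := congrFun h 0
    simp at this
  have hlev : ∀ {j : ℤ} (g : Idx E.β j → ℂ) i, E.lev g ![1, 0] i = E.cf g 0 i := by
    intro j g i
    rw [lev_at_zero E g _ (by simp)]
    simp
  -- the wedge with a section of `E(-p)` is a constant multiple of `P`
  have hwedge : ∀ v : Fin n → ℂ, v ≠ 0 → ∀ g ∈ E.Hsec (-p) v, ∃ κ : ℂ,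
      ∀ (z : Fin 2 → ℂ) (i k : Fin E.a),
        E.lev (evv F v) z i * E.lev g z k - E.lev (evv F v) z k * E.lev g z i =
          κ * eval (lpt v z) (P i k) := by
    intro v hv g hg
    obtain ⟨h, hh, hw'⟩ := wedge E c₁ P hP hP0 hPw v hv (-q) (-p) _ (hFm v hv) g hg
    have hd : -q + -p + c₁ = 0 := by omega
    rw [hd] at hh
    refine ⟨eval 0 h, fun z i k => ?_⟩
    rw [hw' z i k, HomZ.eval_const hh z 0]
  obtain ⟨F₂, hF₂, hF₂m⟩ := sec_family hn E (-p) (N := w + 2)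
    (fun s => if (s : ℕ) = w + 1 then 0 else (s : ℕ))
    (fun s => if (s : ℕ) = w + 1 then lam else μ)
    (fun s => if (s : ℕ) = w + 1 then 1 else 0) 0
    (by
      intro s hs
      by_cases h : (s : ℕ) = w + 1
      · simp [h]
      · simp [h] at hs)
    (by
      intro v hv g hg hs
      have hμg : ∀ b < w + 1, μ ⬝ᵥ E.cf g b = 0 := by
        intro b hb
        have := hs ⟨b, by omega⟩
        simpa [show b ≠ w + 1 by omega] using this
      have hlg : lam ⬝ᵥ E.cf g 0 = 0 := by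
        have := hs ⟨w + 1, by omega⟩
        simpa using this
      have h0 : E.cf g 0 = 0 := hdual _ (cf_zero_mem E v g hg) (hμg 0 (by omega)) hlg
      obtain ⟨κ, hκ⟩ := hwedge v hv g hg
      have hκ0 : κ = 0 := by
        obtain ⟨i, k, hik⟩ := hP0 (lpt v ![1, 0]) (lpt_ne_zero hv hz10)
        have h3 := hκ ![1, 0] i k
        simp only [hlev, h0, Pi.zero_apply, mul_zero, sub_zero] at h3
        rcases mul_eq_zero.mp h3.symm with h4 | h4
        · exact h4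
        · exact absurd h4 hik
      refine inj_lemma E v (j' := -q - 1) (evv F v) g hg μ (by rw [hFe v hv]; exact hμ1) ?_ (w + 1)
        (by push_cast; omega) (h1 v hv) hμg
      intro z i k
      rw [hκ, hκ0, zero_mul])
    h2
  have hF₂' : ∀ x, HomZ (F₂ x) ((x.2 : ℕ) : ℤ) := by
    intro x
    simpa using hF₂ x
  have hne : ∀ v : Fin n → ℂ, v ≠ 0 → ∀ z : Fin 2 → ℂ, z ≠ 0 →
      LinearIndependent ℂ ![E.lev (evv F v) z, E.lev (evv F₂ v) z] := by
    intro v hv z hz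
    obtain ⟨hm, hs⟩ := hF₂m v hv
    obtain ⟨κ, hκ⟩ := hwedge v hv _ hm
    have hκ0 : κ ≠ 0 := by
      intro hκ0
      have hl : lam ⬝ᵥ E.cf (evv F₂ v) 0 = 1 := by
        have := hs ⟨w + 1, by omega⟩
        simpa using this
      have h3 : ∀ i k, e₁ i * E.cf (evv F₂ v) 0 k - e₁ k * E.cf (evv F₂ v) 0 i = 0 := by
        intro i k
        have h4 := hκ ![1, 0] i k
        simp only [hlev, hFe v hv] at h4
        rw [h4, hκ0, zero_mul]
      -- pair with `μ` and `lam`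
      have h5 : ∀ k, E.cf (evv F₂ v) 0 k = e₁ k * (μ ⬝ᵥ E.cf (evv F₂ v) 0) := by
        intro k
        have h6 : ∑ i, μ i * (e₁ i * E.cf (evv F₂ v) 0 k - e₁ k * E.cf (evv F₂ v) 0 i) = 0 :=
          Finset.sum_eq_zero (fun i _ => by rw [h3, mul_zero])
        have h7 : ∑ i, μ i * (e₁ i * E.cf (evv F₂ v) 0 k - e₁ k * E.cf (evv F₂ v) 0 i) =
            (μ ⬝ᵥ e₁) * E.cf (evv F₂ v) 0 k - e₁ k * (μ ⬝ᵥ E.cf (evv F₂ v) 0) := by
          simp only [dotProduct, Finset.sum_mul, Finset.mul_sum, ← Finset.sum_sub_distrib]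
          apply Finset.sum_congr rfl
          intro i _
          ring
        rw [h7, hμ1, one_mul, sub_eq_zero] at h6
        exact h6
      have h8 : lam ⬝ᵥ E.cf (evv F₂ v) 0 = 0 := by
        have h9 : E.cf (evv F₂ v) 0 = (μ ⬝ᵥ E.cf (evv F₂ v) 0) • e₁ := by
          ext k
          rw [Pi.smul_apply, smul_eq_mul, mul_comm]
          exact h5 k
        rw [h9, dotProduct_smul, hl1, smul_zero]
      rw [h8] at hl
      exact zero_ne_one hl
    obtain ⟨i, k, hik⟩ := hP0 (lpt v z) (lpt_ne_zero hv hz)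
    apply linInd_of_wedge _ _ i k
    rw [hκ z i k]
    exact mul_ne_zero hκ0 hik
  refine ⟨q, p, E.glob F, E.glob F₂, glob_isSection (by omega) E F hF hFm,
    glob_isSection (by omega) E F₂ hF₂' (fun v hv => (hF₂m v hv).1), fun x hx => ?_⟩
  obtain ⟨v, z, hv, hz, _, hg⟩ := glob_point (by omega : 1 ≤ n) E x hx
  rw [hg F hF, hg F₂ hF₂']
  exact hne v hv z hz

end Bundle2
end H960VB
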