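import Pool.Agent.H960R2.VB.Pull
import Pool.Agent.H960R2.VB.TaskC1
import Pool.Agent.H960R2.VB.TaskC2
import Pool.Agent.H960R2.VB.TaskL2

/-! Task T1: Grothendieck's theorem for rank two bundles on the projective line. -/

open MvPolynomial

namespace H960VB

namespace TaskT1

open L2

/-- the linear form vanishing at `z`. -/
noncomputable def ell (z : Fin (1 + 1) → ℂ) : MvPolynomial (Fin (1 + 1)) ℂ :=
  C (z 1) * X 0 - C (z 0) * X 1

theorem ell_hom (z : Fin (1 + 1) → ℂ) : (ell z).IsHomogeneous 1 := by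
  unfold ell
  apply IsHomogeneous.sub
  · simpa using (isHomogeneous_C (Fin (1 + 1)) (z 1)).mul (isHomogeneous_X ℂ (0 : Fin (1 + 1)))
  · simpa using (isHomogeneous_C (Fin (1 + 1)) (z 0)).mul (isHomogeneous_X ℂ (1 : Fin (1 + 1)))

theorem ell_ne_zero {z : Fin (1 + 1) → ℂ} (hz : z ≠ 0) : ell z ≠ 0 := by
  intro h
  apply hz
  have h1 : eval (![1, 0] : Fin (1 + 1) → ℂ) (ell z) = 0 := by rw [h]; simp
  have h2 : eval (![0, 1] : Fin (1 + 1) → ℂ) (ell z) = 0 := by rw [h]; simp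
  simp [ell] at h1 h2
  ext i
  fin_cases i
  · exact h2
  · exact h1

/-- a binary form is, modulo `X 1 = c X 0`, a multiple of its value. -/
theorem mk_form {A : Type*} [CommRing A] [Algebra ℂ A] (φ : MvPolynomial (Fin (1 + 1)) ℂ →ₐ[ℂ] A)
    (w : Fin (1 + 1) → ℂ) (t : A) (h : ∀ i, φ (X i) = w i • t) {k : ℕ}
    {p : MvPolynomial (Fin (1 + 1)) ℂ} (hp : p.IsHomogeneous k) :
    φ p = eval w p • t ^ k := by
  rw [p.as_sum, map_sum, map_sum, Finset.sum_smul]
  apply Finset.sum_congr rfl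
  intro d hd
  have hdeg : d.degree = k := by
    by_contra hne
    exact (mem_support_iff.1 hd) (hp.coeff_eq_zero hne)
  rw [Finsupp.degree_eq_sum, Fin.sum_univ_two] at hdeg
  rw [monomial_eq, Finsupp.prod_fintype _ _ (by intro i; simp), Fin.prod_univ_two, map_mul,
    map_mul, map_pow, map_pow, h 0, h 1, ← hdeg]
  simp only [map_mul, eval_C, map_pow, eval_X, smul_pow]
  have : φ (C (coeff d p)) = algebraMap ℂ A (coeff d p) := by
    rw [← MvPolynomial.algebraMap_eq, AlgHom.commutes]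
  rw [this, Algebra.algebraMap_eq_smul_one, pow_add]
  simp only [smul_mul_assoc, mul_smul_comm, one_mul, smul_smul]
  congr 1
  ring

theorem ell_dvd {z : Fin (1 + 1) → ℂ} (hz : z ≠ 0) {k : ℕ} {p : MvPolynomial (Fin (1 + 1)) ℂ}
    (hp : p.IsHomogeneous k) (h0 : eval z p = 0) : ell z ∣ p := by
  rw [← Ideal.mem_span_singleton, ← Ideal.Quotient.eq_zero_iff_mem]
  let I := Ideal.span {ell z}
  let φ : MvPolynomial (Fin (1 + 1)) ℂ →ₐ[ℂ] (MvPolynomial (Fin (1 + 1)) ℂ ⧸ I) :=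
    Ideal.Quotient.mkₐ ℂ I
  have hφ : φ p = Ideal.Quotient.mk I p := rfl
  have hell : φ (ell z) = 0 := by
    have : φ (ell z) = Ideal.Quotient.mk I (ell z) := rfl
    rw [this, Ideal.Quotient.eq_zero_iff_mem]
    exact Ideal.mem_span_singleton_self _
  have hrel : z 1 • φ (X 0) = z 0 • φ (X 1) := by
    unfold ell at hell
    rw [map_sub, sub_eq_zero, ← MvPolynomial.smul_eq_C_mul, ← MvPolynomial.smul_eq_C_mul,
      map_smul, map_smul] at hell
    exact hell
  rw [← hφ]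
  by_cases h : z 0 = 0
  · have h1 : z 1 ≠ 0 := by
      intro h1
      apply hz
      ext i
      fin_cases i
      · exact h
      · exact h1
    have key : ∀ i, φ (X i) = z i • ((z 1)⁻¹ • φ (X 1)) := by
      intro i
      fin_cases i
      · change φ (X 0) = z 0 • ((z 1)⁻¹ • φ (X 1))
        rw [smul_smul, mul_comm, ← smul_smul, ← hrel, smul_smul, inv_mul_cancel₀ h1, one_smul]
      · change φ (X 1) = z 1 • ((z 1)⁻¹ • φ (X 1))
        rw [smul_smul, mul_inv_cancel₀ h1, one_smul]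
    rw [mk_form φ z _ key hp, h0, zero_smul]
  · have key : ∀ i, φ (X i) = z i • ((z 0)⁻¹ • φ (X 0)) := by
      intro i
      fin_cases i
      · change φ (X 0) = z 0 • ((z 0)⁻¹ • φ (X 0))
        rw [smul_smul, mul_inv_cancel₀ h, one_smul]
      · change φ (X 1) = z 1 • ((z 0)⁻¹ • φ (X 0))
        rw [smul_smul, mul_comm, ← smul_smul, hrel, smul_smul, inv_mul_cancel₀ h, one_smul]
    rw [mk_form φ z _ key hp, h0, zero_smul]

theorem homZ_div {z : Fin (1 + 1) → ℂ} (hz : z ≠ 0) {d : ℤ} {p : MvPolynomial (Fin (1 + 1)) ℂ}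
    (hp : HomZ p d) (h0 : eval z p = 0) : ∃ q, p = ell z * q ∧ HomZ q (d - 1) := by
  by_cases hp0 : p = 0
  · exact ⟨0, by rw [hp0, mul_zero], Or.inl rfl⟩
  rcases hp with hp | ⟨k, hk, hp⟩
  · exact absurd hp hp0
  obtain ⟨q, hq⟩ := ell_dvd hz hp h0
  refine ⟨q, hq, ?_⟩
  have h1 : (ell z * q).IsHomogeneous k := hq ▸ hp
  have h2 : ell z * q ≠ 0 := hq ▸ hp0
  obtain ⟨a, b, hab, ha, hb⟩ := TaskC2.hom_of_mul h1 h2
  have ha1 : a = 1 := ha.inj_right (ell_hom z) (ell_ne_zero hz)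
  right
  refine ⟨b, ?_, hb⟩
  omega

variable (E : Bundle2 1)

theorem isSection_iff (d : ℤ) (G : Fin E.a → MvPolynomial (Fin (1 + 1)) ℂ) :
    E.IsSection d G ↔ (∀ i, HomZ (G i) (E.β i + d)) ∧ E.B.mulVec G = 0 := by
  unfold Bundle2.IsSection
  refine and_congr_right fun _ => ?_
  have key : ∀ x k, (evm E.B x).mulVec (evv G x) k = eval x (E.B.mulVec G k) := by
    intro x k
    simp [Matrix.mulVec, dotProduct, evm, evv]
  constructor
  · intro h
    funext k
    apply funext_ne_zero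
    intro x hx
    have h1 : (evm E.B x).mulVec (evv G x) = 0 := h x hx
    rw [← key, h1]
    simp
  · intro h x _
    change (evm E.B x).mulVec (evv G x) = 0
    funext k
    rw [key, h]
    simp

theorem section_div {z : Fin (1 + 1) → ℂ} (hz : z ≠ 0) {d : ℤ}
    {G : Fin E.a → MvPolynomial (Fin (1 + 1)) ℂ} (hG : E.IsSection d G) (h0 : evv G z = 0) :
    ∃ G' : Fin E.a → MvPolynomial (Fin (1 + 1)) ℂ, E.IsSection (d - 1) G' ∧
      ∀ i, G i = ell z * G' i := by
  have h1 : ∀ i, ∃ q, G i = ell z * q ∧ HomZ q (E.β i + d - 1) := fun i =>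
    homZ_div hz (hG.1 i) (congrFun h0 i)
  choose G' h2 h3 using h1
  refine ⟨G', ?_, h2⟩
  rw [isSection_iff] at hG ⊢
  refine ⟨fun i => HomZ_cast (h3 i) (by ring), ?_⟩
  have h4 : ell z • E.B.mulVec G' = 0 := by
    rw [← Matrix.mulVec_smul, ← hG.2]
    congr 1
    funext i
    rw [h2 i]
    rfl
  exact (smul_eq_zero.1 h4).resolve_left (ell_ne_zero hz)

theorem section_add {d : ℤ} {G H : Fin E.a → MvPolynomial (Fin (1 + 1)) ℂ}
    (hG : E.IsSection d G) (hH : E.IsSection d H) : E.IsSection d (fun i => G i - H i) := by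
  rw [isSection_iff] at hG hH ⊢
  refine ⟨fun i => HomZ_sub (hG.1 i) (hH.1 i), ?_⟩
  have : (fun i => G i - H i) = G - H := rfl
  rw [this, Matrix.mulVec_sub, hG.2, hH.2, sub_zero]

theorem section_mul {d e : ℤ} {G : Fin E.a → MvPolynomial (Fin (1 + 1)) ℂ}
    (hG : E.IsSection d G) {f : MvPolynomial (Fin (1 + 1)) ℂ} (hf : HomZ f (e - d)) :
    E.IsSection e (fun i => f * G i) := by
  rw [isSection_iff] at hG ⊢
  refine ⟨fun i => HomZ_cast (HomZ_mul hf (hG.1 i)) (by ring), ?_⟩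
  have : (fun i => f * G i) = f • G := rfl
  rw [this, Matrix.mulVec_smul, hG.2, smul_zero]

theorem exists_lin {z : Fin (1 + 1) → ℂ} (hz : z ≠ 0) :
    ∃ l : MvPolynomial (Fin (1 + 1)) ℂ, l.IsHomogeneous 1 ∧ eval z l = 1 := by
  by_cases h : z 0 = 0
  · have h1 : z 1 ≠ 0 := by
      intro h1
      apply hz
      ext i
      fin_cases i
      · exact h
      · exact h1
    refine ⟨C (z 1)⁻¹ * X 1, ?_, ?_⟩
    · simpa using (isHomogeneous_C (Fin (1 + 1)) (z 1)⁻¹).mul (isHomogeneous_X ℂ (1 : Fin (1 + 1)))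
    · simp [h1]
  · refine ⟨C (z 0)⁻¹ * X 0, ?_, ?_⟩
    · simpa using (isHomogeneous_C (Fin (1 + 1)) (z 0)⁻¹).mul (isHomogeneous_X ℂ (0 : Fin (1 + 1)))
    · simp [h]

/-- sections of very negative twists vanish. -/
theorem section_bdd : ∃ b : ℤ, ∀ d : ℤ, ∀ G : Fin E.a → MvPolynomial (Fin (1 + 1)) ℂ,
    E.IsSection d G → G ≠ 0 → b ≤ d := by
  refine ⟨-∑ i, |E.β i|, fun d G hG h0 => ?_⟩
  obtain ⟨i, hi⟩ := Function.ne_iff.1 h0
  rcases hG.1 i with h | ⟨k, hk, _⟩
  · exact absurd h hi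
  · have h1 : |E.β i| ≤ ∑ j, |E.β j| :=
      Finset.single_le_sum (f := fun j => |E.β j|) (fun j _ => abs_nonneg _) (Finset.mem_univ i)
    have h2 := le_abs_self (E.β i)
    have h3 : (0 : ℤ) ≤ k := Int.natCast_nonneg k
    linarith

end TaskT1

namespace Bundle2

open TaskT1 L2

variable {n : ℕ}

/-- Grothendieck's theorem for rank two bundles on `P^1`. -/
theorem grothendieck1 (E : Bundle2 1) : E.Splits := by
  classical
  obtain ⟨m, α, K, hK1, hK2, hK3⟩ := kernel_family E.β E.γ E.B E.hom E.rank_two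
  have hKs : ∀ s, E.IsSection (-α s) (K s) := fun s =>
    ⟨fun i => HomZ_cast (hK1 s i) (by ring), fun x hx => hK2 x hx s⟩
  obtain ⟨b, hb⟩ := section_bdd E
  set x0 : Fin (1 + 1) → ℂ := ![1, 0] with hx0
  have hx0' : x0 ≠ 0 := by
    intro h
    have := congrFun h 0
    simp [hx0] at this
  have hrank := E.rank_two x0 hx0'
  rw [← hK3 x0 hx0'] at hrank
  -- the first section
  obtain ⟨d₁, ⟨G₁, hG₁, hG₁0⟩, hmin₁⟩ := Int.exists_least_of_bdd
    (P := fun d => ∃ G, E.IsSection d G ∧ G ≠ 0)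
    ⟨b, fun z ⟨G, h1, h2⟩ => hb z G h1 h2⟩ (by
      by_contra hne
      push Not at hne
      have h1 : ∀ s, evv (K s) x0 = 0 := by
        intro s
        have := hne (-α s) (K s) (hKs s)
        rw [this]
        ext i
        simp [evv]
      have h2 : Submodule.span ℂ (Set.range fun s => evv (K s) x0) = ⊥ := by
        rw [Submodule.span_eq_bot]
        rintro _ ⟨s, rfl⟩
        exact h1 s
      rw [h2, finrank_bot] at hrank
      omega)
  have hG₁z : ∀ z : Fin (1 + 1) → ℂ, z ≠ 0 → evv G₁ z ≠ 0 := by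
    intro z hz h0
    obtain ⟨G', hG', h2⟩ := section_div E hz hG₁ h0
    have h3 : G' ≠ 0 := by
      rintro rfl
      apply hG₁0
      funext i
      rw [h2 i]
      simp
    have := hmin₁ (d₁ - 1) ⟨G', hG', h3⟩
    omega
  -- the second section
  obtain ⟨d₂, ⟨G₂, hG₂, hG₂0⟩, hmin₂⟩ := Int.exists_least_of_bdd
    (P := fun d => ∃ G, E.IsSection d G ∧ ¬ ∃ f, HomZ f (d - d₁) ∧ ∀ i, G i = f * G₁ i)
    ⟨b, fun z ⟨G, h1, h2⟩ => hb z G h1 (by
      rintro rfl
      exact h2 ⟨0, Or.inl rfl, fun i => by simp⟩)⟩ (by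
      by_contra hne
      push Not at hne
      have h1 : ∀ s, evv (K s) x0 ∈ Submodule.span ℂ {evv G₁ x0} := by
        intro s
        obtain ⟨f, _, hf⟩ := hne (-α s) (K s) (hKs s)
        rw [Submodule.mem_span_singleton]
        refine ⟨eval x0 f, ?_⟩
        ext i
        simp [evv, hf i]
      have h2 : Submodule.span ℂ (Set.range fun s => evv (K s) x0) ≤
          Submodule.span ℂ {evv G₁ x0} := by
        rw [Submodule.span_le]
        rintro _ ⟨s, rfl⟩
        exact h1 s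
      have h3 := Submodule.finrank_mono h2
      have h4 : Module.finrank ℂ (Submodule.span ℂ {evv G₁ x0}) = 1 :=
        finrank_span_singleton (hG₁z x0 hx0')
      omega)
  have hd : d₁ ≤ d₂ := hmin₁ d₂ ⟨G₂, hG₂, by
    rintro rfl
    exact hG₂0 ⟨0, Or.inl rfl, fun i => by simp⟩⟩
  refine ⟨-d₁, -d₂, G₁, G₂, by rwa [neg_neg], by rwa [neg_neg], fun z hz => ?_⟩
  rw [LinearIndependent.pair_iff' (hG₁z z hz)]
  intro κ hκ
  obtain ⟨l, hl1, hl2⟩ := exists_lin hz
  obtain ⟨e, he⟩ := Int.eq_ofNat_of_zero_le (sub_nonneg.2 hd)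
  set f : MvPolynomial (Fin (1 + 1)) ℂ := C κ * l ^ e with hf
  have hfh : HomZ f (d₂ - d₁) := by
    right
    refine ⟨e, he.symm, ?_⟩
    have := (isHomogeneous_C (Fin (1 + 1)) κ).mul (hl1.pow e)
    simpa using this
  have hfz : eval z f = κ := by
    rw [hf, map_mul, eval_C, map_pow, hl2, one_pow, mul_one]
  have h5 := section_add E hG₂ (section_mul E hG₁ hfh)
  have h6 : evv (fun i => G₂ i - f * G₁ i) z = 0 := by
    ext i
    have := congrFun hκ i
    simp only [Pi.smul_apply, smul_eq_mul] at this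
    simp only [evv, map_sub, map_mul, hfz, Pi.zero_apply] at this ⊢
    rw [← this]
    ring
  obtain ⟨G', hG', h7⟩ := section_div E hz h5 h6
  by_cases h8 : ∃ f', HomZ f' (d₂ - 1 - d₁) ∧ ∀ i, G' i = f' * G₁ i
  · obtain ⟨f', hf', h9⟩ := h8
    apply hG₂0
    refine ⟨f + ell z * f', HomZ_add hfh (HomZ_cast (HomZ_mul
      (Or.inr ⟨1, rfl, ell_hom z⟩ : HomZ (ell z) 1) hf') (by ring)), fun i => ?_⟩
    have h10 := h7 i
    rw [h9 i] at h10
    have h11 : G₂ i = f * G₁ i + (G₂ i - f * G₁ i) := by ring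
    rw [h11, h10]
    ring
  · have := hmin₂ (d₂ - 1) ⟨G', hG', h8⟩
    omega

/-- the same for the restriction to a line. -/
theorem grothendieck (E : Bundle2 n) (P Q : Fin (n + 1) → ℂ) (hPQ : LinearIndependent ℂ ![P, Q]) :
    ∃ p q : ℤ, E.SplitsOn P Q p q := by
  let T : (Fin (1 + 1) → ℂ) →ₗ[ℂ] (Fin (n + 1) → ℂ) :=
    { toFun := fun z => z 0 • P + z 1 • Q
      map_add' := by
        intro x y
        simp only [Pi.add_apply, add_smul]
        abel
      map_smul' := by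
        intro c x
        simp only [Pi.smul_apply, smul_eq_mul, RingHom.id_apply, smul_add, smul_smul] }
  have hT : Function.Injective T := by
    rw [← LinearMap.ker_eq_bot, LinearMap.ker_eq_bot']
    intro z hz
    have h1 : z 0 • P + z 1 • Q = 0 := hz
    rw [LinearIndependent.pair_iff] at hPQ
    obtain ⟨h2, h3⟩ := hPQ _ _ h1
    ext i
    fin_cases i
    · exact h2
    · exact h3
  obtain ⟨p, q, G₁, G₂, h₁, h₂, h₃⟩ := grothendieck1 (E.pull T hT)
  refine ⟨p, q, G₁, G₂, fun i => ?_, fun i => ?_, fun z hz => ⟨?_, ?_, h₃ z hz⟩⟩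
  · exact HomZ_cast (h₁.1 i) (by rw [sub_eq_add_neg]; rfl)
  · exact HomZ_cast (h₂.1 i) (by rw [sub_eq_add_neg]; rfl)
  · have := h₁.2 z hz
    rw [fib_pull] at this
    exact this
  · have := h₂.2 z hz
    rw [fib_pull] at this
    exact this

end Bundle2

end H960VB
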