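import Pool.Agent.H960R2.VB.Main2
import Pool.Agent.H960R2.VB.TaskT1

/-! Task T4: two independent sections of small total degree. `two_sections_of` assumes the
statement of `main_sec_e0` (which is proved elsewhere). -/

open MvPolynomial

namespace H960VB

namespace TaskT4

open L2

variable {n : ℕ}

/-- the parametrisation of the line through `A` and `B`. -/
noncomputable def lineMap (A B : Fin (n + 1) → ℂ) : (Fin (1 + 1) → ℂ) →ₗ[ℂ] (Fin (n + 1) → ℂ) where
  toFun := fun z => z 0 • A + z 1 • B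
  map_add' := by
    intro x y
    simp only [Pi.add_apply, add_smul]
    abel
  map_smul' := by
    intro c x
    simp only [Pi.smul_apply, smul_eq_mul, RingHom.id_apply, smul_add, smul_smul]

theorem lineMap_apply (A B : Fin (n + 1) → ℂ) (z : Fin (1 + 1) → ℂ) :
    lineMap A B z = z 0 • A + z 1 • B := rfl

theorem lineMap_injective {A B : Fin (n + 1) → ℂ} (hAB : LinearIndependent ℂ ![A, B]) :
    Function.Injective (lineMap A B) := by
  rw [← LinearMap.ker_eq_bot, LinearMap.ker_eq_bot']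
  intro z hz
  have h1 : z 0 • A + z 1 • B = 0 := hz
  rw [LinearIndependent.pair_iff] at hAB
  obtain ⟨h2, h3⟩ := hAB _ _ h1
  ext i
  fin_cases i
  · exact h2
  · exact h3

theorem lineMap_e0 (A B : Fin (n + 1) → ℂ) : lineMap A B (Fin.cons 1 0) = A := by
  rw [lineMap_apply]
  simp

theorem lineMap_e1 (A B : Fin (n + 1) → ℂ) : lineMap A B (Fin.cons 0 1) = B := by
  rw [lineMap_apply]
  simp

theorem one_ne : (1 : Fin 1 → ℂ) ≠ 0 := one_ne_zero

theorem lpt_one (z : Fin 2 → ℂ) : Bundle2.lpt (1 : Fin 1 → ℂ) z = z := by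
  ext i
  fin_cases i
  · simp [Bundle2.lpt]
  · simp [Bundle2.lpt]

/-- Plücker data of the restriction. -/
theorem plucker_pull (E : Bundle2 n) (c₁ : ℤ)
    (P : Fin E.a → Fin E.a → MvPolynomial (Fin (n + 1)) ℂ)
    (hP : ∀ i j, HomZ (P i j) (E.β i + E.β j - c₁))
    (hP0 : ∀ x : Fin (n + 1) → ℂ, x ≠ 0 → ∃ i j, eval x (P i j) ≠ 0)
    (hPw : ∀ x : Fin (n + 1) → ℂ, x ≠ 0 → ∀ u w : Fin E.a → ℂ,
        (evm E.B x).mulVec u = 0 → (evm E.B x).mulVec w = 0 →
        ∃ κ : ℂ, ∀ i j, u i * w j - u j * w i = κ * eval x (P i j))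
    {m : ℕ} (T : (Fin (m + 1) → ℂ) →ₗ[ℂ] (Fin (n + 1) → ℂ)) (hT : Function.Injective T) :
    (∀ i j, HomZ (lsub T (P i j)) (E.β i + E.β j - c₁)) ∧
    (∀ x : Fin (m + 1) → ℂ, x ≠ 0 → ∃ i j, eval x (lsub T (P i j)) ≠ 0) ∧
    (∀ x : Fin (m + 1) → ℂ, x ≠ 0 → ∀ u w : Fin E.a → ℂ,
        (evm (E.pull T hT).B x).mulVec u = 0 → (evm (E.pull T hT).B x).mulVec w = 0 →
        ∃ κ : ℂ, ∀ i j, u i * w j - u j * w i = κ * eval x (lsub T (P i j))) := by
  have hTx : ∀ x, x ≠ 0 → T x ≠ 0 := fun x hx h0 => hx (hT (by simpa using h0))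
  refine ⟨fun i j => homZ_lsub T (hP i j), fun x hx => ?_, fun x hx u w hu hw => ?_⟩
  · obtain ⟨i, j, h⟩ := hP0 (T x) (hTx x hx)
    exact ⟨i, j, by rwa [eval_lsub]⟩
  · rw [Bundle2.evm_pull] at hu hw
    obtain ⟨κ, hκ⟩ := hPw (T x) (hTx x hx) u w hu hw
    exact ⟨κ, fun i j => by rw [eval_lsub]; exact hκ i j⟩

end TaskT4

namespace Bundle2

open TaskT4 L2

variable {n : ℕ}

/-- the degree is the same on all lines. -/
theorem splitsOn_sum' (E : Bundle2 n) (c₁ : ℤ)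
    (P : Fin E.a → Fin E.a → MvPolynomial (Fin (n + 1)) ℂ)
    (hP : ∀ i j, HomZ (P i j) (E.β i + E.β j - c₁))
    (hP0 : ∀ x : Fin (n + 1) → ℂ, x ≠ 0 → ∃ i j, eval x (P i j) ≠ 0)
    (hPw : ∀ x : Fin (n + 1) → ℂ, x ≠ 0 → ∀ u w : Fin E.a → ℂ,
        (evm E.B x).mulVec u = 0 → (evm E.B x).mulVec w = 0 →
        ∃ κ : ℂ, ∀ i j, u i * w j - u j * w i = κ * eval x (P i j))
    (A B : Fin (n + 1) → ℂ) (hAB : LinearIndependent ℂ ![A, B]) (p q : ℤ)
    (hs : E.SplitsOn A B p q) : p + q = c₁ := by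
  obtain ⟨h1, h2, h3⟩ := plucker_pull E c₁ P hP hP0 hPw (lineMap A B) (lineMap_injective hAB)
  have hs' : (E.pull (lineMap A B) (lineMap_injective hAB)).SplitsOn (Fin.cons 1 0)
      (Fin.cons 0 (1 : Fin 1 → ℂ)) p q := by
    apply splitsOn_pull
    rw [lineMap_e0, lineMap_e1]
    exact hs
  exact splitsOn_sum (E.pull (lineMap A B) (lineMap_injective hAB)) c₁
    (fun i j => lsub (lineMap A B) (P i j)) h1 h2 h3 1 one_ne p q hs'

/-- a section of `E(a)` and a section of a summand `O(p)` on a line with complement `O(q)`,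
`q + a < 0`, are proportional. -/
theorem prop_on_line (E : Bundle2 n) (c₁ : ℤ)
    (P : Fin E.a → Fin E.a → MvPolynomial (Fin (n + 1)) ℂ)
    (hP : ∀ i j, HomZ (P i j) (E.β i + E.β j - c₁))
    (hP0 : ∀ x : Fin (n + 1) → ℂ, x ≠ 0 → ∃ i j, eval x (P i j) ≠ 0)
    (hPw : ∀ x : Fin (n + 1) → ℂ, x ≠ 0 → ∀ u w : Fin E.a → ℂ,
        (evm E.B x).mulVec u = 0 → (evm E.B x).mulVec w = 0 →
        ∃ κ : ℂ, ∀ i j, u i * w j - u j * w i = κ * eval x (P i j))
    (x Q : Fin (n + 1) → ℂ) (hxQ : LinearIndependent ℂ ![x, Q]) (a p : ℤ)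
    (G : Fin E.a → MvPolynomial (Fin (n + 1)) ℂ) (hG : E.IsSection a G)
    (g : Fin E.a → MvPolynomial (Fin 2) ℂ) (hg : ∀ i, HomZ (g i) (E.β i - p))
    (hg2 : ∀ z : Fin 2 → ℂ, z ≠ 0 → evv g z ∈ E.fib (z 0 • x + z 1 • Q))
    (hneg : c₁ - p + a < 0) (hgx : evv g ![1, 0] ≠ 0) :
    ∃ c : ℂ, evv G x = c • evv g ![1, 0] := by
  obtain ⟨h1, h2, h3⟩ := plucker_pull E c₁ P hP hP0 hPw (lineMap x Q) (lineMap_injective hxQ)
  obtain ⟨h, hh, h4⟩ := wedge_poly (E.pull (lineMap x Q) (lineMap_injective hxQ)) c₁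
    (fun i j => lsub (lineMap x Q) (P i j)) h1 h2 h3 1 one_ne (-p) a g
    (fun i => lsub (lineMap x Q) (G i)) (fun i => HomZ_cast (hg i) (by
      change E.β i - p = E.β i + -p
      ring))
    (fun i => homZ_lsub _ (hG.1 i)) (fun z hz => by
      rw [evm_pull, lpt_one]
      exact hg2 z hz) (fun z hz => by
      rw [evm_pull, lpt_one]
      have h5 : evv (fun i => lsub (lineMap x Q) (G i)) z = evv G (lineMap x Q z) := by
        ext i
        exact eval_lsub _ _ _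
      have h6 : lineMap x Q z ≠ 0 := fun h0 => hz (lineMap_injective hxQ (by simpa using h0))
      have h7 := hG.2 (lineMap x Q z) h6
      exact (congrArg (fun u => (evm E.B (lineMap x Q z)).mulVec u) h5).trans h7)
  have hh0 : h = 0 := by
    rcases hh with hh | ⟨k, hk, _⟩
    · exact hh
    · exfalso
      omega
  have h8 : evv (fun i => lsub (lineMap x Q) (G i)) ![1, 0] = evv G x := by
    ext i
    have : lineMap x Q (![1, 0] : Fin (1 + 1) → ℂ) = x := by
      rw [lineMap_apply]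
      simp
    refine (eval_lsub _ _ _).trans ?_
    rw [this]
    rfl
  apply TaskC2.parallel hgx
  intro i j
  have h9 := h4 ![1, 0] i j
  rw [hh0, map_zero, zero_mul] at h9
  have h10 := congrFun h8 i
  have h11 := congrFun h8 j
  rw [← h10, ← h11]
  exact h9

/-- the statement of `main_sec_e0`. -/
def MainSec (n : ℕ) : Prop :=
  ∀ (E : Bundle2 n) (m : ℤ)
    (G : Fin E.a → MvPolynomial (Fin (n + 1)) ℂ) (_ : E.IsSection m G)
    (_ : evv G (Fin.cons 1 0) ≠ 0)
    (_ : ∀ v : Fin n → ℂ, v ≠ 0 → ∃ p q : ℤ, p + q + 2 * m ≤ (n : ℤ) - 2 ∧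
      p + m ≤ (n : ℤ) - 2 ∧ q + m ≤ (n : ℤ) - 2 ∧
      E.SplitsOn (Fin.cons 1 0) (Fin.cons 0 v) p q), E.Splits

/-- the criterion with a section at an arbitrary point. -/
theorem main_sec_pt (hmain : MainSec n) (E : Bundle2 n) (m : ℤ)
    (G : Fin E.a → MvPolynomial (Fin (n + 1)) ℂ) (hG : E.IsSection m G)
    (x : Fin (n + 1) → ℂ) (hx : x ≠ 0) (hG0 : evv G x ≠ 0)
    (h : ∀ Q : Fin (n + 1) → ℂ, LinearIndependent ℂ ![x, Q] →
      ∃ p q : ℤ, p + q + 2 * m ≤ (n : ℤ) - 2 ∧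
      p + m ≤ (n : ℤ) - 2 ∧ q + m ≤ (n : ℤ) - 2 ∧ E.SplitsOn x Q p q) : E.Splits := by
  obtain ⟨T, hT⟩ := exists_move x hx
  apply splits_of_pull_equiv E T
  have hT' : T.toLinearMap (Fin.cons 1 0) = x := hT
  have hev : ∀ y, evv (fun i => lsub T.toLinearMap (G i)) y = evv G (T.toLinearMap y) := by
    intro y
    ext i
    exact eval_lsub _ _ _
  refine hmain (E.pull T.toLinearMap T.injective) m (fun i => lsub T.toLinearMap (G i))
    ⟨fun i => homZ_lsub _ (hG.1 i), fun y hy => ?_⟩ ?_ ?_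
  · rw [fib_pull]
    have h6 : T.toLinearMap y ≠ 0 := fun h0 => hy (T.injective (by simpa using h0))
    have h7 := hG.2 _ h6
    rw [← hev y] at h7
    exact h7
  · have h8 := hev (Fin.cons 1 0)
    rw [hT'] at h8
    intro h9
    exact hG0 (h8.symm.trans h9)
  · intro v hv
    have hli : LinearIndependent ℂ ![x, T (Fin.cons 0 v)] := by
      have h1 : LinearIndependent ℂ ![(Fin.cons 1 0 : Fin (n + 1) → ℂ), Fin.cons 0 v] := by
        rw [LinearIndependent.pair_iff]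
        intro s t hst
        have h2 := congrFun hst 0
        have h3 : s = 0 := by simpa using h2
        refine ⟨h3, ?_⟩
        by_contra ht
        apply hv
        ext i
        have h4 := congrFun hst i.succ
        have h5 : t * v i = 0 := by simpa [h3] using h4
        rcases mul_eq_zero.mp h5 with h | h
        · exact absurd h ht
        · exact h
      have h2 := h1.map' T.toLinearMap (LinearMap.ker_eq_bot.mpr T.injective)
      have h3 : (T.toLinearMap ∘ ![(Fin.cons 1 0 : Fin (n + 1) → ℂ), Fin.cons 0 v]) =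
          ![x, T (Fin.cons 0 v)] := by
        ext i
        fin_cases i
        · simp [← hT]
        · simp
      rw [h3] at h2
      exact h2
    obtain ⟨p, q, h1, h2, h3, hs⟩ := h _ hli
    refine ⟨p, q, h1, h2, h3, ?_⟩
    apply splitsOn_pull
    rw [hT']
    exact hs

theorem two_sections_le (hmain : MainSec n) (hn : 2 ≤ n) (E : Bundle2 n) (a b : ℤ) (hab : a ≤ b)
    (G₁ G₂ : Fin E.a → MvPolynomial (Fin (n + 1)) ℂ) (h₁ : E.IsSection a G₁)
    (h₂ : E.IsSection b G₂) (x : Fin (n + 1) → ℂ) (hx : x ≠ 0)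
    (hli : LinearIndependent ℂ ![evv G₁ x, evv G₂ x])
    (A B : Fin (n + 1) → ℂ) (hAB : LinearIndependent ℂ ![A, B]) (p q : ℤ)
    (hs : E.SplitsOn A B p q) (hd : p + q + a + b ≤ (n : ℤ) - 2) : E.Splits := by
  obtain ⟨c₁, P, hP, hP0, hPw⟩ := plucker (by omega) E.β E.γ E.B E.hom E.rank_two
  have hc : p + q = c₁ := splitsOn_sum' E c₁ P hP hP0 hPw A B hAB p q hs
  have hG₁x : evv G₁ x ≠ 0 := by
    have := hli.ne_zero 0
    simpa using this
  refine main_sec_pt hmain E a G₁ h₁ x hx hG₁x fun Q hQ => ?_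
  obtain ⟨p', q', hs'⟩ := grothendieck E x Q hQ
  have hc' : p' + q' = c₁ := splitsOn_sum' E c₁ P hP hP0 hPw x Q hQ p' q' hs'
  obtain ⟨g₁, g₂, hg₁, hg₂, hz⟩ := hs'
  have hz0 : (![1, 0] : Fin 2 → ℂ) ≠ 0 := by
    intro h0
    have := congrFun h0 0
    simp at this
  have hz1 := (hz ![1, 0] hz0).2.2
  have key : ∀ (p : ℤ) (g : Fin E.a → MvPolynomial (Fin 2) ℂ), (∀ i, HomZ (g i) (E.β i - p)) →
      (∀ z : Fin 2 → ℂ, z ≠ 0 → evv g z ∈ E.fib (z 0 • x + z 1 • Q)) →
      evv g ![1, 0] ≠ 0 → 0 ≤ c₁ - p + b := by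
    intro p g hg hg' hgx
    by_contra hneg
    push Not at hneg
    obtain ⟨c, hc1⟩ := prop_on_line E c₁ P hP hP0 hPw x Q hQ a p G₁ h₁ g hg hg' (by omega) hgx
    obtain ⟨d, hd1⟩ := prop_on_line E c₁ P hP hP0 hPw x Q hQ b p G₂ h₂ g hg hg' (by omega) hgx
    rw [LinearIndependent.pair_iff] at hli
    have h5 := hli d (-c) (by
      rw [hc1, hd1, smul_smul, smul_smul, ← add_smul]
      have : d * c + -c * d = 0 := by ring
      rw [this, zero_smul])
    have h6 : c = 0 := by simpa using h5.2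
    rw [h6, zero_smul] at hc1
    exact hG₁x hc1
  have h3 := key p' g₁ hg₁ (fun z hz' => (hz z hz').1) (by
    have := hz1.ne_zero 0
    simpa using this)
  have h4 := key q' g₂ hg₂ (fun z hz' => (hz z hz').2.1) (by
    have := hz1.ne_zero 1
    simpa using this)
  exact ⟨p', q', by omega, by omega, by omega, g₁, g₂, hg₁, hg₂, hz⟩

/-- two sections, independent at `x`, of total degree `c₁ + a + b ≤ n - 2`. -/
theorem two_sections_of (hmain : MainSec n) (hn : 2 ≤ n) (E : Bundle2 n) (a b : ℤ)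
    (G₁ G₂ : Fin E.a → MvPolynomial (Fin (n + 1)) ℂ) (h₁ : E.IsSection a G₁)
    (h₂ : E.IsSection b G₂) (x : Fin (n + 1) → ℂ) (hx : x ≠ 0)
    (hli : LinearIndependent ℂ ![evv G₁ x, evv G₂ x])
    (A B : Fin (n + 1) → ℂ) (hAB : LinearIndependent ℂ ![A, B]) (p q : ℤ)
    (hs : E.SplitsOn A B p q) (hd : p + q + a + b ≤ (n : ℤ) - 2) : E.Splits := by
  rcases le_total a b with h | h
  · exact two_sections_le hmain hn E a b h G₁ G₂ h₁ h₂ x hx hli A B hAB p q hs hd
  · refine two_sections_le hmain hn E b a h G₂ G₁ h₂ h₁ x hx ?_ A B hAB p q hs (by omega)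
    rw [LinearIndependent.pair_iff] at hli ⊢
    intro s t hst
    have := hli t s (by rw [add_comm]; exact hst)
    exact ⟨this.2, this.1⟩

end Bundle2

end H960VB
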