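import Pool.Agent.H960R2.VB.Secant
import Pool.Agent.H960R2.VB.TaskT4

/-! Final forms of the criteria with sections. -/

open MvPolynomial

namespace H960VB
namespace Bundle2

variable {n : ℕ}

/-- all splitting types have the same sum. -/
theorem sum_eq (hn : 1 ≤ n) (E : Bundle2 n) (A B A' B' : Fin (n + 1) → ℂ)
    (hAB : LinearIndependent ℂ ![A, B]) (hAB' : LinearIndependent ℂ ![A', B']) (p q p' q' : ℤ)
    (hs : E.SplitsOn A B p q) (hs' : E.SplitsOn A' B' p' q') : p + q = p' + q' := by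
  obtain ⟨c₁, P, hP, hP0, hPw⟩ := plucker (by omega : 2 ≤ n + 1) E.β E.γ E.B E.hom E.rank_two
  rw [splitsOn_sum' E c₁ P hP hP0 hPw A B hAB p q hs, splitsOn_sum' E c₁ P hP hP0 hPw A' B' hAB' p' q' hs']

/-- the criterion with a section, at an arbitrary point. -/
theorem main_sec (hn : 2 ≤ n) (E : Bundle2 n) (m : ℤ)
    (G : Fin E.a → MvPolynomial (Fin (n + 1)) ℂ) (hG : E.IsSection m G)
    (x : Fin (n + 1) → ℂ) (hx : x ≠ 0) (hGx : evv G x ≠ 0)
    (h : ∀ Q : Fin (n + 1) → ℂ, LinearIndependent ℂ ![x, Q] → ∃ p q : ℤ,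
      p + q + 2 * m ≤ (n : ℤ) - 2 ∧ p + m ≤ (n : ℤ) - 2 ∧ q + m ≤ (n : ℤ) - 2 ∧
      E.SplitsOn x Q p q) : E.Splits := by
  obtain ⟨T, hT⟩ := exists_move x hx
  apply splits_of_pull_equiv E T
  have hT' : T.toLinearMap (Fin.cons 1 0) = x := hT
  apply main_sec_e0 hn _ m _ (section_pull E T.toLinearMap T.injective m G hG)
  · have h1 : evv (fun i => lsub T.toLinearMap (G i)) (Fin.cons 1 0) = evv G x := by
      ext i
      simp only [evv, eval_lsub]
      rw [hT']
    rw [← h1] at hGx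
    exact hGx
  intro v hv
  have hli : LinearIndependent ℂ ![x, T (Fin.cons 0 v)] := by
    have h1 : LinearIndependent ℂ ![(Fin.cons 1 0 : Fin (n + 1) → ℂ), Fin.cons 0 v] := by
      rw [LinearIndependent.pair_iff]
      intro s t hst
      have h2 := congrFun hst 0
      have h3 : s = 0 := by simpa using h2
      refine ⟨h3, ?_⟩
      by_contra ht
      apply hv
      ext i
      have h4 := congrFun hst i.succ
      have h5 : t * v i = 0 := by simpa [h3] using h4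
      rcases mul_eq_zero.mp h5 with h | h
      · exact absurd h ht
      · exact h
    have h2 := h1.map' T.toLinearMap (LinearMap.ker_eq_bot.mpr T.injective)
    have h3 : (T.toLinearMap ∘ ![(Fin.cons 1 0 : Fin (n + 1) → ℂ), Fin.cons 0 v]) =
        ![x, T (Fin.cons 0 v)] := by
      ext i
      fin_cases i
      · simp [← hT]
      · simp
    rw [h3] at h2
    exact h2
  obtain ⟨p, q, h1, h2, h3, hs⟩ := h _ hli
  refine ⟨p, q, h1, h2, h3, ?_⟩
  apply splitsOn_pull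
  rw [hT']
  exact hs

/-- the criterion in terms of secant lines. -/
theorem main_secant (hn : 2 ≤ n) (E : Bundle2 n) (m : ℤ)
    (G : Fin E.a → MvPolynomial (Fin (n + 1)) ℂ) (hG : E.IsSection m G)
    (x : Fin (n + 1) → ℂ) (hx : x ≠ 0) (hGx : evv G x ≠ 0)
    (A B : Fin (n + 1) → ℂ) (hAB : LinearIndependent ℂ ![A, B]) (p q : ℤ)
    (hs : E.SplitsOn A B p q) (hc : p + q + 2 * m ≤ (n : ℤ) - 2)
    (h : ∀ Q : Fin (n + 1) → ℂ, LinearIndependent ℂ ![x, Q] → ∀ d : ℕ, n ≤ d + 1 →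
      ¬ Secant G x Q d) : E.Splits := by
  apply main_sec hn E m G hG x hx hGx
  intro Q hQ
  obtain ⟨p', q', hs'⟩ := grothendieck E x Q hQ
  have hsum := sum_eq (by omega) E A B x Q hAB hQ p q p' q' hs hs'
  refine ⟨p', q', by omega, ?_, ?_, hs'⟩
  · by_contra hcon
    obtain ⟨d, hd, hsec⟩ := secant_of_split E m G hG x Q hQ p' q' hs' (by omega) hGx
    exact h Q hQ d (by omega) hsec
  · by_contra hcon
    have hs'' : E.SplitsOn x Q q' p' := by
      obtain ⟨g₁, g₂, h₁, h₂, h₃⟩ := hs'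
      refine ⟨g₂, g₁, h₂, h₁, fun z hz => ⟨(h₃ z hz).2.1, (h₃ z hz).1, ?_⟩⟩
      exact LinearIndependent.pair_symm_iff.mp (h₃ z hz).2.2
    obtain ⟨d, hd, hsec⟩ := secant_of_split E m G hG x Q hQ q' p' hs'' (by omega) hGx
    exact h Q hQ d (by omega) hsec

/-- The secant criterion on a linear subspace. -/
theorem main_secant_sub {k : ℕ} (hk : 2 ≤ k) (E : Bundle2 n)
    (T : (Fin (k + 1) → ℂ) →ₗ[ℂ] (Fin (n + 1) → ℂ)) (hT : Function.Injective T) (m : ℤ)
    (G : Fin E.a → MvPolynomial (Fin (k + 1)) ℂ) (hG : (E.pull T hT).IsSection m G)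
    (x : Fin (k + 1) → ℂ) (hx : x ≠ 0) (hGx : evv G x ≠ 0)
    (A B : Fin (n + 1) → ℂ) (hAB : LinearIndependent ℂ ![A, B]) (p q : ℤ)
    (hs : E.SplitsOn A B p q) (hc : p + q + 2 * m ≤ (k : ℤ) - 2)
    (h : ∀ Q : Fin (k + 1) → ℂ, LinearIndependent ℂ ![x, Q] → ∀ d : ℕ, k ≤ d + 1 →
      ¬ Secant G x Q d) : E.Splits := by
  have hkn : k ≤ n := by
    have := LinearMap.finrank_le_finrank_of_injective hT
    simp at this
    omega
  obtain ⟨A', B', hAB'⟩ : ∃ A' B' : Fin (k + 1) → ℂ, LinearIndependent ℂ ![A', B'] := by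
    refine ⟨Pi.single ⟨0, by omega⟩ 1, Pi.single ⟨1, by omega⟩ 1, ?_⟩
    rw [LinearIndependent.pair_iff]
    intro s t hst
    have h0 := congrFun hst ⟨0, by omega⟩
    have h1 := congrFun hst ⟨1, by omega⟩
    simp at h0 h1
    exact ⟨h0, h1⟩
  have hTAB : LinearIndependent ℂ ![T A', T B'] := by
    have h2 := hAB'.map' T (LinearMap.ker_eq_bot.mpr hT)
    have h3 : (T ∘ ![A', B']) = ![T A', T B'] := by
      ext i
      fin_cases i <;> simp
    rw [h3] at h2
    exact h2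
  obtain ⟨p', q', hs'⟩ := grothendieck E (T A') (T B') hTAB
  have hsum := sum_eq (by omega) E A B (T A') (T B') hAB hTAB p q p' q' hs hs'
  refine splits_of_pull (n - k) k n hk (by omega) E T hT ?_
  exact main_secant hk (E.pull T hT) m G hG x hx hGx A' B' hAB' p' q'
    (splitsOn_pull E T hT A' B' p' q' hs') (by omega) h

/-- two sections, independent at `x`, of total degree `c₁ + a + b ≤ n - 2`. -/
theorem two_sections (hn : 2 ≤ n) (E : Bundle2 n) (a b : ℤ)
    (G₁ G₂ : Fin E.a → MvPolynomial (Fin (n + 1)) ℂ) (h₁ : E.IsSection a G₁)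
    (h₂ : E.IsSection b G₂) (x : Fin (n + 1) → ℂ) (hx : x ≠ 0)
    (hli : LinearIndependent ℂ ![evv G₁ x, evv G₂ x])
    (A B : Fin (n + 1) → ℂ) (hAB : LinearIndependent ℂ ![A, B]) (p q : ℤ)
    (hs : E.SplitsOn A B p q) (hd : p + q + a + b ≤ (n : ℤ) - 2) : E.Splits :=
  two_sections_of (fun E m G hG hG0 h => main_sec_e0 hn E m G hG hG0 h) hn E a b G₁ G₂ h₁ h₂ x hx
    hli A B hAB p q hs hd

/-- two sections on a linear subspace. -/
theorem two_sections_sub {k : ℕ} (hk : 2 ≤ k) (E : Bundle2 n)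
    (T : (Fin (k + 1) → ℂ) →ₗ[ℂ] (Fin (n + 1) → ℂ)) (hT : Function.Injective T) (a b : ℤ)
    (G₁ G₂ : Fin E.a → MvPolynomial (Fin (k + 1)) ℂ) (h₁ : (E.pull T hT).IsSection a G₁)
    (h₂ : (E.pull T hT).IsSection b G₂) (x : Fin (k + 1) → ℂ) (hx : x ≠ 0)
    (hli : LinearIndependent ℂ ![evv G₁ x, evv G₂ x])
    (A B : Fin (n + 1) → ℂ) (hAB : LinearIndependent ℂ ![A, B]) (p q : ℤ)
    (hs : E.SplitsOn A B p q) (hd : p + q + a + b ≤ (k : ℤ) - 2) : E.Splits := by
  have hkn : k ≤ n := by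
    have := LinearMap.finrank_le_finrank_of_injective hT
    simp at this
    omega
  obtain ⟨A', B', hAB'⟩ : ∃ A' B' : Fin (k + 1) → ℂ, LinearIndependent ℂ ![A', B'] := by
    refine ⟨Pi.single ⟨0, by omega⟩ 1, Pi.single ⟨1, by omega⟩ 1, ?_⟩
    rw [LinearIndependent.pair_iff]
    intro s t hst
    have h0 := congrFun hst ⟨0, by omega⟩
    have h1 := congrFun hst ⟨1, by omega⟩
    simp at h0 h1
    exact ⟨h0, h1⟩
  have hTAB : LinearIndependent ℂ ![T A', T B'] := by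
    have h2 := hAB'.map' T (LinearMap.ker_eq_bot.mpr hT)
    have h3 : (T ∘ ![A', B']) = ![T A', T B'] := by
      ext i
      fin_cases i <;> simp
    rw [h3] at h2
    exact h2
  obtain ⟨p', q', hs'⟩ := grothendieck E (T A') (T B') hTAB
  have hsum := sum_eq (by omega) E A B (T A') (T B') hAB hTAB p q p' q' hs hs'
  refine splits_of_pull (n - k) k n hk (by omega) E T hT ?_
  exact two_sections hk (E.pull T hT) a b G₁ G₂ h₁ h₂ x hx hli A' B' hAB' p' q'
    (splitsOn_pull E T hT A' B' p' q' hs') (by omega)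

end Bundle2
end H960VB
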