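import Pool.Agent.H960R2.VB.SecLine

/-! The criterion with a section which does not vanish at the base point. -/

open MvPolynomial

namespace H960VB
namespace Bundle2

variable {n : ℕ}

theorem cf_resG (E : Bundle2 n) (m : ℤ) (G : Fin E.a → MvPolynomial (Fin (n + 1)) ℂ)
    (hG : ∀ i, HomZ (G i) (E.β i + m)) (v : Fin n → ℂ) (s : ℕ) (i : Fin E.a) :
    E.cf (evv (E.resG m G) v) s i = eval v (homogeneousComponent s (dehom (G i))) := by
  by_cases hs : s < (E.β i + m + 1).toNat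
  · exact dif_pos hs
  · have h5 : E.cf (evv (E.resG m G) v) s i = 0 := dif_neg hs
    rw [h5]
    rcases hG i with h0 | ⟨d, hd, hh⟩
    · have h1 : dehom (G i) = 0 := by rw [h0]; unfold dehom; simp
      rw [h1]; simp
    · rw [totalDegree_dehom_hc hh (by omega)]; simp

/-- one row of the local equations. -/
noncomputable def trow (E : Bundle2 n) (j : ℤ) (G : Fin E.a → MvPolynomial (Fin (n + 1)) ℂ)
    (i k : Fin E.a) (b : ℕ) : Idx E.β j → MvPolynomial (Fin n) ℂ := fun x =>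
  if x.1 = k ∧ (x.2 : ℕ) ≤ b then homogeneousComponent (b - (x.2 : ℕ)) (dehom (G i)) else 0

theorem trow_hom (E : Bundle2 n) (j : ℤ) (G : Fin E.a → MvPolynomial (Fin (n + 1)) ℂ)
    (i k : Fin E.a) (b : ℕ) (x : Idx E.β j) :
    HomZ (E.trow j G i k b x) ((b : ℤ) - ((x.2 : ℕ) : ℤ)) := by
  unfold trow
  split_ifs with h
  · right
    refine ⟨b - (x.2 : ℕ), ?_, homogeneousComponent_isHomogeneous _ _⟩
    have := h.2
    omega
  · left; rfl

theorem trow_sum (E : Bundle2 n) (m j : ℤ) (G : Fin E.a → MvPolynomial (Fin (n + 1)) ℂ)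
    (hG : ∀ i, HomZ (G i) (E.β i + m)) (i k : Fin E.a) (b : ℕ) (v : Fin n → ℂ)
    (g : Idx E.β j → ℂ) :
    ∑ x, eval v (E.trow j G i k b x) * g x =
      (E.pol (evv (E.resG m G) v) i * E.pol g k).coeff b := by
  classical
  rw [Fintype.sum_sigma, Finset.sum_eq_single k]
  · rw [mul_comm, Polynomial.coeff_mul, Finset.Nat.sum_antidiagonal_eq_sum_range_succ
      (fun s t => (E.pol g k).coeff s * (E.pol (evv (E.resG m G) v) i).coeff t)]
    simp only [coeff_pol, cf_resG E m G hG]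
    have h1 : ∀ s : Fin (E.β k + j + 1).toNat,
        eval v (E.trow j G i k b ⟨k, s⟩) * g ⟨k, s⟩ =
        (fun s : ℕ => if s ≤ b then E.cf g s k *
          eval v (homogeneousComponent (b - s) (dehom (G i))) else 0) (s : ℕ) := by
      intro s
      have h2 : E.cf g (s : ℕ) k = g ⟨k, s⟩ := dif_pos s.2
      simp only [trow, true_and, h2]
      split_ifs with h
      · ring
      · simp
    rw [Finset.sum_congr rfl (fun s _ => h1 s)]
    have h6 := Fin.sum_univ_eq_sum_range (fun s : ℕ => if s ≤ b then E.cf g s k *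
          eval v (homogeneousComponent (b - s) (dehom (G i))) else 0) (E.β k + j + 1).toNat
    refine h6.trans ?_
    rw [← Finset.sum_filter]
    have h3 : ∑ s ∈ Finset.range b.succ, E.cf g s k *
        eval v (homogeneousComponent (b - s) (dehom (G i))) =
        ∑ s ∈ (Finset.range b.succ).filter (fun s => s < (E.β k + j + 1).toNat), E.cf g s k *
          eval v (homogeneousComponent (b - s) (dehom (G i))) := by
      symm
      apply Finset.sum_filter_of_ne
      intro s _ hs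
      by_contra hc
      apply hs
      have h4 : E.cf g s k = 0 := dif_neg hc
      rw [h4, zero_mul]
    rw [h3]
    apply Finset.sum_congr _ (fun _ _ => rfl)
    ext s
    simp only [Finset.mem_filter, Finset.mem_range]
    omega
  · intro i' _ hi'
    apply Finset.sum_eq_zero
    intro s _
    unfold trow
    rw [if_neg (fun h => hi' h.1)]
    simp
  · intro h
    exact absurd (Finset.mem_univ _) h

/-- the value at the base point of the restriction. -/
theorem lev_base (E : Bundle2 n) {j : ℤ} (g : Idx E.β j → ℂ) : E.lev g ![1, 0] = E.cf g 0 := by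
  ext i
  rw [lev_at_zero E g _ (by simp)]
  simp

theorem lpt_base (v : Fin n → ℂ) : lpt v ![1, 0] = Fin.cons 1 0 := by
  unfold lpt
  simp

theorem main_sec_e0 (hn : 2 ≤ n) (E : Bundle2 n) (m : ℤ)
    (G : Fin E.a → MvPolynomial (Fin (n + 1)) ℂ) (hG : E.IsSection m G)
    (hG0 : evv G (Fin.cons 1 0) ≠ 0)
    (h : ∀ v : Fin n → ℂ, v ≠ 0 → ∃ p q : ℤ, p + q + 2 * m ≤ (n : ℤ) - 2 ∧
      p + m ≤ (n : ℤ) - 2 ∧ q + m ≤ (n : ℤ) - 2 ∧
      E.SplitsOn (Fin.cons 1 0) (Fin.cons 0 v) p q) : E.Splits := by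
  classical
  obtain ⟨c₁, P, hP, hP0, hPw⟩ := plucker (by omega : 2 ≤ n + 1) E.β E.γ E.B E.hom E.rank_two
  have h' : ∀ v : Fin n → ℂ, v ≠ 0 → ∃ a b : ℤ, b ≤ a ∧ a + m ≤ (n : ℤ) - 2 ∧ a + b = c₁ ∧
      ∀ j : ℤ, Module.finrank ℂ (E.Hsec j v) = (a + j + 1).toNat + (b + j + 1).toNat := by
    intro v hv
    obtain ⟨p, q, hpq, hp, hq, hs⟩ := h v hv
    have hsum := splitsOn_sum E c₁ P hP hP0 hPw v hv p q hs
    have hfr := finrank_Hsec E v hv p q hs
    rcases le_total q p with hle | hle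
    · exact ⟨p, q, hle, by omega, hsum, hfr⟩
    · exact ⟨q, p, hle, by omega, by omega, fun j => by rw [hfr j]; ring⟩
  have hv1 : (fun _ : Fin n => (1 : ℂ)) ≠ 0 := by
    intro h
    have := congrFun h ⟨0, by omega⟩
    simp at this
  have hcm : c₁ + 2 * m ≤ (n : ℤ) - 2 := by
    obtain ⟨p, q, hpq, _, _, hs⟩ := h _ hv1
    have hsum := splitsOn_sum E c₁ P hP hP0 hPw _ hv1 p q hs
    omega
  let Pa : ℤ → Prop := fun a => ∃ v : Fin n → ℂ, v ≠ 0 ∧ ∃ b : ℤ, b ≤ a ∧ a + m ≤ (n : ℤ) - 2 ∧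
    a + b = c₁ ∧ ∀ j : ℤ, Module.finrank ℂ (E.Hsec j v) = (a + j + 1).toNat + (b + j + 1).toNat
  obtain ⟨q, ⟨v₀, hv₀, b₀, hb₀, hb₀', hb₀s, hb₀f⟩, hmax⟩ :=
    Int.exists_greatest_of_bdd (P := Pa)
      ⟨(n : ℤ) - 2 - m, fun z ⟨v, hv, b, h1, h2, h3, h4⟩ => by omega⟩
      (by
        obtain ⟨a, b, h1, h2, h3, h4⟩ := h' _ hv1
        exact ⟨a, _, hv1, b, h1, h2, h3, h4⟩)
  have hall : ∀ v : Fin n → ℂ, v ≠ 0 → ∃ a b : ℤ, b ≤ a ∧ a ≤ q ∧ a + b = c₁ ∧
      ∀ j : ℤ, Module.finrank ℂ (E.Hsec j v) = (a + j + 1).toNat + (b + j + 1).toNat := by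
    intro v hv
    obtain ⟨a, b, h1, h2, h3, h4⟩ := h' v hv
    exact ⟨a, b, h1, hmax a ⟨v, hv, b, h1, h2, h3, h4⟩, h3, h4⟩
  obtain ⟨w, hw⟩ : ∃ w : ℕ, (w : ℤ) = q - b₀ := ⟨(q - b₀).toNat, by omega⟩
  rcases Nat.lt_or_ge n (w + 2) with hwn | hwn
  swap
  · -- small gap : the criterion without section
    apply main_e0 hn
    intro v hv
    obtain ⟨p', q', hpq, hp, hq, hs⟩ := h v hv
    have hsum := splitsOn_sum E c₁ P hP hP0 hPw v hv p' q' hs
    have hfr := finrank_Hsec E v hv p' q' hs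
    refine ⟨p', q', ?_, hs⟩
    have hp' : p' ≤ q ∨ p' < q' := by
      rcases lt_or_ge p' q' with h1 | h1
      · right; exact h1
      · left; exact hmax p' ⟨v, hv, q', h1, hp, hsum, hfr⟩
    have hq' : q' ≤ q ∨ q' < p' := by
      rcases lt_or_ge q' p' with h1 | h1
      · right; exact h1
      · left
        exact hmax q' ⟨v, hv, p', h1, hq, by omega, fun j => by rw [hfr j]; ring⟩
    rw [abs_le]
    constructor <;> omega
  have hbot : ∀ v : Fin n → ℂ, v ≠ 0 → E.Hsec (-q - 1) v = ⊥ := by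
    intro v hv
    obtain ⟨a, b, h1, h2, h3, h4⟩ := hall v hv
    have := h4 (-q - 1)
    rw [← Submodule.finrank_eq_zero (R := ℂ), this]
    omega
  have hfr1 : ∀ v : Fin n → ℂ, v ≠ 0 → Module.finrank ℂ (E.Hsec (-b₀ - 1) v) = w := by
    intro v hv
    obtain ⟨a, b, h1, h2, h3, h4⟩ := hall v hv
    rw [h4]
    omega
  have hfr2 : ∀ v : Fin n → ℂ, v ≠ 0 → Module.finrank ℂ (E.Hsec (-b₀) v) = w + 2 := by
    intro v hv
    obtain ⟨a, b, h1, h2, h3, h4⟩ := hall v hv
    rw [h4]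
    omega
  obtain ⟨f₀, hf₀, hf₀0⟩ : ∃ f₀ ∈ E.Hsec (-q) v₀, f₀ ≠ 0 := by
    have h5 := hb₀f (-q)
    have h6 : 0 < Module.finrank ℂ (E.Hsec (-q) v₀) := by rw [h5]; omega
    have h7 : E.Hsec (-q) v₀ ≠ ⊥ := by
      intro h8
      rw [h8] at h6
      simp at h6
    obtain ⟨f, hf, hf0⟩ := Submodule.exists_mem_ne_zero_of_ne_bot h7
    exact ⟨f, hf, hf0⟩
  have he0 : E.cf f₀ 0 ≠ 0 := by
    intro h
    apply hf₀0
    have h0 : ∀ b' < 1, E.cf f₀ b' = 0 := by
      intro b' hb'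
      have : b' = 0 := by omega
      rw [this, h]
    apply eq_zero_of_sh E f₀ 1 (j' := -q - 1) (by push_cast; ring) h0
    have := sh_mem E v₀ f₀ hf₀ 1 (j' := -q - 1) (by push_cast; ring) h0
    rw [hbot v₀ hv₀] at this
    simpa using this
  have he00 : (Fin.cons 1 0 : Fin (n + 1) → ℂ) ≠ 0 := by
    intro h
    have := congrFun h 0
    simp at this
  obtain ⟨i₀, k₀, hP00⟩ := hP0 (Fin.cons 1 0) he00
  -- the restriction of the section is proportional to the maximal one on the line `v₀`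
  have hGf : ∀ (z : Fin 2 → ℂ) (i k : Fin E.a),
      E.lev (evv (E.resG m G) v₀) z i * E.lev f₀ z k -
        E.lev (evv (E.resG m G) v₀) z k * E.lev f₀ z i = 0 :=
    wedge_zero E c₁ P hP hP0 hPw v₀ hv₀ m (-q) _ (resG_mem E m G hG v₀ hv₀) f₀ hf₀ i₀ k₀ hP00 0
      (by push_cast; omega) (fun b hb => absurd hb (Nat.not_lt_zero b))
  obtain ⟨κ, hκ⟩ : ∃ κ : ℂ, evv G (Fin.cons 1 0) = κ • E.cf f₀ 0 := by
    apply TaskC2.parallel he0
    intro i k
    have h1 := hGf ![1, 0] i k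
    rw [lev_resG E m G hG.1, lpt_base, lev_base] at h1
    linear_combination -h1
  have hline : ∀ v : Fin n → ℂ, v ≠ 0 → ∀ g : Idx E.β (-b₀ - 1) → ℂ, g ∈ E.Hsec (-b₀ - 1) v →
      (∀ (z : Fin 2 → ℂ) (i k : Fin E.a),
        E.lev (evv (E.resG m G) v) z i * E.lev g z k -
          E.lev (evv (E.resG m G) v) z k * E.lev g z i = 0) →
      ∀ b, (∀ b' < b, E.cf g b' = 0) → ∃ ρ : ℂ, E.cf g b = ρ • E.cf f₀ 0 := by
    intro v hv g hg hw0 b hb
    have h2 : (fun z : Fin 2 → ℂ => fun ik : Fin E.a × Fin E.a =>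
        E.lev (evv (E.resG m G) v) z ik.1 * E.lev (E.sh g b (-b₀ - 1 - b)) z ik.2 -
          E.lev (evv (E.resG m G) v) z ik.2 * E.lev (E.sh g b (-b₀ - 1 - b)) z ik.1) =
        fun _ => 0 := by
      apply eq_of_eq_off
      · have h3 := continuous_lev E (evv (E.resG m G) v)
        have h4 := continuous_lev E (E.sh g b (-b₀ - 1 - b))
        apply continuous_pi
        intro ik
        have h5 : ∀ i, Continuous (fun z : Fin 2 → ℂ => E.lev (evv (E.resG m G) v) z i) :=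
          fun i => (continuous_apply i).comp h3
        have h6 : ∀ i, Continuous (fun z : Fin 2 → ℂ => E.lev (E.sh g b (-b₀ - 1 - b)) z i) :=
          fun i => (continuous_apply i).comp h4
        exact ((h5 _).mul (h6 _)).sub ((h5 _).mul (h6 _))
      · fun_prop
      · intro z hz
        ext ik
        have h3 := hw0 z ik.1 ik.2
        rw [lev_shift E g b (j' := -b₀ - 1 - b) (by ring) hb,
          lev_shift E g b (j' := -b₀ - 1 - b) (by ring) hb] at h3
        have h4 : z 1 ^ b * (E.lev (evv (E.resG m G) v) z ik.1 *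
            E.lev (E.sh g b (-b₀ - 1 - b)) z ik.2 -
          E.lev (evv (E.resG m G) v) z ik.2 * E.lev (E.sh g b (-b₀ - 1 - b)) z ik.1) = 0 := by
          linear_combination h3
        exact (mul_eq_zero.mp h4).resolve_left (pow_ne_zero _ hz)
    obtain ⟨ρ, hρ⟩ : ∃ ρ : ℂ, E.cf g b = ρ • evv G (Fin.cons 1 0) := by
      apply TaskC2.parallel hG0
      intro i k
      have h1 := congrFun (congrFun h2 ![1, 0]) (i, k)
      simp only [Pi.zero_apply] at h1
      rw [lev_resG E m G hG.1, lpt_base, lev_base, cf_zero_sh E g b (by ring)] at h1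
      exact h1
    exact ⟨ρ * κ, by rw [hρ, hκ, smul_smul]⟩
  -- the local equations
  let K : ℕ := (q + m).toNat
  have hK : K + 2 ≤ n := by
    have : (K : ℤ) = max (q + m) 0 := Int.toNat_eq_max _
    omega
  obtain ⟨F, e₁, hF, hFm, he₁, hFe⟩ := family_gen E c₁ P hP hP0 hPw q b₀ w hw (by omega)
    (by omega) hn hbot hfr1 v₀ hv₀ f₀ hf₀ hf₀0 (k := K) hK (fun b => ((b : ℕ) : ℤ))
    (fun b x => E.trow (-b₀ - 1) G i₀ k₀ b x - E.trow (-b₀ - 1) G k₀ i₀ b x)
    (fun b x => L2.HomZ_sub (trow_hom E _ G i₀ k₀ b x) (trow_hom E _ G k₀ i₀ b x))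
    (by
      intro b
      simp only [map_sub, sub_mul, Finset.sum_sub_distrib]
      rw [trow_sum E m _ G hG.1, trow_sum E m _ G hG.1, ← Polynomial.coeff_sub]
      have h1 : E.pol (evv (E.resG m G) v₀) i₀ * E.pol (E.mt f₀ (w - 1) (-b₀ - 1)) k₀ -
          E.pol (evv (E.resG m G) v₀) k₀ * E.pol (E.mt f₀ (w - 1) (-b₀ - 1)) i₀ = 0 := by
        apply Polynomial.funext
        intro t
        simp only [Polynomial.eval_sub, Polynomial.eval_mul, eval_pol, Polynomial.eval_zero]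
        rw [lev_mt E f₀ (w - 1) (by omega), lev_mt E f₀ (w - 1) (by omega)]
        linear_combination (![1, t] 1) ^ (w - 1) * hGf ![1, t] i₀ k₀
      rw [h1, Polynomial.coeff_zero])
    (by
      intro v hv g hg hTh
      apply hline v hv g hg
      apply wedge_zero E c₁ P hP hP0 hPw v hv m (-b₀ - 1) _ (resG_mem E m G hG v hv) g hg i₀ k₀
        hP00 K
      · have : (K : ℤ) = max (q + m) 0 := Int.toNat_eq_max _
        omega
      · intro b hb
        have h1 := hTh ⟨b, hb⟩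
        simp only [map_sub, sub_mul, Finset.sum_sub_distrib] at h1
        rw [trow_sum E m _ G hG.1, trow_sum E m _ G hG.1, ← Polynomial.coeff_sub] at h1
        exact h1)
  exact splits_of_family hn E c₁ P hP hP0 hPw q b₀ w hw (by omega) hbot hfr2 F hF hFm e₁ he₁ hFe

end Bundle2
end H960VB
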