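import Pool.Agent.H960R2.VB.FamGen

/-! Restriction of a global section to the lines through the base point; wedge products as
polynomials in the affine parameter of the line. -/

open MvPolynomial

namespace H960VB
namespace Bundle2

variable {n : ℕ}

/-- the coefficients of a global section on the lines through the base point. -/
noncomputable def resG (E : Bundle2 n) (m : ℤ) (G : Fin E.a → MvPolynomial (Fin (n + 1)) ℂ) :
    Idx E.β m → MvPolynomial (Fin n) ℂ := fun x => homogeneousComponent (x.2 : ℕ) (dehom (G x.1))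

theorem lev_resG (E : Bundle2 n) (m : ℤ) (G : Fin E.a → MvPolynomial (Fin (n + 1)) ℂ)
    (hG : ∀ i, HomZ (G i) (E.β i + m)) (v : Fin n → ℂ) (z : Fin 2 → ℂ) :
    E.lev (evv (E.resG m G) v) z = evv G (lpt v z) := by
  ext i
  rcases hG i with h0 | ⟨d, hd, hh⟩
  · have h1 : dehom (G i) = 0 := by rw [h0]; unfold dehom; simp
    unfold lev evv resG
    simp only [h1, map_zero, zero_mul, Finset.sum_const_zero]
    rw [h0]; simp
  · unfold lev evv resG
    rw [eval_lpt v z hh]
    have e1 : (E.β i + m).toNat = d := by omega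
    have e2 : (E.β i + m + 1).toNat = d + 1 := by omega
    rw [Fin.sum_univ_eq_sum_range (fun b : ℕ => eval v (homogeneousComponent b (dehom (G i))) *
      z 0 ^ ((E.β i + m).toNat - b) * z 1 ^ b) (E.β i + m + 1).toNat, e1, e2]
    refine Finset.sum_congr rfl fun b _ => ?_
    ring

theorem resG_mem (E : Bundle2 n) (m : ℤ) (G : Fin E.a → MvPolynomial (Fin (n + 1)) ℂ)
    (hG : E.IsSection m G) (v : Fin n → ℂ) (hv : v ≠ 0) :
    evv (E.resG m G) v ∈ E.Hsec m v := by
  rw [mem_Hsec]
  have h2 : (fun z : Fin 2 → ℂ => (evm E.B (lpt v z)).mulVec (E.lev (evv (E.resG m G) v) z)) =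
      fun _ => 0 := by
    apply eq_of_eq_off
    · apply Continuous.matrix_mulVec
      · exact (continuous_evm E).comp (continuous_lpt v)
      · exact continuous_lev E _
    · fun_prop
    · intro z hz
      have hz0 : z ≠ 0 := by
        intro h
        apply hz
        rw [h]; rfl
      have h3 := hG.2 (lpt v z) (lpt_ne_zero hv hz0)
      rw [lev_resG E m G hG.1]
      exact h3
  intro z
  exact congrFun h2 z

/-- the polynomial in the affine parameter. -/
noncomputable def pol (E : Bundle2 n) {j : ℤ} (g : Idx E.β j → ℂ) (i : Fin E.a) : Polynomial ℂ :=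
  ∑ b ∈ Finset.range (E.β i + j + 1).toNat, Polynomial.C (E.cf g b i) * Polynomial.X ^ b

theorem coeff_pol (E : Bundle2 n) {j : ℤ} (g : Idx E.β j → ℂ) (i : Fin E.a) (b : ℕ) :
    (E.pol g i).coeff b = E.cf g b i := by
  unfold pol
  rw [Polynomial.finsetSum_coeff]
  simp only [Polynomial.coeff_C_mul, Polynomial.coeff_X_pow]
  by_cases hb : b < (E.β i + j + 1).toNat
  · rw [Finset.sum_eq_single b]
    · simp
    · intro b' _ hb'
      rw [if_neg (fun h => hb' h.symm), mul_zero]
    · intro h
      exact absurd (Finset.mem_range.mpr hb) h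
  · have h5 : E.cf g b i = 0 := dif_neg hb
    rw [h5]
    apply Finset.sum_eq_zero
    intro b' hb'
    have := Finset.mem_range.mp hb'
    rw [if_neg (by omega), mul_zero]

theorem eval_pol (E : Bundle2 n) {j : ℤ} (g : Idx E.β j → ℂ) (i : Fin E.a) (t : ℂ) :
    (E.pol g i).eval t = E.lev g ![1, t] i := by
  rw [lev_eq]
  unfold pol
  rw [Polynomial.eval_finsetSum]
  refine Finset.sum_congr rfl fun b _ => ?_
  simp

/-- the wedge product vanishes identically if its first coefficients vanish. -/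
theorem wedge_zero (E : Bundle2 n) (c₁ : ℤ)
    (P : Fin E.a → Fin E.a → MvPolynomial (Fin (n + 1)) ℂ)
    (hP : ∀ i j, HomZ (P i j) (E.β i + E.β j - c₁))
    (hP0 : ∀ x : Fin (n + 1) → ℂ, x ≠ 0 → ∃ i j, eval x (P i j) ≠ 0)
    (hPw : ∀ x : Fin (n + 1) → ℂ, x ≠ 0 → ∀ u w : Fin E.a → ℂ,
        (evm E.B x).mulVec u = 0 → (evm E.B x).mulVec w = 0 →
        ∃ κ : ℂ, ∀ i j, u i * w j - u j * w i = κ * eval x (P i j))
    (v : Fin n → ℂ) (hv : v ≠ 0) (j j' : ℤ) (g : Idx E.β j → ℂ) (hg : g ∈ E.Hsec j v)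
    (g' : Idx E.β j' → ℂ) (hg' : g' ∈ E.Hsec j' v) (i₀ k₀ : Fin E.a)
    (hP00 : eval (Fin.cons 1 0) (P i₀ k₀) ≠ 0) (K : ℕ) (hK : j + j' + c₁ + 1 ≤ K)
    (hW : ∀ b < K, (E.pol g i₀ * E.pol g' k₀ - E.pol g k₀ * E.pol g' i₀).coeff b = 0) :
    ∀ (z : Fin 2 → ℂ) (i k : Fin E.a),
      E.lev g z i * E.lev g' z k - E.lev g z k * E.lev g' z i = 0 := by
  obtain ⟨h, hh, hw⟩ := wedge E c₁ P hP hP0 hPw v hv j j' g hg g' hg'
  suffices hh0 : h = 0 by
    intro z i k
    rw [hw z i k, hh0]; simp
  rcases hh with hh | ⟨N, hN, hh⟩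
  · exact hh
  -- the polynomials in the parameter
  let ph : Polynomial ℂ := aeval ![1, Polynomial.X] h
  have hph : ∀ t : ℂ, ph.eval t = eval ![1, t] h := by
    intro t
    have h1 : (Polynomial.aeval t : Polynomial ℂ →ₐ[ℂ] ℂ).comp
        (aeval ![1, Polynomial.X] : MvPolynomial (Fin 2) ℂ →ₐ[ℂ] Polynomial ℂ) = aeval ![1, t] := by
      apply MvPolynomial.algHom_ext
      intro i
      fin_cases i <;> simp
    have h2 := congrArg (fun f => f h) h1
    simpa [MvPolynomial.aeval_eq_eval, ph, Polynomial.coe_aeval_eq_eval] using h2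
  have hphd : ph.natDegree ≤ N := by
    have h1 : h = ∑ s ∈ h.support, monomial s (coeff s h) := (support_sum_monomial_coeff h).symm
    have h2 : ph = ∑ s ∈ h.support, Polynomial.C (coeff s h) * Polynomial.X ^ (s 1) := by
      change aeval ![1, Polynomial.X] h = _
      conv_lhs => rw [h1]
      rw [map_sum]
      refine Finset.sum_congr rfl fun s _ => ?_
      rw [aeval_monomial, Finsupp.prod_fintype _ _ (fun i => pow_zero _), Fin.prod_univ_two]
      simp only [Matrix.cons_val_zero, Matrix.cons_val_one, one_pow, one_mul]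
      rfl
    rw [h2]
    apply Polynomial.natDegree_sum_le_of_forall_le
    intro s hs
    refine (Polynomial.natDegree_C_mul_X_pow_le _ _).trans ?_
    have h3 := hh (mem_support_iff.1 hs)
    rw [Finsupp.weight_apply, Finsupp.sum_fintype _ _ (fun i => by simp), Fin.sum_univ_two] at h3
    simp at h3
    omega
  let pP : Polynomial ℂ := aeval (Fin.cons 1 (fun i => Polynomial.C (v i) * Polynomial.X) :
    Fin (n + 1) → Polynomial ℂ) (P i₀ k₀)
  have hpP : ∀ t : ℂ, pP.eval t = eval (lpt v ![1, t]) (P i₀ k₀) := by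
    intro t
    have h1 : (Polynomial.aeval t : Polynomial ℂ →ₐ[ℂ] ℂ).comp
        (aeval (Fin.cons 1 (fun i => Polynomial.C (v i) * Polynomial.X) :
          Fin (n + 1) → Polynomial ℂ) : MvPolynomial (Fin (n + 1)) ℂ →ₐ[ℂ] Polynomial ℂ) =
        aeval (lpt v ![1, t]) := by
      apply MvPolynomial.algHom_ext
      intro i
      refine Fin.cases ?_ (fun i => ?_) i
      · simp [lpt]
      · rw [AlgHom.comp_apply, aeval_X, aeval_X, Fin.cons_succ, map_mul, Polynomial.aeval_C,
          Polynomial.aeval_X]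
        change v i * t = t * v i
        ring
    have h2 := congrArg (fun f => f (P i₀ k₀)) h1
    simpa [MvPolynomial.aeval_eq_eval, pP, Polynomial.coe_aeval_eq_eval] using h2
  have hprod : E.pol g i₀ * E.pol g' k₀ - E.pol g k₀ * E.pol g' i₀ = ph * pP := by
    apply Polynomial.funext
    intro t
    simp only [Polynomial.eval_sub, Polynomial.eval_mul, eval_pol, hph, hpP]
    exact hw ![1, t] i₀ k₀
  have hdvd : Polynomial.X ^ K ∣ ph * pP := by
    rw [← hprod, Polynomial.X_pow_dvd_iff]
    exact hW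
  have hpP0 : ¬ Polynomial.X ∣ pP := by
    rw [Polynomial.X_dvd_iff, Polynomial.coeff_zero_eq_eval_zero, hpP]
    have : lpt v ![1, 0] = Fin.cons 1 0 := by
      unfold lpt
      simp
    rw [this]
    exact hP00
  have hco : IsCoprime (Polynomial.X ^ K : Polynomial ℂ) pP := by
    apply IsCoprime.pow_left
    exact (Polynomial.irreducible_X.coprime_iff_not_dvd).mpr hpP0
  have hdvd2 : Polynomial.X ^ K ∣ ph := hco.dvd_of_dvd_mul_right hdvd
  have hph0 : ph = 0 := by
    by_contra hne
    have h3 := Polynomial.natDegree_le_of_dvd hdvd2 hne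
    rw [Polynomial.natDegree_X_pow] at h3
    omega
  -- conclude
  have hz : ∀ z : Fin 2 → ℂ, z 0 ≠ 0 → eval z h = 0 := by
    intro z hz0
    have h4 : z = z 0 • (![1, z 1 / z 0] : Fin 2 → ℂ) := by
      ext i
      fin_cases i
      · simp
      · simp [mul_div_cancel₀ _ hz0]
    have h5 : eval z h = z 0 ^ N * eval ![1, z 1 / z 0] h := by
      conv_lhs => rw [h4]
      exact L2.eval_smul_hom hh _ _
    rw [h5, ← hph, hph0]
    simp
  apply MvPolynomial.funext
  intro z
  rw [map_zero]
  have h6 : X 0 * h = 0 := by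
    apply MvPolynomial.funext
    intro z
    rw [map_mul, eval_X, map_zero]
    by_cases hz0 : z 0 = 0
    · rw [hz0, zero_mul]
    · rw [hz z hz0, mul_zero]
  rcases mul_eq_zero.mp h6 with h7 | h7
  · exact absurd h7 (X_ne_zero _)
  · rw [h7, map_zero]

end Bundle2
end H960VB
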