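import Pool.Agent.H960R2.VB.MainSec
import Pool.Agent.H960R2.VB.TaskT1

/-! The criterion in terms of the secant lines of the zero scheme of a section. -/

open MvPolynomial

namespace H960VB

/-- On the line `z ↦ z 0 • x + z 1 • Q` the vector of forms `G` is divisible by a form of degree
`d`: the zero scheme of `G` meets the line in a scheme of length at least `d`. -/
def Secant {a N : ℕ} (G : Fin a → MvPolynomial (Fin N) ℂ) (x Q : Fin N → ℂ) (d : ℕ) : Prop :=
  ∃ (f : MvPolynomial (Fin 2) ℂ) (g : Fin a → MvPolynomial (Fin 2) ℂ), f.IsHomogeneous d ∧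
    ∀ z : Fin 2 → ℂ, evv G (z 0 • x + z 1 • Q) = eval z f • evv g z

namespace Bundle2

variable {n : ℕ}

/-- sections in terms of a splitting. -/
theorem decompose {N : ℕ} (hN : 1 ≤ N) (E : Bundle2 N) (p q m : ℤ)
    (G₁ G₂ G : Fin E.a → MvPolynomial (Fin (N + 1)) ℂ) (h₁ : E.IsSection (-p) G₁)
    (h₂ : E.IsSection (-q) G₂)
    (hb : ∀ x : Fin (N + 1) → ℂ, x ≠ 0 → LinearIndependent ℂ ![evv G₁ x, evv G₂ x])
    (hG : E.IsSection m G) :
    ∃ f₁ f₂ : MvPolynomial (Fin (N + 1)) ℂ, HomZ f₁ (p + m) ∧ HomZ f₂ (q + m) ∧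
      ∀ i, G i = f₁ * G₁ i + f₂ * G₂ i := by
  classical
  let S : Matrix (Fin E.a) (Fin 2) (MvPolynomial (Fin (N + 1)) ℂ) := fun i => ![G₁ i, G₂ i]
  have hS : ∀ (x : Fin (N + 1) → ℂ) (g : Fin 2 → ℂ),
      (evm S x).mulVec g = g 0 • evv G₁ x + g 1 • evv G₂ x := by
    intro x g
    ext i
    have h5 : (evm S x).mulVec g i = eval x (S i 0) * g 0 + eval x (S i 1) * g 1 := by
      simp only [Matrix.mulVec, dotProduct, Fin.sum_univ_two]
      rfl
    rw [h5]
    change eval x (G₁ i) * g 0 + eval x (G₂ i) * g 1 =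
      g 0 * eval x (G₁ i) + g 1 * eval x (G₂ i)
    ring
  have hinj : ∀ x : Fin (N + 1) → ℂ, x ≠ 0 → ∀ g : Fin 2 → ℂ, (evm S x).mulVec g = 0 → g = 0 := by
    intro x hx g hg
    rw [hS] at hg
    obtain ⟨h3, h4⟩ := LinearIndependent.pair_iff.mp (hb x hx) _ _ hg
    ext i
    fin_cases i
    · exact h3
    · exact h4
  obtain ⟨g, hg⟩ := hartogs (by omega) S G hinj (by
    intro x hx
    have h3 : Submodule.span ℂ (Set.range ![evv G₁ x, evv G₂ x]) = E.fib x := by
      apply Submodule.eq_of_le_of_finrank_eq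
      · rw [Submodule.span_le]
        rintro _ ⟨i, rfl⟩
        fin_cases i
        · exact h₁.2 x hx
        · exact h₂.2 x hx
      · rw [finrank_span_eq_card (hb x hx)]
        have := E.rank_two x hx
        rw [Fintype.card_fin]
        exact this.symm
    have h4 : evv G x ∈ Submodule.span ℂ (Set.range ![evv G₁ x, evv G₂ x]) := by
      rw [h3]
      exact hG.2 x hx
    have h5 : Set.range ![evv G₁ x, evv G₂ x] = {evv G₁ x, evv G₂ x} := by
      ext y
      simp only [Set.mem_range, Set.mem_insert_iff, Set.mem_singleton_iff, Fin.exists_fin_two,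
        Matrix.cons_val_zero, Matrix.cons_val_one]
      constructor
      · rintro (h | h)
        · exact Or.inl h.symm
        · exact Or.inr h.symm
      · rintro (h | h)
        · exact Or.inl h.symm
        · exact Or.inr h.symm
    rw [h5, Submodule.mem_span_pair] at h4
    obtain ⟨s, t, hst⟩ := h4
    refine ⟨![s, t], ?_⟩
    rw [hS]
    simpa using hst)
  have hh := hartogs_hom (by omega) S G E.β ![p, q] (-m)
    (by
      intro i t
      fin_cases t
      · exact L2.HomZ_cast (h₁.1 i) (by simp; ring)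
      · exact L2.HomZ_cast (h₂.1 i) (by simp; ring))
    (fun i => L2.HomZ_cast (hG.1 i) (by ring)) hinj g hg
  refine ⟨g 0, g 1, L2.HomZ_cast (hh 0) (by simp), L2.HomZ_cast (hh 1) (by simp), fun i => ?_⟩
  have h3 := congrFun hg i
  simp only [Matrix.mulVec, dotProduct, Fin.sum_univ_two, S, Matrix.cons_val_zero,
    Matrix.cons_val_one] at h3
  rw [← h3]
  ring

/-- restriction of a section. -/
theorem section_pull {m' : ℕ} (E : Bundle2 n) (T : (Fin (m' + 1) → ℂ) →ₗ[ℂ] (Fin (n + 1) → ℂ))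
    (hT : Function.Injective T) (d : ℤ) (G : Fin E.a → MvPolynomial (Fin (n + 1)) ℂ)
    (hG : E.IsSection d G) : (E.pull T hT).IsSection d (fun i => lsub T (G i)) := by
  refine ⟨fun i => homZ_lsub T (hG.1 i), fun x hx => ?_⟩
  have h1 : evv (fun i => lsub T (G i)) x = evv G (T x) := by
    ext i
    simp [evv, eval_lsub]
  have h2 : evv (fun i => lsub T (G i)) x ∈ E.fib (T x) := by
    rw [h1]
    exact hG.2 (T x) (fun h0 => hx (hT (by simpa using h0)))
  rw [fib_pull]
  exact h2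

/-- the parametrisation of a line. -/
def lineT (P Q : Fin (n + 1) → ℂ) : (Fin (1 + 1) → ℂ) →ₗ[ℂ] (Fin (n + 1) → ℂ) where
  toFun := fun z => z 0 • P + z 1 • Q
  map_add' := by
    intro x y
    simp only [Pi.add_apply, add_smul]
    abel
  map_smul' := by
    intro c x
    simp only [Pi.smul_apply, smul_eq_mul, RingHom.id_apply, smul_add, smul_smul]

theorem lineT_injective (P Q : Fin (n + 1) → ℂ) (hPQ : LinearIndependent ℂ ![P, Q]) :
    Function.Injective (lineT P Q) := by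
  rw [← LinearMap.ker_eq_bot, LinearMap.ker_eq_bot']
  intro z hz
  have h1 : z 0 • P + z 1 • Q = 0 := hz
  rw [LinearIndependent.pair_iff] at hPQ
  obtain ⟨h2, h3⟩ := hPQ _ _ h1
  ext i
  fin_cases i
  · exact h2
  · exact h3

/-- a section of `E(m)` on a line with splitting type `(p, q)`, `q + m < 0`, is divisible by a
form of degree `p + m`. -/
theorem secant_of_split (E : Bundle2 n) (m : ℤ) (G : Fin E.a → MvPolynomial (Fin (n + 1)) ℂ)
    (hG : E.IsSection m G) (P Q : Fin (n + 1) → ℂ) (hPQ : LinearIndependent ℂ ![P, Q])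
    (p q : ℤ) (hs : E.SplitsOn P Q p q) (hq : q + m < 0) (hGP : evv G P ≠ 0) :
    ∃ d : ℕ, (d : ℤ) = p + m ∧ Secant G P Q d := by
  obtain ⟨g₁, g₂, h₁, h₂, h₃⟩ := hs
  have hT := lineT_injective P Q hPQ
  have hs₁ : (E.pull (lineT P Q) hT).IsSection (-p) g₁ := by
    refine ⟨fun i => L2.HomZ_cast (h₁ i) (by rw [sub_eq_add_neg]; rfl), fun z hz => ?_⟩
    rw [fib_pull]
    exact (h₃ z hz).1
  have hs₂ : (E.pull (lineT P Q) hT).IsSection (-q) g₂ := by
    refine ⟨fun i => L2.HomZ_cast (h₂ i) (by rw [sub_eq_add_neg]; rfl), fun z hz => ?_⟩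
    rw [fib_pull]
    exact (h₃ z hz).2.1
  obtain ⟨f₁, f₂, hf₁, hf₂, hf⟩ := decompose (le_refl 1) (E.pull (lineT P Q) hT) p q m g₁ g₂ _
    hs₁ hs₂ (fun z hz => (h₃ z hz).2.2) (section_pull E (lineT P Q) hT m G hG)
  have hf₂0 : f₂ = 0 := HomZ.eq_zero_of_neg hf₂ hq
  have hev : ∀ z : Fin 2 → ℂ, evv G (z 0 • P + z 1 • Q) = eval z f₁ • evv g₁ z := by
    intro z
    ext i
    have h5 := congrArg (eval z) (hf i)
    rw [hf₂0, zero_mul, add_zero, map_mul, eval_lsub] at h5
    exact h5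
  rcases hf₁ with hf₁ | ⟨d, hd, hf₁⟩
  · exfalso
    apply hGP
    have h6 := hev ![1, 0]
    rw [hf₁] at h6
    simpa using h6
  · exact ⟨d, hd, f₁, g₁, hf₁, hev⟩

end Bundle2
end H960VB
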