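import Pool.Agent.H960R2.VB.Defs

open MvPolynomial

namespace H960VB

/- ===== TASK A ===== -/
/-- Two closed cones in `ℂ^N`, locally (at one point each) cut out by `k₁` resp. `k₂` homogeneous
equations, `k₁ + k₂ < N`, meet outside the origin. -/
theorem inter_cones {N : ℕ} (S₁ S₂ : Set (MvPolynomial (Fin N) ℂ))
    (k₁ k₂ : ℕ) (hk : k₁ + k₂ + 1 ≤ N) (v₁ v₂ : Fin N → ℂ)
    (δ₁ δ₂ : MvPolynomial (Fin N) ℂ) (hδ₁ : eval v₁ δ₁ ≠ 0) (hδ₂ : eval v₂ δ₂ ≠ 0)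
    (h₁ : Fin k₁ → MvPolynomial (Fin N) ℂ) (h₂ : Fin k₂ → MvPolynomial (Fin N) ℂ)
    (hh₁ : ∀ j, ∃ d, (h₁ j).IsHomogeneous d) (hh₂ : ∀ j, ∃ d, (h₂ j).IsHomogeneous d)
    (hz₁ : ∀ j, eval v₁ (h₁ j) = 0) (hz₂ : ∀ j, eval v₂ (h₂ j) = 0)
    (hl₁ : ∀ v, eval v δ₁ ≠ 0 → (∀ j, eval v (h₁ j) = 0) → ∀ p ∈ S₁, eval v p = 0)
    (hl₂ : ∀ v, eval v δ₂ ≠ 0 → (∀ j, eval v (h₂ j) = 0) → ∀ p ∈ S₂, eval v p = 0) :
    ∃ v : Fin N → ℂ, v ≠ 0 ∧ (∀ p ∈ S₁, eval v p = 0) ∧ (∀ p ∈ S₂, eval v p = 0) := by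
  sorry

/- ===== TASK B ===== -/
/-- Hartogs: a linear system with polynomial coefficients which is injective and solvable at
every nonzero point has a polynomial solution. -/
theorem hartogs {n : ℕ} (hn : 2 ≤ n) {Y I : Type} [Fintype Y] [Fintype I]
    (S : Matrix Y I (MvPolynomial (Fin n) ℂ)) (r : Y → MvPolynomial (Fin n) ℂ)
    (hinj : ∀ v : Fin n → ℂ, v ≠ 0 → ∀ g : I → ℂ, (evm S v).mulVec g = 0 → g = 0)
    (hsol : ∀ v : Fin n → ℂ, v ≠ 0 → ∃ g : I → ℂ, (evm S v).mulVec g = evv r v) :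
    ∃ g : I → MvPolynomial (Fin n) ℂ, S.mulVec g = r := by
  sorry

/-- homogeneity of the solution. -/
theorem hartogs_hom {n : ℕ} (hn : 1 ≤ n) {Y I : Type} [Fintype Y] [Fintype I]
    (S : Matrix Y I (MvPolynomial (Fin n) ℂ)) (r : Y → MvPolynomial (Fin n) ℂ)
    (dY : Y → ℤ) (dI : I → ℤ) (e : ℤ)
    (hS : ∀ y i, HomZ (S y i) (dY y - dI i)) (hr : ∀ y, HomZ (r y) (dY y - e))
    (hinj : ∀ v : Fin n → ℂ, v ≠ 0 → ∀ g : I → ℂ, (evm S v).mulVec g = 0 → g = 0)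
    (g : I → MvPolynomial (Fin n) ℂ) (hg : S.mulVec g = r) :
    ∀ i, HomZ (g i) (dI i - e) := by
  sorry

/- ===== TASK C1 ===== -/
/-- The kernel of a homogeneous matrix of constant corank two is spanned, at every nonzero point,
by the values of finitely many homogeneous polynomial vectors. -/
theorem kernel_family {N : ℕ} {a c : ℕ} (β : Fin a → ℤ) (γ : Fin c → ℤ)
    (B : Matrix (Fin c) (Fin a) (MvPolynomial (Fin N) ℂ))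
    (hom : ∀ k i, HomZ (B k i) (γ k - β i))
    (h2 : ∀ x : Fin N → ℂ, x ≠ 0 →
      Module.finrank ℂ (LinearMap.ker (Matrix.mulVecLin (evm B x))) = 2) :
    ∃ (m : ℕ) (α : Fin m → ℤ) (K : Fin m → Fin a → MvPolynomial (Fin N) ℂ),
      (∀ s i, HomZ (K s i) (β i - α s)) ∧
      (∀ x : Fin N → ℂ, x ≠ 0 → ∀ s, (evm B x).mulVec (evv (K s) x) = 0) ∧
      (∀ x : Fin N → ℂ, x ≠ 0 →
        Submodule.span ℂ (Set.range fun s => evv (K s) x) =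
          LinearMap.ker (Matrix.mulVecLin (evm B x))) := by
  sorry

/- ===== TASK C2 ===== -/
/-- The Plücker vector of the kernel. -/
theorem plucker {N : ℕ} (hN : 2 ≤ N) {a c : ℕ} (β : Fin a → ℤ) (γ : Fin c → ℤ)
    (B : Matrix (Fin c) (Fin a) (MvPolynomial (Fin N) ℂ))
    (hom : ∀ k i, HomZ (B k i) (γ k - β i))
    (h2 : ∀ x : Fin N → ℂ, x ≠ 0 →
      Module.finrank ℂ (LinearMap.ker (Matrix.mulVecLin (evm B x))) = 2) :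
    ∃ (c₁ : ℤ) (P : Fin a → Fin a → MvPolynomial (Fin N) ℂ),
      (∀ i j, HomZ (P i j) (β i + β j - c₁)) ∧
      (∀ x : Fin N → ℂ, x ≠ 0 → ∃ i j, eval x (P i j) ≠ 0) ∧
      (∀ x : Fin N → ℂ, x ≠ 0 → ∀ u w : Fin a → ℂ,
        (evm B x).mulVec u = 0 → (evm B x).mulVec w = 0 →
        ∃ κ : ℂ, ∀ i j, u i * w j - u j * w i = κ * eval x (P i j)) := by
  sorry

/- ===== TASK D ===== -/
/-- The main intersection argument, in pure algebra. -/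
theorem core {n w : ℕ} (hw : 1 ≤ w) (hn : w + 2 ≤ n)
    {Y I : Type} [Fintype Y] [Fintype I] (dY : Y → ℤ) (dI : I → ℤ)
    (M : Matrix Y I (MvPolynomial (Fin n) ℂ)) (hM : ∀ y i, HomZ (M y i) (dY y - dI i))
    (hker : ∀ v : Fin n → ℂ, v ≠ 0 →
      Module.finrank ℂ (LinearMap.ker (Matrix.mulVecLin (evm M v))) = w)
    (μ lam : Fin w → I → ℂ) (hμ : ∀ b i, μ b i ≠ 0 → dI i = (b : ℕ))
    (hlam : ∀ b i, lam b i ≠ 0 → dI i = (b : ℕ))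
    (hJ : ∀ v : Fin n → ℂ, v ≠ 0 → ∀ g : I → ℂ, (evm M v).mulVec g = 0 →
      (∀ b, ∑ i, μ b i * g i = 0) → (∀ b, ∑ i, lam b i * g i = 0) → g = 0)
    (v₀ : Fin n → ℂ) (hv₀ : v₀ ≠ 0) (g₀ : I → ℂ) (hg₀ : (evm M v₀).mulVec g₀ = 0)
    (hg₀μ : ∀ b : Fin w, ∑ i, μ b i * g₀ i = if (b : ℕ) + 1 = w then 1 else 0)
    (hg₀lam : ∀ b : Fin w, ∑ i, lam b i * g₀ i = 0)
    (hdisj : ∀ v : Fin n → ℂ, v ≠ 0 → ∀ g : I → ℂ, (evm M v).mulVec g = 0 →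
      (∀ b : Fin w, ∑ i, μ b i * g i = if (b : ℕ) + 1 = w then 1 else 0) →
      (∀ b : Fin w, ∑ i, lam b i * g i = 0) →
      ∀ g' : I → ℂ, (evm M v).mulVec g' = 0 → (∀ b, ∑ i, μ b i * g' i = 0) → g' = 0) :
    ∃ G : I → MvPolynomial (Fin n) ℂ, (∀ i, HomZ (G i) (dI i - (w - 1 : ℤ))) ∧
      M.mulVec G = 0 ∧
      ∀ b : Fin w, ∑ i, C (μ b i) * G i = if (b : ℕ) + 1 = w then 1 else 0 := by
  sorry

namespace Bundle2

variable {n : ℕ}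

/- ===== TASK L1 ===== -/
theorem fam_hom (E : Bundle2 n) (j : ℤ) (y : Idx E.γ j) (i : Idx E.β j) :
    HomZ (E.fam j y i) (((y.2 : ℕ) : ℤ) - ((i.2 : ℕ) : ℤ)) := by
  sorry

theorem mem_Hsec (E : Bundle2 n) (j : ℤ) (v : Fin n → ℂ) (g : Idx E.β j → ℂ) :
    g ∈ E.Hsec j v ↔ ∀ z : Fin 2 → ℂ, (evm E.B (lpt v z)).mulVec (E.lev g z) = 0 := by
  sorry

/- ===== TASK L2 ===== -/
/-- The wedge product of two sections on a line is a binary form times the Plücker vector. -/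
theorem wedge (E : Bundle2 n) (c₁ : ℤ)
    (P : Fin E.a → Fin E.a → MvPolynomial (Fin (n + 1)) ℂ)
    (hP : ∀ i j, HomZ (P i j) (E.β i + E.β j - c₁))
    (hP0 : ∀ x : Fin (n + 1) → ℂ, x ≠ 0 → ∃ i j, eval x (P i j) ≠ 0)
    (hPw : ∀ x : Fin (n + 1) → ℂ, x ≠ 0 → ∀ u w : Fin E.a → ℂ,
        (evm E.B x).mulVec u = 0 → (evm E.B x).mulVec w = 0 →
        ∃ κ : ℂ, ∀ i j, u i * w j - u j * w i = κ * eval x (P i j))
    (v : Fin n → ℂ) (hv : v ≠ 0) (j j' : ℤ) (g : Idx E.β j → ℂ) (hg : g ∈ E.Hsec j v)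
    (g' : Idx E.β j' → ℂ) (hg' : g' ∈ E.Hsec j' v) :
    ∃ h : MvPolynomial (Fin 2) ℂ, HomZ h (j + j' + c₁) ∧
      ∀ (z : Fin 2 → ℂ) (i k : Fin E.a),
        E.lev g z i * E.lev g' z k - E.lev g z k * E.lev g' z i =
          eval z h * eval (lpt v z) (P i k) := by
  sorry

/- ===== TASK L3 ===== -/
/-- degree of a splitting on a line. -/
theorem splitsOn_sum (E : Bundle2 n) (c₁ : ℤ)
    (P : Fin E.a → Fin E.a → MvPolynomial (Fin (n + 1)) ℂ)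
    (hP : ∀ i j, HomZ (P i j) (E.β i + E.β j - c₁))
    (hP0 : ∀ x : Fin (n + 1) → ℂ, x ≠ 0 → ∃ i j, eval x (P i j) ≠ 0)
    (hPw : ∀ x : Fin (n + 1) → ℂ, x ≠ 0 → ∀ u w : Fin E.a → ℂ,
        (evm E.B x).mulVec u = 0 → (evm E.B x).mulVec w = 0 →
        ∃ κ : ℂ, ∀ i j, u i * w j - u j * w i = κ * eval x (P i j))
    (v : Fin n → ℂ) (hv : v ≠ 0) (p q : ℤ)
    (hs : E.SplitsOn (Fin.cons 1 0) (Fin.cons 0 v) p q) : p + q = c₁ := by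
  sorry

/-- dimension of the space of sections on a line. -/
theorem finrank_Hsec (E : Bundle2 n) (v : Fin n → ℂ) (hv : v ≠ 0) (p q : ℤ)
    (hs : E.SplitsOn (Fin.cons 1 0) (Fin.cons 0 v) p q) (j : ℤ) :
    Module.finrank ℂ (E.Hsec j v) = (p + j + 1).toNat + (q + j + 1).toNat := by
  sorry

end Bundle2

end H960VB
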