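import Pool.Agent.H960R2.VB.Pull

open MvPolynomial

namespace H960VB

/- ===== TASK H1 ===== -/
/-- `H^1_* = 0` for a split bundle on `P^n`, `n ≥ 2`. -/
theorem h1_split {n : ℕ} (hn : 2 ≤ n) {a c : ℕ} (β : Fin a → ℤ) (γ : Fin c → ℤ)
    (B : Matrix (Fin c) (Fin a) (MvPolynomial (Fin (n + 1)) ℂ))
    (hom : ∀ k i, HomZ (B k i) (γ k - β i))
    (h2 : ∀ x : Fin (n + 1) → ℂ, x ≠ 0 →
      Module.finrank ℂ (LinearMap.ker (Matrix.mulVecLin (evm B x))) = 2)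
    (g₁ g₂ : Fin a → MvPolynomial (Fin (n + 1)) ℂ)
    (hg₁ : ∀ x : Fin (n + 1) → ℂ, x ≠ 0 → (evm B x).mulVec (evv g₁ x) = 0)
    (hg₂ : ∀ x : Fin (n + 1) → ℂ, x ≠ 0 → (evm B x).mulVec (evv g₂ x) = 0)
    (hind : ∀ x : Fin (n + 1) → ℂ, x ≠ 0 → LinearIndependent ℂ ![evv g₁ x, evv g₂ x])
    (j : ℤ) (r : Fin c → MvPolynomial (Fin (n + 1)) ℂ) (hr : ∀ k, HomZ (r k) (γ k + j))
    (him : ∀ x : Fin (n + 1) → ℂ, x ≠ 0 → ∃ u : Fin a → ℂ, (evm B x).mulVec u = evv r x) :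
    ∃ u : Fin a → MvPolynomial (Fin (n + 1)) ℂ, (∀ i, HomZ (u i) (β i + j)) ∧
      B.mulVec u = r := by
  sorry

namespace Bundle2

/- ===== TASK H2 ===== (may use h1_split) -/
/-- if the restriction to the hyperplane `x 0 = 0` splits, then `H^1_*(E) = 0`. -/
theorem h1_of_hyp {n : ℕ} (hn : 2 ≤ n) (E : Bundle2 (n + 1))
    (hs : (E.pull (hyp n) (hyp_injective n)).Splits)
    (j : ℤ) (r : Fin E.c → MvPolynomial (Fin (n + 1 + 1)) ℂ) (hr : ∀ k, HomZ (r k) (E.γ k + j))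
    (him : ∀ x : Fin (n + 1 + 1) → ℂ, x ≠ 0 →
      ∃ u : Fin E.a → ℂ, (evm E.B x).mulVec u = evv r x) :
    ∃ u : Fin E.a → MvPolynomial (Fin (n + 1 + 1)) ℂ, (∀ i, HomZ (u i) (E.β i + j)) ∧
      E.B.mulVec u = r := by
  sorry

/- ===== TASK H3 ===== (may use h1_of_hyp, plucker, hartogs, hartogs_hom) -/
/-- Horrocks: if the restriction to a hyperplane splits, then `E` splits. -/
theorem horrocks {n : ℕ} (hn : 2 ≤ n) (E : Bundle2 (n + 1))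
    (hs : (E.pull (hyp n) (hyp_injective n)).Splits) : E.Splits := by
  sorry

end Bundle2

end H960VB
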