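import Pool.Agent.H960R2.VB.Main2

open MvPolynomial

namespace H960VB

namespace Bundle2

variable {n : ℕ}

/- ===== TASK T1 ===== -/
/-- Grothendieck's theorem for rank two bundles on `P^1`. -/
theorem grothendieck1 (E : Bundle2 1) : E.Splits := by
  sorry

/-- the same for the restriction to a line. -/
theorem grothendieck (E : Bundle2 n) (P Q : Fin (n + 1) → ℂ) (hPQ : LinearIndependent ℂ ![P, Q]) :
    ∃ p q : ℤ, E.SplitsOn P Q p q := by
  sorry

/- ===== TASK T4a ===== -/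
/-- the degree is the same on all lines. -/
theorem splitsOn_sum' (E : Bundle2 n) (c₁ : ℤ)
    (P : Fin E.a → Fin E.a → MvPolynomial (Fin (n + 1)) ℂ)
    (hP : ∀ i j, HomZ (P i j) (E.β i + E.β j - c₁))
    (hP0 : ∀ x : Fin (n + 1) → ℂ, x ≠ 0 → ∃ i j, eval x (P i j) ≠ 0)
    (hPw : ∀ x : Fin (n + 1) → ℂ, x ≠ 0 → ∀ u w : Fin E.a → ℂ,
        (evm E.B x).mulVec u = 0 → (evm E.B x).mulVec w = 0 →
        ∃ κ : ℂ, ∀ i j, u i * w j - u j * w i = κ * eval x (P i j))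
    (A B : Fin (n + 1) → ℂ) (hAB : LinearIndependent ℂ ![A, B]) (p q : ℤ)
    (hs : E.SplitsOn A B p q) : p + q = c₁ := by
  sorry

/-- (helper960 does this one) a section of `E(m)` which does not vanish at `[1:0:...:0]`. -/
theorem main_sec_e0 (hn : 2 ≤ n) (E : Bundle2 n) (m : ℤ)
    (G : Fin E.a → MvPolynomial (Fin (n + 1)) ℂ) (hG : E.IsSection m G)
    (hG0 : evv G (Fin.cons 1 0) ≠ 0)
    (h : ∀ v : Fin n → ℂ, v ≠ 0 → ∃ p q : ℤ, p + q + 2 * m ≤ (n : ℤ) - 2 ∧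
      p + m ≤ (n : ℤ) - 2 ∧ q + m ≤ (n : ℤ) - 2 ∧
      E.SplitsOn (Fin.cons 1 0) (Fin.cons 0 v) p q) : E.Splits := by
  sorry

/- ===== TASK T4 ===== (may use everything above) -/
/-- two sections, independent at `x`, of total degree `c₁ + a + b ≤ n - 2`. -/
theorem two_sections (hn : 2 ≤ n) (E : Bundle2 n) (a b : ℤ)
    (G₁ G₂ : Fin E.a → MvPolynomial (Fin (n + 1)) ℂ) (h₁ : E.IsSection a G₁)
    (h₂ : E.IsSection b G₂) (x : Fin (n + 1) → ℂ) (hx : x ≠ 0)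
    (hli : LinearIndependent ℂ ![evv G₁ x, evv G₂ x])
    (A B : Fin (n + 1) → ℂ) (hAB : LinearIndependent ℂ ![A, B]) (p q : ℤ)
    (hs : E.SplitsOn A B p q) (hd : p + q + a + b ≤ (n : ℤ) - 2) : E.Splits := by
  sorry

end Bundle2

end H960VB
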