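import Pool.Agent.H960R2.VB.Defs

open MvPolynomial

namespace H960VB

attribute [local instance] MvPolynomial.gradedAlgebra

/-- heights of the maximal ideals at points. -/
theorem height_point {σ : Type} [Fintype σ] (z : σ → ℂ) :
    (vanishingIdeal ℂ ({z} : Set (σ → ℂ))).height = Fintype.card σ := by
  have hdim : ringKrullDim (MvPolynomial σ ℂ) = Fintype.card σ := by
    rw [MvPolynomial.ringKrullDim_of_isNoetherianRing]
    simp
  have : FiniteRingKrullDim (MvPolynomial σ ℂ) := by
    rw [finiteRingKrullDim_iff_ne_bot_and_top, hdim]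
    constructor
    · intro h; cases h
    · intro h
      have h' : ((Fintype.card σ : ℕ∞) : WithBot ℕ∞) = ((⊤ : ℕ∞) : WithBot ℕ∞) := h
      exact ENat.natCast_ne_top _ (WithBot.coe_injective h')
  obtain ⟨m, hm, hh⟩ := Ideal.exists_isMaximal_height (R := MvPolynomial σ ℂ)
  rw [hdim] at hh
  obtain ⟨w, rfl⟩ := isMaximal_iff_eq_vanishingIdeal_singleton.1 hm
  -- translation
  let τ : ∀ c : σ → ℂ, MvPolynomial σ ℂ →ₐ[ℂ] MvPolynomial σ ℂ :=
    fun c => aeval (fun i => X i + C (c i))
  have hτ : ∀ c c', (∀ i, c i + c' i = 0) → (τ c).comp (τ c') = AlgHom.id ℂ _ := by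
    intro c c' h
    apply MvPolynomial.algHom_ext
    intro i
    simp only [AlgHom.comp_apply, τ, aeval_X, map_add, AlgHom.id_apply]
    have : (aeval (fun i => X i + C (c i))) (C (c' i) : MvPolynomial σ ℂ) = (C (c' i) : MvPolynomial σ ℂ) := by
      rw [← MvPolynomial.algebraMap_eq, AlgHom.commutes]
    rw [this, add_assoc, ← C_add, h i]
    simp
  let e : MvPolynomial σ ℂ ≃ₐ[ℂ] MvPolynomial σ ℂ :=
    AlgEquiv.ofAlgHom (τ (fun i => z i - w i)) (τ (fun i => w i - z i))
      (hτ _ _ (fun i => by ring)) (hτ _ _ (fun i => by ring))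
  have h1 := RingEquiv.height_comap e.toRingEquiv (vanishingIdeal ℂ ({w} : Set (σ → ℂ)))
  have h2 : Ideal.comap e.toRingEquiv (vanishingIdeal ℂ ({w} : Set (σ → ℂ))) = vanishingIdeal ℂ ({z} : Set (σ → ℂ)) := by
    ext p
    rw [Ideal.mem_comap, mem_vanishingIdeal_singleton_iff, mem_vanishingIdeal_singleton_iff]
    have h3 : aeval w (e.toRingEquiv p) = aeval z p := by
      have : ((aeval w).comp (τ (fun i => z i - w i))) = (aeval z : MvPolynomial σ ℂ →ₐ[ℂ] ℂ) := by
        apply MvPolynomial.algHom_ext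
        intro i
        simp [τ]
      exact congrArg (fun f => f p) this
    rw [h3]
  rw [h2] at h1
  rw [h1]
  exact_mod_cast hh

/-- Krull's height theorem, relative to one component. -/
theorem height_comp {σ : Type} [Fintype σ] (s : Finset (MvPolynomial σ ℂ))
    (P : Ideal (MvPolynomial σ ℂ))
    (hP : P ∈ (Ideal.span (s : Set (MvPolynomial σ ℂ))).minimalPrimes) :
    (Fintype.card σ : WithBot ℕ∞) ≤ ringKrullDim (MvPolynomial σ ℂ ⧸ P) + s.card := by
  classical
  have hPp : P.IsPrime := hP.1.1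
  have hfin : (Ideal.span (s : Set (MvPolynomial σ ℂ))).minimalPrimes.Finite :=
    Ideal.finite_minimalPrimes_of_isNoetherianRing _ _
  let F : Finset (Ideal (MvPolynomial σ ℂ)) := hfin.toFinset.erase P
  have h1 : ¬ (F.inf id ≤ P) := by
    intro h
    obtain ⟨Q, hQ, hQP⟩ := (Ideal.IsPrime.inf_le' hPp).1 h
    have hQm : Q ∈ (Ideal.span (s : Set (MvPolynomial σ ℂ))).minimalPrimes := by
      simpa using Finset.mem_of_mem_erase hQ
    exact (Finset.ne_of_mem_erase hQ) (le_antisymm hQP (hP.2 hQm.1 hQP))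
  obtain ⟨g, hg, hgP⟩ := SetLike.not_le_iff_exists.1 h1
  have h2 : ∃ z : σ → ℂ, (∀ p ∈ P, aeval z p = 0) ∧ aeval z g ≠ 0 := by
    by_contra hcon
    push Not at hcon
    apply hgP
    rw [← IsPrime.vanishingIdeal_zeroLocus (K := ℂ) P]
    intro z hz
    exact hcon z hz
  obtain ⟨z, hz, hgz⟩ := h2
  have hPm : P ≤ vanishingIdeal ℂ ({z} : Set (σ → ℂ)) := by
    intro p hp
    rw [mem_vanishingIdeal_singleton_iff]
    exact hz p hp
  have hm' : ((vanishingIdeal ℂ ({z} : Set (σ → ℂ))).map (Ideal.Quotient.mk P)).IsPrime :=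
    Ideal.isPrime_map_quotientMk_of_isPrime hPm
  obtain ⟨t, ht, htc⟩ := Ideal.exists_finset_card_eq_height_of_isNoetherianRing
    ((vanishingIdeal ℂ ({z} : Set (σ → ℂ))).map (Ideal.Quotient.mk P))
  let lift : (MvPolynomial σ ℂ ⧸ P) → MvPolynomial σ ℂ :=
    Function.surjInv Ideal.Quotient.mk_surjective
  have hlift : ∀ x, Ideal.Quotient.mk P (lift x) = x :=
    Function.surjInv_eq Ideal.Quotient.mk_surjective
  have key : vanishingIdeal ℂ ({z} : Set (σ → ℂ)) ∈
      (Ideal.span ((t.image lift ∪ s : Finset (MvPolynomial σ ℂ)) :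
        Set (MvPolynomial σ ℂ))).minimalPrimes := by
    refine ⟨⟨inferInstance, ?_⟩, ?_⟩
    · rw [Ideal.span_le]
      intro x hx
      rw [Finset.coe_union, Finset.coe_image] at hx
      rcases hx with ⟨y, hy, rfl⟩ | hx
      · have h3 : y ∈ (vanishingIdeal ℂ ({z} : Set (σ → ℂ))).map (Ideal.Quotient.mk P) :=
          ht.1.2 (Ideal.subset_span hy)
        rw [← hlift y] at h3
        rw [Ideal.mem_map_iff_of_surjective _ Ideal.Quotient.mk_surjective] at h3
        obtain ⟨x, hx, hxy⟩ := h3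
        have h4 : lift y - x ∈ P := by
          rw [← Ideal.Quotient.eq_zero_iff_mem, map_sub, hxy, sub_self]
        have h5 : lift y = (lift y - x) + x := by ring
        rw [h5]
        exact Ideal.add_mem _ (hPm h4) hx
      · exact hPm (hP.1.2 (Ideal.subset_span hx))
    · rintro q ⟨hq, hq2⟩ hqm
      have hsq : Ideal.span (s : Set (MvPolynomial σ ℂ)) ≤ q := by
        refine le_trans (Ideal.span_mono ?_) hq2
        intro x hx
        rw [Finset.coe_union]
        exact Or.inr hx
      obtain ⟨Q, hQ, hQq⟩ := Ideal.exists_minimalPrimes_le hsq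
      have hQP : Q = P := by
        by_contra hne
        have h6 : F.inf id ≤ Q := by
          have : Q ∈ F := Finset.mem_erase.2 ⟨hne, by simpa using hQ⟩
          exact Finset.inf_le this
        have h7 : g ∈ vanishingIdeal ℂ ({z} : Set (σ → ℂ)) := hqm (hQq (h6 hg))
        rw [mem_vanishingIdeal_singleton_iff] at h7
        exact hgz h7
      rw [hQP] at hQq
      have hq' : (q.map (Ideal.Quotient.mk P)).IsPrime :=
        Ideal.isPrime_map_quotientMk_of_isPrime hQq
      have h8 : Ideal.span (t : Set (MvPolynomial σ ℂ ⧸ P)) ≤ q.map (Ideal.Quotient.mk P) := by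
        rw [Ideal.span_le]
        intro y hy
        rw [← hlift y]
        apply Ideal.mem_map_of_mem
        apply hq2
        apply Ideal.subset_span
        rw [Finset.coe_union, Finset.coe_image]
        exact Or.inl ⟨y, hy, rfl⟩
      have h9 := ht.2 ⟨hq', h8⟩ (Ideal.map_mono hqm)
      intro x hx
      have h10 := h9 (Ideal.mem_map_of_mem (Ideal.Quotient.mk P) hx)
      rw [Ideal.mem_map_iff_of_surjective _ Ideal.Quotient.mk_surjective] at h10
      obtain ⟨y, hy, hxy⟩ := h10
      have h4 : x - y ∈ P := by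
        rw [← Ideal.Quotient.eq_zero_iff_mem, map_sub, hxy, sub_self]
      have h5 : x = (x - y) + y := by ring
      rw [h5]
      exact Ideal.add_mem _ (hQq h4) hy
  have h5 := Ideal.height_le_card_of_mem_minimalPrimes_span_finset key
  rw [height_point] at h5
  have h6 : ((t.image lift ∪ s).card : ℕ∞) ≤ t.card + s.card := by
    exact_mod_cast (Finset.card_union_le _ _).trans (Nat.add_le_add_right Finset.card_image_le _)
  have h7 : (Fintype.card σ : ℕ∞) ≤
      ((vanishingIdeal ℂ ({z} : Set (σ → ℂ))).map (Ideal.Quotient.mk P)).height + s.card := by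
    rw [← htc]
    exact h5.trans h6
  have h8 : ((((vanishingIdeal ℂ ({z} : Set (σ → ℂ))).map (Ideal.Quotient.mk P)).height : ℕ∞) :
      WithBot ℕ∞) ≤ ringKrullDim (MvPolynomial σ ℂ ⧸ P) := Ideal.height_le_ringKrullDim_of_isPrime
  calc (Fintype.card σ : WithBot ℕ∞) = ((Fintype.card σ : ℕ∞) : WithBot ℕ∞) := rfl
    _ ≤ ((((vanishingIdeal ℂ ({z} : Set (σ → ℂ))).map (Ideal.Quotient.mk P)).height + s.card : ℕ∞) :
        WithBot ℕ∞) := WithBot.coe_le_coe.2 h7
    _ = ((((vanishingIdeal ℂ ({z} : Set (σ → ℂ))).map (Ideal.Quotient.mk P)).height : ℕ∞) :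
      WithBot ℕ∞) + s.card := by rw [WithBot.coe_add]; rfl
    _ ≤ ringKrullDim (MvPolynomial σ ℂ ⧸ P) + s.card := by gcongr

/-- A graded affine ring in which finitely many linear forms have no common zero outside of the
origin has small dimension (abstract form). -/
theorem dim_le_aux {σ : Type} [Fintype σ] (P : Ideal (MvPolynomial σ ℂ))
    (hPh : ∀ f ∈ P, ∀ i, homogeneousComponent i f ∈ P) {N : ℕ}
    (f : Fin N → MvPolynomial σ ℂ) (hf : ∀ i, (f i).IsHomogeneous 1)
    (h0 : ∀ z : σ → ℂ, (∀ p ∈ P, eval z p = 0) → (∀ i, eval z (f i) = 0) → z = 0)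
    {A : Type} [CommRing A] [Algebra (MvPolynomial (Fin N) ℂ) A]
    (π : MvPolynomial σ ℂ →+* A) (hπ : Function.Surjective π) (hπP : ∀ p ∈ P, π p = 0)
    (hX : ∀ i, algebraMap (MvPolynomial (Fin N) ℂ) A (X i) = π (f i))
    (hC : ∀ c : ℂ, algebraMap (MvPolynomial (Fin N) ℂ) A (C c) = π (C c)) :
    ringKrullDim A ≤ N := by
  classical
  let K : Ideal (MvPolynomial σ ℂ) := P ⊔ Ideal.span (Set.range f)
  have hrad : idealOfVars σ ℂ ≤ K.radical := by
    rw [← vanishingIdeal_zeroLocus_eq_radical (K := ℂ), idealOfVars, Ideal.span_le]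
    rintro _ ⟨i, rfl⟩
    intro z hz
    have hz0 : z = 0 := by
      apply h0
      · intro p hp
        simpa [aeval_eq_eval] using hz p (Ideal.mem_sup_left hp)
      · intro i
        simpa [aeval_eq_eval] using
          hz (f i) (Ideal.mem_sup_right (Ideal.subset_span ⟨i, rfl⟩))
    simp [hz0]
  obtain ⟨M, hM⟩ := Ideal.exists_pow_le_of_le_radical_of_fg hrad (idealOfVars_fg σ ℂ)
  let T : Submodule (MvPolynomial (Fin N) ℂ) A :=
    Submodule.span _ ((fun e : σ →₀ ℕ => π (monomial e 1)) '' {e | e.degree < M})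
  have hT : ∀ d, ∀ g : MvPolynomial σ ℂ, g.IsHomogeneous d → π g ∈ T := by
    intro d
    induction d using Nat.strong_induction_on with
    | _ d ih =>
    intro g hg
    have hdeg : ∀ e ∈ g.support, e.degree = d := by
      intro e he
      have h1 := hg (mem_support_iff.1 he)
      rw [Finsupp.degree_eq_weight_one]
      exact h1
    by_cases hdM : d < M
    · rw [g.as_sum, map_sum]
      apply Submodule.sum_mem
      intro e he
      have h1 : monomial e (coeff e g) = C (coeff e g) * monomial e 1 := by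
        rw [C_mul_monomial, mul_one]
      rw [h1, map_mul, ← hC, ← Algebra.smul_def]
      apply Submodule.smul_mem
      apply Submodule.subset_span
      exact ⟨e, by simpa [hdeg e he] using hdM, rfl⟩
    · have hgK : g ∈ K := by
        apply hM
        rw [mem_pow_idealOfVars_iff]
        intro e he
        rw [hdeg e he]
        omega
      obtain ⟨p, hp, q, hq, hpq⟩ := Submodule.mem_sup.1 hgK
      obtain ⟨c, hc⟩ := Ideal.mem_span_range_iff_exists_fun.1 hq
      have h3 : g = homogeneousComponent d p + ∑ i, homogeneousComponent d (c i * f i) := by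
        rw [← map_sum, hc, ← map_add, hpq, homogeneousComponent_eq_self hg]
      rw [h3, map_add, hπP _ (hPh p hp d), zero_add, map_sum]
      apply Submodule.sum_mem
      intro i _
      by_cases hd : 1 ≤ d
      · have h4 : homogeneousComponent d (c i * f i) = homogeneousComponent (d - 1) (c i) * f i := by
          have := DirectSum.coe_decompose_mul_of_right_mem_of_le (𝒜 := homogeneousSubmodule σ ℂ)
            (a := c i) (b := f i) (n := d) (i := 1) (hf i) hd
          rw [← decomposition.decompose'_apply, ← decomposition.decompose'_apply]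
          exact this
        have h5 : π (homogeneousComponent (d - 1) (c i) * f i) =
            (X i : MvPolynomial (Fin N) ℂ) • π (homogeneousComponent (d - 1) (c i)) := by
          rw [Algebra.smul_def, hX, map_mul, mul_comm]
        rw [h4, h5]
        apply Submodule.smul_mem
        exact ih (d - 1) (by omega) _ (homogeneousComponent_isHomogeneous _ _)
      · have h4 : homogeneousComponent d (c i * f i) = 0 := by
          have := DirectSum.coe_decompose_mul_of_right_mem_of_not_le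
            (𝒜 := homogeneousSubmodule σ ℂ)
            (a := c i) (b := f i) (n := d) (i := 1) (hf i) hd
          rw [← decomposition.decompose'_apply]
          exact this
        rw [h4, map_zero]
        exact Submodule.zero_mem _
  have hTtop : T = ⊤ := by
    rw [eq_top_iff]
    intro x _
    obtain ⟨g, rfl⟩ := hπ x
    rw [← sum_homogeneousComponent g, map_sum]
    exact Submodule.sum_mem _ fun i _ => hT i _ (homogeneousComponent_isHomogeneous _ _)
  have hfin : Module.Finite (MvPolynomial (Fin N) ℂ) A := by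
    refine ⟨?_⟩
    rw [← hTtop]
    exact Submodule.fg_span ((Finsupp.finite_of_degree_lt M).image _)
  have hint : Algebra.IsIntegral (MvPolynomial (Fin N) ℂ) A := inferInstance
  have hd : ringKrullDim A ≤ ringKrullDim (MvPolynomial (Fin N) ℂ) := by
    refine Order.krullDim_le_of_strictMono
      (fun I => ⟨Ideal.comap (algebraMap (MvPolynomial (Fin N) ℂ) A) I.asIdeal, inferInstance⟩) ?_
    intro I J hIJ
    exact Ideal.IsIntegral.comap_lt_comap hIJ
  rw [MvPolynomial.ringKrullDim_of_isNoetherianRing] at hd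
  simpa using hd

/-- A graded affine ring in which finitely many linear forms have no common zero outside of the
origin has small dimension. -/
theorem dim_le_of_zero {σ : Type} [Fintype σ] (P : Ideal (MvPolynomial σ ℂ))
    (hPh : ∀ f ∈ P, ∀ i, homogeneousComponent i f ∈ P) {N : ℕ}
    (f : Fin N → MvPolynomial σ ℂ) (hf : ∀ i, (f i).IsHomogeneous 1)
    (h0 : ∀ z : σ → ℂ, (∀ p ∈ P, eval z p = 0) → (∀ i, eval z (f i) = 0) → z = 0) :
    ringKrullDim (MvPolynomial σ ℂ ⧸ P) ≤ N := by
  let φ : MvPolynomial (Fin N) ℂ →ₐ[ℂ] (MvPolynomial σ ℂ ⧸ P) :=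
    aeval (fun i => Ideal.Quotient.mk P (f i))
  let inst : Algebra (MvPolynomial (Fin N) ℂ) (MvPolynomial σ ℂ ⧸ P) := φ.toRingHom.toAlgebra
  refine @dim_le_aux σ _ P hPh N f hf h0 (MvPolynomial σ ℂ ⧸ P) _ inst (Ideal.Quotient.mk P)
    Ideal.Quotient.mk_surjective (fun p hp => Ideal.Quotient.eq_zero_iff_mem.2 hp) ?_ ?_
  · intro i
    exact aeval_X _ i
  · intro c
    exact φ.commutes c

/-- Two closed cones in `ℂ^N`, locally (at one point each) cut out by `k₁` resp. `k₂` homogeneous
equations, `k₁ + k₂ < N`, meet outside the origin. -/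
theorem inter_cones {N : ℕ} (S₁ S₂ : Set (MvPolynomial (Fin N) ℂ))
    (k₁ k₂ : ℕ) (hk : k₁ + k₂ + 1 ≤ N) (v₁ v₂ : Fin N → ℂ)
    (δ₁ δ₂ : MvPolynomial (Fin N) ℂ) (hδ₁ : eval v₁ δ₁ ≠ 0) (hδ₂ : eval v₂ δ₂ ≠ 0)
    (h₁ : Fin k₁ → MvPolynomial (Fin N) ℂ) (h₂ : Fin k₂ → MvPolynomial (Fin N) ℂ)
    (hh₁ : ∀ j, ∃ d, (h₁ j).IsHomogeneous d) (hh₂ : ∀ j, ∃ d, (h₂ j).IsHomogeneous d)
    (hz₁ : ∀ j, eval v₁ (h₁ j) = 0) (hz₂ : ∀ j, eval v₂ (h₂ j) = 0)
    (hl₁ : ∀ v, eval v δ₁ ≠ 0 → (∀ j, eval v (h₁ j) = 0) → ∀ p ∈ S₁, eval v p = 0)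
    (hl₂ : ∀ v, eval v δ₂ ≠ 0 → (∀ j, eval v (h₂ j) = 0) → ∀ p ∈ S₂, eval v p = 0) :
    ∃ v : Fin N → ℂ, v ≠ 0 ∧ (∀ p ∈ S₁, eval v p = 0) ∧ (∀ p ∈ S₂, eval v p = 0) := by
  classical
  by_contra hcon
  have hcon' : ∀ v : Fin N → ℂ, (∀ p ∈ S₁, eval v p = 0) → (∀ p ∈ S₂, eval v p = 0) → v = 0 := by
    intro v ha hb
    by_contra hv
    exact hcon ⟨v, hv, ha, hb⟩
  -- evaluation of renamed polynomials
  have ev₁ : ∀ (z : Fin N ⊕ Fin N → ℂ) (p : MvPolynomial (Fin N) ℂ),
      eval z (rename Sum.inl p) = eval (fun i => z (Sum.inl i)) p := by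
    intro z p
    rw [eval_rename]
    rfl
  have ev₂ : ∀ (z : Fin N ⊕ Fin N → ℂ) (p : MvPolynomial (Fin N) ℂ),
      eval z (rename Sum.inr p) = eval (fun i => z (Sum.inr i)) p := by
    intro z p
    rw [eval_rename]
    rfl
  let s : Finset (MvPolynomial (Fin N ⊕ Fin N) ℂ) :=
    (Finset.univ.image fun j => rename Sum.inl (h₁ j)) ∪
      (Finset.univ.image fun j => rename Sum.inr (h₂ j))
  have hscard : s.card ≤ k₁ + k₂ := by
    refine (Finset.card_union_le _ _).trans ?_
    refine Nat.add_le_add (Finset.card_image_le.trans ?_) (Finset.card_image_le.trans ?_) <;> simp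
  have hs₁ : ∀ j, rename Sum.inl (h₁ j) ∈ s := fun j =>
    Finset.mem_union_left _ (Finset.mem_image_of_mem _ (Finset.mem_univ j))
  have hs₂ : ∀ j, rename Sum.inr (h₂ j) ∈ s := fun j =>
    Finset.mem_union_right _ (Finset.mem_image_of_mem _ (Finset.mem_univ j))
  have hscases : ∀ x ∈ s, (∃ j, rename Sum.inl (h₁ j) = x) ∨ (∃ j, rename Sum.inr (h₂ j) = x) := by
    intro x hx
    rcases Finset.mem_union.1 hx with hx | hx
    · obtain ⟨j, _, hj⟩ := Finset.mem_image.1 hx
      exact Or.inl ⟨j, hj⟩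
    · obtain ⟨j, _, hj⟩ := Finset.mem_image.1 hx
      exact Or.inr ⟨j, hj⟩
  let a : Fin N ⊕ Fin N → ℂ := Sum.elim v₁ v₂
  have hle : Ideal.span (s : Set (MvPolynomial (Fin N ⊕ Fin N) ℂ)) ≤
      vanishingIdeal ℂ ({a} : Set (Fin N ⊕ Fin N → ℂ)) := by
    rw [Ideal.span_le]
    intro x hx
    rw [SetLike.mem_coe, mem_vanishingIdeal_singleton_iff, aeval_eq_eval]
    rcases hscases x hx with ⟨j, rfl⟩ | ⟨j, rfl⟩
    · exact (ev₁ a _).trans (hz₁ j)
    · exact (ev₂ a _).trans (hz₂ j)
  obtain ⟨P, hP, hPa⟩ := Ideal.exists_minimalPrimes_le hle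
  have hPp : P.IsPrime := hP.1.1
  have hsP : ∀ x ∈ s, x ∈ P := fun x hx => hP.1.2 (Ideal.subset_span hx)
  -- homogeneity
  have hhom : P.IsHomogeneous (homogeneousSubmodule (Fin N ⊕ Fin N) ℂ) := by
    have hcore := Ideal.IsPrime.homogeneousCore (𝒜 := homogeneousSubmodule (Fin N ⊕ Fin N) ℂ) hPp
    have hspan : Ideal.span (s : Set (MvPolynomial (Fin N ⊕ Fin N) ℂ)) ≤
        (P.homogeneousCore (homogeneousSubmodule (Fin N ⊕ Fin N) ℂ)).toIdeal := by
      rw [Ideal.span_le]
      intro x hx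
      apply Ideal.mem_homogeneousCore_of_homogeneous_of_mem _ (hsP x hx)
      rcases hscases x hx with ⟨j, rfl⟩ | ⟨j, rfl⟩
      · obtain ⟨d, hd⟩ := hh₁ j
        exact ⟨d, hd.rename_isHomogeneous⟩
      · obtain ⟨d, hd⟩ := hh₂ j
        exact ⟨d, hd.rename_isHomogeneous⟩
    have hle2 := hP.2 ⟨hcore, hspan⟩ (Ideal.toIdeal_homogeneousCore_le _ P)
    have heq : (P.homogeneousCore (homogeneousSubmodule (Fin N ⊕ Fin N) ℂ)).toIdeal = P :=
      le_antisymm (Ideal.toIdeal_homogeneousCore_le _ P) hle2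
    rw [← heq]
    exact (P.homogeneousCore (homogeneousSubmodule (Fin N ⊕ Fin N) ℂ)).isHomogeneous
  have hvan : ∀ q : MvPolynomial (Fin N ⊕ Fin N) ℂ,
      (∀ z : Fin N ⊕ Fin N → ℂ, (∀ p ∈ P, eval z p = 0) → eval z q = 0) → q ∈ P := by
    intro q hq
    rw [← IsPrime.vanishingIdeal_zeroLocus (K := ℂ) P]
    intro z hz
    rw [aeval_eq_eval]
    exact hq z (fun p hp => by simpa [aeval_eq_eval] using hz p hp)
  have hP₁ : ∀ p ∈ S₁, rename Sum.inl p ∈ P := by
    intro p hp
    have h3 : rename Sum.inl p * rename Sum.inl δ₁ ∈ P := by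
      apply hvan
      intro z hz
      rw [map_mul]
      by_cases hd : eval z (rename Sum.inl δ₁) = 0
      · rw [hd, mul_zero]
      · rw [ev₁] at hd
        rw [ev₁ z p, hl₁ _ hd (fun j => by rw [← ev₁]; exact hz _ (hsP _ (hs₁ j))) p hp, zero_mul]
    rcases hPp.mem_or_mem h3 with h4 | h4
    · exact h4
    · exfalso
      have h5 := hPa h4
      rw [mem_vanishingIdeal_singleton_iff, aeval_eq_eval] at h5
      exact hδ₁ ((ev₁ a _).symm.trans h5)
  have hP₂ : ∀ p ∈ S₂, rename Sum.inr p ∈ P := by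
    intro p hp
    have h3 : rename Sum.inr p * rename Sum.inr δ₂ ∈ P := by
      apply hvan
      intro z hz
      rw [map_mul]
      by_cases hd : eval z (rename Sum.inr δ₂) = 0
      · rw [hd, mul_zero]
      · rw [ev₂] at hd
        rw [ev₂ z p, hl₂ _ hd (fun j => by rw [← ev₂]; exact hz _ (hsP _ (hs₂ j))) p hp, zero_mul]
    rcases hPp.mem_or_mem h3 with h4 | h4
    · exact h4
    · exfalso
      have h5 := hPa h4
      rw [mem_vanishingIdeal_singleton_iff, aeval_eq_eval] at h5
      exact hδ₂ ((ev₂ a _).symm.trans h5)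
  have hdim := dim_le_of_zero P (fun f hf i => homogeneousComponent_mem_of_mem hhom hf i)
    (fun i : Fin N => (X (Sum.inl i) - X (Sum.inr i) : MvPolynomial (Fin N ⊕ Fin N) ℂ))
    (fun i => (isHomogeneous_X _ _).sub (isHomogeneous_X _ _)) (by
      intro z hz hzd
      have h3 : ∀ i, z (Sum.inl i) = z (Sum.inr i) := by
        intro i
        have := hzd i
        simpa [sub_eq_zero] using this
      have h4 : (fun i => z (Sum.inl i)) = 0 := by
        apply hcon'
        · intro p hp
          rw [← ev₁]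
          exact hz _ (hP₁ p hp)
        · intro p hp
          have h5 : (fun i => z (Sum.inl i)) = fun i => z (Sum.inr i) := funext h3
          rw [h5, ← ev₂]
          exact hz _ (hP₂ p hp)
      funext i
      rcases i with i | i
      · exact congrFun h4 i
      · rw [← h3 i]
        exact congrFun h4 i)
  have hcomp := height_comp s P hP
  have h6 : (Fintype.card (Fin N ⊕ Fin N) : WithBot ℕ∞) ≤ (N : WithBot ℕ∞) + s.card :=
    hcomp.trans (by gcongr)
  have h7 : Fintype.card (Fin N ⊕ Fin N) ≤ N + s.card := by exact_mod_cast h6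
  simp only [Fintype.card_sum, Fintype.card_fin] at h7
  omega

end H960VB
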