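import Pool.Agent.H960R2.VB.TaskA
import Pool.Agent.H960R2.VB.TaskB

open MvPolynomial

namespace H960VB

theorem HomZ.tdZero {σ : Type*} (d : ℤ) : HomZ (0 : MvPolynomial σ ℂ) d := Or.inl rfl

theorem HomZ.tdIsHom {σ : Type*} {p : MvPolynomial σ ℂ} {d : ℤ} (h : HomZ p d) :
    ∃ k : ℕ, p.IsHomogeneous k := by
  rcases h with h | ⟨k, -, hk⟩
  · exact ⟨0, h ▸ isHomogeneous_zero _ _ _⟩
  · exact ⟨k, hk⟩

theorem HomZ.tdAdd {σ : Type*} {p q : MvPolynomial σ ℂ} {d : ℤ} (hp : HomZ p d) (hq : HomZ q d) :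
    HomZ (p + q) d := by
  rcases hp with rfl | ⟨k, hk, hp⟩
  · simpa using hq
  · rcases hq with rfl | ⟨l, hl, hq⟩
    · rw [add_zero]; exact Or.inr ⟨k, hk, hp⟩
    · have : l = k := by omega
      subst this
      exact Or.inr ⟨l, hl, hp.add hq⟩

theorem HomZ.tdMul {σ : Type*} {p q : MvPolynomial σ ℂ} {d e : ℤ} (hp : HomZ p d) (hq : HomZ q e) :
    HomZ (p * q) (d + e) := by
  rcases hp with rfl | ⟨k, hk, hp⟩
  · simp [HomZ]
  · rcases hq with rfl | ⟨l, hl, hq⟩
    · simp [HomZ]
    · exact Or.inr ⟨k + l, by push_cast; omega, hp.mul hq⟩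

theorem HomZ.tdConst {σ : Type*} (c : ℂ) : HomZ (C c : MvPolynomial σ ℂ) 0 :=
  Or.inr ⟨0, rfl, isHomogeneous_C _ _⟩

theorem HomZ.tdNeg {σ : Type*} {p : MvPolynomial σ ℂ} {d : ℤ} (hp : HomZ p d) : HomZ (-p) d := by
  have := (HomZ.tdConst (σ := σ) (-1)).tdMul hp
  simpa using this

theorem HomZ.tdSum {σ ι : Type*} (s : Finset ι) {f : ι → MvPolynomial σ ℂ} {d : ℤ}
    (h : ∀ i ∈ s, HomZ (f i) d) : HomZ (∑ i ∈ s, f i) d := by
  classical
  induction s using Finset.induction_on with
  | empty => exact Or.inl rfl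
  | insert a s ha ih =>
    rw [Finset.sum_insert ha]
    exact (h a (Finset.mem_insert_self _ _)).tdAdd
      (ih fun i hi => h i (Finset.mem_insert_of_mem hi))

theorem HomZ.tdProd {σ ι : Type*} (s : Finset ι) {f : ι → MvPolynomial σ ℂ} {d : ι → ℤ}
    (h : ∀ i ∈ s, HomZ (f i) (d i)) : HomZ (∏ i ∈ s, f i) (∑ i ∈ s, d i) := by
  classical
  induction s using Finset.induction_on with
  | empty => simpa using HomZ.tdConst (σ := σ) 1
  | insert a s ha ih =>
    rw [Finset.prod_insert ha, Finset.sum_insert ha]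
    exact (h a (Finset.mem_insert_self _ _)).tdMul
      (ih fun i hi => h i (Finset.mem_insert_of_mem hi))

theorem HomZ.tdDet {σ m : Type*} [Fintype m] [DecidableEq m] (A : Matrix m m (MvPolynomial σ ℂ))
    (r c : m → ℤ) (h : ∀ i j, HomZ (A i j) (r i - c j)) :
    HomZ A.det (∑ i, r i - ∑ j, c j) := by
  rw [Matrix.det_apply]
  refine HomZ.tdSum _ fun s _ => ?_
  have h1 : HomZ (∏ i, A (s i) i) (∑ i, (r (s i) - c i)) :=
    HomZ.tdProd _ fun i _ => h (s i) i
  rw [Finset.sum_sub_distrib, Equiv.sum_comp s r] at h1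
  rcases Int.units_eq_one_or (Equiv.Perm.sign s) with h2 | h2
  · rw [h2, one_smul]; exact h1
  · rw [h2]
    have := h1.tdNeg
    simpa using this

/-- a matrix with trivial kernel and the rows of a part of it: choice of rows. -/
theorem td_local_rows {Y Z I : Type} [Fintype Y] [Fintype Z] [Fintype I] [DecidableEq I]
    (A : Matrix Y I ℂ) (Q : Matrix Z I ℂ) (w : ℕ)
    (hA : Module.finrank ℂ (LinearMap.ker (Matrix.mulVecLin A)) = w)
    (hinj : ∀ g, A.mulVec g = 0 → Q.mulVec g = 0 → g = 0) :
    ∃ (R : Finset Y) (W : Finset Z) (e : I ≃ R ⊕ W),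
      R.card + w = Fintype.card I ∧ W.card = w ∧
      (Matrix.of fun i => Sum.elim (fun r : R => A r) (fun z : W => Q z) (e i)).det ≠ 0 := by
  classical
  let v : Y ⊕ Z → (I → ℂ) := Sum.elim A Q
  -- the full span
  have hspan : Submodule.span ℂ (Set.range v) = ⊤ := by
    apply Submodule.eq_top_of_finrank_eq
    have h1 := Matrix.rank_eq_finrank_span_row (R := ℂ) (Matrix.of v)
    have h2 : (Matrix.of v).rank = Fintype.card I := by
      unfold Matrix.rank
      rw [LinearMap.finrank_range_of_inj, Module.finrank_fintype_fun_eq_card]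
      rw [← LinearMap.ker_eq_bot, LinearMap.ker_eq_bot']
      intro g hg
      have hg' : (Matrix.of v).mulVec g = 0 := hg
      apply hinj
      · funext y
        exact congrFun hg' (Sum.inl y)
      · funext z
        exact congrFun hg' (Sum.inr z)
    rw [Module.finrank_fintype_fun_eq_card]
    rw [h2] at h1
    exact h1.symm
  -- rank of A
  have hrank : Module.finrank ℂ (Submodule.span ℂ (Set.range A)) + w = Fintype.card I := by
    have h1 := Matrix.rank_eq_finrank_span_row (R := ℂ) A
    have h2 := LinearMap.finrank_range_add_finrank_ker (Matrix.mulVecLin A)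
    rw [hA, Module.finrank_fintype_fun_eq_card] at h2
    have h3 : A.rank = Module.finrank ℂ (LinearMap.range (Matrix.mulVecLin A)) := rfl
    rw [← h3, h1] at h2
    exact h2
  obtain ⟨b₀, hb₀t, -, hb₀s, hb₀l⟩ := exists_linearIndepOn_extension (K := ℂ) (v := v) (s := ∅)
    (t := Set.range Sum.inl) (linearIndepOn_empty ℂ v) (Set.empty_subset _)
  obtain ⟨b, -, hbb, hbs, hbl⟩ := exists_linearIndepOn_extension (K := ℂ) (v := v) (s := b₀)
    (t := Set.univ) hb₀l (Set.subset_univ _)
  have hvA : v '' Set.range Sum.inl = Set.range A := by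
    rw [← Set.range_comp]; rfl
  have hb₀span : Submodule.span ℂ (v '' b₀) = Submodule.span ℂ (Set.range A) := by
    apply le_antisymm
    · rw [← hvA]
      exact Submodule.span_mono (Set.image_mono hb₀t)
    · rw [Submodule.span_le, ← hvA]
      exact hb₀s
  have hbspan : Submodule.span ℂ (v '' b) = ⊤ := by
    rw [eq_top_iff, ← hspan, Submodule.span_le]
    rw [Set.image_univ] at hbs
    exact hbs
  have hcardb : Fintype.card b = Fintype.card I := by
    have h1 := (linearIndependent_iff_card_eq_finrank_span (R := ℂ) (b := fun x : b => v x)).mp hbl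
    rw [h1]
    have : Set.range (fun x : b => v x) = v '' b := by
      rw [Set.image_eq_range]
    rw [Set.finrank, this, hbspan, finrank_top, Module.finrank_fintype_fun_eq_card]
  have hcardb₀ : Fintype.card b₀ + w = Fintype.card I := by
    have h1 := (linearIndependent_iff_card_eq_finrank_span (R := ℂ) (b := fun x : b₀ => v x)).mp hb₀l
    rw [h1]
    have : Set.range (fun x : b₀ => v x) = v '' b₀ := by
      rw [Set.image_eq_range]
    rw [Set.finrank, this, hb₀span]
    exact hrank
  have hYb : ∀ y : Y, (Sum.inl y : Y ⊕ Z) ∈ b → (Sum.inl y : Y ⊕ Z) ∈ b₀ := by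
    intro y hy
    by_contra hy0
    have h1 : v (Sum.inl y) ∈ Submodule.span ℂ (v '' b₀) := hb₀s ⟨_, ⟨y, rfl⟩, rfl⟩
    rw [LinearIndepOn.mem_span_iff hb₀l] at h1
    exact hy0 (h1 (hbl.mono (Set.insert_subset hy hbb)))
  let R : Finset Y := Finset.univ.filter fun y => (Sum.inl y : Y ⊕ Z) ∈ b
  let W : Finset Z := Finset.univ.filter fun z => (Sum.inr z : Y ⊕ Z) ∈ b
  have hRcard : R.card = Fintype.card b₀ := by
    rw [← Fintype.card_coe]
    apply Fintype.card_congr
    refine Equiv.ofBijective (fun y : R => (⟨Sum.inl y.1, hYb _ (Finset.mem_filter.mp y.2).2⟩ : b₀)) ⟨?_, ?_⟩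
    · intro y y' h
      simp only [Subtype.mk.injEq, Sum.inl.injEq] at h
      exact Subtype.ext h
    · rintro ⟨x, hx⟩
      obtain ⟨y, rfl⟩ := hb₀t hx
      exact ⟨⟨y, by simpa [R] using hbb hx⟩, rfl⟩
  let φ : R ⊕ W → b := Sum.elim (fun y => ⟨Sum.inl y.1, (Finset.mem_filter.mp y.2).2⟩)
    (fun z => ⟨Sum.inr z.1, (Finset.mem_filter.mp z.2).2⟩)
  have hφ : Function.Bijective φ := by
    constructor
    · rintro (y | z) (y' | z') h
      · simp only [φ, Sum.elim_inl, Subtype.mk.injEq, Sum.inl.injEq] at h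
        rw [Subtype.ext h]
      · simp [φ] at h
      · simp [φ] at h
      · simp only [φ, Sum.elim_inr, Subtype.mk.injEq, Sum.inr.injEq] at h
        rw [Subtype.ext h]
    · rintro ⟨x, hx⟩
      rcases x with y | z
      · exact ⟨Sum.inl ⟨y, by simpa [R] using hx⟩, rfl⟩
      · exact ⟨Sum.inr ⟨z, by simpa [W] using hx⟩, rfl⟩
  have hRW : Fintype.card (R ⊕ W) = Fintype.card I := by
    rw [← hcardb]
    exact Fintype.card_congr (Equiv.ofBijective φ hφ)
  have e : I ≃ R ⊕ W := Fintype.equivOfCardEq hRW.symm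
  refine ⟨R, W, e, by rw [hRcard]; exact hcardb₀, ?_, ?_⟩
  · rw [Fintype.card_sum, Fintype.card_coe, Fintype.card_coe] at hRW
    rw [hRcard] at hRW
    omega
  · have hli : LinearIndependent ℂ (fun i : I => v (φ (e i))) := by
      have := LinearIndependent.comp hbl (fun i : I => φ (e i))
        (hφ.injective.comp e.injective)
      exact this
    have h2 : (Matrix.of fun i => Sum.elim (fun r : R => A r) (fun z : W => Q z) (e i)).row
        = fun i : I => v (φ (e i)) := by
      funext i
      change Sum.elim (fun r : R => A r) (fun z : W => Q z) (e i) = v (φ (e i))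
      rcases e i with y | z <;> rfl
    have h3 : LinearIndependent ℂ
        (Matrix.of fun i => Sum.elim (fun r : R => A r) (fun z : W => Q z) (e i)).row := by
      rw [h2]; exact hli
    rw [Matrix.linearIndependent_rows_iff_isUnit, Matrix.isUnit_iff_isUnit_det] at h3
    exact h3.ne_zero

/-- all maximal minors vanish: nontrivial kernel -/
theorem td_maxmin {R J : Type} [Fintype R] [Fintype J] [DecidableEq J] (A : Matrix R J ℂ)
    (h : ∀ f : J → R, (A.submatrix f id).det = 0) : ∃ g : J → ℂ, g ≠ 0 ∧ A.mulVec g = 0 := by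
  classical
  by_contra hcon
  push Not at hcon
  obtain ⟨R', W, e, -, -, hdet⟩ := td_local_rows (Y := Fin 0) (fun y _ => y.elim0 : Matrix (Fin 0) J ℂ) A
    (Fintype.card J) (by
      have : LinearMap.ker (Matrix.mulVecLin (fun y _ => y.elim0 : Matrix (Fin 0) J ℂ)) = ⊤ := by
        rw [eq_top_iff]
        intro g _
        rw [LinearMap.mem_ker]
        funext y
        exact y.elim0
      rw [this, finrank_top, Module.finrank_fintype_fun_eq_card])
    (fun g _ hg => by
      by_contra hg0
      exact hcon g hg0 hg)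
  apply hdet
  have : (Matrix.of fun i => Sum.elim (fun r : R' => (fun y _ => y.elim0 : Matrix (Fin 0) J ℂ) r)
      (fun z : W => A z) (e i)) =
      A.submatrix (fun i => Sum.elim (fun r : R' => r.1.elim0) (fun z : W => z.1) (e i)) id := by
    ext i j
    simp only [Matrix.of_apply, Matrix.submatrix_apply, id]
    rcases e i with r | z
    · exact r.1.elim0
    · rfl
  rw [this]
  exact h _

theorem td_minor_zero {R J : Type} [Fintype R] [Fintype J] [DecidableEq J] (A : Matrix R J ℂ)
    (g : J → ℂ) (hg : g ≠ 0) (hA : A.mulVec g = 0) (f : J → R) : (A.submatrix f id).det = 0 := by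
  rw [← Matrix.exists_mulVec_eq_zero_iff]
  refine ⟨g, hg, ?_⟩
  funext j
  exact congrFun hA (f j)

theorem td_eval_minor {N : ℕ} {R J : Type} [Fintype J] [DecidableEq J]
    (A : Matrix R J (MvPolynomial (Fin N) ℂ)) (f : J → R) (v : Fin N → ℂ) :
    eval v (A.submatrix f id).det = ((evm A v).submatrix f id).det := by
  rw [RingHom.map_det]
  rfl

/-- rows of an invertible square part cut out the kernel -/
theorem td_ker_rows {Y Z I : Type} [Fintype Y] [Fintype Z] [Fintype I] [DecidableEq I]
    (A : Matrix Y I ℂ) (Q : Matrix Z I ℂ) (w : ℕ)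
    (hA : Module.finrank ℂ (LinearMap.ker (Matrix.mulVecLin A)) = w)
    (R : Finset Y) (W : Finset Z) (e : I ≃ R ⊕ W) (hR : R.card + w = Fintype.card I)
    (hdet : (Matrix.of fun i => Sum.elim (fun r : R => A r) (fun z : W => Q z) (e i)).det ≠ 0)
    (g : I → ℂ) (hg : ∀ r ∈ R, (A.mulVec g) r = 0) : A.mulVec g = 0 := by
  classical
  let L : (I → ℂ) →ₗ[ℂ] (R → ℂ) := Matrix.mulVecLin (Matrix.of fun (r : R) (i : I) => A r i)
  have hsurj : Function.Surjective L := by
    intro u
    set T := (Matrix.of fun i => Sum.elim (fun r : R => A r) (fun z : W => Q z) (e i)) with hT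
    refine ⟨T⁻¹.mulVec (fun i => Sum.elim u 0 (e i)), ?_⟩
    have h1 : T.mulVec (T⁻¹.mulVec (fun i => Sum.elim u 0 (e i))) = fun i => Sum.elim u 0 (e i) := by
      rw [Matrix.mulVec_mulVec, Matrix.mul_nonsing_inv _ (isUnit_iff_ne_zero.mpr hdet),
        Matrix.one_mulVec]
    funext r
    have h2 := congrFun h1 (e.symm (Sum.inl r))
    simp only [Equiv.apply_symm_apply, Sum.elim_inl] at h2
    rw [← h2]
    simp only [L, Matrix.mulVecLin_apply, Matrix.mulVec, hT, Matrix.of_apply,
      Equiv.apply_symm_apply, Sum.elim_inl]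
  have hfin : Module.finrank ℂ (LinearMap.ker L) = w := by
    have h2 := LinearMap.finrank_range_add_finrank_ker L
    rw [LinearMap.range_eq_top.mpr hsurj, finrank_top, Module.finrank_fintype_fun_eq_card,
      Module.finrank_fintype_fun_eq_card, Fintype.card_coe] at h2
    omega
  have hle : LinearMap.ker (Matrix.mulVecLin A) ≤ LinearMap.ker L := by
    intro x hx
    rw [LinearMap.mem_ker] at hx ⊢
    funext r
    exact congrFun hx r.1
  have heq : LinearMap.ker (Matrix.mulVecLin A) = LinearMap.ker L :=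
    Submodule.eq_of_le_of_finrank_eq hle (by rw [hA, hfin])
  have : g ∈ LinearMap.ker L := by
    rw [LinearMap.mem_ker]
    funext r
    exact hg r.1 r.2
  rw [← heq] at this
  exact this

section main

variable {n w : ℕ} {Y I : Type}

/-- constant rows -/
def td_QQ (μ lam : Fin w → I → ℂ) : Matrix (Fin w ⊕ Fin w) I ℂ := Sum.elim μ lam

/-- the right hand side -/
def td_tau (w : ℕ) : Fin w ⊕ Fin w → ℂ :=
  Sum.elim (fun b => if (b : ℕ) + 1 = w then 1 else 0) (fun _ => 0)

/-- degrees of the rows -/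
def td_dZ (w : ℕ) : Fin w ⊕ Fin w → ℤ := Sum.elim (fun b => ((b : ℕ) : ℤ)) (fun b => ((b : ℕ) : ℤ))

/-- augmented matrix -/
noncomputable def td_Aug (M : Matrix Y I (MvPolynomial (Fin n) ℂ)) (μ lam : Fin w → I → ℂ) :
    Matrix (Y ⊕ (Fin w ⊕ Fin w)) (I ⊕ Unit) (MvPolynomial (Fin n) ℂ) :=
  Matrix.fromBlocks M 0 ((td_QQ μ lam).map C) (Matrix.of fun z _ => C (td_tau w z))

/-- stacked matrix -/
noncomputable def td_Stack (M : Matrix Y I (MvPolynomial (Fin n) ℂ)) (μ : Fin w → I → ℂ) :
    Matrix (Y ⊕ Fin w) I (MvPolynomial (Fin n) ℂ) :=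
  Matrix.fromRows M ((Matrix.of μ).map C)

theorem td_Aug_hom (dY : Y → ℤ) (dI : I → ℤ)
    (M : Matrix Y I (MvPolynomial (Fin n) ℂ)) (hM : ∀ y i, HomZ (M y i) (dY y - dI i))
    (μ lam : Fin w → I → ℂ) (hμ : ∀ b i, μ b i ≠ 0 → dI i = (b : ℕ))
    (hlam : ∀ b i, lam b i ≠ 0 → dI i = (b : ℕ)) (r : Y ⊕ (Fin w ⊕ Fin w)) (c : I ⊕ Unit) :
    HomZ (td_Aug M μ lam r c) (Sum.elim dY (td_dZ w) r - Sum.elim dI (fun _ => (w : ℤ) - 1) c) := by
  rcases r with y | b | b <;> rcases c with i | u
  · exact hM y i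
  · exact Or.inl rfl
  · change HomZ (C (μ b i)) (((b : ℕ) : ℤ) - dI i)
    by_cases h : μ b i = 0
    · rw [h]; exact Or.inl (map_zero _)
    · rw [hμ b i h, sub_self]; exact HomZ.tdConst _
  · change HomZ (C (if (b : ℕ) + 1 = w then 1 else 0)) (((b : ℕ) : ℤ) - ((w : ℤ) - 1))
    split_ifs with h
    · rw [show ((b : ℕ) : ℤ) - ((w : ℤ) - 1) = 0 by omega]; exact HomZ.tdConst _
    · exact Or.inl (map_zero _)
  · change HomZ (C (lam b i)) (((b : ℕ) : ℤ) - dI i)
    by_cases h : lam b i = 0
    · rw [h]; exact Or.inl (map_zero _)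
    · rw [hlam b i h, sub_self]; exact HomZ.tdConst _
  · exact Or.inl (map_zero C)

theorem td_Stack_hom (dY : Y → ℤ) (dI : I → ℤ)
    (M : Matrix Y I (MvPolynomial (Fin n) ℂ)) (hM : ∀ y i, HomZ (M y i) (dY y - dI i))
    (μ : Fin w → I → ℂ) (hμ : ∀ b i, μ b i ≠ 0 → dI i = (b : ℕ))
    (r : Y ⊕ Fin w) (i : I) :
    HomZ (td_Stack M μ r i) (Sum.elim dY (fun b : Fin w => ((b : ℕ) : ℤ)) r - dI i) := by
  rcases r with y | b
  · exact hM y i
  · change HomZ (C (μ b i)) (((b : ℕ) : ℤ) - dI i)
    by_cases h : μ b i = 0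
    · rw [h]; exact Or.inl (map_zero _)
    · rw [hμ b i h, sub_self]; exact HomZ.tdConst _

variable [Fintype I]

theorem td_evm_Aug_mulVec (M : Matrix Y I (MvPolynomial (Fin n) ℂ)) (μ lam : Fin w → I → ℂ)
    (v : Fin n → ℂ) (u : I ⊕ Unit → ℂ) :
    (evm (td_Aug M μ lam) v).mulVec u =
      Sum.elim ((evm M v).mulVec (u ∘ Sum.inl))
        (fun z => ∑ i, td_QQ μ lam z i * u (Sum.inl i) + td_tau w z * u (Sum.inr ())) := by
  funext r
  rcases r with y | z
  · simp [evm, td_Aug, Matrix.mulVec, dotProduct]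
  · simp [evm, td_Aug, Matrix.mulVec, dotProduct]

theorem td_evm_Stack_mulVec (M : Matrix Y I (MvPolynomial (Fin n) ℂ)) (μ : Fin w → I → ℂ)
    (v : Fin n → ℂ) (u : I → ℂ) :
    (evm (td_Stack M μ) v).mulVec u =
      Sum.elim ((evm M v).mulVec u) (fun b => ∑ i, μ b i * u i) := by
  funext r
  rcases r with y | z
  · simp [evm, td_Stack, Matrix.mulVec, dotProduct]
  · simp [evm, td_Stack, Matrix.mulVec, dotProduct]

end main

theorem core {n w : ℕ} (hw : 1 ≤ w) (hn : w + 2 ≤ n)
    {Y I : Type} [Fintype Y] [Fintype I] (dY : Y → ℤ) (dI : I → ℤ)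
    (M : Matrix Y I (MvPolynomial (Fin n) ℂ)) (hM : ∀ y i, HomZ (M y i) (dY y - dI i))
    (hker : ∀ v : Fin n → ℂ, v ≠ 0 →
      Module.finrank ℂ (LinearMap.ker (Matrix.mulVecLin (evm M v))) = w)
    (μ lam : Fin w → I → ℂ) (hμ : ∀ b i, μ b i ≠ 0 → dI i = (b : ℕ))
    (hlam : ∀ b i, lam b i ≠ 0 → dI i = (b : ℕ))
    (hJ : ∀ v : Fin n → ℂ, v ≠ 0 → ∀ g : I → ℂ, (evm M v).mulVec g = 0 →
      (∀ b, ∑ i, μ b i * g i = 0) → (∀ b, ∑ i, lam b i * g i = 0) → g = 0)
    (v₀ : Fin n → ℂ) (hv₀ : v₀ ≠ 0) (g₀ : I → ℂ) (hg₀ : (evm M v₀).mulVec g₀ = 0)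
    (hg₀μ : ∀ b : Fin w, ∑ i, μ b i * g₀ i = if (b : ℕ) + 1 = w then 1 else 0)
    (hg₀lam : ∀ b : Fin w, ∑ i, lam b i * g₀ i = 0)
    (hdisj : ∀ v : Fin n → ℂ, v ≠ 0 → ∀ g : I → ℂ, (evm M v).mulVec g = 0 →
      (∀ b : Fin w, ∑ i, μ b i * g i = if (b : ℕ) + 1 = w then 1 else 0) →
      (∀ b : Fin w, ∑ i, lam b i * g i = 0) →
      ∀ g' : I → ℂ, (evm M v).mulVec g' = 0 → (∀ b, ∑ i, μ b i * g' i = 0) → g' = 0) :
    ∃ G : I → MvPolynomial (Fin n) ℂ, (∀ i, HomZ (G i) (dI i - (w - 1 : ℤ))) ∧
      M.mulVec G = 0 ∧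
      ∀ b : Fin w, ∑ i, C (μ b i) * G i = if (b : ℕ) + 1 = w then 1 else 0 := by
  classical
  -- the main claim
  have hPhi : ∀ v : Fin n → ℂ, v ≠ 0 → ∀ g : I → ℂ, (evm M v).mulVec g = 0 →
      (∀ b, ∑ i, μ b i * g i = 0) → g = 0 := by
    by_contra hcon
    push Not at hcon
    obtain ⟨v₁, hv₁, g₁, hMg₁, hμg₁, hg₁⟩ := hcon
    have hQinj : ∀ v : Fin n → ℂ, v ≠ 0 → ∀ g, (evm M v).mulVec g = 0 →
        (td_QQ μ lam).mulVec g = 0 → g = 0 := by
      intro v hv g h1 h2
      exact hJ v hv g h1 (fun b => congrFun h2 (Sum.inl b)) (fun b => congrFun h2 (Sum.inr b))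
    -- data at v₀
    obtain ⟨R, W, e, hR, hW, hdet⟩ := td_local_rows (evm M v₀) (td_QQ μ lam) w (hker v₀ hv₀)
      (hQinj v₀ hv₀)
    obtain ⟨R', W', e', hR', hW', hdet'⟩ := td_local_rows (evm M v₁) (td_QQ μ lam) w (hker v₁ hv₁)
      (hQinj v₁ hv₁)
    obtain ⟨i₀, hi₀⟩ : ∃ i, v₀ i ≠ 0 := Function.ne_iff.mp hv₀
    obtain ⟨i₁, hi₁⟩ : ∃ i, v₁ i ≠ 0 := Function.ne_iff.mp hv₁
    -- polynomial square matrices
    let TT : ∀ (R : Finset Y) (W : Finset (Fin w ⊕ Fin w)) (e : I ≃ R ⊕ W),
        Matrix I I (MvPolynomial (Fin n) ℂ) := fun R W e =>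
      Matrix.of fun i => Sum.elim (fun r : R => M r) (fun z : W => fun j => C (td_QQ μ lam z j)) (e i)
    have hTT : ∀ (R : Finset Y) (W : Finset (Fin w ⊕ Fin w)) (e : I ≃ R ⊕ W) (v : Fin n → ℂ),
        eval v (TT R W e).det = (Matrix.of fun i => Sum.elim (fun r : R => evm M v r)
          (fun z : W => td_QQ μ lam z) (e i)).det := by
      intro R W e v
      rw [RingHom.map_det]
      congr 1
      ext i j
      simp only [TT, RingHom.mapMatrix_apply, Matrix.map_apply, Matrix.of_apply]
      rcases e i with r | z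
      · rfl
      · simp
    set δ₁ : MvPolynomial (Fin n) ℂ := (TT R W e).det * X i₀ with hδ₁
    set δ₂ : MvPolynomial (Fin n) ℂ := (TT R' W' e').det * X i₁ with hδ₂
    have hδ₁0 : eval v₀ δ₁ ≠ 0 := by
      rw [hδ₁, map_mul, eval_X, hTT]
      exact mul_ne_zero hdet hi₀
    have hδ₂0 : eval v₁ δ₂ ≠ 0 := by
      rw [hδ₂, map_mul, eval_X, hTT]
      exact mul_ne_zero hdet' hi₁
    -- the equations of the first cone
    have hcardW : Fintype.card {z // z ∉ W} = w := by
      rw [Fintype.card_subtype_compl, Fintype.card_coe, hW]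
      simp
    let eq₁ : Fin w ≃ {z // z ∉ W} := (Fintype.equivFinOfCardEq hcardW).symm
    let f₁ : Fin w → (I ⊕ Unit → Y ⊕ (Fin w ⊕ Fin w)) := fun j =>
      Sum.elim (fun i => Sum.map (fun r : R => r.1) (fun z : W => z.1) (e i))
        (fun _ => Sum.inr (eq₁ j).1)
    let h₁ : Fin w → MvPolynomial (Fin n) ℂ := fun j => ((td_Aug M μ lam).submatrix (f₁ j) id).det
    -- the equation of the second cone
    have hcardW' : Fintype.card W' = w := by rw [Fintype.card_coe, hW']
    let σ : W' ≃ Fin w := Fintype.equivFinOfCardEq hcardW'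
    let f₂ : I → Y ⊕ Fin w := fun i => Sum.map (fun r : R' => r.1) σ (e' i)
    let h₂ : Fin 1 → MvPolynomial (Fin n) ℂ := fun _ => ((td_Stack M μ).submatrix f₂ id).det
    have hAne : ∀ g : I → ℂ, (Sum.elim g (fun _ => (-1 : ℂ)) : I ⊕ Unit → ℂ) ≠ 0 := by
      intro g h
      have := congrFun h (Sum.inr ())
      simp at this
    have hAz : ∀ (v : Fin n → ℂ) (g : I → ℂ), (evm M v).mulVec g = 0 →
        (∀ z, ∑ i, td_QQ μ lam z i * g i = td_tau w z) →
        (evm (td_Aug M μ lam) v).mulVec (Sum.elim g (fun _ => (-1 : ℂ))) = 0 := by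
      intro v g h1 h2
      rw [td_evm_Aug_mulVec]
      funext r
      rcases r with y | z
      · exact congrFun h1 y
      · simp only [Sum.elim_inr, Sum.elim_inl, h2 z, Pi.zero_apply]
        ring
    obtain ⟨v, hv, hS1, hS2⟩ := inter_cones
      {p | ∃ f : I ⊕ Unit → Y ⊕ (Fin w ⊕ Fin w), p = ((td_Aug M μ lam).submatrix f id).det}
      {p | ∃ f : I → Y ⊕ Fin w, p = ((td_Stack M μ).submatrix f id).det}
      w 1 (by omega) v₀ v₁ δ₁ δ₂ hδ₁0 hδ₂0 h₁ h₂
      (by
        intro j
        exact (HomZ.tdDet ((td_Aug M μ lam).submatrix (f₁ j) id)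
          (fun c => Sum.elim dY (td_dZ w) (f₁ j c)) (Sum.elim dI (fun _ => (w : ℤ) - 1))
          (fun a c => td_Aug_hom dY dI M hM μ lam hμ hlam _ _)).tdIsHom)
      (by
        intro j
        exact (HomZ.tdDet ((td_Stack M μ).submatrix f₂ id)
          (fun c => Sum.elim dY (fun b : Fin w => ((b : ℕ) : ℤ)) (f₂ c)) dI
          (fun a c => td_Stack_hom dY dI M hM μ hμ _ _)).tdIsHom)
      (by
        intro j
        change eval v₀ ((td_Aug M μ lam).submatrix (f₁ j) id).det = 0
        rw [td_eval_minor]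
        refine td_minor_zero _ _ (hAne g₀) (hAz v₀ g₀ hg₀ ?_) _
        rintro (b | b)
        · exact hg₀μ b
        · exact hg₀lam b)
      (by
        intro j
        change eval v₁ ((td_Stack M μ).submatrix f₂ id).det = 0
        rw [td_eval_minor]
        refine td_minor_zero _ g₁ hg₁ ?_ _
        rw [td_evm_Stack_mulVec]
        funext r
        rcases r with y | b
        · exact congrFun hMg₁ y
        · exact hμg₁ b)
      (by
        rintro v hδ hh p ⟨f, rfl⟩
        rw [hδ₁, map_mul, eval_X, hTT] at hδ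
        have hdv := left_ne_zero_of_mul hδ
        have hvi := right_ne_zero_of_mul hδ
        have hv : v ≠ 0 := fun h => hvi (by rw [h]; rfl)
        set T := (Matrix.of fun i => Sum.elim (fun r : R => evm M v r)
          (fun z : W => td_QQ μ lam z) (e i)) with hT
        let t : I → ℂ := fun i => Sum.elim (fun _ => 0) (fun z : W => td_tau w z) (e i)
        let g : I → ℂ := T⁻¹.mulVec t
        have hTg : T.mulVec g = t := by
          rw [Matrix.mulVec_mulVec, Matrix.mul_nonsing_inv _ (isUnit_iff_ne_zero.mpr hdv),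
            Matrix.one_mulVec]
        have hTinj : ∀ x : I → ℂ, T.mulVec x = 0 → x = 0 := by
          intro x hx
          have : T⁻¹.mulVec (T.mulVec x) = x := by
            rw [Matrix.mulVec_mulVec, Matrix.nonsing_inv_mul _ (isUnit_iff_ne_zero.mpr hdv),
              Matrix.one_mulVec]
          rw [← this, hx, Matrix.mulVec_zero]
        have hMg : (evm M v).mulVec g = 0 := by
          refine td_ker_rows (evm M v) (td_QQ μ lam) w (hker v hv) R W e hR hdv g ?_
          intro r hr
          have := congrFun hTg (e.symm (Sum.inl ⟨r, hr⟩))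
          simp only [t, Equiv.apply_symm_apply, Sum.elim_inl] at this
          rw [← this]
          simp only [hT, Matrix.mulVec, Matrix.of_apply, Equiv.apply_symm_apply, Sum.elim_inl]
        have hQW : ∀ z ∈ W, ∑ i, td_QQ μ lam z i * g i = td_tau w z := by
          intro z hz
          have := congrFun hTg (e.symm (Sum.inr ⟨z, hz⟩))
          simp only [t, Equiv.apply_symm_apply, Sum.elim_inr] at this
          rw [← this]
          simp only [hT, Matrix.mulVec, Matrix.of_apply, Equiv.apply_symm_apply, Sum.elim_inr,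
            dotProduct]
        have hQ : ∀ z, ∑ i, td_QQ μ lam z i * g i = td_tau w z := by
          intro z
          by_cases hz : z ∈ W
          · exact hQW z hz
          have hj := hh (eq₁.symm ⟨z, hz⟩)
          change eval v ((td_Aug M μ lam).submatrix (f₁ (eq₁.symm ⟨z, hz⟩)) id).det = 0 at hj
          rw [td_eval_minor, ← Matrix.exists_mulVec_eq_zero_iff] at hj
          obtain ⟨u, hu0, hu⟩ := hj
          have hu' : ∀ c, (evm (td_Aug M μ lam) v).mulVec u (f₁ (eq₁.symm ⟨z, hz⟩) c) = 0 :=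
            fun c => congrFun hu c
          rw [td_evm_Aug_mulVec] at hu'
          have h3 : g₀ = g₀ := rfl
          -- the first block
          have h4 : T.mulVec (u ∘ Sum.inl + u (Sum.inr ()) • g) = 0 := by
            rw [Matrix.mulVec_add, Matrix.mulVec_smul, hTg]
            funext i
            have h5 := hu' (Sum.inl i)
            simp only [f₁, Sum.elim_inl] at h5
            simp only [Pi.add_apply, Pi.smul_apply, smul_eq_mul, t, Pi.zero_apply]
            have h6 : T.mulVec (u ∘ Sum.inl) i = ∑ j, T i j * u (Sum.inl j) := rfl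
            rw [h6]
            simp only [hT, Matrix.of_apply]
            rcases hei : e i with r | z'
            · rw [hei] at h5
              simp only [Sum.map_inl, Sum.elim_inl] at h5
              simp only [Sum.elim_inl, mul_zero, add_zero]
              exact h5
            · rw [hei] at h5
              simp only [Sum.map_inr, Sum.elim_inr] at h5
              simp only [Sum.elim_inr]
              rw [mul_comm (u (Sum.inr ()))]
              exact h5
          have h7 := hTinj _ h4
          have h8 : ∀ i, u (Sum.inl i) = - (u (Sum.inr ()) * g i) := by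
            intro i
            have := congrFun h7 i
            simp only [Pi.add_apply, Pi.smul_apply, smul_eq_mul, Pi.zero_apply,
              Function.comp_apply] at this
            linear_combination this
          have ht : u (Sum.inr ()) ≠ 0 := by
            intro h9
            apply hu0
            funext c
            rcases c with i | x
            · rw [h8 i, h9]; simp
            · exact h9
          have h10 := hu' (Sum.inr ())
          simp only [f₁, Sum.elim_inr, Equiv.apply_symm_apply] at h10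
          have h11 : u (Sum.inr ()) * (td_tau w z - ∑ i, td_QQ μ lam z i * g i) = 0 := by
            rw [← h10, mul_sub, Finset.mul_sum]
            have : ∑ i, td_QQ μ lam z i * u (Sum.inl i) =
                - ∑ i, u (Sum.inr ()) * (td_QQ μ lam z i * g i) := by
              rw [← Finset.sum_neg_distrib]
              refine Finset.sum_congr rfl fun i _ => ?_
              rw [h8 i]; ring
            rw [this]; ring
          have h12 := (mul_eq_zero.mp h11).resolve_left ht
          linear_combination -h12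
        rw [td_eval_minor]
        exact td_minor_zero _ _ (hAne g) (hAz v g hMg hQ) _)
      (by
        rintro v hδ hh p ⟨f, rfl⟩
        rw [hδ₂, map_mul, eval_X, hTT] at hδ
        have hdv := left_ne_zero_of_mul hδ
        have hvi := right_ne_zero_of_mul hδ
        have hv : v ≠ 0 := fun h => hvi (by rw [h]; rfl)
        have h0 := hh 0
        change eval v ((td_Stack M μ).submatrix f₂ id).det = 0 at h0
        rw [td_eval_minor, ← Matrix.exists_mulVec_eq_zero_iff] at h0
        obtain ⟨g, hg0, hg⟩ := h0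
        have hg' : ∀ i, (evm (td_Stack M μ) v).mulVec g (f₂ i) = 0 := fun i => congrFun hg i
        rw [td_evm_Stack_mulVec] at hg'
        have hMg : (evm M v).mulVec g = 0 := by
          refine td_ker_rows (evm M v) (td_QQ μ lam) w (hker v hv) R' W' e' hR' hdv g ?_
          intro r hr
          have := hg' (e'.symm (Sum.inl ⟨r, hr⟩))
          simp only [f₂, Equiv.apply_symm_apply, Sum.map_inl, Sum.elim_inl] at this
          exact this
        have hμg : ∀ b, ∑ i, μ b i * g i = 0 := by
          intro b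
          have := hg' (e'.symm (Sum.inr (σ.symm b)))
          simp only [f₂, Equiv.apply_symm_apply, Sum.map_inr, Sum.elim_inr] at this
          exact this
        rw [td_eval_minor]
        refine td_minor_zero _ g hg0 ?_ _
        rw [td_evm_Stack_mulVec]
        funext r
        rcases r with y | b
        · exact congrFun hMg y
        · exact hμg b)
    -- contradiction
    obtain ⟨u, hu0, hu⟩ := td_maxmin (evm (td_Aug M μ lam) v) (fun f => by
      rw [← td_eval_minor]; exact hS1 _ ⟨f, rfl⟩)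
    obtain ⟨g', hg'0, hg'⟩ := td_maxmin (evm (td_Stack M μ) v) (fun f => by
      rw [← td_eval_minor]; exact hS2 _ ⟨f, rfl⟩)
    rw [td_evm_Aug_mulVec] at hu
    rw [td_evm_Stack_mulVec] at hg'
    have ht : u (Sum.inr ()) ≠ 0 := by
      intro h9
      apply hu0
      have h10 : u ∘ Sum.inl = 0 := by
        apply hQinj v hv
        · funext y
          exact congrFun hu (Sum.inl y)
        · funext z
          have := congrFun hu (Sum.inr z)
          simp only [Sum.elim_inr, h9, mul_zero, add_zero] at this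
          exact this
      funext c
      rcases c with i | x
      · exact congrFun h10 i
      · exact h9
    apply hg'0
    refine hdisj v hv (fun i => - (u (Sum.inr ()))⁻¹ * u (Sum.inl i)) ?_ ?_ ?_ g' ?_ ?_
    · have : (fun i => - (u (Sum.inr ()))⁻¹ * u (Sum.inl i)) =
          (- (u (Sum.inr ()))⁻¹) • (u ∘ Sum.inl) := rfl
      rw [this, Matrix.mulVec_smul]
      have h2 : (evm M v).mulVec (u ∘ Sum.inl) = 0 := by
        funext y
        exact congrFun hu (Sum.inl y)
      rw [h2, smul_zero]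
    · intro b
      have := congrFun hu (Sum.inr (Sum.inl b))
      simp only [Sum.elim_inr, Pi.zero_apply] at this
      have h2 : ∑ i, μ b i * u (Sum.inl i) +
          (if (b : ℕ) + 1 = w then 1 else 0) * u (Sum.inr ()) = 0 := this
      have h3 : ∑ i, μ b i * (- (u (Sum.inr ()))⁻¹ * u (Sum.inl i)) =
          - (u (Sum.inr ()))⁻¹ * ∑ i, μ b i * u (Sum.inl i) := by
        rw [Finset.mul_sum]
        refine Finset.sum_congr rfl fun i _ => ?_
        ring
      rw [h3, eq_neg_of_add_eq_zero_left h2]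
      field_simp
    · intro b
      have := congrFun hu (Sum.inr (Sum.inr b))
      simp only [Sum.elim_inr, Pi.zero_apply] at this
      have h2 : ∑ i, lam b i * u (Sum.inl i) + 0 * u (Sum.inr ()) = 0 := this
      have h3 : ∑ i, lam b i * (- (u (Sum.inr ()))⁻¹ * u (Sum.inl i)) =
          - (u (Sum.inr ()))⁻¹ * ∑ i, lam b i * u (Sum.inl i) := by
        rw [Finset.mul_sum]
        refine Finset.sum_congr rfl fun i _ => ?_
        ring
      rw [zero_mul, add_zero] at h2
      rw [h3, h2, mul_zero]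
    · funext y
      exact congrFun hg' (Sum.inl y)
    · intro b
      exact congrFun hg' (Sum.inr b)
  -- the final step
  have hinj : ∀ v : Fin n → ℂ, v ≠ 0 → ∀ g : I → ℂ, (evm (td_Stack M μ) v).mulVec g = 0 → g = 0 := by
    intro v hv g hg
    rw [td_evm_Stack_mulVec] at hg
    exact hPhi v hv g (funext fun y => congrFun hg (Sum.inl y)) (fun b => congrFun hg (Sum.inr b))
  let r : Y ⊕ Fin w → MvPolynomial (Fin n) ℂ :=
    Sum.elim 0 (fun b => if (b : ℕ) + 1 = w then 1 else 0)
  have hsol : ∀ v : Fin n → ℂ, v ≠ 0 → ∃ g : I → ℂ, (evm (td_Stack M μ) v).mulVec g = evv r v := by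
    intro v hv
    let Φ : LinearMap.ker (Matrix.mulVecLin (evm M v)) →ₗ[ℂ] (Fin w → ℂ) :=
      (Matrix.mulVecLin (Matrix.of μ)).comp (Submodule.subtype _)
    have hΦi : Function.Injective Φ := by
      rw [← LinearMap.ker_eq_bot, LinearMap.ker_eq_bot']
      rintro ⟨g, hg⟩ hg2
      have : g = 0 := hPhi v hv g hg (fun b => congrFun hg2 b)
      exact Subtype.ext this
    have hΦs : Function.Surjective Φ := by
      rw [← LinearMap.injective_iff_surjective_of_finrank_eq_finrank]
      · exact hΦi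
      · rw [hker v hv]; simp
    obtain ⟨⟨g, hg⟩, hg2⟩ := hΦs (fun b => if (b : ℕ) + 1 = w then 1 else 0)
    refine ⟨g, ?_⟩
    rw [td_evm_Stack_mulVec]
    funext c
    rcases c with y | b
    · have : (evm M v).mulVec g = 0 := hg
      simp [evv, r, this]
    · have := congrFun hg2 b
      simp only [evv, r, Sum.elim_inr]
      rw [apply_ite (eval v), map_one, map_zero]
      exact this
  obtain ⟨G, hG⟩ := hartogs (by omega) (td_Stack M μ) r hinj hsol
  have hGh := hartogs_hom (by omega) (td_Stack M μ) r (Sum.elim dY (fun b : Fin w => ((b : ℕ) : ℤ))) dI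
    ((w : ℤ) - 1) (td_Stack_hom dY dI M hM μ hμ) (by
      intro c
      rcases c with y | b
      · exact Or.inl rfl
      · change HomZ (if (b : ℕ) + 1 = w then 1 else 0) (((b : ℕ) : ℤ) - ((w : ℤ) - 1))
        split_ifs with h
        · rw [show ((b : ℕ) : ℤ) - ((w : ℤ) - 1) = 0 by omega]
          simpa using HomZ.tdConst (σ := Fin n) 1
        · exact Or.inl rfl) hinj G hG
  refine ⟨G, hGh, ?_, ?_⟩
  · funext y
    have := congrFun hG (Sum.inl y)
    exact this
  · intro b
    have := congrFun hG (Sum.inr b)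
    exact this

end H960VB
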