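import Pool.Agent.H960R2.VB.TaskB

open MvPolynomial

namespace H960VB

/-- a polynomial vanishing outside the origin is zero. -/
theorem H1_zero {n : ℕ} {p : MvPolynomial (Fin (n + 1)) ℂ}
    (h : ∀ x : Fin (n + 1) → ℂ, x ≠ 0 → eval x p = 0) : p = 0 := by
  have h1 : X 0 * p = 0 := by
    apply MvPolynomial.funext
    intro x
    rw [map_mul, map_zero, eval_X]
    by_cases hx : x = 0
    · subst hx; simp
    · rw [h x hx, mul_zero]
  exact (mul_eq_zero.1 h1).resolve_left (X_ne_zero 0)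

theorem H1_eval_mulVec {σ κ ι : Type*} [Fintype ι] (B : Matrix κ ι (MvPolynomial σ ℂ))
    (u : ι → MvPolynomial σ ℂ) (x : σ → ℂ) :
    evv (B.mulVec u) x = (evm B x).mulVec (evv u x) := by
  ext k
  simp [evv, evm, Matrix.mulVec, dotProduct, map_sum]

theorem H1_evm_mul {σ κ ι τ : Type*} [Fintype ι] (B : Matrix κ ι (MvPolynomial σ ℂ))
    (D : Matrix ι τ (MvPolynomial σ ℂ)) (x : σ → ℂ) :
    evm (B * D) x = evm B x * evm D x := by
  ext k l
  simp [evm, Matrix.mul_apply, map_sum]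

theorem H1_evm_C {σ κ ι : Type*} (B : Matrix κ ι ℂ) (x : σ → ℂ) :
    evm (B.map (C : ℂ → MvPolynomial σ ℂ)) x = B := by
  ext k l
  simp [evm]

theorem H1_rank {n a c : ℕ} (B : Matrix (Fin c) (Fin a) (MvPolynomial (Fin (n + 1)) ℂ))
    (h2 : ∀ x : Fin (n + 1) → ℂ, x ≠ 0 →
      Module.finrank ℂ (LinearMap.ker (Matrix.mulVecLin (evm B x))) = 2)
    (x : Fin (n + 1) → ℂ) (hx : x ≠ 0) :
    Module.finrank ℂ (LinearMap.range (Matrix.mulVecLin (evm B x))) = a - 2 := by
  have h := LinearMap.finrank_range_add_finrank_ker (Matrix.mulVecLin (evm B x))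
  rw [h2 x hx] at h
  simp only [Module.finrank_fintype_fun_eq_card, Fintype.card_fin] at h
  omega

theorem H1_cramer {n a c : ℕ} (B : Matrix (Fin c) (Fin a) (MvPolynomial (Fin (n + 1)) ℂ))
    (h2 : ∀ x : Fin (n + 1) → ℂ, x ≠ 0 →
      Module.finrank ℂ (LinearMap.ker (Matrix.mulVecLin (evm B x))) = 2)
    (r : Fin c → MvPolynomial (Fin (n + 1)) ℂ)
    (him : ∀ x : Fin (n + 1) → ℂ, x ≠ 0 → ∃ u : Fin a → ℂ, (evm B x).mulVec u = evv r x)
    (x₀ : Fin (n + 1) → ℂ) (hx₀ : x₀ ≠ 0) :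
    ∃ (f : MvPolynomial (Fin (n + 1)) ℂ) (u : Fin a → MvPolynomial (Fin (n + 1)) ℂ),
      eval x₀ f ≠ 0 ∧ B.mulVec u = fun k => f * r k := by
  classical
  set A₀ := Matrix.mulVecLin (evm B x₀) with hA₀
  set ρ := a - 2 with hρ
  have hr0 : Module.finrank ℂ (LinearMap.range A₀) = ρ := H1_rank B h2 x₀ hx₀
  let b : Module.Basis (Fin ρ) ℂ (LinearMap.range A₀) :=
    Module.finBasisOfFinrankEq ℂ (LinearMap.range A₀) hr0
  let e := b.equivFun
  obtain ⟨S, hS⟩ := LinearMap.exists_rightInverse_of_surjective A₀.rangeRestrict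
    (LinearMap.range_rangeRestrict A₀)
  let Rl : (Fin ρ → ℂ) →ₗ[ℂ] (Fin a → ℂ) := S ∘ₗ e.symm.toLinearMap
  let J : (Fin ρ → ℂ) →ₗ[ℂ] (Fin c → ℂ) := (LinearMap.range A₀).subtype ∘ₗ e.symm.toLinearMap
  have hJ : LinearMap.ker J = ⊥ := by
    rw [LinearMap.ker_eq_bot]
    exact (Submodule.injective_subtype _).comp e.symm.injective
  obtain ⟨L, hL⟩ := LinearMap.exists_leftInverse_of_injective J hJ
  have hAR : A₀ ∘ₗ Rl = J := by
    apply LinearMap.ext
    intro v
    have h1 : A₀.rangeRestrict (S (e.symm v)) = e.symm v := LinearMap.congr_fun hS (e.symm v)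
    have h3 := congrArg Subtype.val h1
    exact h3
  let Rm := LinearMap.toMatrix' Rl
  let Lm := LinearMap.toMatrix' L
  have hone : Lm * evm B x₀ * Rm = 1 := by
    have h1 : LinearMap.toMatrix' (L ∘ₗ (A₀ ∘ₗ Rl)) = Lm * (evm B x₀ * Rm) := by
      rw [LinearMap.toMatrix'_comp, LinearMap.toMatrix'_comp]
      congr 2
      rw [hA₀, ← Matrix.toLin'_apply', LinearMap.toMatrix'_toLin']
    rw [Matrix.mul_assoc, ← h1, hAR, hL, LinearMap.toMatrix'_id]
  let Rp : Matrix (Fin a) (Fin ρ) (MvPolynomial (Fin (n + 1)) ℂ) := Rm.map C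
  let Lp : Matrix (Fin ρ) (Fin c) (MvPolynomial (Fin (n + 1)) ℂ) := Lm.map C
  let D := Lp * B * Rp
  have hD : ∀ x, evm D x = Lm * evm B x * Rm := by
    intro x
    rw [H1_evm_mul, H1_evm_mul, H1_evm_C, H1_evm_C]
  have hdet : ∀ x, eval x D.det = (evm D x).det := by
    intro x
    have := RingHom.map_det (eval x) D
    rw [this]
    rfl
  let u : Fin a → MvPolynomial (Fin (n + 1)) ℂ := Rp.mulVec (D.adjugate.mulVec (Lp.mulVec r))
  have hLBu : Lp.mulVec (B.mulVec u) = D.det • Lp.mulVec r := by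
    simp only [u, Matrix.mulVec_mulVec]
    have : Lp * (B * (Rp * D.adjugate * Lp)) = D * D.adjugate * Lp := by
      simp only [D, Matrix.mul_assoc]
    rw [this, Matrix.mul_adjugate, Matrix.smul_mul, Matrix.one_mul, Matrix.smul_mulVec]
  have hf0 : eval x₀ D.det ≠ 0 := by
    rw [hdet, hD, hone, Matrix.det_one]
    exact one_ne_zero
  have hf : D.det ≠ 0 := fun h => hf0 (by rw [h, map_zero])
  refine ⟨D.det, u, hf0, ?_⟩
  funext k
  have hkey : D.det * (B.mulVec u k - D.det * r k) = 0 := by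
    apply H1_zero
    intro y hy
    by_cases hfy : eval y D.det = 0
    · rw [map_mul, hfy, zero_mul]
    · -- the point `y` is good
      set E : Fin c → ℂ := (evm B y).mulVec (evv u y) - eval y D.det • evv r y with hE
      have hEmem : E ∈ LinearMap.range (Matrix.mulVecLin (evm B y)) := by
        obtain ⟨w, hw⟩ := him y hy
        refine ⟨evv u y - eval y D.det • w, ?_⟩
        rw [Matrix.mulVecLin_apply, Matrix.mulVec_sub, Matrix.mulVec_smul, hw]
      have hLE : Lm.mulVec E = 0 := by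
        have h3 : evv (Lp.mulVec (B.mulVec u)) y = evv (D.det • Lp.mulVec r) y :=
          congrArg (fun v => evv v y) hLBu
        rw [H1_eval_mulVec, H1_eval_mulVec] at h3
        have h4 : evv (D.det • Lp.mulVec r) y = eval y D.det • Lm.mulVec (evv r y) := by
          have : evv (D.det • Lp.mulVec r) y = eval y D.det • evv (Lp.mulVec r) y := by
            ext i; simp [evv]
          rw [this, H1_eval_mulVec, H1_evm_C]
        rw [h4, H1_evm_C] at h3
        rw [hE, Matrix.mulVec_sub, h3, Matrix.mulVec_smul, sub_self]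
      -- injectivity
      let T : LinearMap.range (Matrix.mulVecLin (evm B y)) →ₗ[ℂ] (Fin ρ → ℂ) :=
        (Matrix.mulVecLin Lm) ∘ₗ (LinearMap.range (Matrix.mulVecLin (evm B y))).subtype
      have hTs : Function.Surjective T := by
        intro v
        have hu : IsUnit (evm D y).det := by
          rw [← hdet]; exact isUnit_iff_ne_zero.2 hfy
        refine ⟨⟨(evm B y).mulVec (Rm.mulVec ((evm D y)⁻¹.mulVec v)), ⟨_, rfl⟩⟩, ?_⟩
        change Lm.mulVec ((evm B y).mulVec (Rm.mulVec ((evm D y)⁻¹.mulVec v))) = v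
        rw [Matrix.mulVec_mulVec, Matrix.mulVec_mulVec, Matrix.mulVec_mulVec]
        have : Lm * (evm B y * (Rm * (evm D y)⁻¹)) = (evm D y) * (evm D y)⁻¹ := by
          rw [hD]
          simp only [Matrix.mul_assoc]
        simp only [← Matrix.mul_assoc] at this ⊢
        rw [this, Matrix.mul_nonsing_inv _ hu, Matrix.one_mulVec]
      have hTi : Function.Injective T := by
        refine (LinearMap.injective_iff_surjective_of_finrank_eq_finrank ?_).2 hTs
        rw [H1_rank B h2 y hy]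
        simp [hρ]
      have hE0 : E = 0 := by
        have h5 : T ⟨E, hEmem⟩ = T 0 := by
          rw [map_zero]
          exact hLE
        have := hTi h5
        exact congrArg Subtype.val this
      have h6 := congrFun hE0 k
      rw [map_mul, map_sub, map_mul]
      have h7 : eval y (B.mulVec u k) = (evm B y).mulVec (evv u y) k :=
        congrFun (H1_eval_mulVec B u y) k
      rw [h7]
      have h8 : (evm B y).mulVec (evv u y) k - eval y D.det * eval y (r k) = 0 := by
        simpa [hE, evv] using h6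
      rw [h8, mul_zero]
  have h9 := (mul_eq_zero.1 hkey).resolve_left hf
  exact sub_eq_zero.1 h9

/-- powers of the variables are good multipliers. -/
theorem H1_pow {n a c : ℕ} (B : Matrix (Fin c) (Fin a) (MvPolynomial (Fin (n + 1)) ℂ))
    (h2 : ∀ x : Fin (n + 1) → ℂ, x ≠ 0 →
      Module.finrank ℂ (LinearMap.ker (Matrix.mulVecLin (evm B x))) = 2)
    (r : Fin c → MvPolynomial (Fin (n + 1)) ℂ)
    (him : ∀ x : Fin (n + 1) → ℂ, x ≠ 0 → ∃ u : Fin a → ℂ, (evm B x).mulVec u = evv r x) :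
    ∃ N : ℕ, ∀ i : Fin (n + 1), ∃ u : Fin a → MvPolynomial (Fin (n + 1)) ℂ,
      B.mulVec u = fun k => X i ^ N * r k := by
  classical
  let A : Ideal (MvPolynomial (Fin (n + 1)) ℂ) :=
    { carrier := {f | ∃ u : Fin a → MvPolynomial (Fin (n + 1)) ℂ, B.mulVec u = fun k => f * r k}
      add_mem' := by
        rintro f g ⟨u, hu⟩ ⟨w, hw⟩
        refine ⟨u + w, ?_⟩
        rw [Matrix.mulVec_add, hu, hw]
        funext k
        simp [add_mul]
      zero_mem' := ⟨0, by rw [Matrix.mulVec_zero]; funext k; simp⟩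
      smul_mem' := by
        rintro g f ⟨u, hu⟩
        refine ⟨g • u, ?_⟩
        rw [Matrix.mulVec_smul, hu]
        funext k
        simp [mul_assoc] }
  have hmem : ∀ f, f ∈ A ↔ ∃ u : Fin a → MvPolynomial (Fin (n + 1)) ℂ,
      B.mulVec u = fun k => f * r k := fun f => Iff.rfl
  have hzero : ∀ x : Fin (n + 1) → ℂ, x ∈ zeroLocus ℂ A → x = 0 := by
    intro x hx
    by_contra hx0
    obtain ⟨f, u, hf, hu⟩ := H1_cramer B h2 r him x hx0
    apply hf
    have := (mem_zeroLocus_iff.1 hx) f ((hmem f).2 ⟨u, hu⟩)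
    simpa [MvPolynomial.aeval_eq_eval] using this
  have hrad : ∀ i : Fin (n + 1), ∃ N : ℕ, X i ^ N ∈ A := by
    intro i
    have h1 : (X i : MvPolynomial (Fin (n + 1)) ℂ) ∈ A.radical := by
      rw [← vanishingIdeal_zeroLocus_eq_radical (K := ℂ) A, mem_vanishingIdeal_iff]
      intro x hx
      rw [hzero x hx]
      simp
    exact h1
  choose Nf hNf using hrad
  refine ⟨∑ i, Nf i, fun i => (hmem _).1 ?_⟩
  exact A.pow_mem_of_pow_mem (hNf i) (Finset.single_le_sum (f := Nf) (fun _ _ => Nat.zero_le _)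
    (Finset.mem_univ i))

/-- monomial ideals. -/
theorem H1_mono {σ : Type*} [DecidableEq σ] (i j k : σ) (hik : i ≠ k) (hjk : j ≠ k) (N : ℕ)
    (α β γ : MvPolynomial σ ℂ) (h : X k ^ N * α = X j ^ N * β - X i ^ N * γ) :
    ∃ b₀ b₁ : MvPolynomial σ ℂ, α = X j ^ N * b₀ - X i ^ N * b₁ := by
  have hXX : ∀ l : σ, (X l : MvPolynomial σ ℂ) ^ N = monomial (Finsupp.single l N) 1 := by
    intro l
    rw [X_pow_eq_monomial]
  have hmem : α ∈ Ideal.span ((fun s => monomial s (1 : ℂ)) ''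
      ({Finsupp.single j N, Finsupp.single i N} : Set (σ →₀ ℕ))) := by
    rw [mem_ideal_span_monomial_image]
    intro m hm
    rw [mem_support_iff] at hm
    by_contra hcon
    push Not at hcon
    have h1 := hcon _ (Or.inl rfl)
    have h2 := hcon _ (Or.inr rfl)
    apply hm
    have h3 := congrArg (coeff (m + Finsupp.single k N)) h
    rw [hXX, hXX, hXX] at h3
    rw [coeff_sub, coeff_monomial_mul', coeff_monomial_mul', coeff_monomial_mul',
      if_pos (le_add_self), if_neg, if_neg] at h3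
    · simpa using h3
    · intro hle
      apply h2
      rw [Finsupp.single_le_iff] at hle ⊢
      simpa [Finsupp.single_apply, hik.symm] using hle
    · intro hle
      apply h1
      rw [Finsupp.single_le_iff] at hle ⊢
      simpa [Finsupp.single_apply, hjk.symm] using hle
  rw [Set.image_pair, Ideal.mem_span_pair] at hmem
  obtain ⟨p, q, hpq⟩ := hmem
  refine ⟨p, -q, ?_⟩
  rw [hXX, hXX, ← hpq]
  ring

/-- homogeneous component of integer degree. -/
noncomputable def H1_hcZ {σ : Type*} (d : ℤ) (p : MvPolynomial σ ℂ) : MvPolynomial σ ℂ :=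
  if 0 ≤ d then homogeneousComponent d.toNat p else 0

theorem H1_hcZ_homZ {σ : Type*} (d : ℤ) (p : MvPolynomial σ ℂ) : HomZ (H1_hcZ d p) d := by
  unfold H1_hcZ
  split_ifs with h
  · right
    exact ⟨d.toNat, by omega, homogeneousComponent_isHomogeneous _ _⟩
  · left; rfl

theorem H1_hcZ_self {σ : Type*} {d : ℤ} {p : MvPolynomial σ ℂ} (hp : HomZ p d) :
    H1_hcZ d p = p := by
  classical
  unfold H1_hcZ
  rcases hp with rfl | ⟨k, hk, hp⟩
  · split_ifs <;> simp
  · subst hk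
    rw [if_pos (by omega)]
    rw [homogeneousComponent_of_mem ((mem_homogeneousSubmodule _ _).2 hp)]
    simp

theorem H1_hcZ_sum {σ ι : Type*} (d : ℤ) (s : Finset ι) (p : ι → MvPolynomial σ ℂ) :
    H1_hcZ d (∑ i ∈ s, p i) = ∑ i ∈ s, H1_hcZ d (p i) := by
  unfold H1_hcZ
  split_ifs
  · rw [map_sum]
  · simp

theorem H1_hc_mul {σ : Type*} {q p : MvPolynomial σ ℂ} {k m : ℕ} (hq : q.IsHomogeneous k) :
    homogeneousComponent m (q * p) =
      if k ≤ m then q * homogeneousComponent (m - k) p else 0 := by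
  classical
  have h1 : ∀ i, homogeneousComponent m (q * homogeneousComponent i p) =
      if m = k + i then q * homogeneousComponent i p else 0 := fun i =>
    homogeneousComponent_of_mem ((mem_homogeneousSubmodule _ _).2
      (hq.mul (homogeneousComponent_isHomogeneous i p)))
  conv_lhs => rw [← sum_homogeneousComponent p]
  rw [Finset.mul_sum, map_sum, Finset.sum_congr rfl fun i _ => h1 i]
  by_cases hk : k ≤ m
  · rw [if_pos hk]
    have h2 : ∀ i, (if m = k + i then q * homogeneousComponent i p else 0) =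
        if m - k = i then q * homogeneousComponent i p else 0 := by
      intro i
      by_cases h : m = k + i
      · rw [if_pos h, if_pos (by omega)]
      · rw [if_neg h, if_neg (by omega)]
    rw [Finset.sum_congr rfl fun i _ => h2 i, Finset.sum_ite_eq]
    split_ifs with h3
    · rfl
    · rw [homogeneousComponent_eq_zero, mul_zero]
      rw [Finset.mem_range] at h3
      omega
  · rw [if_neg hk]
    apply Finset.sum_eq_zero
    intro i _
    rw [if_neg (by omega)]

theorem H1_hcZ_mul {σ : Type*} {q p : MvPolynomial σ ℂ} {d e : ℤ} (hq : HomZ q e) :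
    H1_hcZ d (q * p) = q * H1_hcZ (d - e) p := by
  rcases hq with rfl | ⟨k, hk, hq⟩
  · unfold H1_hcZ
    split_ifs <;> simp
  · subst hk
    unfold H1_hcZ
    by_cases hd : 0 ≤ d
    · rw [if_pos hd, H1_hc_mul hq]
      by_cases hkd : k ≤ d.toNat
      · have he : (d - (k : ℤ)).toNat = d.toNat - k := by omega
        have hp : 0 ≤ d - (k : ℤ) := by omega
        rw [if_pos hkd, if_pos hp, he]
      · rw [if_neg hkd, if_neg (by omega), mul_zero]
    · rw [if_neg hd, if_neg (by omega), mul_zero]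

/-- `H^1_* = 0` for a split bundle on `P^n`, `n ≥ 2`. -/
theorem h1_split {n : ℕ} (hn : 2 ≤ n) {a c : ℕ} (β : Fin a → ℤ) (γ : Fin c → ℤ)
    (B : Matrix (Fin c) (Fin a) (MvPolynomial (Fin (n + 1)) ℂ))
    (hom : ∀ k i, HomZ (B k i) (γ k - β i))
    (h2 : ∀ x : Fin (n + 1) → ℂ, x ≠ 0 →
      Module.finrank ℂ (LinearMap.ker (Matrix.mulVecLin (evm B x))) = 2)
    (g₁ g₂ : Fin a → MvPolynomial (Fin (n + 1)) ℂ)
    (hg₁ : ∀ x : Fin (n + 1) → ℂ, x ≠ 0 → (evm B x).mulVec (evv g₁ x) = 0)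
    (hg₂ : ∀ x : Fin (n + 1) → ℂ, x ≠ 0 → (evm B x).mulVec (evv g₂ x) = 0)
    (hind : ∀ x : Fin (n + 1) → ℂ, x ≠ 0 → LinearIndependent ℂ ![evv g₁ x, evv g₂ x])
    (j : ℤ) (r : Fin c → MvPolynomial (Fin (n + 1)) ℂ) (hr : ∀ k, HomZ (r k) (γ k + j))
    (him : ∀ x : Fin (n + 1) → ℂ, x ≠ 0 → ∃ u : Fin a → ℂ, (evm B x).mulVec u = evv r x) :
    ∃ u : Fin a → MvPolynomial (Fin (n + 1)) ℂ, (∀ i, HomZ (u i) (β i + j)) ∧
      B.mulVec u = r := by
  classical
  obtain ⟨N, hN⟩ := H1_pow B h2 r him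
  -- the two kernel vectors
  have hBg₁ : B.mulVec g₁ = 0 := by
    funext k
    apply H1_zero
    intro x hx
    have := congrFun (H1_eval_mulVec B g₁ x) k
    rw [hg₁ x hx] at this
    exact this
  have hBg₂ : B.mulVec g₂ = 0 := by
    funext k
    apply H1_zero
    intro x hx
    have := congrFun (H1_eval_mulVec B g₂ x) k
    rw [hg₂ x hx] at this
    exact this
  have hpair : ∀ x : Fin (n + 1) → ℂ, x ≠ 0 → ∀ s t : ℂ,
      s • evv g₁ x + t • evv g₂ x = 0 → s = 0 ∧ t = 0 := fun x hx =>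
    LinearIndependent.pair_iff.1 (hind x hx)
  have hspan : ∀ x : Fin (n + 1) → ℂ, x ≠ 0 → ∀ w : Fin a → ℂ, (evm B x).mulVec w = 0 →
      ∃ s t : ℂ, s • evv g₁ x + t • evv g₂ x = w := by
    intro x hx w hw
    have h3 : Submodule.span ℂ (Set.range ![evv g₁ x, evv g₂ x]) =
        LinearMap.ker (Matrix.mulVecLin (evm B x)) := by
      apply Submodule.eq_of_le_of_finrank_eq
      · rw [Submodule.span_le]
        rintro _ ⟨l, rfl⟩
        fin_cases l
        · exact hg₁ x hx
        · exact hg₂ x hx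
      · rw [finrank_span_eq_card (hind x hx), h2 x hx]
        simp
    have h4 : w ∈ Submodule.span ℂ (Set.range ![evv g₁ x, evv g₂ x]) := by
      rw [h3]; exact hw
    rw [Matrix.range_cons, Matrix.range_cons, Matrix.range_empty, Set.union_empty,
      Set.singleton_union, Submodule.mem_span_pair] at h4
    exact h4
  have hindp : ∀ α α' : MvPolynomial (Fin (n + 1)) ℂ, (∀ i, α * g₁ i + α' * g₂ i = 0) →
      α = 0 ∧ α' = 0 := by
    intro α α' h
    have h5 : ∀ x : Fin (n + 1) → ℂ, x ≠ 0 → eval x α = 0 ∧ eval x α' = 0 := by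
      intro x hx
      apply hpair x hx
      funext i
      have := congrArg (eval x) (h i)
      simpa [evv] using this
    exact ⟨H1_zero fun x hx => (h5 x hx).1, H1_zero fun x hx => (h5 x hx).2⟩
  have hker : ∀ w : Fin a → MvPolynomial (Fin (n + 1)) ℂ, B.mulVec w = 0 →
      ∃ α α' : MvPolynomial (Fin (n + 1)) ℂ, ∀ i, w i = α * g₁ i + α' * g₂ i := by
    intro w hw
    let S : Matrix (Fin a) (Fin 2) (MvPolynomial (Fin (n + 1)) ℂ) := fun i l => ![g₁ i, g₂ i] l
    have hS : ∀ (v : Fin (n + 1) → ℂ) (g : Fin 2 → ℂ),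
        (evm S v).mulVec g = g 0 • evv g₁ v + g 1 • evv g₂ v := by
      intro v g
      funext i
      have h0 : evm S v i 0 = eval v (g₁ i) := rfl
      have h1 : evm S v i 1 = eval v (g₂ i) := rfl
      simp [Matrix.mulVec, dotProduct, Fin.sum_univ_two, h0, h1, evv, mul_comm]
    obtain ⟨g, hg⟩ := hartogs (n := n + 1) (by omega) S w
      (by
        intro v hv g hgv
        rw [hS] at hgv
        obtain ⟨h6, h7⟩ := hpair v hv _ _ hgv
        funext l
        fin_cases l
        · exact h6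
        · exact h7)
      (by
        intro v hv
        obtain ⟨s, t, hst⟩ := hspan v hv (evv w v) (by
          rw [← H1_eval_mulVec, hw]; funext k; simp [evv])
        refine ⟨![s, t], ?_⟩
        rw [hS]
        simpa using hst)
    refine ⟨g 0, g 1, fun i => ?_⟩
    rw [← hg]
    simp [S, Matrix.mulVec, dotProduct, Fin.sum_univ_two, mul_comm]
  -- the three solutions
  let i₀ : Fin (n + 1) := 0
  let i₁ : Fin (n + 1) := ⟨1, by omega⟩
  let i₂ : Fin (n + 1) := ⟨2, by omega⟩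
  have h01 : i₀ ≠ i₁ := by simp [i₀, i₁, Fin.ext_iff]
  have h02 : i₀ ≠ i₂ := by simp [i₀, i₂, Fin.ext_iff]
  have h12 : i₁ ≠ i₂ := by simp [i₁, i₂, Fin.ext_iff]
  obtain ⟨u₀, hu₀⟩ := hN i₀
  obtain ⟨u₁, hu₁⟩ := hN i₁
  obtain ⟨u₂, hu₂⟩ := hN i₂
  have hdiff : ∀ (p q : Fin (n + 1)) (u w : Fin a → MvPolynomial (Fin (n + 1)) ℂ),
      (B.mulVec u = fun k => X p ^ N * r k) → (B.mulVec w = fun k => X q ^ N * r k) →
      ∃ α α' : MvPolynomial (Fin (n + 1)) ℂ, ∀ i,
        X q ^ N * u i - X p ^ N * w i = α * g₁ i + α' * g₂ i := by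
    intro p q u w hu hw
    have h8 : B.mulVec ((X q ^ N : MvPolynomial (Fin (n + 1)) ℂ) • u -
        (X p ^ N : MvPolynomial (Fin (n + 1)) ℂ) • w) = 0 := by
      rw [Matrix.mulVec_sub, Matrix.mulVec_smul, Matrix.mulVec_smul, hu, hw]
      funext k
      simp only [Pi.sub_apply, Pi.smul_apply, smul_eq_mul, Pi.zero_apply]
      ring
    obtain ⟨α, α', h9⟩ := hker _ h8
    exact ⟨α, α', fun i => by simpa using h9 i⟩
  obtain ⟨a01, a01', ha01⟩ := hdiff i₀ i₁ u₀ u₁ hu₀ hu₁
  obtain ⟨a02, a02', ha02⟩ := hdiff i₀ i₂ u₀ u₂ hu₀ hu₂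
  obtain ⟨a12, a12', ha12⟩ := hdiff i₁ i₂ u₁ u₂ hu₁ hu₂
  obtain ⟨hz, hz'⟩ := hindp (X i₂ ^ N * a01 - X i₁ ^ N * a02 + X i₀ ^ N * a12)
    (X i₂ ^ N * a01' - X i₁ ^ N * a02' + X i₀ ^ N * a12') (by
      intro i
      linear_combination (-(X i₂ ^ N : MvPolynomial (Fin (n + 1)) ℂ)) * ha01 i +
        X i₁ ^ N * ha02 i - X i₀ ^ N * ha12 i)
  obtain ⟨b₀, b₁, hb⟩ := H1_mono i₀ i₁ i₂ h02 h12 N a01 a02 a12 (by linear_combination hz)
  obtain ⟨b₀', b₁', hb'⟩ := H1_mono i₀ i₁ i₂ h02 h12 N a01' a02' a12' (by linear_combination hz')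
  -- division
  have hdiv : ∀ i, ∃ t : MvPolynomial (Fin (n + 1)) ℂ,
      u₀ i - b₀ * g₁ i - b₀' * g₂ i = X i₀ ^ N * t := by
    intro i
    have h10 : X i₁ ^ N * (u₀ i - b₀ * g₁ i - b₀' * g₂ i) =
        X i₀ ^ N * (u₁ i - b₁ * g₁ i - b₁' * g₂ i) := by
      have := ha01 i
      rw [hb, hb'] at this
      linear_combination this
    have h11 : (X i₀ ^ N : MvPolynomial (Fin (n + 1)) ℂ) ∣
        X i₁ ^ N * (u₀ i - b₀ * g₁ i - b₀' * g₂ i) := ⟨_, h10⟩
    have hp : Prime (X i₀ : MvPolynomial (Fin (n + 1)) ℂ) := X_prime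
    have h12' : ¬ (X i₀ : MvPolynomial (Fin (n + 1)) ℂ) ∣ X i₁ ^ N := by
      intro h
      have h13 := hp.dvd_of_dvd_pow h
      rw [X_dvd_X] at h13
      exact h01 h13
    exact hp.pow_dvd_of_dvd_mul_left N h12' h11
  choose t ht using hdiv
  have hBt : B.mulVec t = r := by
    have h14 : B.mulVec ((X i₀ ^ N : MvPolynomial (Fin (n + 1)) ℂ) • t) = fun k =>
        X i₀ ^ N * r k := by
      have h15 : ((X i₀ ^ N : MvPolynomial (Fin (n + 1)) ℂ) • t) =
          u₀ - b₀ • g₁ - b₀' • g₂ := by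
        funext i
        simp only [Pi.smul_apply, smul_eq_mul, Pi.sub_apply]
        exact (ht i).symm
      rw [h15, Matrix.mulVec_sub, Matrix.mulVec_sub, Matrix.mulVec_smul, Matrix.mulVec_smul,
        hBg₁, hBg₂, hu₀]
      funext k
      simp
    rw [Matrix.mulVec_smul] at h14
    funext k
    have h16 := congrFun h14 k
    simp only [Pi.smul_apply, smul_eq_mul] at h16
    exact mul_left_cancel₀ (pow_ne_zero N (X_ne_zero i₀)) h16
  -- homogeneous components
  refine ⟨fun i => H1_hcZ (β i + j) (t i), fun i => H1_hcZ_homZ _ _, ?_⟩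
  funext k
  have h17 := congrFun hBt k
  have h18 : H1_hcZ (γ k + j) (B.mulVec t k) = r k := by
    rw [h17, H1_hcZ_self (hr k)]
  rw [← h18]
  simp only [Matrix.mulVec, dotProduct]
  rw [H1_hcZ_sum]
  apply Finset.sum_congr rfl
  intro i _
  rw [H1_hcZ_mul (hom k i)]
  congr 2
  ring

end H960VB
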